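import Pool.Agent.Lib.MP_8850da_pr.Defs

section

/-!
# Random local maps and the disagreement probabilities `V`
-/

set_option autoImplicit false

open MeasureTheory

namespace Pool.Agent.Lib.MP_8850da_pr

/-- The configuration seen from site `i`. -/
def sh (x : Config) (i : ℤ) : Config := fun j => x (i + j)

/-- A random local map: site `i` of the new configuration is `loc (sh x i) (u i)`, where `u i` is
the noise at site `i`. -/
structure LMap (E : Type) [MeasurableSpace E] where
  /-- the range -/
  R : ℕ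
  /-- the local rule -/
  loc : Config → E → Bool
  meas : ∀ x, Measurable (loc x)
  loc_congr : ∀ x y : Config, (∀ i : ℤ, |i| ≤ R → x i = y i) → loc x = loc y

variable {E : Type} [MeasurableSpace E]

/-- One step of the dynamics. -/
def LMap.step (G : LMap E) (x : Config) (u : ℤ → E) : Config := fun i => G.loc (sh x i) (u i)

/-- The noise field: independent with law `ρ`. -/
noncomputable def nz (ρ : Measure E) : Measure (ℤ → E) := Measure.infinitePi (fun _ : ℤ => ρ)

/-- The probability that after `t` steps with the same noise the two configurations differ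
at `c`. -/
noncomputable def LMap.V (G : LMap E) (ρ : Measure E) : ℕ → Config → Config → ℤ → ℝ
  | 0, x, y, c => if x c = y c then 0 else 1
  | t + 1, x, y, c => ∫ u, LMap.V G ρ t (G.step x u) (G.step y u) c ∂(nz ρ)

/-- `V_t ≤ β` everywhere. -/
def BV (G : LMap E) (ρ : Measure E) (t : ℕ) (β : ℝ) : Prop :=
  ∀ (x y : Config) (c : ℤ), G.V ρ t x y c ≤ β

/-- The transfer operator. -/
noncomputable def LMap.U (G : LMap E) (ρ : Measure E) (f : Config → ℝ) (x : Config) : ℝ :=
  ∫ u, f (G.step x u) ∂(nz ρ)

end Pool.Agent.Lib.MP_8850da_pr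
end

section

/-!
# Basic properties of `V`
-/

set_option autoImplicit false

open MeasureTheory

namespace Pool.Agent.Lib.MP_8850da_pr

/-- Functions of finitely many coordinates are measurable. -/
theorem measurable_of_dep {S : Type} [MeasurableSpace S] [MeasurableSingletonClass S] [Finite S]
    [Inhabited S] {β : Type*} [MeasurableSpace β] (B : Finset ℤ) (g : (ℤ → S) → β)
    (h : ∀ u v : ℤ → S, (∀ i ∈ B, u i = v i) → g u = g v) : Measurable g := by
  classical
  let r : (ℤ → S) → (B → S) := fun u i => u i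
  have hr : Measurable r := measurable_pi_lambda _ (fun i => measurable_pi_apply _)
  let e : (B → S) → (ℤ → S) := fun v i => if hi : i ∈ B then v ⟨i, hi⟩ else default
  have hg : g = (g ∘ e) ∘ r := by
    funext u
    apply h
    intro i hi
    change u i = if hi : i ∈ B then u i else default
    rw [dif_pos hi]
  rw [hg]
  exact (measurable_of_countable _).comp hr

theorem measurable_of_dep₂ {β : Type*} [MeasurableSpace β] (B : Finset ℤ)
    (g : Config × Config → β)
    (h : ∀ q q' : Config × Config, (∀ i ∈ B, q.1 i = q'.1 i ∧ q.2 i = q'.2 i) → g q = g q') :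
    Measurable g := by
  classical
  let r : Config × Config → (B → Bool) × (B → Bool) := fun q => (fun i => q.1 i, fun i => q.2 i)
  have hr : Measurable r := by
    apply Measurable.prodMk
    · exact measurable_pi_lambda _ (fun i => (measurable_pi_apply (i : ℤ)).comp measurable_fst)
    · exact measurable_pi_lambda _ (fun i => (measurable_pi_apply (i : ℤ)).comp measurable_snd)
  let e : (B → Bool) → Config := fun v i => if hi : i ∈ B then v ⟨i, hi⟩ else true
  have hg : g = (fun q : (B → Bool) × (B → Bool) => g (e q.1, e q.2)) ∘ r := by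
    funext u
    apply h
    intro i hi
    change u.1 i = (if hi : i ∈ B then u.1 i else true) ∧
      u.2 i = (if hi : i ∈ B then u.2 i else true)
    rw [dif_pos hi, dif_pos hi]
    exact ⟨rfl, rfl⟩
  rw [hg]
  exact (measurable_of_countable _).comp hr

variable {E : Type} [MeasurableSpace E]

theorem measurable_step (G : LMap E) (x : Config) : Measurable (G.step x) :=
  measurable_pi_lambda _ (fun i => (G.meas _).comp (measurable_pi_apply i))

instance nz_prob (ρ : Measure E) [IsProbabilityMeasure ρ] : IsProbabilityMeasure (nz ρ) := by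
  rw [nz]
  infer_instance

theorem V_congr (G : LMap E) (ρ : Measure E) (t : ℕ) (c : ℤ) :
    ∀ x x' y y' : Config, (∀ i : ℤ, |i - c| ≤ (G.R : ℤ) * t → x i = x' i ∧ y i = y' i) →
      G.V ρ t x y c = G.V ρ t x' y' c := by
  induction t with
  | zero =>
    intro x x' y y' h
    have h1 := h c (by simp)
    rw [LMap.V, LMap.V, h1.1, h1.2]
  | succ t ih =>
    intro x x' y y' h
    rw [LMap.V, LMap.V]
    congr 1
    funext u
    apply ih
    intro i hi
    have key : ∀ j : ℤ, |j| ≤ G.R → |i + j - c| ≤ (G.R : ℤ) * ((t + 1 : ℕ) : ℤ) := by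
      intro j hj
      have h1 : |i + j - c| ≤ |i - c| + |j| := by
        have := abs_add_le (i - c) j
        rwa [show i - c + j = i + j - c by ring] at this
      push_cast
      nlinarith
    constructor
    · change G.loc (sh x i) (u i) = G.loc (sh x' i) (u i)
      rw [G.loc_congr (sh x i) (sh x' i) (fun j hj => (h _ (key j hj)).1)]
    · change G.loc (sh y i) (u i) = G.loc (sh y' i) (u i)
      rw [G.loc_congr (sh y i) (sh y' i) (fun j hj => (h _ (key j hj)).2)]

theorem V_meas (G : LMap E) (ρ : Measure E) (t : ℕ) (c : ℤ) :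
    Measurable (fun q : Config × Config => G.V ρ t q.1 q.2 c) := by
  apply measurable_of_dep₂ (Finset.Icc (c - (G.R : ℤ) * t) (c + (G.R : ℤ) * t))
  intro q q' h
  apply V_congr
  intro i hi
  apply h
  rw [abs_le] at hi
  rw [Finset.mem_Icc]
  constructor <;> linarith [hi.1, hi.2]

theorem V_step_meas (G : LMap E) (ρ : Measure E) (t : ℕ) (x y : Config) (c : ℤ) :
    Measurable (fun u => G.V ρ t (G.step x u) (G.step y u) c) :=
  (V_meas G ρ t c).comp ((measurable_step G x).prodMk (measurable_step G y))

theorem V_nonneg (G : LMap E) (ρ : Measure E) (t : ℕ) (x y : Config) (c : ℤ) :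
    0 ≤ G.V ρ t x y c := by
  induction t generalizing x y with
  | zero =>
    rw [LMap.V]
    split_ifs
    · exact le_rfl
    · exact zero_le_one
  | succ t ih =>
    rw [LMap.V]
    exact integral_nonneg (fun u => ih _ _)

theorem V_self (G : LMap E) (ρ : Measure E) (t : ℕ) (x : Config) (c : ℤ) :
    G.V ρ t x x c = 0 := by
  induction t generalizing x with
  | zero => rw [LMap.V, if_pos rfl]
  | succ t ih =>
    rw [LMap.V]
    simp only [ih]
    exact integral_zero _ _

variable (G : LMap E) (ρ : Measure E) [IsProbabilityMeasure ρ]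

theorem V_le_one (t : ℕ) (x y : Config) (c : ℤ) : G.V ρ t x y c ≤ 1 := by
  induction t generalizing x y with
  | zero =>
    rw [LMap.V]
    split_ifs
    · exact zero_le_one
    · exact le_rfl
  | succ t ih =>
    rw [LMap.V]
    have h := integral_mono_of_nonneg (μ := nz ρ)
      (f := fun u => G.V ρ t (G.step x u) (G.step y u) c) (g := fun _ => (1 : ℝ))
      (Filter.Eventually.of_forall (fun u => V_nonneg G ρ t _ _ c)) (integrable_const 1)
      (Filter.Eventually.of_forall (fun u => ih _ _))
    rwa [integral_const, probReal_univ, one_smul] at h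

theorem V_int (t : ℕ) (x y : Config) (c : ℤ) :
    Integrable (fun u => G.V ρ t (G.step x u) (G.step y u) c) (nz ρ) := by
  apply Integrable.of_bound (V_step_meas G ρ t x y c).aestronglyMeasurable 1
  apply Filter.Eventually.of_forall
  intro u
  rw [Real.norm_eq_abs, abs_of_nonneg (V_nonneg _ _ _ _ _ _)]
  exact V_le_one G ρ t _ _ c

theorem BV_one (t : ℕ) : BV G ρ t 1 := fun x y c => V_le_one G ρ t x y c

theorem BV_succ {t : ℕ} {β : ℝ} (h : BV G ρ t β) : BV G ρ (t + 1) β := by
  intro x y c
  rw [LMap.V]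
  have h1 := integral_mono (μ := nz ρ) (V_int G ρ t x y c) (integrable_const β)
    (fun u => h (G.step x u) (G.step y u) c)
  rwa [integral_const, probReal_univ, one_smul] at h1

theorem BV_mono {t s : ℕ} (hts : t ≤ s) {β : ℝ} (h : BV G ρ t β) : BV G ρ s β := by
  obtain ⟨k, rfl⟩ := Nat.exists_eq_add_of_le hts
  clear hts
  induction k with
  | zero => exact h
  | succ k ih => exact BV_succ G ρ ih

/-- The Markov property together with locality. -/
theorem V_markov {T : ℕ} {δ : ℝ} (hδ : 0 ≤ δ) (h : BV G ρ T δ) (s : ℕ) (x y : Config) (c : ℤ) :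
    G.V ρ (T + s) x y c ≤
      δ * ∑ j ∈ Finset.Icc (c - (G.R : ℤ) * T) (c + (G.R : ℤ) * T), G.V ρ s x y j := by
  induction s generalizing x y with
  | zero =>
    rw [add_zero]
    by_cases hxy : ∀ j ∈ Finset.Icc (c - (G.R : ℤ) * T) (c + (G.R : ℤ) * T), x j = y j
    · have h1 : G.V ρ T x y c = G.V ρ T x x c := by
        apply V_congr
        intro i hi
        refine ⟨rfl, (hxy i ?_).symm⟩
        rw [abs_le] at hi
        rw [Finset.mem_Icc]
        constructor <;> linarith [hi.1, hi.2]
      rw [h1, V_self]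
      exact mul_nonneg hδ (Finset.sum_nonneg (fun j _ => V_nonneg _ _ _ _ _ _))
    · push Not at hxy
      obtain ⟨j, hj, hne⟩ := hxy
      have h1 : (1 : ℝ) ≤ ∑ j ∈ Finset.Icc (c - (G.R : ℤ) * T) (c + (G.R : ℤ) * T),
          G.V ρ 0 x y j := by
        have h2 := Finset.single_le_sum (f := fun j => G.V ρ 0 x y j)
          (fun j _ => V_nonneg G ρ 0 x y j) hj
        have h3 : G.V ρ 0 x y j = 1 := by rw [LMap.V, if_neg hne]
        rw [← h3]
        exact h2
      calc G.V ρ T x y c ≤ δ := h x y c
        _ = δ * 1 := (mul_one δ).symm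
        _ ≤ _ := mul_le_mul_of_nonneg_left h1 hδ
  | succ s ih =>
    rw [← add_assoc, LMap.V]
    have h1 : ∫ u, G.V ρ (T + s) (G.step x u) (G.step y u) c ∂(nz ρ) ≤
        ∫ u, δ * ∑ j ∈ Finset.Icc (c - (G.R : ℤ) * T) (c + (G.R : ℤ) * T),
          G.V ρ s (G.step x u) (G.step y u) j ∂(nz ρ) := by
      apply integral_mono (V_int G ρ (T + s) x y c)
      · exact (integrable_finsetSum _ (fun j _ => V_int G ρ s x y j)).const_mul δ
      · intro u
        exact ih (G.step x u) (G.step y u)
    refine h1.trans (le_of_eq ?_)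
    rw [integral_const_mul, integral_finsetSum _ (fun j _ => V_int G ρ s x y j)]
    rfl

/-- The finite size criterion. -/
theorem V_tendsto {T : ℕ} {δ : ℝ} (hδ : 0 ≤ δ) (h : BV G ρ T δ)
    (hT : (2 * (G.R : ℝ) * T + 1) * δ < 1) :
    ∀ ε : ℝ, 0 < ε → ∃ t₀ : ℕ, ∀ t, t₀ ≤ t → BV G ρ t ε := by
  set θ : ℝ := (2 * (G.R : ℝ) * T + 1) * δ with hθ
  have hθ0 : 0 ≤ θ := by positivity
  have key : ∀ n : ℕ, BV G ρ (T * n) (θ ^ n) := by
    intro n
    induction n with
    | zero =>
      rw [pow_zero]
      exact BV_one G ρ _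
    | succ n ih =>
      intro x y c
      rw [Nat.mul_succ, add_comm]
      refine (V_markov G ρ hδ h (T * n) x y c).trans ?_
      have h1 : ∑ j ∈ Finset.Icc (c - (G.R : ℤ) * T) (c + (G.R : ℤ) * T),
          G.V ρ (T * n) x y j ≤ ∑ j ∈ Finset.Icc (c - (G.R : ℤ) * T) (c + (G.R : ℤ) * T),
          θ ^ n := Finset.sum_le_sum (fun j _ => ih x y j)
      have h2 : (Finset.Icc (c - (G.R : ℤ) * T) (c + (G.R : ℤ) * T)).card = 2 * G.R * T + 1 := by
        rw [Int.card_Icc]
        have : c + (G.R : ℤ) * T + 1 - (c - (G.R : ℤ) * T) = ((2 * G.R * T + 1 : ℕ) : ℤ) := by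
          push_cast
          ring
        rw [this, Int.toNat_natCast]
      rw [Finset.sum_const, h2, nsmul_eq_mul] at h1
      calc δ * ∑ j ∈ Finset.Icc (c - (G.R : ℤ) * T) (c + (G.R : ℤ) * T), G.V ρ (T * n) x y j
          ≤ δ * (((2 * G.R * T + 1 : ℕ) : ℝ) * θ ^ n) := mul_le_mul_of_nonneg_left h1 hδ
        _ = θ ^ (n + 1) := by
          rw [pow_succ]
          push_cast
          rw [hθ]
          ring
  intro ε hε
  obtain ⟨n, hn⟩ := exists_pow_lt_of_lt_one hε hT
  refine ⟨T * n, fun t ht => ?_⟩
  intro x y c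
  exact (BV_mono G ρ ht (key n) x y c).trans hn.le

end Pool.Agent.Lib.MP_8850da_pr
end

section

section

/-!
# Certificates: definitions
-/

set_option autoImplicit false

namespace Pool.Agent.Lib.MP_8850da_pr

open Classical in
/-- The number of `n ∈ N` with `j + (n - ν) ∈ A`. -/
noncomputable def cnt (N : Finset ℤ) (ν : ℤ) (A : Set ℤ) (j : ℤ) : ℕ :=
  (N.filter (fun n => j + (n - ν) ∈ A)).card

/-- A neighbourhood with median `ν`. -/
structure Nb where
  /-- the neighbourhood -/
  N : Finset ℤ
  /-- the median -/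
  ν : ℤ
  /-- `|N| = 2 m + 1` -/
  m : ℕ
  /-- the radius -/
  r : ℕ
  left : (N.filter (fun n => n < ν)).card = m
  right : (N.filter (fun n => ν < n)).card = m
  mem : ν ∈ N
  hm : 1 ≤ m
  bound : ∀ n ∈ N, |n - ν| ≤ r

/-- The neighbourhood contains the two neighbours of the median. -/
def Adj (D : Nb) : Prop := D.ν - 1 ∈ D.N ∧ D.ν + 1 ∈ D.N

/-- The sites which see at least `m + 1` elements of `A`. -/
def Mj (D : Nb) (A : Set ℤ) : Set ℤ := {j | D.m + 1 ≤ cnt D.N D.ν A j}

/-- Order convex hull. -/
def hull (A : Set ℤ) : Set ℤ := {j | ∃ a ∈ A, ∃ b ∈ A, a ≤ j ∧ j ≤ b}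

/-- Order convex hull, enlarged by one site on each side. -/
def hullp (A : Set ℤ) : Set ℤ := {j | ∃ a ∈ A, ∃ b ∈ A, a - 1 ≤ j ∧ j ≤ b + 1}

/-- The left end points of the intervals of length `K + 1` contained in `A`. -/
def TT (K : ℕ) (A : Set ℤ) : Set ℤ := {i | Set.Icc i (i + K) ⊆ A}

/-- The union of the intervals of length `K + 1` contained in `A`. -/
def Op (K : ℕ) (A : Set ℤ) : Set ℤ := {j | ∃ i ∈ TT K A, j ∈ Set.Icc i (i + K)}

/-- `A` is a union of intervals of length `K + 1`. -/
def Thick (K : ℕ) (A : Set ℤ) : Prop := ∀ j ∈ A, ∃ i ∈ TT K A, j ∈ Set.Icc i (i + K)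

/-- The sites which have the favoured symbol for certain after the noise: noise `1` forces the
favoured symbol, noise `2` the other one. -/
def zs (u : ℤ → Fin 3) (S : Set ℤ) : Set ℤ := (S \ {i | u i = 2}) ∪ {i | u i = 1}

/-- The update of the certified set (in the moving frame). -/
def upM (D : Nb) (K : ℕ) (u : ℤ → Fin 3) (S : Set ℤ) : Set ℤ :=
  Op K (Mj D (zs u S) ∩ hullp S)

/-- The update of the certified set. -/
def up (D : Nb) (K : ℕ) (u : ℤ → Fin 3) (S : Set ℤ) : Set ℤ := {i | i + D.ν ∈ upM D K u S}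

/-- `S` is certified for the pair `x, y`: the majority rule gives the symbol `b` on `S` for both
configurations, and the same symbol for both configurations on the hull of `S`. -/
structure Cert (D : Nb) (K : ℕ) (b : Bool) (x y : Config) (S : Set ℤ) : Prop where
  thick : Thick K S
  left : ∀ i ∈ S, maj D.N x i = b
  right : ∀ i ∈ S, maj D.N y i = b
  agree : ∀ i ∈ hull S, maj D.N x i = maj D.N y i

/-- The majority rule with noise: noise `1` forces `b`, noise `2` forces the other symbol. -/
def zloc (N : Finset ℤ) (b : Bool) (x : Config) (e : Fin 3) : Bool :=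
  if e = 1 then b else if e = 2 then !b else maj N x 0

theorem maj_congr (N : Finset ℤ) (x y : Config) (i j : ℤ) (h : ∀ n ∈ N, x (i + n) = y (j + n)) :
    maj N x i = maj N y j := by
  have h1 : N.filter (fun n => x (i + n) = true) = N.filter (fun n => y (j + n) = true) := by
    apply Finset.filter_congr
    intro n hn
    rw [h n hn]
  rw [maj, maj, h1]

/-- The random local map of the noisy majority rule. -/
def zmap (N : Finset ℤ) (b : Bool) : LMap (Fin 3) where
  R := N.sup Int.natAbs
  loc := zloc N b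
  meas x := measurable_of_countable _
  loc_congr x y h := by
    funext e
    rw [zloc, zloc, maj_congr N x y 0 0]
    intro n hn
    apply h
    rw [zero_add]
    have h1 : n.natAbs ≤ N.sup Int.natAbs := Finset.le_sup (f := Int.natAbs) hn
    rw [Int.abs_eq_natAbs]
    exact_mod_cast h1

theorem zmap_step (N : Finset ℤ) (b : Bool) (x : Config) (u : ℤ → Fin 3) (i : ℤ) :
    (zmap N b).step x u i = if u i = 1 then b else if u i = 2 then !b else maj N x i := by
  change zloc N b (sh x i) (u i) = _
  rw [zloc, maj_congr N (sh x i) x 0 i]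
  intro n _
  change x (i + (0 + n)) = x (i + n)
  rw [zero_add]

end Pool.Agent.Lib.MP_8850da_pr
end

section

/-!
# Certificates: the update lemmas
-/

set_option autoImplicit false

namespace Pool.Agent.Lib.MP_8850da_pr

variable (D : Nb)

theorem Nb.card_le : (D.N.filter (fun n => n ≤ D.ν)).card = D.m + 1 := by
  have h : D.N.filter (fun n => n ≤ D.ν) = insert D.ν (D.N.filter (fun n => n < D.ν)) := by
    ext n
    simp only [Finset.mem_filter, Finset.mem_insert]
    constructor
    · rintro ⟨h1, h2⟩
      rcases h2.eq_or_lt with h3 | h3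
      · exact Or.inl h3
      · exact Or.inr ⟨h1, h3⟩
    · rintro (rfl | ⟨h1, h2⟩)
      · exact ⟨D.mem, le_rfl⟩
      · exact ⟨h1, h2.le⟩
  rw [h, Finset.card_insert_of_notMem (by simp), D.left]

theorem Nb.card_ge : (D.N.filter (fun n => D.ν ≤ n)).card = D.m + 1 := by
  have h : D.N.filter (fun n => D.ν ≤ n) = insert D.ν (D.N.filter (fun n => D.ν < n)) := by
    ext n
    simp only [Finset.mem_filter, Finset.mem_insert]
    constructor
    · rintro ⟨h1, h2⟩
      rcases h2.eq_or_lt with h3 | h3
      · exact Or.inl h3.symm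
      · exact Or.inr ⟨h1, h3⟩
    · rintro (rfl | ⟨h1, h2⟩)
      · exact ⟨D.mem, le_rfl⟩
      · exact ⟨h1, h2.le⟩
  rw [h, Finset.card_insert_of_notMem (by simp), D.right]

theorem Nb.card_N : D.N.card = 2 * D.m + 1 := by
  have h := Finset.card_filter_add_card_filter_not (s := D.N) (fun n => n ≤ D.ν)
  have h2 : D.N.filter (fun n => ¬ n ≤ D.ν) = D.N.filter (fun n => D.ν < n) := by
    apply Finset.filter_congr
    intro n _
    exact not_le
  rw [h2, D.card_le, D.right] at h
  omega

theorem Nb.one_le_r : (1 : ℤ) ≤ D.r := by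
  have h1 : 0 < (D.N.filter (fun n => D.ν < n)).card := by
    rw [D.right]
    exact D.hm
  obtain ⟨n, hn⟩ := Finset.card_pos.1 h1
  rw [Finset.mem_filter] at hn
  have h2 := (abs_le.1 (D.bound n hn.1)).2
  have h3 := Int.add_one_le_iff.2 hn.2
  linarith

/-- A symbol which occurs at least `m + 1` times is the majority symbol. -/
theorem maj_eq (b : Bool) (x : Config) (i : ℤ)
    (h : D.m + 1 ≤ (D.N.filter (fun n => x (i + n) = b)).card) : maj D.N x i = b := by
  have hN := D.card_N
  cases b with
  | true =>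
    rw [maj, decide_eq_true_eq]
    omega
  | false =>
    rw [maj, decide_eq_false_iff_not]
    have h1 := Finset.card_filter_add_card_filter_not (s := D.N) (fun n => x (i + n) = true)
    have h2 : D.N.filter (fun n => ¬ x (i + n) = true) =
        D.N.filter (fun n => x (i + n) = false) := by
      apply Finset.filter_congr
      intro n _
      rw [Bool.not_eq_true]
    rw [h2] at h1
    omega

theorem mem_Mj_of {A : Set ℤ} {j : ℤ} (Q : Finset ℤ) (hQ : Q ⊆ D.N) (hc : D.m + 1 ≤ Q.card)
    (h : ∀ n ∈ Q, j + (n - D.ν) ∈ A) : j ∈ Mj D A := by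
  classical
  change D.m + 1 ≤ cnt D.N D.ν A j
  rw [cnt]
  refine hc.trans (Finset.card_le_card ?_)
  intro n hn
  rw [Finset.mem_filter]
  exact ⟨hQ hn, h n hn⟩

theorem mem_Mj_left {A : Set ℤ} {j : ℤ} (h : Set.Icc (j - D.r) j ⊆ A) : j ∈ Mj D A := by
  apply mem_Mj_of D (D.N.filter (fun n => n ≤ D.ν)) (Finset.filter_subset _ _) D.card_le.ge
  intro n hn
  rw [Finset.mem_filter] at hn
  apply h
  have := abs_le.1 (D.bound n hn.1)
  rw [Set.mem_Icc]
  constructor <;> linarith [this.1, hn.2]

theorem mem_Mj_right {A : Set ℤ} {j : ℤ} (h : Set.Icc j (j + D.r) ⊆ A) : j ∈ Mj D A := by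
  apply mem_Mj_of D (D.N.filter (fun n => D.ν ≤ n)) (Finset.filter_subset _ _) D.card_ge.ge
  intro n hn
  rw [Finset.mem_filter] at hn
  apply h
  have := abs_le.1 (D.bound n hn.1)
  rw [Set.mem_Icc]
  constructor <;> linarith [this.2, hn.2]

/-- Robustness: one missing point does not matter inside. -/
theorem mem_Mj_left' (hA : Adj D) {A : Set ℤ} {j z : ℤ}
    (h : ∀ k ∈ Set.Icc (j - D.r) (j + 1), k ≠ z → k ∈ A) : j ∈ Mj D A := by
  classical
  have hn : D.ν + 1 ∉ D.N.filter (fun n => n ≤ D.ν) := by simp
  let Q' := insert (D.ν + 1) (D.N.filter (fun n => n ≤ D.ν))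
  have hQ' : Q'.card = D.m + 2 := by
    rw [Finset.card_insert_of_notMem hn, D.card_le]
  apply mem_Mj_of D (Q'.erase (z - j + D.ν))
  · intro n hn
    rcases Finset.mem_insert.1 (Finset.mem_of_mem_erase hn) with rfl | hn
    · exact hA.2
    · exact (Finset.mem_filter.1 hn).1
  · have := Finset.pred_card_le_card_erase (s := Q') (a := z - j + D.ν)
    omega
  · intro n hn
    have hne := Finset.ne_of_mem_erase hn
    have hr := D.one_le_r
    apply h
    · rcases Finset.mem_insert.1 (Finset.mem_of_mem_erase hn) with rfl | hn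
      · rw [Set.mem_Icc]
        constructor <;> linarith
      · rw [Finset.mem_filter] at hn
        have := abs_le.1 (D.bound n hn.1)
        rw [Set.mem_Icc]
        constructor <;> linarith [this.1, hn.2]
    · intro he
      apply hne
      linarith

theorem mem_Mj_right' (hA : Adj D) {A : Set ℤ} {j z : ℤ}
    (h : ∀ k ∈ Set.Icc (j - 1) (j + D.r), k ≠ z → k ∈ A) : j ∈ Mj D A := by
  classical
  have hn : D.ν - 1 ∉ D.N.filter (fun n => D.ν ≤ n) := by simp
  let Q' := insert (D.ν - 1) (D.N.filter (fun n => D.ν ≤ n))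
  have hQ' : Q'.card = D.m + 2 := by
    rw [Finset.card_insert_of_notMem hn, D.card_ge]
  apply mem_Mj_of D (Q'.erase (z - j + D.ν))
  · intro n hn
    rcases Finset.mem_insert.1 (Finset.mem_of_mem_erase hn) with rfl | hn
    · exact hA.1
    · exact (Finset.mem_filter.1 hn).1
  · have := Finset.pred_card_le_card_erase (s := Q') (a := z - j + D.ν)
    omega
  · intro n hn
    have hne := Finset.ne_of_mem_erase hn
    have hr := D.one_le_r
    apply h
    · rcases Finset.mem_insert.1 (Finset.mem_of_mem_erase hn) with rfl | hn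
      · rw [Set.mem_Icc]
        constructor <;> linarith
      · rw [Finset.mem_filter] at hn
        have := abs_le.1 (D.bound n hn.1)
        rw [Set.mem_Icc]
        constructor <;> linarith [this.2, hn.2]
    · intro he
      apply hne
      linarith

theorem TT_Op {K : ℕ} {A : Set ℤ} {i : ℤ} (h : i ∈ TT K A) : i ∈ TT K (Op K A) :=
  fun _ hj => ⟨i, h, hj⟩

theorem TT_of_Op {K : ℕ} {A : Set ℤ} {i : ℤ} (h : i ∈ TT K (Op K A)) : i ∈ TT K A := by
  intro j hj
  obtain ⟨i', hi', hj'⟩ := h hj
  exact hi' hj'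

theorem thick_Op (K : ℕ) (A : Set ℤ) : Thick K (Op K A) := by
  rintro j ⟨i, hi, hj⟩
  exact ⟨i, TT_Op hi, hj⟩

theorem mem_zs_of {u : ℤ → Fin 3} {S : Set ℤ} {j : ℤ} (hj : j ∈ S) (hu : u j ≠ 2) : j ∈ zs u S :=
  Or.inl ⟨hj, hu⟩

theorem mem_hullp_of {S : Set ℤ} {j : ℤ} (hj : j ∈ S) : j ∈ hullp S :=
  ⟨j, hj, j, hj, by linarith, by linarith⟩

variable {D} {K : ℕ} (hK : 2 * D.r ≤ K)
include hK

/-- One site of an interval contained in `S`, no hole near. -/
theorem mem_Mj_int {u : ℤ → Fin 3} {S : Set ℤ} {i j : ℤ} (hi : i ∈ TT K S)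
    (hj : j ∈ Set.Icc i (i + K)) (hu : ∀ z ∈ Set.Icc (j - D.r) (j + D.r), u z ≠ 2) :
    j ∈ Mj D (zs u S) := by
  have hr := D.one_le_r
  have hK' : 2 * (D.r : ℤ) ≤ K := by exact_mod_cast hK
  rw [Set.mem_Icc] at hj
  by_cases h : i + D.r ≤ j
  · apply mem_Mj_left
    intro k hk
    rw [Set.mem_Icc] at hk
    apply mem_zs_of
    · apply hi
      rw [Set.mem_Icc]
      constructor <;> linarith [hk.1, hk.2, hj.2]
    · apply hu
      rw [Set.mem_Icc]
      constructor <;> linarith [hk.1, hk.2]
  · push Not at h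
    apply mem_Mj_right
    intro k hk
    rw [Set.mem_Icc] at hk
    apply mem_zs_of
    · apply hi
      rw [Set.mem_Icc]
      constructor <;> linarith [hk.1, hk.2, hj.1]
    · apply hu
      rw [Set.mem_Icc]
      constructor <;> linarith [hk.1, hk.2]

/-- (L0) -/
theorem TT_up_of_no_hole {u : ℤ → Fin 3} {S : Set ℤ} {i : ℤ} (hi : i ∈ TT K S)
    (hu : ∀ z ∈ Set.Icc (i - D.r) (i + K + D.r), u z ≠ 2) : i ∈ TT K (upM D K u S) := by
  apply TT_Op
  intro j hj
  refine ⟨mem_Mj_int hK hi hj ?_, mem_hullp_of (hi hj)⟩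
  intro z hz
  rw [Set.mem_Icc] at hz hj
  apply hu
  rw [Set.mem_Icc]
  constructor <;> linarith [hz.1, hz.2, hj.1, hj.2]

/-- (L3): only one hole near. -/
theorem TT_up_of_one_hole (hA : Adj D) {u : ℤ → Fin 3} {S : Set ℤ} {i z : ℤ} (hi : i ∈ TT K S)
    (hu : ∀ z' ∈ Set.Icc (i - D.r) (i + K + D.r), u z' = 2 → z' = z)
    (hl : ¬ (i - 1 ∉ TT K S ∧ z - i + D.ν ∈ D.N ∧ i ≤ z))
    (hr : ¬ (i + 1 ∉ TT K S ∧ z - (i + K) + D.ν ∈ D.N ∧ z ≤ i + K)) :
    i ∈ TT K (upM D K u S) := by
  have hr1 := D.one_le_r
  have hK' : 2 * (D.r : ℤ) ≤ K := by exact_mod_cast hK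
  apply TT_Op
  intro j hj
  refine ⟨?_, mem_hullp_of (hi hj)⟩
  have hj' := Set.mem_Icc.1 hj
  have huz : ∀ k, i - D.r ≤ k → k ≤ i + K + D.r → k ≠ z → u k ≠ 2 :=
    fun k h1 h2 h3 h4 => h3 (hu k (Set.mem_Icc.2 ⟨h1, h2⟩) h4)
  by_cases h1 : j - 1 ∈ S
  · by_cases h2 : j + 1 ∈ S
    · by_cases h : i + D.r ≤ j
      · apply mem_Mj_left' D hA (z := z)
        intro k hk hkz
        rw [Set.mem_Icc] at hk
        apply mem_zs_of
        · rcases hk.2.eq_or_lt with h3 | h3
          · rw [h3]; exact h2
          · apply hi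
            rw [Set.mem_Icc]
            constructor <;> linarith [hk.1, Int.lt_add_one_iff.1 h3, hj'.2]
        · apply huz _ _ _ hkz <;> linarith [hk.1, hk.2, hj'.1, hj'.2]
      · push Not at h
        apply mem_Mj_right' D hA (z := z)
        intro k hk hkz
        rw [Set.mem_Icc] at hk
        apply mem_zs_of
        · rcases hk.1.eq_or_lt with h3 | h3
          · rw [← h3]; exact h1
          · apply hi
            rw [Set.mem_Icc]
            constructor
            · have : j ≤ k := by
                have := Int.add_one_le_iff.2 h3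
                linarith
              linarith [hj'.1]
            · linarith [hk.2]
        · apply huz _ _ _ hkz <;> linarith [hk.1, hk.2, hj'.1, hj'.2]
    · -- right end
      have hji : j = i + K := by
        by_contra hne
        apply h2
        apply hi
        rw [Set.mem_Icc]
        constructor
        · linarith [hj'.1]
        · have := lt_of_le_of_ne hj'.2 hne
          exact Int.add_one_le_iff.2 this
      have h3 : i + 1 ∉ TT K S := by
        intro h4
        apply h2
        apply h4
        rw [hji, Set.mem_Icc]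
        constructor <;> linarith
      have h5 : ¬ (z - (i + K) + D.ν ∈ D.N ∧ z ≤ i + K) := fun h6 => hr ⟨h3, h6⟩
      apply mem_Mj_of D (D.N.filter (fun n => n ≤ D.ν)) (Finset.filter_subset _ _) D.card_le.ge
      intro n hn
      rw [Finset.mem_filter] at hn
      have h6 := abs_le.1 (D.bound n hn.1)
      apply mem_zs_of
      · apply hi
        rw [Set.mem_Icc, hji]
        constructor <;> linarith [h6.1, hn.2]
      · apply huz
        · rw [hji]; linarith [h6.1]
        · rw [hji]; linarith [hn.2]
        · intro h7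
          apply h5
          rw [hji] at h7
          constructor
          · have : z - (i + K) + D.ν = n := by linarith
            rw [this]; exact hn.1
          · linarith [hn.2]
  · -- left end
    have hji : j = i := by
      by_contra hne
      apply h1
      apply hi
      rw [Set.mem_Icc]
      constructor
      · have := lt_of_le_of_ne hj'.1 (Ne.symm hne)
        have := Int.add_one_le_iff.2 this
        linarith
      · linarith [hj'.2]
    have h3 : i - 1 ∉ TT K S := by
      intro h4
      apply h1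
      apply h4
      rw [hji, Set.mem_Icc]
      constructor <;> linarith
    have h5 : ¬ (z - i + D.ν ∈ D.N ∧ i ≤ z) := fun h6 => hl ⟨h3, h6⟩
    apply mem_Mj_of D (D.N.filter (fun n => D.ν ≤ n)) (Finset.filter_subset _ _) D.card_ge.ge
    intro n hn
    rw [Finset.mem_filter] at hn
    have h6 := abs_le.1 (D.bound n hn.1)
    apply mem_zs_of
    · apply hi
      rw [Set.mem_Icc, hji]
      constructor <;> linarith [h6.2, hn.2]
    · apply huz
      · rw [hji]; linarith [hn.2]
      · rw [hji]; linarith [h6.2]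
      · intro h7
        apply h5
        rw [hji] at h7
        constructor
        · have : z - i + D.ν = n := by linarith
          rw [this]; exact hn.1
        · linarith [hn.2]

/-- (L2) growth at a left end. -/
theorem TT_up_grow_left {u : ℤ → Fin 3} {S : Set ℤ} {i g : ℤ} (hi1 : i + 1 ∈ TT K S)
    (hu : ∀ z ∈ Set.Icc (i - D.r) (i + K + D.r), u z ≠ 2) (hg : u g = 1)
    (hgN : g - i + D.ν ∈ D.N) (hgi : g ≤ i) : i ∈ TT K (upM D K u S) := by
  classical
  have hr1 := D.one_le_r
  have hK' : 2 * (D.r : ℤ) ≤ K := by exact_mod_cast hK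
  apply TT_Op
  intro j hj
  have hj' := Set.mem_Icc.1 hj
  refine ⟨?_, ?_⟩
  · rcases hj'.1.eq_or_lt with hji | hji
    · -- the new site
      subst hji
      have hn : g - i + D.ν ∉ D.N.filter (fun n => D.ν < n) := by
        rw [Finset.mem_filter, not_and]
        intro _
        linarith
      apply mem_Mj_of D (insert (g - i + D.ν) (D.N.filter (fun n => D.ν < n)))
      · intro n hn
        rcases Finset.mem_insert.1 hn with rfl | hn
        · exact hgN
        · exact (Finset.mem_filter.1 hn).1
      · rw [Finset.card_insert_of_notMem hn, D.right]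
      · intro n hn
        rcases Finset.mem_insert.1 hn with rfl | hn
        · right
          change u (i + (g - i + D.ν - D.ν)) = 1
          rw [show i + (g - i + D.ν - D.ν) = g by ring]
          exact hg
        · rw [Finset.mem_filter] at hn
          have h6 := abs_le.1 (D.bound n hn.1)
          have h7 := Int.add_one_le_iff.2 hn.2
          apply mem_zs_of
          · apply hi1
            rw [Set.mem_Icc]
            constructor <;> linarith [h6.2]
          · apply hu
            rw [Set.mem_Icc]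
            constructor <;> linarith [h6.2]
    · have h1 := Int.add_one_le_iff.2 hji
      apply mem_Mj_int hK hi1
      · rw [Set.mem_Icc]
        constructor <;> linarith [hj'.2]
      · intro z hz
        rw [Set.mem_Icc] at hz
        apply hu
        rw [Set.mem_Icc]
        constructor <;> linarith [hz.1, hz.2, hj'.2]
  · refine ⟨i + 1, hi1 ?_, i + 1 + K, hi1 ?_, ?_, ?_⟩
    · rw [Set.mem_Icc]
      constructor <;> linarith
    · rw [Set.mem_Icc]
      constructor <;> linarith
    · linarith [hj'.1]
    · linarith [hj'.2]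

/-- (L2') growth at a right end. -/
theorem TT_up_grow_right {u : ℤ → Fin 3} {S : Set ℤ} {i g : ℤ} (hi1 : i - 1 ∈ TT K S)
    (hu : ∀ z ∈ Set.Icc (i - D.r) (i + K + D.r), u z ≠ 2) (hg : u g = 1)
    (hgN : g - (i + K) + D.ν ∈ D.N) (hgi : i + K ≤ g) : i ∈ TT K (upM D K u S) := by
  classical
  have hr1 := D.one_le_r
  have hK' : 2 * (D.r : ℤ) ≤ K := by exact_mod_cast hK
  apply TT_Op
  intro j hj
  have hj' := Set.mem_Icc.1 hj
  refine ⟨?_, ?_⟩
  · rcases hj'.2.eq_or_lt with hji | hji
    · subst hji
      have hn : g - (i + K) + D.ν ∉ D.N.filter (fun n => n < D.ν) := by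
        rw [Finset.mem_filter, not_and]
        intro _
        linarith
      apply mem_Mj_of D (insert (g - (i + K) + D.ν) (D.N.filter (fun n => n < D.ν)))
      · intro n hn
        rcases Finset.mem_insert.1 hn with rfl | hn
        · exact hgN
        · exact (Finset.mem_filter.1 hn).1
      · rw [Finset.card_insert_of_notMem hn, D.left]
      · intro n hn
        rcases Finset.mem_insert.1 hn with rfl | hn
        · right
          change u (i + K + (g - (i + K) + D.ν - D.ν)) = 1
          rw [show i + K + (g - (i + K) + D.ν - D.ν) = g by ring]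
          exact hg
        · rw [Finset.mem_filter] at hn
          have h6 := abs_le.1 (D.bound n hn.1)
          have h7 := Int.add_one_le_iff.2 hn.2
          apply mem_zs_of
          · apply hi1
            rw [Set.mem_Icc]
            constructor <;> linarith [h6.1]
          · apply hu
            rw [Set.mem_Icc]
            constructor <;> linarith [h6.1]
    · have h1 := Int.add_one_le_iff.2 hji
      apply mem_Mj_int hK hi1
      · rw [Set.mem_Icc]
        constructor <;> linarith [hj'.1]
      · intro z hz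
        rw [Set.mem_Icc] at hz
        apply hu
        rw [Set.mem_Icc]
        constructor <;> linarith [hz.1, hz.2, hj'.1]
  · refine ⟨i - 1, hi1 ?_, i - 1 + K, hi1 ?_, ?_, ?_⟩
    · rw [Set.mem_Icc]
      constructor <;> linarith
    · rw [Set.mem_Icc]
      constructor <;> linarith
    · linarith [hj'.1]
    · linarith [hj'.2]

/-- The certificate is preserved. -/
theorem cert_up {b : Bool} {x y : Config} {S : Set ℤ} (h : Cert D K b x y S) (u : ℤ → Fin 3) :
    Cert D K b ((zmap D.N b).step x u) ((zmap D.N b).step y u) (up D K u S) := by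
  have hr1 := D.one_le_r
  have hK' : 2 * (D.r : ℤ) ≤ K := by exact_mod_cast hK
  -- the symbol `b` on `zs u S`
  have hb : ∀ (x : Config), (∀ i ∈ S, maj D.N x i = b) → ∀ j ∈ zs u S,
      (zmap D.N b).step x u j = b := by
    intro x hx j hj
    rw [zmap_step]
    rcases hj with ⟨hj1, hj2⟩ | hj
    · by_cases h1 : u j = 1
      · rw [if_pos h1]
      · rw [if_neg h1, if_neg (show ¬ u j = 2 from hj2), hx j hj1]
    · rw [if_pos (show u j = 1 from hj)]
  have hmaj : ∀ (x : Config), (∀ i ∈ S, maj D.N x i = b) → ∀ i : ℤ, i + D.ν ∈ Mj D (zs u S) →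
      maj D.N ((zmap D.N b).step x u) i = b := by
    classical
    intro x hx i hi
    apply maj_eq
    change D.m + 1 ≤ cnt D.N D.ν (zs u S) (i + D.ν) at hi
    rw [cnt] at hi
    refine hi.trans (Finset.card_le_card ?_)
    intro n hn
    rw [Finset.mem_filter] at hn ⊢
    refine ⟨hn.1, ?_⟩
    have := hb x hx _ hn.2
    rwa [show i + D.ν + (n - D.ν) = i + n by ring] at this
  have hsub : ∀ i ∈ up D K u S, i + D.ν ∈ Mj D (zs u S) := by
    rintro i ⟨i', hi', hj⟩
    exact (hi' hj).1
  have hagree : ∀ j ∈ hull S, (zmap D.N b).step x u j = (zmap D.N b).step y u j := by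
    intro j hj
    rw [zmap_step, zmap_step, h.agree j hj]
  refine ⟨?_, fun i hi => hmaj x h.left i (hsub i hi), fun i hi => hmaj y h.right i (hsub i hi),
    ?_⟩
  · intro i hi
    obtain ⟨k, hk, hik⟩ := thick_Op K _ (i + D.ν) hi
    rw [Set.mem_Icc] at hik
    refine ⟨k - D.ν, ?_, ?_⟩
    · intro j hj
      rw [Set.mem_Icc] at hj
      change j + D.ν ∈ upM D K u S
      apply hk
      rw [Set.mem_Icc]
      constructor <;> linarith [hj.1, hj.2]
    · rw [Set.mem_Icc]
      constructor <;> linarith [hik.1, hik.2]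
  · rintro i ⟨s1, hs1, s2, hs2, h1, h2⟩
    by_cases hi : i ∈ up D K u S
    · rw [hmaj x h.left i (hsub i hi), hmaj y h.right i (hsub i hi)]
    · -- the whole neighbourhood is in the hull of `S`
      obtain ⟨a1, ha1, hs1'⟩ := hs1
      obtain ⟨a2, ha2, hs2'⟩ := hs2
      rw [Set.mem_Icc] at hs1' hs2'
      have hlt : a1 + K < i + D.ν := by
        by_contra hcon
        push Not at hcon
        apply hi
        exact ⟨a1, ha1, by
          rw [Set.mem_Icc]
          constructor <;> linarith [hs1'.1]⟩
      have hgt : i + D.ν < a2 := by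
        by_contra hcon
        push Not at hcon
        apply hi
        exact ⟨a2, ha2, by
          rw [Set.mem_Icc]
          constructor <;> linarith [hs2'.2]⟩
      obtain ⟨a, ha, _, _, ha3, _⟩ := (ha1 (Set.mem_Icc.2 ⟨le_rfl, by linarith⟩)).2
      obtain ⟨_, _, c, hc, _, hc3⟩ := (ha2 (Set.mem_Icc.2 ⟨by linarith, le_rfl⟩)).2
      apply maj_congr
      intro n hn
      have h6 := abs_le.1 (D.bound n hn)
      apply hagree
      refine ⟨a, ha, c, hc, ?_, ?_⟩ <;> linarith [h6.1, h6.2]

omit hK in
/-- In the hull of a certified set the next symbols agree. -/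
theorem cert_agree {b : Bool} {x y : Config} {S : Set ℤ} (h : Cert D K b x y S)
    {c : ℤ} (hc : c ∈ hull S) (u : ℤ → Fin 3) :
    (zmap D.N b).step x u c = (zmap D.N b).step y u c := by
  rw [zmap_step, zmap_step, h.agree c hc]

/-- Nucleation. -/
theorem cert_nuc (b : Bool) (x y : Config) (u : ℤ → Fin 3) (c : ℤ) (M : ℕ) (hM : K ≤ 2 * M)
    (hu : ∀ i ∈ Set.Icc (c - M) (c + M), u i = 1) :
    Cert D K b ((zmap D.N b).step x u) ((zmap D.N b).step y u)
      {i | i + D.ν ∈ Set.Icc (c - M) (c + M)} := by
  have hr1 := D.one_le_r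
  have hK' : 2 * (D.r : ℤ) ≤ K := by exact_mod_cast hK
  have hM' : (K : ℤ) ≤ 2 * M := by exact_mod_cast hM
  have hb : ∀ (x : Config), ∀ j ∈ Set.Icc (c - M) (c + M), (zmap D.N b).step x u j = b := by
    intro x j hj
    rw [zmap_step, if_pos (hu j hj)]
  have hmaj : ∀ (x : Config) (i : ℤ), i + D.ν ∈ Set.Icc (c - (M : ℤ)) (c + M) →
      maj D.N ((zmap D.N b).step x u) i = b := by
    classical
    intro x i hi
    rw [Set.mem_Icc] at hi
    apply maj_eq
    by_cases h : c - M + D.r ≤ i + D.ν
    · rw [← D.card_le]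
      apply Finset.card_le_card
      intro n hn
      rw [Finset.mem_filter] at hn ⊢
      refine ⟨hn.1, hb x _ ?_⟩
      have h6 := abs_le.1 (D.bound n hn.1)
      rw [Set.mem_Icc]
      constructor <;> linarith [h6.1, hn.2, hi.2]
    · push Not at h
      rw [← D.card_ge]
      apply Finset.card_le_card
      intro n hn
      rw [Finset.mem_filter] at hn ⊢
      refine ⟨hn.1, hb x _ ?_⟩
      have h6 := abs_le.1 (D.bound n hn.1)
      rw [Set.mem_Icc]
      constructor <;> linarith [h6.2, hn.2, hi.1]
  refine ⟨?_, fun i hi => hmaj x i hi, fun i hi => hmaj y i hi, ?_⟩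
  · intro i hi
    change i + D.ν ∈ Set.Icc (c - (M : ℤ)) (c + M) at hi
    rw [Set.mem_Icc] at hi
    by_cases h : i + D.ν + K ≤ c + M
    · refine ⟨i, ?_, by rw [Set.mem_Icc]; constructor <;> linarith⟩
      intro j hj
      rw [Set.mem_Icc] at hj
      change j + D.ν ∈ Set.Icc (c - (M : ℤ)) (c + M)
      rw [Set.mem_Icc]
      constructor <;> linarith [hj.1, hj.2, hi.1]
    · push Not at h
      refine ⟨c + M - K - D.ν, ?_, ?_⟩
      · intro j hj
        rw [Set.mem_Icc] at hj
        change j + D.ν ∈ Set.Icc (c - (M : ℤ)) (c + M)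
        rw [Set.mem_Icc]
        constructor <;> linarith [hj.1, hj.2]
      · rw [Set.mem_Icc]
        constructor <;> linarith [hi.2]
  · rintro i ⟨s1, hs1, s2, hs2, h1, h2⟩
    change s1 + D.ν ∈ Set.Icc (c - (M : ℤ)) (c + M) at hs1
    change s2 + D.ν ∈ Set.Icc (c - (M : ℤ)) (c + M) at hs2
    rw [Set.mem_Icc] at hs1 hs2
    have hi : i + D.ν ∈ Set.Icc (c - (M : ℤ)) (c + M) := by
      rw [Set.mem_Icc]
      constructor <;> linarith [hs1.1, hs2.2]
    rw [hmaj x i hi, hmaj y i hi]

end Pool.Agent.Lib.MP_8850da_pr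
end
end
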