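import Mathlib

/-!
# MP_8850da_pr: probabilistic cellular automata on the integer line, definitions
-/

set_option autoImplicit false

open MeasureTheory

namespace Pool.Agent.Lib.MP_8850da_pr

/-- Configurations: one of the two symbols `false`, `true` at every integer site. -/
abbrev Config := ℤ → Bool

/-- The value at `i` of the majority cellular automaton with neighbourhood `N` (for odd `|N|`):
`true` if more than half of the entries `x (i + n)`, `n ∈ N`, are `true`. -/
def maj (N : Finset ℤ) (x : Config) (i : ℤ) : Bool :=
  decide (N.card < 2 * (N.filter (fun n => x (i + n) = true)).card)

/-- A probabilistic cellular automaton with two symbols: a finite neighbourhood and a local rule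
which gives a probability vector for every pattern. -/
structure PCA where
  /-- the neighbourhood -/
  nbhd : Finset ℤ
  /-- the local rule -/
  rule : (nbhd → Bool) → PMF Bool

namespace PCA

/-- The pattern of `x` seen from site `i`. -/
def view (Φ : PCA) (x : Config) (i : ℤ) : Φ.nbhd → Bool := fun n => x (i + n)

/-- The distribution of the next configuration: the symbols at all sites are independent, with
the distributions given by the local rule. -/
noncomputable def next (Φ : PCA) (x : Config) : Measure Config :=
  Measure.infinitePi (fun i => (Φ.rule (Φ.view x i)).toMeasure)

/-- The action on measures. -/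
noncomputable def act (Φ : PCA) (μ : Measure Config) : Measure Config := μ.bind Φ.next

/-- `Φ` is ergodic: there is a unique invariant probability measure, and the iterates of every
initial probability measure converge weakly to it. -/
def Ergodic (Φ : PCA) : Prop :=
  ∃ π : Measure Config, IsProbabilityMeasure π ∧ Φ.act π = π ∧
    (∀ μ : Measure Config, IsProbabilityMeasure μ → Φ.act μ = μ → μ = π) ∧
    ∀ μ : Measure Config, IsProbabilityMeasure μ → ∀ f : C(Config, ℝ),
      Filter.Tendsto (fun t : ℕ => ∫ x, f x ∂(Φ.act^[t] μ)) Filter.atTop (nhds (∫ x, f x ∂π))

/-- The error probability of `Φ` at the site `i` of the configuration `x`: the probability that the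
new symbol differs from the symbol computed by the majority cellular automaton. -/
noncomputable def err (Φ : PCA) (N : Finset ℤ) (x : Config) (i : ℤ) : ℝ :=
  (Φ.rule (Φ.view x i) (!(maj N x i))).toReal

/-- `Φ` is the majority cellular automaton with neighbourhood `N` followed by zero-range noise:
the computed symbol `a` is replaced by the other symbol with probability `p a`. -/
def IsNoisyMajority (Φ : PCA) (N : Finset ℤ) (p : Bool → ℝ) : Prop :=
  ∀ (x : Config) (i : ℤ),
    Φ.rule (Φ.view x i) (!(maj N x i)) = ENNReal.ofReal (p (maj N x i))

end PCA

end Pool.Agent.Lib.MP_8850da_pr
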