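import Pool.Agent.Lib.MP_8850da_pr.C1

/-!
# Certificates for context dependent noise
-/

set_option autoImplicit false

open MeasureTheory

namespace Pool.Agent.Lib.MP_8850da_pr

/-- A noisy version of the majority rule with noise biased towards `b`. The site noise `e` is of
type `f e`: type `1` forces `b`; if the majority symbol is `b` then only type `2` can change it.
The new symbol depends only on the noise, the majority symbol and the pattern in `[-R, R]`. -/
structure BMap (D : Nb) (b : Bool) (R : ℕ) (E : Type) [MeasurableSpace E] where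
  /-- the random local map -/
  G : LMap E
  /-- the type of the noise -/
  f : E → Fin 3
  f_meas : Measurable f
  one : ∀ x e, f e = 1 → G.loc x e = b
  two : ∀ x e, maj D.N x 0 = b → f e ≠ 2 → G.loc x e = b
  view : ∀ x y : Config, (∀ i : ℤ, |i| ≤ R → x i = y i) → maj D.N x 0 = maj D.N y 0 →
    G.loc x = G.loc y

/-- At distance at least `c` to the right of an element of `S` and at distance at least `c` to the
left of an element of `S`. -/
def deep (S : Set ℤ) (c : ℕ) (i : ℤ) : Prop := (∃ s ∈ S, s + c ≤ i) ∧ ∃ s ∈ S, i ≤ s - c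

/-- The elements of `S` which are not deep. -/
def zone (S : Set ℤ) (c : ℕ) : Set ℤ := {i | i ∈ S ∧ ¬ deep S c i}

/-- Certificates with margin `ρ`. -/
structure CertG (D : Nb) (K : ℕ) (b : Bool) (x y : Config) (S : Set ℤ) (ρ : ℕ) : Prop where
  thick : Thick K S
  left : ∀ i ∈ S, maj D.N x i = b
  right : ∀ i ∈ S, maj D.N y i = b
  agree : ∀ j, deep S ρ j → x (j + D.ν) = y (j + D.ν)

/-- The shifted set. -/
def shS (ν : ℤ) (S : Set ℤ) : Set ℤ := {i | i + ν ∈ S}

theorem maj_sh (N : Finset ℤ) (x : Config) (i : ℤ) : maj N (sh x i) 0 = maj N x i := by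
  apply maj_congr
  intro n _
  change x (i + (0 + n)) = x (i + n)
  rw [zero_add]

variable {D : Nb} {b : Bool} {R : ℕ} {E : Type} [MeasurableSpace E] (B : BMap D b R E)

theorem step_one (x : Config) (u : ℤ → E) (i : ℤ) (h : B.f (u i) = 1) : B.G.step x u i = b :=
  B.one _ _ h

theorem step_two (x : Config) (u : ℤ → E) (i : ℤ) (hm : maj D.N x i = b) (h : B.f (u i) ≠ 2) :
    B.G.step x u i = b := by
  apply B.two _ _ _ h
  rw [maj_sh]
  exact hm

theorem step_view (x y : Config) (u : ℤ → E) (i : ℤ) (hm : maj D.N x i = maj D.N y i)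
    (h : ∀ n : ℤ, |n| ≤ R → x (i + n) = y (i + n)) : B.G.step x u i = B.G.step y u i := by
  change B.G.loc (sh x i) (u i) = B.G.loc (sh y i) (u i)
  rw [B.view (sh x i) (sh y i) (fun n hn => h n hn) (by rw [maj_sh, maj_sh, hm])]

/-- The margin lost in one step. -/
def R1 (D : Nb) (R : ℕ) : ℕ := R + D.ν.natAbs

theorem step_zs (x : Config) (u : ℤ → E) {S : Set ℤ} (hx : ∀ i ∈ S, maj D.N x i = b) {j : ℤ}
    (hj : j ∈ zs (fun i => B.f (u i)) S) : B.G.step x u j = b := by
  rcases hj with ⟨hj1, hj2⟩ | hj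
  · exact step_two B x u j (hx j hj1) hj2
  · exact step_one B x u j hj

theorem maj_step (x : Config) (u : ℤ → E) {S : Set ℤ} (hx : ∀ i ∈ S, maj D.N x i = b) {i : ℤ}
    (hi : i + D.ν ∈ Mj D (zs (fun i => B.f (u i)) S)) : maj D.N (B.G.step x u) i = b := by
  classical
  apply maj_eq
  change D.m + 1 ≤ cnt D.N D.ν (zs (fun i => B.f (u i)) S) (i + D.ν) at hi
  rw [cnt] at hi
  refine hi.trans (Finset.card_le_card ?_)
  intro n hn
  rw [Finset.mem_filter] at hn ⊢
  refine ⟨hn.1, ?_⟩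
  have := step_zs B x u hx hn.2
  rwa [show i + D.ν + (n - D.ν) = i + n by ring] at this

section

variable {K ρ : ℕ} {x y : Config} {S : Set ℤ}

/-- An element of the hull of a thick set which is not in the set is deep. -/
theorem deep_of_gap (hT : Thick K S) {c : ℕ} (hc : c ≤ K + 1) {i : ℤ} (hi : i ∈ hull S)
    (hiS : i ∉ S) : deep S c i := by
  obtain ⟨a, ha, d, hd, h1, h2⟩ := hi
  obtain ⟨a', ha', haa⟩ := hT a ha
  obtain ⟨d', hd', hdd⟩ := hT d hd
  rw [Set.mem_Icc] at haa hdd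
  have hc' : (c : ℤ) ≤ K + 1 := by exact_mod_cast hc
  have hK0 : (0 : ℤ) ≤ K := by positivity
  have h3 : a' + K < i := by
    by_contra hcon
    push Not at hcon
    apply hiS
    apply ha'
    rw [Set.mem_Icc]
    constructor <;> linarith [haa.1]
  have h4 : i < d' := by
    by_contra hcon
    push Not at hcon
    apply hiS
    apply hd'
    rw [Set.mem_Icc]
    constructor <;> linarith [hdd.2]
  refine ⟨⟨a', ha' (Set.mem_Icc.2 ⟨le_rfl, by linarith⟩), ?_⟩,
    ⟨d' + K, hd' (Set.mem_Icc.2 ⟨by linarith, le_rfl⟩), ?_⟩⟩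
  · have := Int.add_one_le_iff.2 h3
    linarith
  · have := Int.add_one_le_iff.2 h4
    linarith

theorem deep_shift {c d : ℕ} {i j : ℤ} (h : deep S (c + d) i) (hij : |j - i| ≤ d) :
    deep S c j := by
  obtain ⟨⟨s, hs, h1⟩, ⟨s', hs', h2⟩⟩ := h
  have h3 := abs_le.1 hij
  push_cast at h1 h2
  refine ⟨⟨s, hs, ?_⟩, ⟨s', hs', ?_⟩⟩ <;> linarith [h3.1, h3.2]

theorem deep_mono {c d : ℕ} (hcd : c ≤ d) {i : ℤ} (h : deep S d i) : deep S c i := by
  have hcd' : (c : ℤ) ≤ d := by exact_mod_cast hcd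
  obtain ⟨⟨s, hs, h1⟩, ⟨s', hs', h2⟩⟩ := h
  refine ⟨⟨s, hs, ?_⟩, ⟨s', hs', ?_⟩⟩ <;> linarith

theorem CertG.agreeF (h : CertG D K b x y S ρ) (hK : ρ + D.r ≤ K + 1) {i : ℤ}
    (hi : i ∈ hull S) : maj D.N x i = maj D.N y i := by
  by_cases hiS : i ∈ S
  · rw [h.left i hiS, h.right i hiS]
  · have hd := deep_of_gap h.thick hK hi hiS
    apply maj_congr
    intro n hn
    have h1 := h.agree (i + n - D.ν) (deep_shift hd (by
      rw [show i + n - D.ν - i = n - D.ν by ring]
      exact D.bound n hn))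
    rwa [show i + n - D.ν + D.ν = i + n by ring] at h1

/-- Deep sites have the same new symbol. -/
theorem CertG.step_deep (h : CertG D K b x y S ρ) (hK : ρ + D.r ≤ K + 1) (u : ℤ → E) {i : ℤ}
    (hi : deep S (ρ + R1 D R) i) : B.G.step x u i = B.G.step y u i := by
  have hhull : i ∈ hull S := by
    obtain ⟨⟨s, hs, h1⟩, ⟨s', hs', h2⟩⟩ := hi
    have h3 : (0 : ℤ) ≤ ((ρ + R1 D R : ℕ) : ℤ) := by positivity
    exact ⟨s, hs, s', hs', by linarith, by linarith⟩
  apply step_view B x y u i (h.agreeF hK hhull)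
  intro n hn
  have h1 := h.agree (i + n - D.ν) (deep_shift hi (by
    rw [show i + n - D.ν - i = n - D.ν by ring, R1]
    push_cast
    exact (abs_sub _ _).trans (by linarith)))
  rwa [show i + n - D.ν + D.ν = i + n by ring] at h1

/-- Sites of the hull have the same new symbol unless they are in the zone and hit by noise. -/
theorem CertG.step_eq (h : CertG D K b x y S ρ) (hK : ρ + D.r ≤ K + 1)
    (hKR : ρ + R1 D R ≤ K + 1) (u : ℤ → E) {i : ℤ} (hi : i ∈ hull S)
    (hz : i ∈ zone S (ρ + R1 D R) → B.f (u i) ≠ 2) : B.G.step x u i = B.G.step y u i := by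
  by_cases hd : deep S (ρ + R1 D R) i
  · exact h.step_deep B hK u hd
  · by_cases hiS : i ∈ S
    · have h2 := hz ⟨hiS, hd⟩
      rw [step_two B x u i (h.left i hiS) h2, step_two B y u i (h.right i hiS) h2]
    · exact absurd (deep_of_gap h.thick hKR hi hiS) hd

theorem thick_shS {ν : ℤ} {T : Set ℤ} (hT : Thick K T) : Thick K (shS ν T) := by
  intro i hi
  obtain ⟨k, hk, hik⟩ := hT (i + ν) hi
  rw [Set.mem_Icc] at hik
  refine ⟨k - ν, ?_, ?_⟩
  · intro j hj
    rw [Set.mem_Icc] at hj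
    change j + ν ∈ T
    apply hk
    rw [Set.mem_Icc]
    constructor <;> linarith [hj.1, hj.2]
  · rw [Set.mem_Icc]
    constructor <;> linarith [hik.1, hik.2]

theorem deep_shS {ν : ℤ} {T : Set ℤ} {c : ℕ} {j : ℤ} (h : deep (shS ν T) c j) :
    deep T c (j + ν) := by
  obtain ⟨⟨s, hs, h1⟩, ⟨s', hs', h2⟩⟩ := h
  exact ⟨⟨s + ν, hs, by linarith⟩, ⟨s' + ν, hs', by linarith⟩⟩

/-- The certificate after a step, for a set `T` of sites in the moving frame. -/
theorem CertG.next (h : CertG D K b x y S ρ) (u : ℤ → E) {T : Set ℤ} {ρ' : ℕ}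
    (hT : Thick K T) (hTM : T ⊆ Mj D (zs (fun i => B.f (u i)) S))
    (hag : ∀ j, deep T ρ' j → B.G.step x u j = B.G.step y u j) :
    CertG D K b (B.G.step x u) (B.G.step y u) (shS D.ν T) ρ' where
  thick := thick_shS hT
  left _ hi := maj_step B x u h.left (hTM hi)
  right _ hi := maj_step B y u h.right (hTM hi)
  agree _ hj := hag _ (deep_shS hj)

/-- The set is cut at both ends. -/
def cutM (D : Nb) (K : ℕ) (v : ℤ → Fin 3) (S : Set ℤ) (c : ℕ) : Set ℤ :=
  Op K (upM D K v S ∩ {i | deep S c i})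

theorem upM_sub (D : Nb) (K : ℕ) (v : ℤ → Fin 3) (S : Set ℤ) :
    upM D K v S ⊆ Mj D (zs v S) ∩ hullp S := by
  rintro j ⟨i, hi, hj⟩
  exact hi hj

theorem cutM_sub (D : Nb) (K : ℕ) (v : ℤ → Fin 3) (S : Set ℤ) (c : ℕ) :
    cutM D K v S c ⊆ upM D K v S ∩ {i | deep S c i} := by
  rintro j ⟨i, hi, hj⟩
  exact hi hj

theorem hull_of_deep_upM {v : ℤ → Fin 3} {c : ℕ} (hc : 1 ≤ c) {j : ℤ}
    (h : deep (upM D K v S) c j) : j ∈ hull S := by
  have hc' : (1 : ℤ) ≤ c := by exact_mod_cast hc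
  obtain ⟨⟨s, hs, h1⟩, ⟨s', hs', h2⟩⟩ := h
  obtain ⟨a, ha, _, _, h3, _⟩ := (upM_sub D K v S hs).2
  obtain ⟨_, _, d, hd, _, h4⟩ := (upM_sub D K v S hs').2
  exact ⟨a, ha, d, hd, by linarith, by linarith⟩

/-- No hit: the margin is `1` afterwards. -/
theorem CertG.up_clean (h : CertG D K b x y S ρ) (hK : ρ + D.r ≤ K + 1)
    (hKR : ρ + R1 D R ≤ K + 1) (u : ℤ → E)
    (hz : ∀ i ∈ zone S (ρ + R1 D R), B.f (u i) ≠ 2) :
    CertG D K b (B.G.step x u) (B.G.step y u)
      (shS D.ν (upM D K (fun i => B.f (u i)) S)) 1 := by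
  apply h.next B u (thick_Op K _) (fun i hi => (upM_sub D K _ S hi).1)
  intro j hj
  exact h.step_eq B hK hKR u (hull_of_deep_upM le_rfl hj) (hz j)

/-- In any case the margin is at most `ρ + R1 + 1`. -/
theorem CertG.up_weak (h : CertG D K b x y S ρ) (hK : ρ + D.r ≤ K + 1) (u : ℤ → E) :
    CertG D K b (B.G.step x u) (B.G.step y u)
      (shS D.ν (upM D K (fun i => B.f (u i)) S)) (ρ + R1 D R + 1) := by
  apply h.next B u (thick_Op K _) (fun i hi => (upM_sub D K _ S hi).1)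
  intro j hj
  apply h.step_deep B hK u
  obtain ⟨⟨s, hs, h1⟩, ⟨s', hs', h2⟩⟩ := hj
  obtain ⟨a, ha, _, _, h3, _⟩ := (upM_sub D K _ S hs).2
  obtain ⟨_, _, d, hd, _, h4⟩ := (upM_sub D K _ S hs').2
  push_cast at h1 h2
  refine ⟨⟨a, ha, ?_⟩, ⟨d, hd, ?_⟩⟩
  · push_cast
    linarith
  · push_cast
    linarith

/-- After a cut the margin is `1`. -/
theorem CertG.cut (h : CertG D K b x y S ρ) (hK : ρ + D.r ≤ K + 1) (u : ℤ → E) :
    CertG D K b (B.G.step x u) (B.G.step y u)
      (shS D.ν (cutM D K (fun i => B.f (u i)) S (ρ + R1 D R))) 1 := by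
  apply h.next B u (thick_Op K _)
    (fun i hi => (upM_sub D K _ S (cutM_sub D K _ S _ hi).1).1)
  intro j hj
  apply h.step_deep B hK u
  obtain ⟨⟨s, hs, h1⟩, ⟨s', hs', h2⟩⟩ := hj
  obtain ⟨⟨a, ha, h3⟩, _⟩ := (cutM_sub D K _ S _ hs).2
  obtain ⟨_, ⟨d, hd, h4⟩⟩ := (cutM_sub D K _ S _ hs').2
  push_cast at h1 h2
  exact ⟨⟨a, ha, by linarith⟩, ⟨d, hd, by linarith⟩⟩

/-- Nucleation. -/
theorem certG_nuc (hK : 2 * D.r ≤ K) (x y : Config) (u : ℤ → E) (c : ℤ) (M : ℕ)
    (hM : K ≤ 2 * M) (hu : ∀ i ∈ Set.Icc (c - M) (c + M), B.f (u i) = 1) :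
    CertG D K b (B.G.step x u) (B.G.step y u) (shS D.ν (Set.Icc (c - M) (c + M))) 1 := by
  have hr1 := D.one_le_r
  have hK' : 2 * (D.r : ℤ) ≤ K := by exact_mod_cast hK
  have hM' : (K : ℤ) ≤ 2 * M := by exact_mod_cast hM
  have hb : ∀ (x : Config), ∀ j ∈ Set.Icc (c - M) (c + M), B.G.step x u j = b := by
    intro x j hj
    exact step_one B x u j (hu j hj)
  have hmaj : ∀ (x : Config) (i : ℤ), i + D.ν ∈ Set.Icc (c - (M : ℤ)) (c + M) →
      maj D.N (B.G.step x u) i = b := by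
    classical
    intro x i hi
    rw [Set.mem_Icc] at hi
    apply maj_eq
    by_cases h : c - M + D.r ≤ i + D.ν
    · rw [← D.card_le]
      apply Finset.card_le_card
      intro n hn
      rw [Finset.mem_filter] at hn ⊢
      refine ⟨hn.1, hb x _ ?_⟩
      have h6 := abs_le.1 (D.bound n hn.1)
      rw [Set.mem_Icc]
      constructor <;> linarith [h6.1, hn.2, hi.2]
    · push Not at h
      rw [← D.card_ge]
      apply Finset.card_le_card
      intro n hn
      rw [Finset.mem_filter] at hn ⊢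
      refine ⟨hn.1, hb x _ ?_⟩
      have h6 := abs_le.1 (D.bound n hn.1)
      rw [Set.mem_Icc]
      constructor <;> linarith [h6.2, hn.2, hi.1]
  refine ⟨thick_shS ?_, fun i hi => hmaj x i hi, fun i hi => hmaj y i hi, ?_⟩
  · intro i hi
    rw [Set.mem_Icc] at hi
    by_cases h : i + K ≤ c + M
    · refine ⟨i, ?_, by rw [Set.mem_Icc]; constructor <;> linarith⟩
      intro j hj
      rw [Set.mem_Icc] at hj ⊢
      constructor <;> linarith [hj.1, hj.2, hi.1]
    · push Not at h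
      refine ⟨c + M - K, ?_, ?_⟩
      · intro j hj
        rw [Set.mem_Icc] at hj ⊢
        constructor <;> linarith [hj.1, hj.2]
      · rw [Set.mem_Icc]
        constructor <;> linarith [hi.2]
  · intro j hj
    obtain ⟨⟨s, hs, h1⟩, ⟨s', hs', h2⟩⟩ := deep_shS hj
    rw [Set.mem_Icc] at hs hs'
    push_cast at h1 h2
    have hj : j + D.ν ∈ Set.Icc (c - (M : ℤ)) (c + M) := by
      rw [Set.mem_Icc]
      constructor <;> linarith [hs.1, hs'.2]
    rw [hb x _ hj, hb y _ hj]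

end

end Pool.Agent.Lib.MP_8850da_pr
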