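import Pool.Agent.Lib.MP_8850da_pr.F4

section

section

/-!
# Windows and the recursions for `V`
-/

set_option autoImplicit false

open MeasureTheory

namespace Pool.Agent.Lib.MP_8850da_pr

/-- Positive weights on both sides of `c`. -/
theorem deep_of_Phi {K l L d : ℕ} {c : ℤ} {S : Set ℤ} (h1 : 0 < Phi K l L (c + d) S)
    (h2 : 0 < Phi K l L (c - 2 * l - L - d) S) : deep S d c := by
  obtain ⟨i, hi, hi1, hi2⟩ := exists_of_Phi_pos h1
  obtain ⟨j, hj, hj1, hj2⟩ := exists_of_Phi_pos h2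
  exact ⟨⟨j, mem_of_TT hj, by linarith⟩, ⟨i, mem_of_TT hi, by linarith⟩⟩

/-- If the window at `o` is nearly covered then so are the windows next to it. -/
theorem Phi_cover {K l L : ℕ} (hl : 1 ≤ l) {o o' : ℤ} {S : Set ℤ} (a b : ℤ) (h1 : o + l ≤ a)
    (h2 : b ≤ o + l + L) (h3 : o' + l ≤ a) (h4 : b ≤ o' + l + L) :
    ((b + 1 - a : ℤ) : ℝ) - (2 * l + L + 1 - Phi K l L o S) ≤ Phi K l L o' S := by
  have hl1 : (1 : ℤ) ≤ l := by exact_mod_cast hl
  have e1 : ∑ i ∈ Finset.Icc a b, ind (i ∈ TT K S) ≤ Phi K l L o' S := by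
    have h5 : ∑ i ∈ Finset.Icc a b, ind (i ∈ TT K S) =
        ∑ i ∈ Finset.Icc a b, wt l L o' i * ind (i ∈ TT K S) := by
      apply Finset.sum_congr rfl
      intro i hi
      rw [Finset.mem_Icc] at hi
      rw [wt_flat hl (by linarith [hi.1]) (by linarith [hi.2]), one_mul]
    rw [h5, Phi]
    apply Finset.sum_le_sum_of_subset_of_nonneg
    · intro i hi
      rw [Finset.mem_Icc] at hi
      rw [Wn, Finset.mem_Icc]
      constructor <;> linarith [hi.1, hi.2]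
    · intro i _ _
      exact mul_nonneg (wt_nonneg i) (ind_nonneg _)
  have e2 : ∑ i ∈ Finset.Icc a b, (1 - ind (i ∈ TT K S)) ≤ 2 * l + L + 1 - Phi K l L o S := by
    have h5 : ∑ i ∈ Finset.Icc a b, (1 - ind (i ∈ TT K S)) =
        ∑ i ∈ Finset.Icc a b, (1 - wt l L o i * ind (i ∈ TT K S)) := by
      apply Finset.sum_congr rfl
      intro i hi
      rw [Finset.mem_Icc] at hi
      rw [wt_flat hl (by linarith [hi.1]) (by linarith [hi.2]), one_mul]
    have h6 : 2 * (l : ℝ) + L + 1 - Phi K l L o S =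
        ∑ i ∈ Wn l L o, (1 - wt l L o i * ind (i ∈ TT K S)) := by
      rw [Finset.sum_sub_distrib, Phi, Finset.sum_const, card_Wn, nsmul_eq_mul, mul_one]
      push_cast
      ring
    rw [h5, h6]
    apply Finset.sum_le_sum_of_subset_of_nonneg
    · intro i hi
      rw [Finset.mem_Icc] at hi
      rw [Wn, Finset.mem_Icc]
      constructor <;> linarith [hi.1, hi.2]
    · intro i _ _
      have := mul_le_one₀ (wt_le_one (l := l) (L := L) (o := o) i) (ind_nonneg (i ∈ TT K S))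
        (ind_le_one _)
      linarith
  have e3 : ((b + 1 - a : ℤ) : ℝ) ≤ ∑ i ∈ Finset.Icc a b, (1 : ℝ) := by
    rw [Finset.sum_const, Int.card_Icc, nsmul_eq_mul, mul_one]
    exact_mod_cast Int.self_le_toNat _
  have e4 : ∑ i ∈ Finset.Icc a b, (1 : ℝ) = ∑ i ∈ Finset.Icc a b, ind (i ∈ TT K S) +
      ∑ i ∈ Finset.Icc a b, (1 - ind (i ∈ TT K S)) := by
    rw [← Finset.sum_add_distrib]
    apply Finset.sum_congr rfl
    intro i _
    ring
  linarith

/-- The weight of the nucleus. -/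
theorem Phi_nucC {K l L h : ℕ} (hl : 1 ≤ l) (hK : K ≤ h) (hL : h ≤ L) (c : ℤ) :
    1 ≤ Phi K l L (c - l - h) (Set.Icc (c - K) (c + K)) := by
  have hK' : (K : ℤ) ≤ h := by exact_mod_cast hK
  have hL' : (h : ℤ) ≤ L := by exact_mod_cast hL
  have hK0 : (0 : ℤ) ≤ K := by positivity
  have h1 := card_le_Phi hl (K := K) (L := L) (o := c - l - h)
    (S := Set.Icc (c - (K : ℤ)) (c + K)) (c - K) c (by linarith) (by linarith) (by
      intro i h1 h2 j hj
      rw [Set.mem_Icc] at hj ⊢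
      constructor <;> linarith [hj.1, hj.2])
  refine le_trans ?_ h1
  have h2 : 1 ≤ c + 1 - (c - (K : ℤ)) := by linarith
  exact_mod_cast h2

namespace FPar

variable (P : FPar) {E : Type} [MeasurableSpace E] {b : Bool} (B : BMap P.D b P.R E)
  {ρE : Measure E} [IsProbabilityMeasure ρE] (hρ : ρE.map B.f = P.ρ)

/-- The state is certified. -/
def Ce (b : Bool) (x y : Config) (s : Set ℤ × Bool) : Prop :=
  CertG P.D P.K b x y s.1 (mg P.D P.R s.2)

theorem ce_ns {x y : Config} {s : Set ℤ × Bool} (h : P.Ce b x y s) (u : ℤ → E) :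
    P.Ce b (B.G.step x u) (B.G.step y u) (P.ns (fun i => B.f (u i)) s) :=
  cert_nxM B P.hK1 P.hK2 h u

include hρ

theorem alpha (t : ℕ) : ∀ (x y : Config) (s : Set ℤ × Bool) (c : ℤ), P.Ce b x y s →
    B.G.V ρE (t + 1) x y c ≤
      P.Xc (c + P.D.ν * t + P.Δ) s + P.Xc (c + P.D.ν * t - 2 * P.l - P.L - P.Δ) s +
        2 * t * (2 * (P.p * P.η)) := by
  induction t with
  | zero =>
    intro x y s c h
    rw [Nat.cast_zero, mul_zero, add_zero, Nat.cast_zero, mul_zero, zero_mul, add_zero]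
    have p1 := P.Xc_pos (c + P.Δ) s
    have p2 := P.Xc_pos (c - 2 * P.l - P.L - P.Δ) s
    have hone : ∀ o, ¬ XX P.δ P.K P.l P.L o s.1 < 1 → P.Xc o s = 1 := by
      intro o ho
      apply min_eq_left
      exact (not_lt.1 ho).trans (P.XX_le_X o s)
    have hV := V_le_one B.G ρE (0 + 1) x y c
    by_cases h1 : XX P.δ P.K P.l P.L (c + P.Δ) s.1 < 1
    · by_cases h2 : XX P.δ P.K P.l P.L (c - 2 * P.l - P.L - P.Δ) s.1 < 1
      · have hc := deep_of_Phi (Phi_pos_of_XX h1) (Phi_pos_of_XX h2)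
        have hc' : deep s.1 (mg P.D P.R s.2 + R1 P.D P.R) c := by
          refine deep_mono ?_ hc
          have := hdp_le P.D P.R s.2
          rw [hdp] at this
          rw [Δ]
          omega
        have hK : mg P.D P.R s.2 + P.D.r ≤ P.K + 1 := by
          have := mg_le P.D P.R s.2
          have := P.hK1
          omega
        have h3 : B.G.V ρE (0 + 1) x y c = 0 := by
          rw [LMap.V]
          have h4 : ∀ u : ℤ → E, B.G.V ρE 0 (B.G.step x u) (B.G.step y u) c = 0 := by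
            intro u
            rw [LMap.V, if_pos (CertG.step_deep B h hK u hc')]
          simp only [h4]
          exact integral_zero _ _
        rw [h3]
        linarith
      · rw [hone _ h2]
        linarith
    · rw [hone _ h1]
      linarith
  | succ t ih =>
    intro x y s c h
    rw [LMap.V]
    set o1 : ℤ := c + P.D.ν * t + P.Δ with ho1
    set o2 : ℤ := c + P.D.ν * t - 2 * P.l - P.L - P.Δ with ho2
    have i1 : Integrable (fun v => P.Xc (o1 + P.D.ν) (P.nm v s) +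
        P.Xc (o2 + P.D.ν) (P.nm v s) + 2 * t * (2 * (P.p * P.η))) (nz P.ρ) :=
      ((P.int_Xc _ s).add (P.int_Xc _ s)).add (integrable_const _)
    have h1 : ∫ u, B.G.V ρE (t + 1) (B.G.step x u) (B.G.step y u) c ∂(nz ρE) ≤
        ∫ u, (P.Xc (o1 + P.D.ν) (P.nm (fun i => B.f (u i)) s) +
          P.Xc (o2 + P.D.ν) (P.nm (fun i => B.f (u i)) s) + 2 * t * (2 * (P.p * P.η)))
          ∂(nz ρE) := by
      apply integral_mono (V_int _ _ _ _ _ _)
      · exact int_transfer B.f_meas hρ i1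
      · intro u
        have := ih _ _ _ c (P.ce_ns B h u)
        rw [P.Xc_ns, P.Xc_ns] at this
        exact this
    refine h1.trans ?_
    have h2 := integral_transfer B.f_meas hρ i1
    refine (le_of_eq h2).trans ?_
    have i2 : Integrable (fun v => P.Xc (o1 + P.D.ν) (P.nm v s) +
        P.Xc (o2 + P.D.ν) (P.nm v s)) (nz P.ρ) := (P.int_Xc _ s).add (P.int_Xc _ s)
    rw [integral_add i2 (integrable_const _), integral_add (P.int_Xc _ s) (P.int_Xc _ s),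
      integral_const, probReal_univ, one_smul]
    have d1 := P.D_any (o1 + P.D.ν) s
    have d2 := P.D_any (o2 + P.D.ν) s
    have e1 : c + P.D.ν * ((t + 1 : ℕ) : ℤ) + P.Δ = o1 + P.D.ν := by
      rw [ho1]
      push_cast
      ring
    have e2 : c + P.D.ν * ((t + 1 : ℕ) : ℤ) - 2 * P.l - P.L - P.Δ = o2 + P.D.ν := by
      rw [ho2]
      push_cast
      ring
    rw [e1, e2]
    push_cast
    linarith

/-- (gamma) -/
theorem gam (t : ℕ) {β : ℝ} (hβ : 0 ≤ β) (h : BV B.G ρE (t + 1) β)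
    (k : ℕ) : ∀ (x y : Config) (s : Set ℤ × Bool) (c : ℤ), P.Ce b x y s →
    B.G.V ρE (k + (t + 1)) x y c ≤
      β * (P.Ps P.A k (c + P.D.ν * (k + t : ℕ) + P.Δ) s +
        P.Ps P.A k (c + P.D.ν * (k + t : ℕ) - 2 * P.l - P.L - P.Δ) s) +
      (2 * P.A⁻¹ + 2 * t * (2 * (P.p * P.η))) := by
  have hA0 := P.A_pos
  have hη := P.η_pos
  have hp := P.hp
  induction k with
  | zero =>
    intro x y s c hc
    rw [zero_add, zero_add]
    have n1 := P.Ps_nonneg hA0.le 0 (c + P.D.ν * (t : ℕ) + P.Δ) s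
    have n2 := P.Ps_nonneg hA0.le 0 (c + P.D.ν * (t : ℕ) - 2 * P.l - P.L - P.Δ) s
    have n3 : 0 ≤ 2 * P.A⁻¹ + 2 * t * (2 * (P.p * P.η)) := by positivity
    have hone : ∀ o, P.A⁻¹ ≤ P.X o s → P.Ps P.A 0 o s = 1 := fun o ho => P.Ps_zero hA0 o s ho
    have hV := h x y c
    rcases le_or_gt P.A⁻¹ (P.X (c + P.D.ν * (t : ℕ) + P.Δ) s) with h1 | h1
    · rw [hone _ h1]
      have := mul_nonneg hβ n2
      linarith
    · rcases le_or_gt P.A⁻¹ (P.X (c + P.D.ν * (t : ℕ) - 2 * P.l - P.L - P.Δ) s) with h2 | h2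
      · rw [hone _ h2]
        have := mul_nonneg hβ n1
        linarith
      · have h3 := P.alpha B hρ t x y s c hc
        have h4 := mul_nonneg hβ (add_nonneg n1 n2)
        have h5 := P.Xc_le (c + P.D.ν * (t : ℕ) + P.Δ) s
        have h6 := P.Xc_le (c + P.D.ν * (t : ℕ) - 2 * P.l - P.L - P.Δ) s
        linarith
  | succ k ih =>
    intro x y s c hc
    rw [show k + 1 + (t + 1) = k + (t + 1) + 1 by ring, LMap.V]
    set o1 : ℤ := c + P.D.ν * (k + t : ℕ) + P.Δ with ho1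
    set o2 : ℤ := c + P.D.ν * (k + t : ℕ) - 2 * P.l - P.L - P.Δ with ho2
    have i1 : Integrable (fun v => P.Ps P.A k (o1 + P.D.ν) (P.nm v s) +
        P.Ps P.A k (o2 + P.D.ν) (P.nm v s)) (nz P.ρ) := (P.int_Ps hA0.le k _ s).add (P.int_Ps hA0.le k _ s)
    have i2 : Integrable (fun v => β * (P.Ps P.A k (o1 + P.D.ν) (P.nm v s) +
        P.Ps P.A k (o2 + P.D.ν) (P.nm v s)) + (2 * P.A⁻¹ + 2 * t * (2 * (P.p * P.η)))) (nz P.ρ) :=
      (i1.const_mul β).add (integrable_const _)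
    have h1 : ∫ u, B.G.V ρE (k + (t + 1)) (B.G.step x u) (B.G.step y u) c ∂(nz ρE) ≤
        ∫ u, (β * (P.Ps P.A k (o1 + P.D.ν) (P.nm (fun i => B.f (u i)) s) +
          P.Ps P.A k (o2 + P.D.ν) (P.nm (fun i => B.f (u i)) s)) +
          (2 * P.A⁻¹ + 2 * t * (2 * (P.p * P.η)))) ∂(nz ρE) := by
      apply integral_mono (V_int _ _ _ _ _ _)
      · exact int_transfer B.f_meas hρ i2
      · intro u
        have := ih _ _ _ c (P.ce_ns B hc u)
        rw [P.Ps_ns, P.Ps_ns] at this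
        exact this
    refine h1.trans ?_
    have h2 := integral_transfer B.f_meas hρ i2
    refine (le_of_eq h2).trans ?_
    rw [integral_add (i1.const_mul β) (integrable_const _), integral_const_mul,
      integral_add (P.int_Ps hA0.le _ _ s) (P.int_Ps hA0.le _ _ s), integral_const, probReal_univ,
      one_smul]
    have d1 := P.E_Ps P.one_le_A k (o1 + P.D.ν) s
    have d2 := P.E_Ps P.one_le_A k (o2 + P.D.ν) s
    have e1 : c + P.D.ν * ((k + 1 + t : ℕ) : ℤ) + P.Δ = o1 + P.D.ν := by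
      rw [ho1]
      push_cast
      ring
    have e2 : c + P.D.ν * ((k + 1 + t : ℕ) : ℤ) - 2 * P.l - P.L - P.Δ = o2 + P.D.ν := by
      rw [ho2]
      push_cast
      ring
    rw [e1, e2]
    have d3 := mul_le_mul_of_nonneg_left (add_le_add d1 d2) hβ
    linarith

/-- The first stage: a nearly covered central window. -/
theorem stage (t : ℕ) {β : ℝ} (hβ : 0 ≤ β) (h : BV B.G ρE (t + 1) β) (k : ℕ)
    (hside : ∀ o s, (P.L : ℝ) / 4 ≤ Phi P.K P.l P.L o s.1 → P.Ps P.A k o s ≤ 1 / 4)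
    (hLbig : 8 * (P.Δ + 3 * P.l + 1) ≤ P.L)
    (j : ℕ) : ∀ (x y : Config) (s : Set ℤ × Bool) (c : ℤ), P.Ce b x y s →
    B.G.V ρE (j + (k + (t + 1))) x y c ≤
      β * (1 / 2 + P.Ps P.A1 j
        (c + P.D.ν * (j + (k + t) : ℕ) - P.l - (P.L / 2 : ℕ)) s / 2) +
      (2 * P.A⁻¹ + 2 * t * (2 * (P.p * P.η))) := by
  have hA0 := P.A_pos
  have hη := P.η_pos
  have hp := P.hp
  have hA1 := P.A1_pos
  have hE0 : 0 ≤ 2 * P.A⁻¹ + 2 * t * (2 * (P.p * P.η)) := by positivity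
  induction j with
  | zero =>
    intro x y s c hc
    rw [zero_add, zero_add]
    set cc : ℤ := c + P.D.ν * (k + t : ℕ) with hcc
    have n1 := P.Ps_nonneg hA1.le 0 (cc - P.l - (P.L / 2 : ℕ)) s
    rcases le_or_gt P.A1⁻¹ (P.X (cc - P.l - (P.L / 2 : ℕ)) s) with h1 | h1
    · rw [P.Ps_zero hA1 _ s h1]
      have hV := BV_mono B.G ρE (Nat.le_add_left (t + 1) k) h x y c
      linarith
    · have h2 : P.δ * (7 * P.L / 8) <
          P.δ * Phi P.K P.l P.L (cc - P.l - (P.L / 2 : ℕ)) s.1 := by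
        have h3 := (P.XX_le_X (cc - P.l - (P.L / 2 : ℕ)) s).trans_lt h1
        rw [A1, ← Real.exp_neg, XX, Real.exp_lt_exp] at h3
        linarith
      have h3 : 7 * (P.L : ℝ) / 8 < Phi P.K P.l P.L (cc - P.l - (P.L / 2 : ℕ)) s.1 :=
        lt_of_mul_lt_mul_left h2 P.hδ.le
      have hh1 : ((P.L / 2 : ℕ) : ℤ) ≤ P.L := by
        have : P.L / 2 ≤ P.L := Nat.div_le_self _ _
        exact_mod_cast this
      have hh2 : (P.L : ℝ) ≤ 2 * (P.L / 2 : ℕ) + 1 := by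
        have : P.L ≤ 2 * (P.L / 2) + 1 := by omega
        exact_mod_cast this
      have hh3 : 2 * ((P.L / 2 : ℕ) : ℝ) ≤ P.L := by
        have : 2 * (P.L / 2) ≤ P.L := by omega
        exact_mod_cast this
      have hLb : 8 * ((P.Δ : ℝ) + 3 * P.l + 1) ≤ P.L := by exact_mod_cast hLbig
      have hΔ0 : (0 : ℤ) ≤ P.Δ := by positivity
      have hl0 : (0 : ℤ) ≤ P.l := by positivity
      -- the right window
      have w1 := Phi_cover (K := P.K) (L := P.L) (S := s.1) P.hl (o := cc - P.l - (P.L / 2 : ℕ))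
        (o' := cc + P.Δ) (cc + P.Δ + P.l) (cc - (P.L / 2 : ℕ) + P.L) (by linarith) (by linarith)
        (by linarith) (by linarith)
      -- the left window
      have w2 := Phi_cover (K := P.K) (L := P.L) (S := s.1) P.hl (o := cc - P.l - (P.L / 2 : ℕ))
        (o' := cc - 2 * P.l - P.L - P.Δ) (cc - (P.L / 2 : ℕ)) (cc - P.l - P.Δ) (by linarith)
        (by linarith) (by linarith) (by linarith)
      have e1 : ∀ h : ℕ, ((cc - (h : ℤ) + P.L + 1 - (cc + P.Δ + P.l) : ℤ) : ℝ) =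
          P.L - h + 1 - P.Δ - P.l := by
        intro h
        push_cast
        ring
      have e2 : ∀ h : ℕ, ((cc - (P.l : ℤ) - P.Δ + 1 - (cc - (h : ℤ)) : ℤ) : ℝ) =
          h + 1 - P.Δ - P.l := by
        intro h
        push_cast
        ring
      rw [e1] at w1
      rw [e2] at w2
      have s1 := hside (cc + P.Δ) s (by linarith)
      have s2 := hside (cc - 2 * P.l - P.L - P.Δ) s (by linarith)
      have h4 := P.gam B hρ t hβ h k x y s c hc
      have h5 := mul_le_mul_of_nonneg_left (add_le_add s1 s2) hβ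
      have h6 := mul_nonneg hβ n1
      rw [← hcc] at h4
      linarith
  | succ j ih =>
    intro x y s c hc
    rw [show j + 1 + (k + (t + 1)) = j + (k + (t + 1)) + 1 by ring, LMap.V]
    set o1 : ℤ := c + P.D.ν * (j + (k + t) : ℕ) - P.l - (P.L / 2 : ℕ) with ho1
    have i1 : Integrable (fun v => P.Ps P.A1 j (o1 + P.D.ν) (P.nm v s)) (nz P.ρ) :=
      P.int_Ps hA1.le j _ s
    have i2 : Integrable (fun v => β * (1 / 2 + P.Ps P.A1 j (o1 + P.D.ν) (P.nm v s) / 2) +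
        (2 * P.A⁻¹ + 2 * t * (2 * (P.p * P.η)))) (nz P.ρ) :=
      (((integrable_const _).add (i1.div_const 2)).const_mul β).add (integrable_const _)
    have h1 : ∫ u, B.G.V ρE (j + (k + (t + 1))) (B.G.step x u) (B.G.step y u) c ∂(nz ρE) ≤
        ∫ u, (β * (1 / 2 + P.Ps P.A1 j (o1 + P.D.ν) (P.nm (fun i => B.f (u i)) s) / 2) +
          (2 * P.A⁻¹ + 2 * t * (2 * (P.p * P.η)))) ∂(nz ρE) := by
      apply integral_mono (V_int _ _ _ _ _ _)
      · exact int_transfer B.f_meas hρ i2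
      · intro u
        have := ih _ _ _ c (P.ce_ns B hc u)
        rw [P.Ps_ns] at this
        exact this
    refine h1.trans ?_
    have h2 := integral_transfer B.f_meas hρ i2
    refine (le_of_eq h2).trans ?_
    have i3 : Integrable (fun v => 1 / 2 + P.Ps P.A1 j (o1 + P.D.ν) (P.nm v s) / 2) (nz P.ρ) :=
      (integrable_const _).add (i1.div_const 2)
    have e0 : ∫ v, P.Ps P.A1 j (o1 + P.D.ν) (P.nm v s) / 2 ∂(nz P.ρ) =
        (∫ v, P.Ps P.A1 j (o1 + P.D.ν) (P.nm v s) ∂(nz P.ρ)) / 2 := integral_div _ _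
    rw [integral_add (i3.const_mul β) (integrable_const _), integral_const_mul,
      integral_add (integrable_const _) (i1.div_const 2), e0, integral_const,
      integral_const, probReal_univ, one_smul, one_smul]
    have d1 := P.E_Ps P.one_le_A1 j (o1 + P.D.ν) s
    have e1 : c + P.D.ν * ((j + 1 + (k + t) : ℕ) : ℤ) - P.l - (P.L / 2 : ℕ) =
        o1 + P.D.ν := by
      rw [ho1]
      push_cast
      ring
    rw [e1]
    have d3 := mul_le_mul_of_nonneg_left d1 hβ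
    linarith

/-- (delta) -/
theorem del (t : ℕ) {β : ℝ} (hβ : 0 ≤ β) (h : BV B.G ρE (t + 1) β)
    (k k₁ : ℕ) (hside : ∀ o s, (P.L : ℝ) / 4 ≤ Phi P.K P.l P.L o s.1 → P.Ps P.A k o s ≤ 1 / 4)
    (hLbig : 8 * (P.Δ + 3 * P.l + 1) ≤ P.L) (hKL : 2 * P.K ≤ P.L)
    (hcen : ∀ o S, 1 ≤ Phi P.K P.l P.L o S → P.Ps P.A1 k₁ o (S, false) ≤ 1 - P.δ / 4) :
    BV B.G ρE (t + 1 + (k₁ + k + 1)) ((1 - P.p ^ (2 * P.K + 1) * (P.δ / 8)) * β +
      P.p ^ (2 * P.K + 1) * (2 * P.A⁻¹ + 2 * t * (2 * (P.p * P.η)))) := by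
  classical
  intro x y c
  rw [show t + 1 + (k₁ + k + 1) = k₁ + (k + (t + 1)) + 1 by ring, LMap.V]
  set Er : ℝ := 2 * P.A⁻¹ + 2 * t * (2 * (P.p * P.η)) with hEr
  set cs : ℤ := c + P.D.ν * (k₁ + (k + t) : ℕ) + P.D.ν with hcs
  set Q : Finset ℤ := Finset.Icc (cs - P.K) (cs + P.K) with hQ
  have hQc : Q.card = 2 * P.K + 1 := by
    rw [hQ, Int.card_Icc]
    have : cs + (P.K : ℤ) + 1 - (cs - P.K) = ((2 * P.K + 1 : ℕ) : ℤ) := by
      push_cast
      ring
    rw [this, Int.toNat_natCast]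
  -- the event of nucleation
  have hI : ∫ u : ℤ → Fin 3, ∏ i ∈ Q, ind (u i = 1) ∂(nz P.ρ) = P.p ^ (2 * P.K + 1) := by
    have h1 := integral_prod_nz P.ρ Q (fun _ e => ind (e = 1))
    rw [h1]
    have h2 : ∀ i ∈ Q, ∫ e, ind (e = 1) ∂P.ρ = P.p := by
      intro i _
      rw [ρ, integral_rho P.hp.le P.hq P.pq, ind_neg (by decide), ind_pos rfl,
        ind_neg (by decide)]
      ring
    rw [Finset.prod_congr rfl h2, Finset.prod_const, hQc]
  have hint : Integrable (fun u : ℤ → Fin 3 => ∏ i ∈ Q, ind (u i = 1)) (nz P.ρ) := by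
    apply integrable_of_dep Q _ _ 1
    · intro u
      rw [Finset.abs_prod]
      apply Finset.prod_le_one (fun i _ => abs_nonneg _)
      intro i _
      rw [abs_of_nonneg (ind_nonneg _)]
      exact ind_le_one _
    · intro u v h
      apply Finset.prod_congr rfl
      intro i hi
      rw [h i hi]
  have hBk : BV B.G ρE (k₁ + (k + (t + 1))) β :=
    BV_mono _ _ (by omega) h
  have hpt : ∀ u : ℤ → E, B.G.V ρE (k₁ + (k + (t + 1))) (B.G.step x u)
      (B.G.step y u) c ≤ β - (∏ i ∈ Q, ind (B.f (u i) = 1)) * (β * (P.δ / 8) - Er) := by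
    intro u
    by_cases hu : ∀ i ∈ Q, B.f (u i) = 1
    · have h1 : ∏ i ∈ Q, ind (B.f (u i) = 1) = 1 := by
        apply Finset.prod_eq_one
        intro i hi
        exact ind_pos (hu i hi)
      rw [h1, one_mul]
      have hcert : P.Ce b (B.G.step x u) (B.G.step y u)
          (shS P.D.ν (Set.Icc (cs - P.K) (cs + P.K)), false) :=
        certG_nuc B P.hK x y u cs P.K (by omega) (by
          intro i hi
          apply hu
          rw [hQ, Finset.mem_Icc]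
          exact hi)
      have h2 := P.stage B hρ t hβ h k hside hLbig k₁ _ _ _ c hcert
      have w1 : P.Ps P.A1 k₁ (c + P.D.ν * (k₁ + (k + t) : ℕ) - P.l - (P.L / 2 : ℕ))
          (shS P.D.ν (Set.Icc (cs - (P.K : ℤ)) (cs + P.K)), false) ≤ 1 - P.δ / 4 := by
        apply hcen
        have e := Phi_shift P.K P.l P.L (c + P.D.ν * (k₁ + (k + t) : ℕ) - P.l - (P.L / 2 : ℕ))
          P.D.ν (Set.Icc (cs - (P.K : ℤ)) (cs + P.K))
        rw [show c + P.D.ν * (k₁ + (k + t) : ℕ) - (P.l : ℤ) - (P.L / 2 : ℕ) + P.D.ν =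
          cs - P.l - (P.L / 2 : ℕ) by rw [hcs]; ring] at e
        exact (Phi_nucC P.hl (by omega) (Nat.div_le_self _ _) cs).trans (le_of_eq e.symm)
      have h3 := mul_le_mul_of_nonneg_left w1 hβ
      linarith
    · push Not at hu
      obtain ⟨i, hi, hui⟩ := hu
      have h1 : ∏ i ∈ Q, ind (B.f (u i) = 1) = 0 :=
        Finset.prod_eq_zero hi (ind_neg hui)
      rw [h1, zero_mul, sub_zero]
      exact hBk _ _ c
  have i3 : Integrable (fun v : ℤ → Fin 3 => β - (∏ i ∈ Q, ind (v i = 1)) *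
      (β * (P.δ / 8) - Er)) (nz P.ρ) :=
    (integrable_const _).sub (hint.mul_const (β * (P.δ / 8) - Er))
  have h1 := integral_mono (V_int B.G ρE (k₁ + (k + (t + 1))) x y c)
    (int_transfer B.f_meas hρ i3) hpt
  refine h1.trans (le_of_eq ?_)
  refine (integral_transfer B.f_meas hρ i3).trans ?_
  rw [integral_sub (integrable_const _) (hint.mul_const _), integral_const, probReal_univ,
    one_smul, integral_mul_const, hI]
  ring

/-- (epsilon) -/
theorem eps (k k₁ : ℕ)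
    (hside : ∀ o s, (P.L : ℝ) / 4 ≤ Phi P.K P.l P.L o s.1 → P.Ps P.A k o s ≤ 1 / 4)
    (hLbig : 8 * (P.Δ + 3 * P.l + 1) ≤ P.L) (hKL : 2 * P.K ≤ P.L)
    (hcen : ∀ o S, 1 ≤ Phi P.K P.l P.L o S → P.Ps P.A1 k₁ o (S, false) ≤ 1 - P.δ / 4)
    (T : ℕ) (j : ℕ) (hj : 1 + j * (k₁ + k + 1) ≤ T) :
    BV B.G ρE (1 + j * (k₁ + k + 1)) ((1 - P.p ^ (2 * P.K + 1) * (P.δ / 8)) ^ j +
      8 / P.δ * (2 * P.A⁻¹ + 2 * T * (2 * (P.p * P.η)))) := by
  have hA0 := P.A_pos
  have hη := P.η_pos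
  have hp := P.hp
  have hp1 := P.p_le
  have hδ := P.hδ
  have hδ1 := P.δ_le_one
  have hq0 : P.p ^ (2 * P.K + 1) ≤ 1 := pow_le_one₀ hp.le hp1
  have hq2 : P.p ^ (2 * P.K + 1) * (P.δ / 8) ≤ 1 * (1 / 8) :=
    mul_le_mul hq0 (by linarith) (by positivity) (by norm_num)
  have hq1 : 0 ≤ 1 - P.p ^ (2 * P.K + 1) * (P.δ / 8) := by linarith
  set Er : ℝ := 2 * P.A⁻¹ + 2 * T * (2 * (P.p * P.η)) with hEr
  have hE0 : 0 ≤ Er := by positivity
  induction j with
  | zero =>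
    rw [zero_mul, add_zero, pow_zero]
    intro x y c
    have := V_le_one B.G ρE 1 x y c
    have h0 : 0 ≤ 8 / P.δ * Er := by positivity
    linarith
  | succ j ih =>
    have hj' : 1 + j * (k₁ + k + 1) ≤ T := by
      refine le_trans ?_ hj
      rw [Nat.succ_mul]
      omega
    have h1 := ih hj'
    have h2 := P.del B hρ (j * (k₁ + k + 1))
      (β := (1 - P.p ^ (2 * P.K + 1) * (P.δ / 8)) ^ j + 8 / P.δ * Er)
      (by positivity) (by rw [add_comm]; exact h1) k k₁ hside hLbig hKL hcen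
    intro x y c
    have h3 := h2 x y c
    rw [show 1 + (j + 1) * (k₁ + k + 1) = j * (k₁ + k + 1) + 1 + (k₁ + k + 1) by ring]
    refine h3.trans ?_
    have h4 : 2 * P.A⁻¹ + 2 * ((j * (k₁ + k + 1) : ℕ) : ℝ) * (2 * (P.p * P.η)) ≤ Er := by
      have : ((j * (k₁ + k + 1) : ℕ) : ℝ) ≤ T := by
        have : j * (k₁ + k + 1) ≤ T := by omega
        exact_mod_cast this
      have h5 := mul_le_mul_of_nonneg_right this (show 0 ≤ 2 * (2 * (P.p * P.η)) by positivity)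
      rw [hEr]
      linarith
    have h5 := mul_le_mul_of_nonneg_left h4 (show 0 ≤ P.p ^ (2 * P.K + 1) by positivity)
    have h6 : P.p ^ (2 * P.K + 1) * (P.δ / 8) * (8 / P.δ * Er) =
        P.p ^ (2 * P.K + 1) * Er := by
      field_simp
    rw [pow_succ (1 - P.p ^ (2 * P.K + 1) * (P.δ / 8)) j]
    linarith

end FPar

end Pool.Agent.Lib.MP_8850da_pr
end

section

/-!
# Choice of the parameters
-/

set_option autoImplicit false

open MeasureTheory

namespace Pool.Agent.Lib.MP_8850da_pr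

theorem evt (N : ℕ) {c : ℝ} (hc : 0 < c) (C : ℝ) {ε : ℝ} (hε : 0 < ε) :
    ∀ᶠ z : ℝ in Filter.atTop, C * (z ^ N * Real.exp (-(c * z))) < ε := by
  have h1 := Real.tendsto_pow_mul_exp_neg_atTop_nhds_zero N
  have h2 : Filter.Tendsto (fun z : ℝ => c * z) Filter.atTop Filter.atTop :=
    Filter.Tendsto.const_mul_atTop hc Filter.tendsto_id
  have h3 := (h1.comp h2).const_mul (C * (c ^ N)⁻¹)
  rw [mul_zero] at h3
  have h4 : ∀ z : ℝ, C * (c ^ N)⁻¹ * ((fun x : ℝ => x ^ N * Real.exp (-x)) ∘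
      fun z : ℝ => c * z) z = C * (z ^ N * Real.exp (-(c * z))) := by
    intro z
    have hcN : c ^ N ≠ 0 := by positivity
    change C * (c ^ N)⁻¹ * ((c * z) ^ N * Real.exp (-(c * z))) = _
    rw [mul_pow]
    field_simp
  simp only [h4] at h3
  exact h3.eventually_lt_const hε

section

variable {n : ℕ} {z δ c₀ p a₁ A₂ a₃ : ℝ}

theorem pz (hz : 1 ≤ z) (hp : p = (z ^ (2 * n + 2))⁻¹) : p * z ^ (2 * n + 2) = 1 := by
  rw [hp]
  exact inv_mul_cancel₀ (by positivity)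

theorem dec_est {L k : ℕ} (hz : 1 ≤ z) (hp : p = (z ^ (2 * n + 2))⁻¹) (hδ2 : δ ≤ 1 / z ^ n)
    (hδ0 : 0 < δ) (hδ1 : a₁ / z ^ n ≤ δ)
    (hc : a₃ / z ^ (3 * n) ≤ c₀) (hc1 : c₀ ≤ 1) (hc0 : 0 < c₀)
    (hL : (L : ℝ) ≤ z ^ (n + 1) + 1) (hk : z ^ (5 * n + 4) ≤ k)
    (he : 8 * (z ^ n * Real.exp (-(1 * z))) < a₁) (he2 : 6 ≤ a₃ * z) :
    (1 - c₀ * p / 2) ^ k * Real.exp (δ * (7 * L / 8)) ≤ δ / 8 := by
  have hpz := pz hz hp
  have hz0 : 0 < z := by linarith
  have hp0 : 0 < p := by rw [hp]; positivity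
  have hp1 : p ≤ 1 := by
    rw [hp]
    exact inv_le_one_of_one_le₀ (one_le_pow₀ hz)
  have hzn : 1 ≤ z ^ n := one_le_pow₀ hz
  have h1 : a₃ * z ^ 2 ≤ c₀ * p * k := by
    have g1 : a₃ ≤ c₀ * z ^ (3 * n) := by
      rwa [div_le_iff₀ (by positivity)] at hc
    have g2 : c₀ * p * z ^ (5 * n + 4) ≤ c₀ * p * k :=
      mul_le_mul_of_nonneg_left hk (by positivity)
    have g3 : c₀ * p * z ^ (5 * n + 4) = c₀ * z ^ (3 * n) * (p * z ^ (2 * n + 2)) * z ^ 2 := by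
      rw [show 5 * n + 4 = 3 * n + (2 * n + 2) + 2 by ring, pow_add z (3 * n + (2 * n + 2)) 2,
        pow_add z (3 * n) (2 * n + 2)]
      ring
    rw [hpz, mul_one] at g3
    have g4 := mul_le_mul_of_nonneg_right g1 (show 0 ≤ z ^ 2 by positivity)
    linarith
  have h2 : δ * L ≤ 2 * z := by
    have g1 : δ * L ≤ 1 / z ^ n * (z ^ (n + 1) + 1) :=
      mul_le_mul hδ2 hL (by positivity) (by positivity)
    have g2 : 1 / z ^ n * (z ^ (n + 1) + 1) = z + 1 / z ^ n := by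
      rw [pow_succ]
      field_simp
    have g3 : 1 / z ^ n ≤ 1 := by
      rw [div_le_one (by positivity)]
      exact hzn
    linarith
  have h3 : (1 - c₀ * p / 2) ^ k ≤ Real.exp (-(c₀ * p / 2)) ^ k := by
    apply pow_le_pow_left₀
    · have := mul_le_mul hc1 hp1 hp0.le (by norm_num)
      linarith
    · have := Real.add_one_le_exp (-(c₀ * p / 2))
      linarith
  rw [← Real.exp_nat_mul] at h3
  have h4 := mul_le_mul_of_nonneg_right h3 (Real.exp_pos (δ * (7 * L / 8))).le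
  refine h4.trans ?_
  rw [← Real.exp_add]
  have h5 : (k : ℝ) * -(c₀ * p / 2) + δ * (7 * L / 8) ≤ -(1 * z) := by
    have g1 : 6 * z ≤ a₃ * z ^ 2 := by
      have := mul_le_mul_of_nonneg_right he2 hz0.le
      calc 6 * z ≤ a₃ * z * z := this
        _ = a₃ * z ^ 2 := by ring
    have g2 : δ * (7 * L / 8) ≤ 7 / 8 * (2 * z) := by
      have := mul_le_mul_of_nonneg_left h2 (show (0 : ℝ) ≤ 7 / 8 by norm_num)
      linarith
    linarith
  have h6 := Real.exp_le_exp.2 h5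
  refine h6.trans ?_
  have h7 : a₁ ≤ δ * z ^ n := by rwa [div_le_iff₀ (by positivity)] at hδ1
  have h8 : z ^ n * (8 * Real.exp (-(1 * z))) ≤ z ^ n * δ := by linarith
  have h9 := le_of_mul_le_mul_left h8 (show 0 < z ^ n by positivity)
  linarith

theorem final_est {L k j K Rg : ℕ} (hz : 1 ≤ z) (hp : p = (z ^ (2 * n + 2))⁻¹)
    (hδ0 : 0 < δ) (hδ1 : a₁ / z ^ n ≤ δ) (hδ2 : δ ≤ 1) (ha₁ : 0 < a₁)
    (hδL : a₁ * z ≤ δ * L)
    (hk : (k : ℝ) ≤ 2 * z ^ (5 * n + 4))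
    (hj : z ^ ((2 * n + 2) * (2 * K + 1) + n + 2) ≤ j)
    (hj2 : (j : ℝ) ≤ 2 * z ^ ((2 * n + 2) * (2 * K + 1) + n + 2)) (hz4 : 4 ≤ z)
    (he : (22 * Rg + 1) * (1 + 8 / a₁ * 46) *
      (z ^ (2 * ((2 * n + 2) * (2 * K + 1) + n + 2 + (5 * n + 4)) + n) *
        Real.exp (-(a₁ / 2 * z))) < 1) :
    (2 * (Rg : ℝ) * (1 + j * (k + k + 1) : ℕ) + 1) *
      ((1 - p ^ (2 * K + 1) * (δ / 8)) ^ j + 8 / δ * (2 * Real.exp (-(δ * L / 2)) +
        2 * (1 + j * (k + k + 1) : ℕ) * (2 * (p * Real.exp (-(δ * L)))))) < 1 := by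
  have hpz := pz hz hp
  have hz0 : 0 < z := by linarith
  have hp0 : 0 < p := by rw [hp]; positivity
  have hp1 : p ≤ 1 := by
    rw [hp]
    exact inv_le_one_of_one_le₀ (one_le_pow₀ hz)
  have hzn : 1 ≤ z ^ n := one_le_pow₀ hz
  set J : ℕ := (2 * n + 2) * (2 * K + 1) + n + 2 with hJ
  set W : ℕ := J + (5 * n + 4) with hW
  set E : ℝ := Real.exp (-(a₁ / 2 * z)) with hE
  have hE0 : 0 < E := Real.exp_pos _
  have hzW : 1 ≤ z ^ W := one_le_pow₀ hz
  -- the time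
  have hT : ((1 + j * (k + k + 1) : ℕ) : ℝ) ≤ 11 * z ^ W := by
    push_cast
    have hz5 : 1 ≤ z ^ (5 * n + 4) := one_le_pow₀ hz
    have g3 : (j : ℝ) * (k + k + 1) ≤ 2 * z ^ J * (5 * z ^ (5 * n + 4)) :=
      mul_le_mul hj2 (by linarith) (by positivity) (by positivity)
    have g4 : 2 * z ^ J * (5 * z ^ (5 * n + 4)) = 10 * z ^ W := by
      rw [hW, pow_add]
      ring
    linarith
  set T : ℝ := ((1 + j * (k + k + 1) : ℕ) : ℝ) with hTd
  have hT0 : 0 ≤ T := by positivity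
  -- nucleation
  have f1 : (1 - p ^ (2 * K + 1) * (δ / 8)) ^ j ≤ E := by
    have g0 : p ^ (2 * K + 1) ≤ 1 := pow_le_one₀ hp0.le hp1
    have g0' : p ^ (2 * K + 1) * (δ / 8) ≤ 1 * (1 / 8) :=
      mul_le_mul g0 (by linarith) (by positivity) (by norm_num)
    have g1 : (1 - p ^ (2 * K + 1) * (δ / 8)) ^ j ≤
        Real.exp (-(p ^ (2 * K + 1) * (δ / 8))) ^ j := by
      apply pow_le_pow_left₀ (by linarith)
      have := Real.add_one_le_exp (-(p ^ (2 * K + 1) * (δ / 8)))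
      linarith
    rw [← Real.exp_nat_mul] at g1
    refine g1.trans ?_
    rw [hE, Real.exp_le_exp]
    have h7 : a₁ ≤ δ * z ^ n := by rwa [div_le_iff₀ (by positivity)] at hδ1
    have g2 : a₁ / 8 * z ^ 2 ≤ j * (p ^ (2 * K + 1) * (δ / 8)) := by
      have g3 : z ^ J * (p ^ (2 * K + 1) * (δ / 8)) ≤ j * (p ^ (2 * K + 1) * (δ / 8)) :=
        mul_le_mul_of_nonneg_right hj (by positivity)
      have g4 : z ^ J * (p ^ (2 * K + 1) * (δ / 8)) =
          (p * z ^ (2 * n + 2)) ^ (2 * K + 1) * (δ * z ^ n / 8 * z ^ 2) := by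
        rw [mul_pow, ← pow_mul, hJ, pow_add z ((2 * n + 2) * (2 * K + 1) + n) 2,
          pow_add z ((2 * n + 2) * (2 * K + 1)) n]
        ring
      rw [hpz, one_pow, one_mul] at g4
      have g5 := mul_le_mul_of_nonneg_right h7 (show 0 ≤ z ^ 2 / 8 by positivity)
      linarith
    have g6 : 4 * z ≤ z ^ 2 := by nlinarith
    have g7 := mul_le_mul_of_nonneg_left g6 (show 0 ≤ a₁ / 8 by positivity)
    linarith
  have f2 : Real.exp (-(δ * L / 2)) ≤ E := by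
    rw [hE, Real.exp_le_exp]
    linarith
  have f3 : p * Real.exp (-(δ * L)) ≤ E := by
    have g1 : Real.exp (-(δ * L)) ≤ E := by
      rw [hE, Real.exp_le_exp]
      have := mul_pos ha₁ hz0
      linarith
    have g2 : p * Real.exp (-(δ * L)) ≤ 1 * E :=
      mul_le_mul hp1 g1 (Real.exp_pos _).le (by norm_num)
    linarith
  have f4 : 8 / δ ≤ 8 / a₁ * z ^ n := by
    have h7 : a₁ ≤ δ * z ^ n := by rwa [div_le_iff₀ (by positivity)] at hδ1
    rw [div_mul_eq_mul_div, div_le_div_iff₀ hδ0 ha₁]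
    linarith
  have f5 : 2 * Real.exp (-(δ * L / 2)) + 2 * T * (2 * (p * Real.exp (-(δ * L)))) ≤
      46 * z ^ W * E := by
    have g1 : T * (p * Real.exp (-(δ * L))) ≤ 11 * z ^ W * E :=
      mul_le_mul hT f3 (by positivity) (by positivity)
    have g2 : E ≤ z ^ W * E := le_mul_of_one_le_left hE0.le hzW
    linarith
  have f6 : 8 / δ * (2 * Real.exp (-(δ * L / 2)) + 2 * T * (2 * (p * Real.exp (-(δ * L))))) ≤
      8 / a₁ * z ^ n * (46 * z ^ W * E) :=
    mul_le_mul f4 f5 (by positivity) (by positivity)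
  have f7 : (1 - p ^ (2 * K + 1) * (δ / 8)) ^ j + 8 / δ * (2 * Real.exp (-(δ * L / 2)) +
        2 * T * (2 * (p * Real.exp (-(δ * L))))) ≤ (1 + 8 / a₁ * 46) * (z ^ (W + n) * E) := by
    have g1 : 1 ≤ z ^ (W + n) := one_le_pow₀ hz
    have g2 : E ≤ z ^ (W + n) * E := le_mul_of_one_le_left hE0.le g1
    have g3 : 8 / a₁ * z ^ n * (46 * z ^ W * E) = 8 / a₁ * 46 * (z ^ (W + n) * E) := by
      rw [pow_add]
      ring
    linarith
  have f8 : 2 * (Rg : ℝ) * T + 1 ≤ (22 * Rg + 1) * z ^ W := by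
    have g1 := mul_le_mul_of_nonneg_left hT (show 0 ≤ 2 * (Rg : ℝ) by positivity)
    linarith
  have f9 : 0 ≤ (1 - p ^ (2 * K + 1) * (δ / 8)) ^ j + 8 / δ * (2 * Real.exp (-(δ * L / 2)) +
        2 * T * (2 * (p * Real.exp (-(δ * L))))) := by
    have g0 : p ^ (2 * K + 1) ≤ 1 := pow_le_one₀ hp0.le hp1
    have g0' : p ^ (2 * K + 1) * (δ / 8) ≤ 1 * (1 / 8) :=
      mul_le_mul g0 (by linarith) (by positivity) (by norm_num)
    have g1 : 0 ≤ 1 - p ^ (2 * K + 1) * (δ / 8) := by linarith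
    positivity
  have f10 := mul_le_mul f8 f7 f9 (by positivity)
  refine lt_of_le_of_lt f10 ?_
  refine lt_of_le_of_lt (le_of_eq ?_) he
  rw [show 2 * W + n = W + (W + n) by ring, pow_add z W (W + n)]
  ring

end

/-- The estimates for large `z`. -/
theorem large (n c₁ c₂ K Rg : ℕ) {a₁ A₂ a₃ : ℝ} (C5 C6 : ℝ) (ha₁ : 0 < a₁) (hA₂ : 0 ≤ A₂)
    (ha₃ : 0 < a₃) (hC5 : 0 ≤ C5) :
    ∃ Z : ℝ, 1 ≤ Z ∧ ∀ z : ℝ, Z ≤ z → ∀ (δ c₀ p : ℝ) (l : ℕ), p = (z ^ (2 * n + 2))⁻¹ →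
      a₁ / z ^ n ≤ δ → δ ≤ 1 / z ^ n → (l : ℝ) ≤ A₂ * z ^ n → a₃ / z ^ (3 * n) ≤ c₀ →
      c₀ ≤ 1 → ∃ L k j : ℕ, 1 ≤ L ∧ 8 * (c₂ + 3 * l + 1) ≤ L ∧ 2 * K ≤ L ∧
      p * (L + 2 * l + c₁ : ℕ) ≤ 1 ∧
      C5 * (p * (L + 2 * l + c₁ : ℕ)) ≤ 1 / z ^ n ∧
      C6 * p * (1 / z ^ n) ≤ c₀ ∧
      (1 - c₀ * p / 2) ^ k * Real.exp (δ * (7 * L / 8)) ≤ δ / 8 ∧
      5 * k * p * Real.exp (-(δ * (L / 8))) ≤ δ / 8 ∧
      4 * Real.exp (-(δ * (L / 4))) + 5 * k * p * Real.exp (-(δ * L / 2)) ≤ 1 / 4 ∧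
      (2 * (Rg : ℝ) * (1 + j * (k + k + 1) : ℕ) + 1) *
        ((1 - p ^ (2 * K + 1) * (δ / 8)) ^ j + 8 / δ * (2 * Real.exp (-(δ * L / 2)) +
          2 * (1 + j * (k + k + 1) : ℕ) * (2 * (p * Real.exp (-(δ * L)))))) < 1 := by
  have ev1 := evt n (c := 1) one_pos 8 ha₁
  have ev2 := evt (6 * n + 4) (c := a₁ / 8) (by positivity) 80 ha₁
  have ev3 := evt (5 * n + 4) (c := a₁ / 4) (by positivity) 14 (ε := 1 / 4) (by norm_num)
  have ev4 := evt (2 * ((2 * n + 2) * (2 * K + 1) + n + 2 + (5 * n + 4)) + n) (c := a₁ / 2)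
    (by positivity) ((22 * Rg + 1) * (1 + 8 / a₁ * 46)) (ε := 1) one_pos
  obtain ⟨Z0, hZ0⟩ := Filter.eventually_atTop.1 (ev1.and (ev2.and (ev3.and ev4)))
  set Z1 : ℝ := 6 / a₃ + 4 + (2 * A₂ + c₁ + 1) + 2 * C5 + (|C6| / a₃ + 1) +
    (8 * (c₂ + 1) + 24 * A₂ + 2 * K) with hZ1
  have hZ1n : 4 ≤ Z1 := by
    have h1 : 0 ≤ 6 / a₃ + (2 * A₂ + c₁ + 1) + 2 * C5 + (|C6| / a₃ + 1) +
        (8 * (c₂ + 1) + 24 * A₂ + 2 * K) := by positivity
    rw [hZ1]
    linarith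
  refine ⟨max Z0 Z1, ?_, ?_⟩
  · exact le_trans (by linarith) (le_max_right _ _)
  intro z hzZ δ c₀ p l hp hδ1 hδ2 hl hc hc1
  obtain ⟨e1, e2, e3, e4⟩ := hZ0 z ((le_max_left _ _).trans hzZ)
  have hzZ1 : Z1 ≤ z := (le_max_right _ _).trans hzZ
  have hz4 : 4 ≤ z := hZ1n.trans hzZ1
  have hz : 1 ≤ z := by linarith
  have hz0 : 0 < z := by linarith
  have hpz := pz hz hp
  have hp0 : 0 < p := by rw [hp]; positivity
  have hp1 : p ≤ 1 := by
    rw [hp]
    exact inv_le_one_of_one_le₀ (one_le_pow₀ hz)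
  have hzn : 1 ≤ z ^ n := one_le_pow₀ hz
  have hδ0 : 0 < δ := lt_of_lt_of_le (by positivity) hδ1
  have hc0 : 0 < c₀ := lt_of_lt_of_le (by positivity) hc
  have hzn1 : 1 / z ^ n ≤ 1 := by
    rw [div_le_one (by positivity)]
    exact hzn
  have hδ3 : δ ≤ 1 := hδ2.trans hzn1
  -- bounds for `z`
  have nn1 : 0 ≤ 6 / a₃ := by positivity
  have nn2 : 0 ≤ |C6| / a₃ := by positivity
  have nn3 : (0 : ℝ) ≤ c₁ := by positivity
  have nn4 : (0 : ℝ) ≤ c₂ := by positivity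
  have nn5 : (0 : ℝ) ≤ K := by positivity
  have b1 : 6 ≤ a₃ * z := by
    have h1 : 6 / a₃ ≤ z := by
      rw [hZ1] at hzZ1
      linarith
    rw [div_le_iff₀ ha₃] at h1
    linarith
  have b2 : 2 * A₂ + c₁ + 1 ≤ z := by
    rw [hZ1] at hzZ1
    linarith
  have b3 : 2 * C5 ≤ z := by
    rw [hZ1] at hzZ1
    linarith
  have b4 : |C6| / a₃ + 1 ≤ z := by
    rw [hZ1] at hzZ1
    linarith
  have b5 : 8 * (c₂ + 1) + 24 * A₂ + 2 * K ≤ z := by
    rw [hZ1] at hzZ1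
    linarith
  set L : ℕ := ⌈z ^ (n + 1)⌉₊ with hL
  set k : ℕ := ⌈z ^ (5 * n + 4)⌉₊ with hk
  set j : ℕ := ⌈z ^ ((2 * n + 2) * (2 * K + 1) + n + 2)⌉₊ with hj
  have hL1 : z ^ (n + 1) ≤ L := Nat.le_ceil _
  have hL2 : (L : ℝ) < z ^ (n + 1) + 1 := Nat.ceil_lt_add_one (by positivity)
  have hk1 : z ^ (5 * n + 4) ≤ k := Nat.le_ceil _
  have hk2 : (k : ℝ) < z ^ (5 * n + 4) + 1 := Nat.ceil_lt_add_one (by positivity)
  have hj1 : z ^ ((2 * n + 2) * (2 * K + 1) + n + 2) ≤ j := Nat.le_ceil _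
  have hj2 : (j : ℝ) < z ^ ((2 * n + 2) * (2 * K + 1) + n + 2) + 1 :=
    Nat.ceil_lt_add_one (by positivity)
  have hzL : z * z ^ n ≤ L := by
    refine le_trans (le_of_eq ?_) hL1
    rw [pow_succ]
    ring
  have hk3 : (k : ℝ) ≤ 2 * z ^ (5 * n + 4) := by
    have : 1 ≤ z ^ (5 * n + 4) := one_le_pow₀ hz
    linarith
  have hj3 : (j : ℝ) ≤ 2 * z ^ ((2 * n + 2) * (2 * K + 1) + n + 2) := by
    have : 1 ≤ z ^ ((2 * n + 2) * (2 * K + 1) + n + 2) := one_le_pow₀ hz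
    linarith
  have hδL : a₁ * z ≤ δ * L := by
    have h1 : a₁ ≤ δ * z ^ n := by rwa [div_le_iff₀ (by positivity)] at hδ1
    have h2 := mul_le_mul_of_nonneg_left hzL hδ0.le
    have h3 := mul_le_mul_of_nonneg_right h1 hz0.le
    linarith
  -- the number of sites
  have hnb : ((L + 2 * l + c₁ : ℕ) : ℝ) ≤ 2 * (z * z ^ n) := by
    push_cast
    have h1 : 2 * (l : ℝ) + c₁ + 1 ≤ (2 * A₂ + c₁ + 1) * z ^ n := by
      have h3 : (c₁ : ℝ) + 1 ≤ (c₁ + 1) * z ^ n := le_mul_of_one_le_right (by positivity) hzn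
      linarith
    have h2 : (2 * A₂ + c₁ + 1) * z ^ n ≤ z * z ^ n :=
      mul_le_mul_of_nonneg_right b2 (by positivity)
    have h3 : z ^ (n + 1) = z * z ^ n := by
      rw [pow_succ]
      ring
    linarith
  have hpnb : p * ((L + 2 * l + c₁ : ℕ) : ℝ) * z * z ^ n ≤ 2 := by
    have h1 := mul_le_mul_of_nonneg_left hnb (show 0 ≤ p * (z * z ^ n) by positivity)
    have h2 : p * (z * z ^ n) * (2 * (z * z ^ n)) = 2 * (p * z ^ (2 * n + 2)) := by
      rw [pow_add, mul_comm 2 n, pow_mul]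
      ring
    rw [h2, hpz] at h1
    linarith
  have hpnb0 : 0 ≤ p * ((L + 2 * l + c₁ : ℕ) : ℝ) := by positivity
  refine ⟨L, k, j, ?_, ?_, ?_, ?_, ?_, ?_, ?_, ?_, ?_, ?_⟩
  · have h1 : 1 * 1 ≤ z * z ^ n := mul_le_mul hz hzn (by norm_num) (by positivity)
    have : (1 : ℝ) ≤ L := by linarith
    exact_mod_cast this
  · have h1 : (8 : ℝ) * (c₂ + 3 * l + 1) ≤ L := by
      refine le_trans ?_ hzL
      have h2 : 8 * ((c₂ : ℝ) + 1) ≤ 8 * (c₂ + 1) * z ^ n :=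
        le_mul_of_one_le_right (by positivity) hzn
      have h3 : (8 * ((c₂ : ℝ) + 1) + 24 * A₂) * z ^ n ≤ z * z ^ n := by
        apply mul_le_mul_of_nonneg_right _ (by positivity)
        linarith
      linarith
    exact_mod_cast h1
  · have h1 : (2 : ℝ) * K ≤ L := by
      refine le_trans ?_ hzL
      have h2 : z ≤ z * z ^ n := le_mul_of_one_le_right hz0.le hzn
      linarith
    exact_mod_cast h1
  · have h1 : p * ((L + 2 * l + c₁ : ℕ) : ℝ) * 4 ≤ p * ((L + 2 * l + c₁ : ℕ) : ℝ) * z :=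
      mul_le_mul_of_nonneg_left hz4 hpnb0
    have h2 : p * ((L + 2 * l + c₁ : ℕ) : ℝ) * z ≤ p * ((L + 2 * l + c₁ : ℕ) : ℝ) * z * z ^ n :=
      le_mul_of_one_le_right (by positivity) hzn
    linarith
  · rw [le_div_iff₀ (by positivity)]
    have h1 : C5 * (p * ((L + 2 * l + c₁ : ℕ) : ℝ)) * z ^ n * (z / 2) ≤ 1 * (z / 2) := by
      have h2 := mul_le_mul_of_nonneg_left hpnb hC5
      linarith
    exact le_of_mul_le_mul_right h1 (by positivity)
  · refine le_trans ?_ hc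
    rw [le_div_iff₀ (by positivity)]
    have h1 : C6 * p * (1 / z ^ n) * z ^ (3 * n) * z ^ 2 = C6 * (p * z ^ (2 * n + 2)) := by
      rw [show 3 * n = n + 2 * n by ring, pow_add z n (2 * n), pow_add z (2 * n) 2]
      field_simp
    rw [hpz, mul_one] at h1
    have h2 : C6 ≤ a₃ * z ^ 2 := by
      have h3 : |C6| / a₃ ≤ z := by linarith
      rw [div_le_iff₀ ha₃] at h3
      have h4 := le_abs_self C6
      have h5 : z ≤ z ^ 2 := by nlinarith
      have h6 := mul_le_mul_of_nonneg_left h5 ha₃.le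
      linarith
    have h3 : C6 * p * (1 / z ^ n) * z ^ (3 * n) * z ^ 2 ≤ a₃ * z ^ 2 := by
      rw [h1]
      exact h2
    exact le_of_mul_le_mul_right h3 (by positivity)
  · exact dec_est hz hp hδ2 hδ0 hδ1 hc hc1 hc0 hL2.le hk1 e1 b1
  · -- the error term of the growth phase
    have h1 : 5 * (k : ℝ) * p ≤ 10 * z ^ (5 * n + 4) := by
      have h2 : 5 * (k : ℝ) * p ≤ 5 * k * 1 := mul_le_mul_of_nonneg_left hp1 (by positivity)
      linarith
    have h2 : Real.exp (-(δ * (L / 8))) ≤ Real.exp (-(a₁ / 8 * z)) := by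
      rw [Real.exp_le_exp]
      linarith
    have h3 := mul_le_mul h1 h2 (Real.exp_pos _).le (by positivity)
    refine h3.trans ?_
    have h7 : a₁ ≤ δ * z ^ n := by rwa [div_le_iff₀ (by positivity)] at hδ1
    have h8 : z ^ n * (80 * (z ^ (5 * n + 4) * Real.exp (-(a₁ / 8 * z)))) ≤ z ^ n * δ := by
      have h9 : z ^ n * (80 * (z ^ (5 * n + 4) * Real.exp (-(a₁ / 8 * z)))) =
          80 * (z ^ (6 * n + 4) * Real.exp (-(a₁ / 8 * z))) := by
        rw [show 6 * n + 4 = n + (5 * n + 4) by ring, pow_add z n (5 * n + 4)]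
        ring
      rw [h9]
      linarith
    have h9 := le_of_mul_le_mul_left h8 (show 0 < z ^ n by positivity)
    linarith
  · have h1 : 5 * (k : ℝ) * p ≤ 10 * z ^ (5 * n + 4) := by
      have h2 : 5 * (k : ℝ) * p ≤ 5 * k * 1 := mul_le_mul_of_nonneg_left hp1 (by positivity)
      linarith
    have h2 : Real.exp (-(δ * L / 2)) ≤ Real.exp (-(a₁ / 4 * z)) := by
      rw [Real.exp_le_exp]
      have := mul_pos ha₁ hz0
      linarith
    have h2' : Real.exp (-(δ * (L / 4))) ≤ Real.exp (-(a₁ / 4 * z)) := by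
      rw [Real.exp_le_exp]
      linarith
    have h3 := mul_le_mul h1 h2 (Real.exp_pos _).le (by positivity)
    have h4 : Real.exp (-(a₁ / 4 * z)) ≤ z ^ (5 * n + 4) * Real.exp (-(a₁ / 4 * z)) :=
      le_mul_of_one_le_left (Real.exp_pos _).le (one_le_pow₀ hz)
    linarith
  · exact final_est hz hp hδ0 hδ1 hδ3 ha₁ hδL hk3 hj1 hj3 hz4 e4

end Pool.Agent.Lib.MP_8850da_pr
end

section

/-!
# The bound for small noise
-/

set_option autoImplicit false

open MeasureTheory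

namespace Pool.Agent.Lib.MP_8850da_pr

/-- The drift inequalities for the potential, with rate `a`. -/
def Drift (D : Nb) (K l L : ℕ) (p q δ a : ℝ) : Prop :=
  (∀ (o : ℤ) (S : Set ℤ), XX δ K l L o S < 1 → Real.exp (-(δ * L)) < XX δ K l L o S →
    EXX D p q δ K l L o S ≤ (1 - a) * XX δ K l L o S) ∧
  ∀ (o : ℤ) (S : Set ℤ), XX δ K l L o S ≤ Real.exp (-(δ * L)) →
    EXX D p q δ K l L o S ≤ XX δ K l L o S + p * Real.exp (-(δ * L))

theorem exists_Z (D : Nb) (n R K Rg : ℕ) (hK : 2 * D.r ≤ K) (hK1 : R1 D R + 2 + D.r ≤ K + 1)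
    (hK2 : 2 * R1 D R + 2 ≤ K + 1) {a₁ A₂ a₃ C5 Cc : ℝ} (ha₁ : 0 < a₁) (hA₂ : 0 ≤ A₂)
    (ha₃ : 0 < a₃) (hC5 : 0 ≤ C5)
    (κf : ℝ → ℝ) (hκf : ∀ z, 1 ≤ z → κf z ≤ 1)
    (hdr : ∀ z : ℝ, 1 ≤ z → ∀ q : ℝ, 0 ≤ q → q ≤ κf z * (z ^ (2 * n + 2))⁻¹ →
      ∃ (l : ℕ) (δ c₀ : ℝ), 1 ≤ l ∧ (l : ℝ) ≤ A₂ * z ^ n ∧ a₁ / z ^ n ≤ δ ∧ δ ≤ 1 / z ^ n ∧
        Real.exp (δ * (K + 2 * D.r + 1)) ≤ 2 ∧ cf D R δ ≤ Cc * (1 / z ^ n) ∧
        a₃ / z ^ (3 * n) ≤ c₀ ∧ c₀ ≤ 1 ∧
        ∀ L : ℕ, 1 ≤ L → (z ^ (2 * n + 2))⁻¹ * (nb D.r K l L : ℕ) ≤ 1 →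
          C5 * ((z ^ (2 * n + 2))⁻¹ * (nb D.r K l L : ℕ)) ≤ 1 / z ^ n →
          Drift D K l L (z ^ (2 * n + 2))⁻¹ q δ (c₀ * (z ^ (2 * n + 2))⁻¹)) :
    ∃ Z : ℝ, 1 ≤ Z ∧ ∀ z : ℝ, Z ≤ z → ∀ q : ℝ, 0 ≤ q → q ≤ κf z * (z ^ (2 * n + 2))⁻¹ →
      ∀ (b : Bool) (E : Type) [MeasurableSpace E] (B : BMap D b R E) (ρE : Measure E)
        [IsProbabilityMeasure ρE], ρE.map B.f = rho (z ^ (2 * n + 2))⁻¹ q → B.G.R ≤ Rg →
      ∃ (T : ℕ) (β : ℝ), BV B.G ρE T β ∧ 0 ≤ β ∧ (2 * (B.G.R : ℝ) * T + 1) * β < 1 := by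
  obtain ⟨Z, hZ1, hZ⟩ := large n (K + 2 * D.r + 1) (2 * R1 D R + 2) K Rg (a₁ := a₁)
    (A₂ := A₂) (a₃ := a₃) C5 (2 * C4 D R ^ 2 * Cc) ha₁ hA₂ ha₃ hC5
  refine ⟨Z, hZ1, ?_⟩
  intro z hz q hq hqκ b E _ B ρE _ hρ hRg
  have hz1 : 1 ≤ z := hZ1.trans hz
  have hzpos : 0 < z := by linarith
  obtain ⟨l, δ, c₀, hl1, hl2, hδ1, hδ2, hμ, hcf, hc1, hc2, hdr'⟩ := hdr z hz1 q hq hqκ
  set p : ℝ := (z ^ (2 * n + 2))⁻¹ with hp
  obtain ⟨L, k, j, hL1, hLbig, hKL, g1, g2, g3, g4, g5, g6, g7⟩ :=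
    hZ z hz δ c₀ p l hp hδ1 hδ2 hl2 hc1 hc2
  have hδ0 : 0 < δ := lt_of_lt_of_le (by positivity) hδ1
  have hc₀0 : 0 < c₀ := lt_of_lt_of_le (by positivity) hc1
  have hp0 : 0 < p := by positivity
  have hqp : q ≤ p := hqκ.trans (mul_le_of_le_one_left hp0.le (hκf z hz1))
  have hnb : nb D.r K l L = L + 2 * l + (K + 2 * D.r + 1) := by
    rw [nb]
    ring
  have hnbc : ((nb D.r K l L : ℕ) : ℝ) = ((L + 2 * l + (K + 2 * D.r + 1) : ℕ) : ℝ) := by
    rw [hnb]
  rw [← hnbc] at g1 g2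
  obtain ⟨d1, d2⟩ := hdr' L hL1 g1 g2
  have hC4 : 1 ≤ C4 D R := by
    rw [C4]
    push_cast
    have : (0 : ℝ) ≤ R1 D R := by positivity
    linarith
  have hcf0 := cf_nonneg D R hδ0.le
  have hC2' : 2 * C4 D R ^ 2 * p * cf D R δ ≤ c₀ := by
    have h1 := mul_le_mul_of_nonneg_left hcf (show 0 ≤ 2 * C4 D R ^ 2 * p by positivity)
    have h2 : 2 * C4 D R ^ 2 * p * (Cc * (1 / z ^ n)) = 2 * C4 D R ^ 2 * Cc * p * (1 / z ^ n) := by
      ring
    linarith
  let P : FPar :=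
    { D := D
      K := K
      l := l
      L := L
      p := p
      q := q
      δ := δ
      a := c₀ * p
      hK := hK
      hl := hl1
      hL := hL1
      hp := hp0
      hq := hq
      hqp := hqp
      hB := g1
      hδ := hδ0
      hμ := hμ
      ha0 := by positivity
      hap := mul_le_of_le_one_left hp0.le hc2
      d1 := d1
      d2 := d2
      R := R
      hK1 := hK1
      hK2 := hK2
      hC1 := by
        have h1 : C4 D R ≤ C4 D R ^ 2 := by nlinarith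
        have h2 := mul_le_mul_of_nonneg_right h1 (show 0 ≤ p * cf D R δ by positivity)
        have h3 : 0 ≤ C4 D R ^ 2 * (p * cf D R δ) := by positivity
        linarith
      hC2 := by
        have h1 := mul_le_mul_of_nonneg_right hC2' hp0.le
        have h2 : 2 * (C4 D R * p) ^ 2 * cf D R δ = 2 * C4 D R ^ 2 * p * cf D R δ * p := by
          ring
        rw [h2]
        exact h1 }
  have hPA : P.A = Real.exp (δ * L / 2) := rfl
  have hPA1 : P.A1 = Real.exp (δ * (7 * L / 8)) := rfl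
  have hPη : P.η = Real.exp (-(δ * L)) := rfl
  have hδle : δ ≤ 1 := P.δ_le_one
  have hk0 : 0 ≤ (1 - P.a / 2) ^ k := pow_nonneg P.a1_nonneg k
  have hAA : P.A ≤ P.A1 := by
    rw [hPA, hPA1, Real.exp_le_exp]
    have : 0 ≤ δ * L := by positivity
    linarith
  have hk1 : (1 - P.a / 2) ^ k * P.A1 ≤ δ / 8 := g4
  have hkA : (1 - P.a / 2) ^ k * P.A ≤ 1 := by
    have := mul_le_mul_of_nonneg_left hAA hk0
    linarith
  have hside : ∀ o s, (P.L : ℝ) / 4 ≤ Phi P.K P.l P.L o s.1 → P.Ps P.A k o s ≤ 1 / 4 := by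
    intro o s hφ
    refine (min_le_right _ _).trans ?_
    have h1 : XX P.δ P.K P.l P.L o s.1 ≤ Real.exp (-(δ * (L / 4))) := by
      rw [XX, Real.exp_le_exp]
      have := mul_le_mul_of_nonneg_left hφ hδ0.le
      change -(δ * Phi P.K P.l P.L o s.1) ≤ _
      change δ * ((L : ℝ) / 4) ≤ _ at this
      linarith
    have hX := P.X_pos o s
    have h2 := P.X_le_two o s
    have h3 : (1 - P.a / 2) ^ k * P.A * P.X o s ≤ P.X o s := mul_le_of_le_one_left hX.le hkA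
    have h5 : 5 * (k : ℝ) * P.p * P.A * P.η = 5 * k * p * Real.exp (-(δ * L / 2)) := by
      have h6 : P.A * P.η = Real.exp (-(δ * L / 2)) := by
        rw [P.A_η, hPA, ← Real.exp_neg]
      rw [← h6]
      change 5 * (k : ℝ) * p * P.A * P.η = _
      ring
    rw [h5]
    linarith
  have hcen : ∀ o S, 1 ≤ Phi P.K P.l P.L o S → P.Ps P.A1 k o (S, false) ≤ 1 - P.δ / 4 := by
    intro o S hφ
    refine (min_le_right _ _).trans ?_
    rw [P.X_false]
    have hX := XX_pos P.δ P.K P.l P.L o S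
    have h1 : XX P.δ P.K P.l P.L o S ≤ 1 - δ / 2 := by
      refine le_trans ?_ (exp_neg_le hδ0.le hδle)
      rw [XX, Real.exp_le_exp]
      have := mul_le_mul_of_nonneg_left hφ hδ0.le
      change -(δ * Phi P.K P.l P.L o S) ≤ _
      linarith
    have h3 : (1 - P.a / 2) ^ k * P.A1 * XX P.δ P.K P.l P.L o S ≤ δ / 8 := by
      have h4 := mul_le_mul hk1 (XX_le_one hδ0.le P.K P.l P.L o S) hX.le (by positivity)
      linarith
    have h5 : 5 * (k : ℝ) * P.p * P.A1 * P.η = 5 * k * p * Real.exp (-(δ * (L / 8))) := by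
      have h6 : P.A1 * P.η = Real.exp (-(δ * (L / 8))) := by
        rw [hPA1, hPη, ← Real.exp_add]
        congr 1
        ring
      rw [← h6]
      change 5 * (k : ℝ) * p * P.A1 * P.η = _
      ring
    rw [h5]
    change _ ≤ 1 - δ / 4
    linarith
  have hfin := P.eps B hρ k k hside hLbig hKL hcen (1 + j * (k + k + 1)) j le_rfl
  have hPAi : P.A⁻¹ = Real.exp (-(δ * L / 2)) := by rw [hPA, ← Real.exp_neg]
  rw [hPAi, hPη] at hfin
  have hp1 : p ≤ 1 := P.p_le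
  have hp2 : p ^ (2 * K + 1) ≤ 1 := pow_le_one₀ hp0.le hp1
  have hβ : 0 ≤ (1 - p ^ (2 * K + 1) * (δ / 8)) ^ j + 8 / δ * (2 * Real.exp (-(δ * L / 2)) +
      2 * ((1 + j * (k + k + 1) : ℕ) : ℝ) * (2 * (p * Real.exp (-(δ * L))))) := by
    have h1 : p ^ (2 * K + 1) * (δ / 8) ≤ 1 * (1 / 8) :=
      mul_le_mul hp2 (by linarith) (by positivity) (by norm_num)
    have h2 : 0 ≤ 1 - p ^ (2 * K + 1) * (δ / 8) := by linarith
    positivity
  refine ⟨1 + j * (k + k + 1), _, hfin, hβ, ?_⟩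
  refine lt_of_le_of_lt ?_ g7
  apply mul_le_mul_of_nonneg_right _ hβ
  have h1 : (B.G.R : ℝ) ≤ Rg := by exact_mod_cast hRg
  have h2 := mul_le_mul_of_nonneg_right h1
    (show 0 ≤ 2 * ((1 + j * (k + k + 1) : ℕ) : ℝ) by positivity)
  linarith

end Pool.Agent.Lib.MP_8850da_pr
end
end

section

section

/-!
# The drift inequalities for biased noise
-/

set_option autoImplicit false

open MeasureTheory

namespace Pool.Agent.Lib.MP_8850da_pr

/-- The number of pairs. -/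
noncomputable def Bk (k : ℕ) : ℝ := k * (k + 1) / 2

theorem one_le_Bk {k : ℕ} (hk : 1 ≤ k) : 1 ≤ Bk k := by
  have hk' : (1 : ℝ) ≤ k := by exact_mod_cast hk
  rw [Bk]
  nlinarith

theorem hdr_gap (D : Nb) {k : ℕ} (hGap : Gap D k) (hk : 1 ≤ k) (n R K : ℕ) (hK : 2 * D.r ≤ K)
    (hkK : k ≤ K) :
    ∃ a₁ a₃ C5 Cc : ℝ, 0 < a₁ ∧ 0 < a₃ ∧ 0 ≤ C5 ∧ ∀ z : ℝ, 1 ≤ z → ∀ q : ℝ, 0 ≤ q →
      q ≤ (1 - 1 / z ^ n) / Bk k * (z ^ (2 * n + 2))⁻¹ →
      ∃ (l : ℕ) (δ c₀ : ℝ), 1 ≤ l ∧ (l : ℝ) ≤ (4 * k + 5) * z ^ n ∧ a₁ / z ^ n ≤ δ ∧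
        δ ≤ 1 / z ^ n ∧
        Real.exp (δ * (K + 2 * D.r + 1)) ≤ 2 ∧ cf D R δ ≤ Cc * (1 / z ^ n) ∧
        a₃ / z ^ (3 * n) ≤ c₀ ∧ c₀ ≤ 1 ∧
        ∀ L : ℕ, 1 ≤ L → (z ^ (2 * n + 2))⁻¹ * (nb D.r K l L : ℕ) ≤ 1 →
          C5 * ((z ^ (2 * n + 2))⁻¹ * (nb D.r K l L : ℕ)) ≤ 1 / z ^ n →
          Drift D K l L (z ^ (2 * n + 2))⁻¹ q δ (c₀ * (z ^ (2 * n + 2))⁻¹) := by
  have hk' : (1 : ℝ) ≤ k := by exact_mod_cast hk
  have hk2 : (1 : ℝ) ≤ (k : ℝ) ^ 2 := one_le_pow₀ hk'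
  have hm0 : (1 : ℝ) ≤ D.m := by exact_mod_cast D.hm
  have hB1 := one_le_Bk hk
  have hB0 : 0 < Bk k := by linarith
  set G : ℝ := 2 * (2 * (D.m : ℝ) + 1) * (k : ℝ) ^ 2 with hG
  have hGm : 2 * (2 * (D.m : ℝ) + 1) ≤ G := le_mul_of_one_le_right (by positivity) hk2
  have hG0 : 0 < G := by positivity
  set Rr : ℝ := 2 * (((2 * R1 D R + 2 : ℕ) : ℝ) + 2) with hRr
  set D0 : ℝ := (K : ℝ) + 2 * D.r + 1 with hD0
  set H : ℝ := G + (2 * D.m + 3) * D0 + Rr with hH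
  have hKr : 0 < D0 := by positivity
  have hRr0 : 0 < Rr := by positivity
  have hmD : 0 < (2 * (D.m : ℝ) + 3) * D0 := by positivity
  have hH0 : 0 < H := by positivity
  have hH1 : 1 ≤ H := by linarith
  refine ⟨1 / 4 / H, 3 / (256 * (4 * k + 5) * H), 2048 * D0 ^ 2 * (4 * D.m + 5), 2 * Rr,
    by positivity, by positivity, by positivity, ?_⟩
  intro z hz q hq hqκ
  have hzpos : 0 < z := by linarith
  have hy1 : 1 ≤ z ^ n := one_le_pow₀ hz
  have hypos : 0 < z ^ n := by positivity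
  set p : ℝ := (z ^ (2 * n + 2))⁻¹ with hp
  have hp0 : 0 < p := by positivity
  set θ : ℝ := 1 / z ^ n with hθ
  have hθ0 : 0 < θ := by positivity
  have hθ1 : θ ≤ 1 := by
    rw [hθ, div_le_one hypos]
    exact hy1
  set δ : ℝ := θ / 4 / H with hδ
  have hδ0 : 0 < δ := by positivity
  have hδH : δ * H = θ / 4 := div_mul_cancel₀ _ hH0.ne'
  have hδG : δ * G ≤ θ / 4 := by
    rw [← hδH]
    apply mul_le_mul_of_nonneg_left _ hδ0.le
    linarith
  have hδG0 : 0 < δ * G := by positivity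
  have hδK : δ * (G + (2 * D.m + 3) * D0) ≤ θ / 4 := by
    rw [← hδH]
    apply mul_le_mul_of_nonneg_left _ hδ0.le
    linarith
  have hδK' : δ * D0 ≤ θ / 4 := by
    refine le_trans ?_ hδK
    apply mul_le_mul_of_nonneg_left _ hδ0.le
    have : 1 * D0 ≤ (2 * (D.m : ℝ) + 3) * D0 := mul_le_mul_of_nonneg_right (by linarith) hKr.le
    linarith
  have hδR : δ * Rr ≤ θ / 4 := by
    rw [← hδH]
    apply mul_le_mul_of_nonneg_left _ hδ0.le
    linarith
  have hδ1 : δ ≤ θ := by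
    have := mul_le_mul_of_nonneg_left hH1 hδ0.le
    linarith
  have hexp : ∀ x : ℝ, x ≤ θ / 4 → Real.exp x ≤ 2 := by
    intro x hx
    have h1 : Real.exp x ≤ Real.exp (Real.log 2) := by
      rw [Real.exp_le_exp]
      have := Real.log_two_gt_d9
      linarith
    rwa [Real.exp_log (by norm_num)] at h1
  have hcf : cf D R δ ≤ 2 * Rr * θ := by
    rw [cf]
    have h1 := exp_le_two_mul (x := δ * Rr) (by positivity) (by linarith)
    have h2 := mul_le_mul_of_nonneg_right hδ1 hRr0.le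
    linarith
  set κ : ℝ := 1 - θ / 2 with hκ
  have hκ0 : 0 ≤ κ := by linarith
  have hκ' : 1 - κ = θ / 2 := by
    rw [hκ]
    ring
  set C : ℝ := δ * (1 - δ * G) * (D.m + 1) with hC
  have hC0 : 0 < C := by
    have : 0 < 1 - δ * G := by linarith
    positivity
  have hδm : 4 * (δ * (D.m + 1)) ≤ 1 := by
    have h3 : (D.m : ℝ) + 1 ≤ G := by linarith
    have h4 := mul_le_mul_of_nonneg_left h3 hδ0.le
    linarith
  have hC1 : C ≤ 1 / 4 := by
    have h1 : δ * (1 - δ * G) ≤ δ * 1 := mul_le_mul_of_nonneg_left (by linarith) hδ0.le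
    have h2 : C ≤ δ * 1 * (D.m + 1) := mul_le_mul_of_nonneg_right h1 (by positivity)
    linarith
  have hC2 : δ * (3 / 4) ≤ C := by
    have h1 : δ * (3 / 4) ≤ δ * (1 - δ * G) := by
      apply mul_le_mul_of_nonneg_left _ hδ0.le
      linarith
    have h2 : 0 ≤ δ * (1 - δ * G) := by
      apply mul_nonneg hδ0.le
      linarith
    have h3 : δ * (1 - δ * G) ≤ C := by
      rw [hC]
      apply le_mul_of_one_le_right h2
      linarith
    linarith
  set l : ℕ := ⌈(4 * (k : ℝ) + 4) * z ^ n⌉₊ with hl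
  have hl1 : (4 * (k : ℝ) + 4) * z ^ n ≤ l := Nat.le_ceil _
  have hl2 : (l : ℝ) < (4 * (k : ℝ) + 4) * z ^ n + 1 := Nat.ceil_lt_add_one (by positivity)
  have hl3 : (l : ℝ) ≤ (4 * k + 5) * z ^ n := by linarith
  have hl4 : (1 : ℝ) ≤ l := by
    have : (1 : ℝ) * 1 ≤ (4 * (k : ℝ) + 4) * z ^ n :=
      mul_le_mul (by linarith) hy1 (by norm_num) (by positivity)
    linarith
  have hlpos : (0 : ℝ) < l := by linarith
  have hl' : 1 ≤ l := by exact_mod_cast hl4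
  have hs0 : 0 < 1 / (l : ℝ) := by positivity
  have hs1 : 1 / (l : ℝ) ≤ 1 := by
    rw [div_le_one hlpos]
    exact hl4
  have hs : (2 * (k : ℝ) + 2) * (1 / (l : ℝ)) ≤ 1 - κ := by
    rw [hκ', mul_one_div, div_le_iff₀ hlpos]
    have h1 := mul_le_mul_of_nonneg_left hl1 (show 0 ≤ θ / 2 by positivity)
    have h2 : θ / 2 * ((4 * (k : ℝ) + 4) * z ^ n) = 2 * (k : ℝ) + 2 := by
      rw [hθ]
      field_simp
      ring
    linarith
  have hs' : θ / (4 * k + 5) ≤ 1 / (l : ℝ) := by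
    rw [le_div_iff₀ hlpos]
    have h1 := mul_le_mul_of_nonneg_left hl3 (show 0 ≤ θ / (4 * k + 5) by positivity)
    have h2 : θ / (4 * k + 5) * ((4 * k + 5) * z ^ n) = 1 := by
      rw [hθ]
      field_simp
    linarith
  set c₀ : ℝ := C * (1 - κ) * (1 / l) / 8 with hc₀
  have hc1 : c₀ ≤ 1 / 8 := by
    have h1 : C * (1 - κ) ≤ 1 / 4 * 1 :=
      mul_le_mul hC1 (by linarith) (by linarith) (by norm_num)
    have h2 : C * (1 - κ) * (1 / l) ≤ 1 / 4 * 1 * 1 :=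
      mul_le_mul h1 hs1 hs0.le (by norm_num)
    linarith
  have hc2 : 3 / (256 * (4 * k + 5) * H) / z ^ (3 * n) ≤ c₀ := by
    have h1 : δ * (3 / 4) * (θ / 2) ≤ C * (1 - κ) := by
      rw [hκ']
      exact mul_le_mul_of_nonneg_right hC2 (by positivity)
    have h2 : δ * (3 / 4) * (θ / 2) * (θ / (4 * k + 5)) ≤ C * (1 - κ) * (1 / l) :=
      mul_le_mul h1 hs' (by positivity) (le_trans (by positivity) h1)
    have h3 : 3 / (256 * (4 * k + 5) * H) / z ^ (3 * n) =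
        δ * (3 / 4) * (θ / 2) * (θ / (4 * k + 5)) / 8 := by
      rw [hδ, hθ, mul_comm 3 n, pow_mul]
      field_simp
      norm_num
    rw [h3]
    linarith
  refine ⟨l, δ, c₀, hl', hl3, ?_, hδ1, hexp _ hδK', hcf, hc2, by linarith, ?_⟩
  · rw [hδ, hθ]
    apply le_of_eq
    field_simp
  intro L hL1 hB ha
  have hqB : q * Bk k ≤ (1 - θ) * p := by
    have h1 := mul_le_mul_of_nonneg_right hqκ hB0.le
    have h2 : (1 - θ) / Bk k * p * Bk k = (1 - θ) * p := by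
      field_simp
    linarith
  have hqp : q ≤ p := by
    have h1 : q * 1 ≤ q * Bk k := mul_le_mul_of_nonneg_left hB1 hq
    have h2 : (1 - θ) * p ≤ p := mul_le_of_le_one_left hp0.le (by linarith)
    linarith
  have HD : DriftData D K l L p q δ G κ :=
    { hK := hK
      hl := hl'
      hL := hL1
      hp := hp0
      hq := hq
      hqp := hqp
      hB := hB
      hδ := hδ0
      hG := hGm
      hδG := by linarith
      hδm := hδm
      hμ := hexp _ hδK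
      hsm := by
        have h1 : 3 / 4 * 2 ≤ (1 - δ * G) * (D.m + 1) :=
          mul_le_mul (by linarith) (by linarith) (by norm_num) (by linarith)
        have h2 : 3 / 4 * 2 * (θ / 2) ≤ (1 - δ * G) * (D.m + 1) * (θ / 2) :=
          mul_le_mul_of_nonneg_right h1 (by positivity)
        rw [hκ']
        linarith }
  have hκ2 : q * (1 + δ * G) * (k * (k + 1) / 2) ≤ κ * (p * (1 - δ * G)) := by
    have h1 : (1 - θ) * (1 + δ * G) ≤ κ * (1 - δ * G) := by
      rw [hκ]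
      nlinarith
    have h2 := mul_le_mul_of_nonneg_right hqB (show 0 ≤ 1 + δ * G by linarith)
    have h3 := mul_le_mul_of_nonneg_left h1 hp0.le
    rw [Bk] at h2
    linarith
  exact ⟨gap_d1 HD hGap hkK le_rfl hκ2 hs hκ0, gap_d2 HD hGap hkK le_rfl hκ2 hs hκ0⟩

end Pool.Agent.Lib.MP_8850da_pr
end

section

/-!
# Realisation of context dependent noise
-/

set_option autoImplicit false

open MeasureTheory

namespace Pool.Agent.Lib.MP_8850da_pr

theorem measure_bool_ext {μ₁ μ₂ : Measure Bool} [IsProbabilityMeasure μ₁]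
    [IsProbabilityMeasure μ₂] (a : Bool) (h : μ₁ {a} = μ₂ {a}) : μ₁ = μ₂ := by
  have h1 : μ₁ {!a} = μ₂ {!a} := by
    have e : ({!a} : Set Bool) = ({a} : Set Bool)ᶜ := by
      ext c
      cases a <;> cases c <;> simp
    rw [e, prob_compl_eq_one_sub (measurableSet_singleton a),
      prob_compl_eq_one_sub (measurableSet_singleton a), h]
  apply Measure.ext_of_singleton
  intro c
  by_cases hc : c = a
  · rw [hc]
    exact h
  · have : c = !a := by
      cases a <;> cases c <;> simp_all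
    rw [this]
    exact h1

theorem rho_apply {p q : ℝ} (s : Set (Fin 3)) :
    rho p q s = ENNReal.ofReal (1 - p - q) * s.indicator 1 0 + ENNReal.ofReal p * s.indicator 1 1 +
      ENNReal.ofReal q * s.indicator 1 2 := by
  rw [rho]
  simp only [Measure.coe_add, Measure.coe_smul, Pi.add_apply, Pi.smul_apply, smul_eq_mul,
    Measure.dirac_apply]

/-- The uniform law on the unit interval. -/
noncomputable def uni : Measure ℝ := volume.restrict (Set.Ico 0 1)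

instance : IsProbabilityMeasure uni := by
  constructor
  rw [uni, Measure.restrict_apply MeasurableSet.univ, Set.univ_inter, Real.volume_Ico, sub_zero,
    ENNReal.ofReal_one]

theorem uni_apply {s : Set ℝ} (hs : MeasurableSet s) {a c : ℝ}
    (h : s ∩ Set.Ico 0 1 = Set.Ico a c) : uni s = ENNReal.ofReal (c - a) := by
  rw [uni, Measure.restrict_apply hs, h, Real.volume_Ico]

/-- The type of a number in the unit interval. -/
noncomputable def typ (p q t : ℝ) : Fin 3 := if t < p then 1 else if 1 - q ≤ t then 2 else 0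

theorem typ_meas (p q : ℝ) : Measurable (typ p q) :=
  Measurable.ite measurableSet_Iio measurable_const
    (Measurable.ite measurableSet_Ici measurable_const measurable_const)

theorem typ_one {p q t : ℝ} : typ p q t = 1 ↔ t < p := by
  rw [typ]
  split_ifs with h1 h2
  · exact ⟨fun _ => h1, fun _ => rfl⟩
  · exact ⟨fun h => absurd h (by decide), fun h => absurd h h1⟩
  · exact ⟨fun h => absurd h (by decide), fun h => absurd h h1⟩

theorem typ_two {p q t : ℝ} : typ p q t = 2 ↔ ¬ t < p ∧ 1 - q ≤ t := by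
  rw [typ]
  split_ifs with h1 h2
  · exact ⟨fun h => absurd h (by decide), fun h => absurd h1 h.1⟩
  · exact ⟨fun _ => ⟨h1, h2⟩, fun _ => rfl⟩
  · exact ⟨fun h => absurd h (by decide), fun h => absurd h.2 h2⟩

theorem typ_zero {p q t : ℝ} : typ p q t = 0 ↔ ¬ t < p ∧ ¬ 1 - q ≤ t := by
  rw [typ]
  split_ifs with h1 h2
  · exact ⟨fun h => absurd h (by decide), fun h => absurd h1 h.1⟩
  · exact ⟨fun h => absurd h (by decide), fun h => absurd h2 h.2⟩
  · exact ⟨fun _ => ⟨h1, h2⟩, fun _ => rfl⟩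

theorem uni_typ {p q : ℝ} (hp : 0 ≤ p) (hq : 0 ≤ q) (hpq : p + q ≤ 1) :
    uni.map (typ p q) = rho p q := by
  apply Measure.ext_of_singleton
  intro c
  rw [Measure.map_apply (typ_meas p q) (measurableSet_singleton c), rho_apply]
  have hm : MeasurableSet (typ p q ⁻¹' {c}) := typ_meas p q (measurableSet_singleton c)
  have h3 : ∀ c : Fin 3, c = 0 ∨ c = 1 ∨ c = 2 := by decide
  have hc := h3 c
  rcases hc with hc | hc | hc
  · rw [uni_apply hm (a := p) (c := 1 - q)]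
    · rw [hc]
      simp only [Set.mem_singleton_iff, Set.indicator_of_mem, Pi.one_apply, mul_one]
      rw [Set.indicator_of_notMem (by decide), Set.indicator_of_notMem (by decide), mul_zero,
        mul_zero, add_zero, add_zero]
      congr 1
      ring
    · ext t
      change (typ p q t = c ∧ t ∈ Set.Ico 0 1) ↔ _
      rw [hc, typ_zero, Set.mem_Ico, Set.mem_Ico, not_lt, not_le]
      constructor
      · rintro ⟨⟨h1, h2⟩, _⟩
        exact ⟨h1, h2⟩
      · rintro ⟨h1, h2⟩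
        exact ⟨⟨h1, h2⟩, by linarith, by linarith⟩
  · rw [uni_apply hm (a := 0) (c := p)]
    · rw [hc, Set.indicator_of_notMem (by decide), Set.indicator_of_mem (by decide),
        Set.indicator_of_notMem (by decide), mul_zero, mul_zero, add_zero, zero_add,
        Pi.one_apply, mul_one, sub_zero]
    · ext t
      change (typ p q t = c ∧ t ∈ Set.Ico 0 1) ↔ _
      rw [hc, typ_one, Set.mem_Ico, Set.mem_Ico]
      constructor
      · rintro ⟨h1, h2, _⟩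
        exact ⟨h2, h1⟩
      · rintro ⟨h1, h2⟩
        exact ⟨h2, h1, by linarith⟩
  · rw [uni_apply hm (a := 1 - q) (c := 1)]
    · rw [hc, Set.indicator_of_notMem (by decide), Set.indicator_of_notMem (by decide),
        Set.indicator_of_mem (by decide), mul_zero, mul_zero, add_zero, zero_add,
        Pi.one_apply, mul_one]
      congr 1
      ring
    · ext t
      change (typ p q t = c ∧ t ∈ Set.Ico 0 1) ↔ _
      rw [hc, typ_two, Set.mem_Ico, Set.mem_Ico, not_lt]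
      constructor
      · rintro ⟨⟨_, h2⟩, _, h3⟩
        exact ⟨h2, h3⟩
      · rintro ⟨h1, h2⟩
        exact ⟨⟨by linarith, h1⟩, by linarith, h2⟩

theorem err_nonneg (Φ : PCA) (N : Finset ℤ) (x : Config) (i : ℤ) : 0 ≤ Φ.err N x i :=
  ENNReal.toReal_nonneg

theorem err_le_one (Φ : PCA) (N : Finset ℤ) (x : Config) (i : ℤ) : Φ.err N x i ≤ 1 := by
  rw [PCA.err]
  apply ENNReal.toReal_le_of_le_ofReal zero_le_one
  rw [ENNReal.ofReal_one]
  exact PMF.coe_le_one _ _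

theorem ofReal_err (Φ : PCA) (N : Finset ℤ) (x : Config) (i : ℤ) :
    ENNReal.ofReal (Φ.err N x i) = Φ.rule (Φ.view x i) (!(maj N x i)) := by
  rw [PCA.err]
  exact ENNReal.ofReal_toReal (PMF.apply_ne_top _ _)

theorem view_sh (Φ : PCA) (x : Config) (i : ℤ) : Φ.view (sh x i) 0 = Φ.view x i := by
  funext n
  change x (i + (0 + n)) = x (i + n)
  rw [zero_add]

theorem err_sh (Φ : PCA) (N : Finset ℤ) (x : Config) (i : ℤ) :
    Φ.err N (sh x i) 0 = Φ.err N x i := by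
  rw [PCA.err, PCA.err, view_sh, maj_sh]

/-- The local rule of the realisation. -/
noncomputable def cloc (Φ : PCA) (N : Finset ℤ) (b : Bool) (x : Config) (t : ℝ) : Bool :=
  if maj N x 0 = b then (if 1 - Φ.err N x 0 ≤ t then !b else b)
  else (if t < Φ.err N x 0 then b else !b)

theorem cloc_meas (Φ : PCA) (N : Finset ℤ) (b : Bool) (x : Config) : Measurable (cloc Φ N b x) := by
  unfold cloc
  split_ifs
  · exact Measurable.ite measurableSet_Ici measurable_const measurable_const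
  · exact Measurable.ite measurableSet_Iio measurable_const measurable_const

theorem cloc_congr (Φ : PCA) (N : Finset ℤ) (b : Bool) (x y : Config)
    (h1 : maj N x 0 = maj N y 0) (h2 : ∀ n ∈ Φ.nbhd, x n = y n) : cloc Φ N b x = cloc Φ N b y := by
  have h3 : Φ.view x 0 = Φ.view y 0 := by
    funext n
    change x (0 + n) = y (0 + n)
    rw [zero_add]
    exact h2 n n.2
  have h4 : Φ.err N x 0 = Φ.err N y 0 := by rw [PCA.err, PCA.err, h3, h1]
  funext t
  rw [cloc, cloc, h1, h4]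

/-- The realisation of `Φ`. -/
noncomputable def cmap (Φ : PCA) (N : Finset ℤ) (b : Bool) (R : ℕ) (hR : ∀ n ∈ Φ.nbhd, |n| ≤ R) :
    LMap ℝ where
  R := max R (N.sup Int.natAbs)
  loc := cloc Φ N b
  meas := cloc_meas Φ N b
  loc_congr x y h := by
    apply cloc_congr
    · apply maj_congr
      intro n hn
      apply h
      rw [zero_add]
      have h1 : n.natAbs ≤ max R (N.sup Int.natAbs) :=
        (Finset.le_sup (f := Int.natAbs) hn).trans (le_max_right _ _)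
      rw [Int.abs_eq_natAbs]
      exact_mod_cast h1
    · intro n hn
      apply h
      refine (hR n hn).trans ?_
      exact_mod_cast le_max_left _ _

theorem cmap_realises (Φ : PCA) (N : Finset ℤ) (b : Bool) (R : ℕ)
    (hR : ∀ n ∈ Φ.nbhd, |n| ≤ R) : Realises Φ (cmap Φ N b R hR) uni := by
  intro x
  change uni.map (cloc Φ N b x) = _
  have : IsProbabilityMeasure (uni.map (cloc Φ N b x)) :=
    Measure.isProbabilityMeasure_map (cloc_meas Φ N b x).aemeasurable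
  have hm : MeasurableSet (cloc Φ N b x ⁻¹' {!(maj N x 0)}) :=
    cloc_meas Φ N b x (measurableSet_singleton _)
  have e0 := err_nonneg Φ N x 0
  have e1 := err_le_one Φ N x 0
  apply measure_bool_ext (!(maj N x 0))
  rw [PMF.toMeasure_apply_singleton _ _ (measurableSet_singleton _), ← ofReal_err,
    Measure.map_apply (cloc_meas Φ N b x) (measurableSet_singleton _)]
  by_cases hb : maj N x 0 = b
  · rw [uni_apply hm (a := 1 - Φ.err N x 0) (c := 1)]
    · congr 1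
      ring
    · ext t
      change (cloc Φ N b x t = (!(maj N x 0)) ∧ t ∈ Set.Ico 0 1) ↔ _
      rw [cloc, if_pos hb, hb, Set.mem_Ico, Set.mem_Ico]
      constructor
      · rintro ⟨h1, h2, h3⟩
        refine ⟨?_, h3⟩
        by_contra hcon
        rw [if_neg hcon] at h1
        cases b <;> exact absurd h1 (by decide)
      · rintro ⟨h1, h2⟩
        exact ⟨if_pos h1, by linarith, h2⟩
  · have hb' : maj N x 0 = !b := by
      cases b <;> cases h : maj N x 0 <;> simp_all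
    rw [uni_apply hm (a := 0) (c := Φ.err N x 0)]
    · congr 1
      ring
    · ext t
      change (cloc Φ N b x t = (!(maj N x 0)) ∧ t ∈ Set.Ico 0 1) ↔ _
      rw [cloc, if_neg hb, hb', Bool.not_not, Set.mem_Ico, Set.mem_Ico]
      constructor
      · rintro ⟨h1, h2, h3⟩
        refine ⟨h2, ?_⟩
        by_contra hcon
        rw [if_neg hcon] at h1
        cases b <;> exact absurd h1 (by decide)
      · rintro ⟨h1, h2⟩
        exact ⟨if_pos h2, h1, by linarith⟩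

/-- The realisation as a `BMap`. -/
noncomputable def bmap (Φ : PCA) (D : Nb) (b : Bool) (R : ℕ) (hR : ∀ n ∈ Φ.nbhd, |n| ≤ R)
    {p q : ℝ} (hpq : p + q ≤ 1) (h1 : ∀ x, maj D.N x 0 = b → Φ.err D.N x 0 ≤ q)
    (h2 : ∀ x, maj D.N x 0 = !b → p ≤ Φ.err D.N x 0) : BMap D b R ℝ where
  G := cmap Φ D.N b R hR
  f := typ p q
  f_meas := typ_meas p q
  one x t h := by
    rw [typ_one] at h
    change cloc Φ D.N b x t = b
    by_cases hb : maj D.N x 0 = b
    · rw [cloc, if_pos hb, if_neg]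
      have := h1 x hb
      linarith
    · have hb' : maj D.N x 0 = !b := by
        cases b <;> cases h : maj D.N x 0 <;> simp_all
      rw [cloc, if_neg hb, if_pos]
      have := h2 x hb'
      linarith
  two x t hb h := by
    change cloc Φ D.N b x t = b
    rw [cloc, if_pos hb, if_neg]
    intro hcon
    apply h
    rw [typ_two]
    have := h1 x hb
    constructor
    · linarith
    · linarith
  view x y h hm := cloc_congr Φ D.N b x y hm (fun n hn => h n (hR n hn))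

/-- The error probabilities take finitely many values. -/
theorem err_finite (Φ : PCA) (N : Finset ℤ) :
    (Set.range (fun x : Config => Φ.err N x 0)).Finite := by
  classical
  have h1 : (Set.range (fun v : (Φ.nbhd → Bool) × Bool => (Φ.rule v.1 v.2).toReal)).Finite :=
    Set.finite_range _
  apply h1.subset
  rintro _ ⟨x, rfl⟩
  exact ⟨(Φ.view x 0, !(maj N x 0)), rfl⟩

/-- The smallest error probability at the sites with majority symbol `!b`. -/
theorem exists_min (Φ : PCA) (D : Nb) (b : Bool) : ∃ x₀ : Config, maj D.N x₀ 0 = (!b) ∧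
    ∀ x : Config, maj D.N x 0 = (!b) → Φ.err D.N x₀ 0 ≤ Φ.err D.N x 0 := by
  have h1 : ((fun x : Config => Φ.err D.N x 0) '' {x | maj D.N x 0 = !b}).Finite :=
    (err_finite Φ D.N).subset (Set.image_subset_range _ _)
  have h2 : ((fun x : Config => Φ.err D.N x 0) '' {x | maj D.N x 0 = !b}).Nonempty := by
    refine ⟨_, fun _ => !b, ?_, rfl⟩
    change maj D.N (fun _ => !b) 0 = !b
    apply maj_eq
    rw [← D.card_le]
    apply Finset.card_le_card
    intro n hn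
    rw [Finset.mem_filter] at hn ⊢
    exact ⟨hn.1, rfl⟩
  obtain ⟨v, hv, hmin⟩ := Set.exists_min_image _ id h1 h2
  obtain ⟨x₀, hx₀, rfl⟩ := hv
  exact ⟨x₀, hx₀, fun x hx => hmin _ ⟨x, hx, rfl⟩⟩

/-- The structure `Nb` of a neighbourhood. -/
noncomputable def mkNb (N : Finset ℤ) (ν : ℤ) (m : ℕ) (h1 : (N.filter (fun n => n < ν)).card = m)
    (h2 : (N.filter (fun n => ν < n)).card = m) (h3 : ν ∈ N) (hm : 1 ≤ m) : Nb where
  N := N
  ν := ν
  m := m
  r := N.sup (fun n => (n - ν).natAbs)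
  left := h1
  right := h2
  mem := h3
  hm := hm
  bound n hn := by
    have h := Finset.le_sup (f := fun n => (n - ν).natAbs) hn
    rw [Int.abs_eq_natAbs]
    exact_mod_cast h

/-- Ergodicity from a bound for all large `z`. -/
theorem ergodic_of_Z (D : Nb) (n R : ℕ) (κf : ℝ → ℝ) (hκf : ∀ z, 1 ≤ z → κf z ≤ 1)
    (hκ0 : ∀ z, 1 ≤ z → 0 ≤ κf z) {Z : ℝ} (hZ1 : 1 ≤ Z)
    (hZ : ∀ z : ℝ, Z ≤ z → ∀ q : ℝ, 0 ≤ q → q ≤ κf z * (z ^ (2 * n + 2))⁻¹ →
      ∀ (b : Bool) (E : Type) [MeasurableSpace E] (B : BMap D b R E) (ρE : Measure E)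
        [IsProbabilityMeasure ρE], ρE.map B.f = rho (z ^ (2 * n + 2))⁻¹ q →
        B.G.R ≤ max R (D.N.sup Int.natAbs) →
      ∃ (T : ℕ) (β : ℝ), BV B.G ρE T β ∧ 0 ≤ β ∧ (2 * (B.G.R : ℝ) * T + 1) * β < 1)
    (Φ : PCA) (hR : ∀ n ∈ Φ.nbhd, |n| ≤ R) (b : Bool) (z : ℝ) (hz : Z ≤ z)
    (hz2 : 2 ≤ z ^ (2 * n + 2))
    (h1 : ∀ x, maj D.N x 0 = b → Φ.err D.N x 0 ≤ κf z * (z ^ (2 * n + 2))⁻¹)
    (h2 : ∀ x, maj D.N x 0 = !b → (z ^ (2 * n + 2))⁻¹ ≤ Φ.err D.N x 0) : Φ.Ergodic := by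
  have hzpos : 0 < z := by linarith
  set p : ℝ := (z ^ (2 * n + 2))⁻¹ with hp
  have hp0 : 0 < p := by positivity
  have hp2 : p ≤ 1 / 2 := by
    rw [hp, one_div]
    exact inv_anti₀ (by norm_num) hz2
  have hq0 : 0 ≤ κf z * p := mul_nonneg (hκ0 z (hZ1.trans hz)) hp0.le
  have hqp : κf z * p ≤ p := mul_le_of_le_one_left hp0.le (hκf z (hZ1.trans hz))
  have hpq : p + κf z * p ≤ 1 := by linarith
  obtain ⟨T, β, hBV, hβ, hT⟩ := hZ z hz (κf z * p) hq0 le_rfl b ℝ (bmap Φ D b R hR hpq h1 h2) uni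
    (uni_typ hp0.le hq0 hpq) le_rfl
  exact ergodic_of_BV (cmap_realises Φ D.N b R hR) hβ hBV hT

end Pool.Agent.Lib.MP_8850da_pr
end

section

/-!
# Ergodicity for biased context dependent noise
-/

set_option autoImplicit false

open MeasureTheory

namespace Pool.Agent.Lib.MP_8850da_pr

/-- The parameter `z` of a number `p`. -/
theorem exists_z (n : ℕ) {p Z : ℝ} (hp : 0 < p) (hZ : 1 ≤ Z) (hpZ : p ≤ (Z ^ (2 * n + 2))⁻¹) :
    ∃ z : ℝ, Z ≤ z ∧ (z ^ (2 * n + 2))⁻¹ = p ∧ 1 / z ^ n = p ^ ((n : ℝ) / (2 * n + 2)) := by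
  have hn0 : (2 * (n : ℝ) + 2) ≠ 0 := by positivity
  set w : ℝ := p ^ (1 / (2 * (n : ℝ) + 2)) with hw
  have hw0 : 0 < w := Real.rpow_pos_of_pos hp _
  have hw20 : w ^ (2 * n + 2) = p := by
    rw [hw, ← Real.rpow_natCast, ← Real.rpow_mul hp.le]
    push_cast
    rw [one_div, inv_mul_cancel₀ hn0, Real.rpow_one]
  have hw2 : w ^ n = p ^ ((n : ℝ) / (2 * n + 2)) := by
    rw [hw, ← Real.rpow_natCast, ← Real.rpow_mul hp.le]
    congr 1
    ring
  have hz20 : (w⁻¹ ^ (2 * n + 2))⁻¹ = p := by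
    rw [inv_pow, inv_inv, hw20]
  refine ⟨w⁻¹, ?_, hz20, ?_⟩
  · have h1 : (w⁻¹ ^ (2 * n + 2))⁻¹ ≤ (Z ^ (2 * n + 2))⁻¹ := by rw [hz20]; exact hpZ
    have h2 : Z ^ (2 * n + 2) ≤ w⁻¹ ^ (2 * n + 2) :=
      (inv_le_inv₀ (by positivity) (by positivity)).1 h1
    exact le_of_pow_le_pow_left₀ (by omega) (by positivity) h2
  · rw [← hw2, inv_pow, one_div, inv_inv]

theorem exists_n {γ : ℝ} (hγ : γ < 1 / 2) : ∃ n : ℕ, γ ≤ (n : ℝ) / (2 * n + 2) := by
  obtain ⟨n, hn⟩ := exists_nat_gt (1 / (1 / 2 - γ))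
  refine ⟨n, ?_⟩
  have h1 : 0 < 1 / 2 - γ := by linarith
  rw [div_lt_iff₀ h1] at hn
  have h2 : (0 : ℝ) < 2 * n + 2 := by positivity
  rw [le_div_iff₀ h2]
  linarith

theorem ergodic_context (N : Finset ℤ) (ν : ℤ) (m k : ℕ)
    (h1 : (N.filter (fun n => n < ν)).card = m) (h2 : (N.filter (fun n => ν < n)).card = m)
    (h3 : ν ∈ N) (h4 : ∃ n ∈ N, ν - k ≤ n ∧ n < ν) (h5 : ∃ n ∈ N, ν < n ∧ n ≤ ν + k) (R : ℕ)
    {γ : ℝ} (hγ : γ < 1 / 2) :
    ∃ ε : ℝ, 0 < ε ∧ ∀ Φ : PCA, (∀ n ∈ Φ.nbhd, |n| ≤ R) → (∀ x i, Φ.err N x i ≤ ε) →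
      ∀ b : Bool, (∀ x i, maj N x i = (!b) → 0 < Φ.err N x i ∧ ∀ y j, maj N y j = b →
        Φ.err N y j ≤ 2 / (k * (k + 1)) * (1 - Φ.err N x i ^ γ) * Φ.err N x i) →
      Φ.Ergodic := by
  have hm : 1 ≤ m := by
    obtain ⟨n, hn, _, hn2⟩ := h4
    rw [← h1, Nat.one_le_iff_ne_zero, ← Nat.pos_iff_ne_zero, Finset.card_pos]
    exact ⟨n, Finset.mem_filter.2 ⟨hn, hn2⟩⟩
  have hk : 1 ≤ k := by
    obtain ⟨n, hn, hn1, hn2⟩ := h4
    have : (0 : ℤ) < k := by linarith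
    exact_mod_cast this
  have hk' : (1 : ℝ) ≤ k := by exact_mod_cast hk
  obtain ⟨n, hn⟩ := exists_n hγ
  set D : Nb := mkNb N ν m h1 h2 h3 hm with hD
  have hGap : Gap D k := ⟨h4, h5⟩
  set K : ℕ := 2 * D.r + 2 * R1 D R + 2 + k with hK
  have hK2r : 2 * D.r ≤ K := by omega
  have hB1 := one_le_Bk hk
  obtain ⟨a₁, a₃, C5, Cc, ha₁, ha₃, hC5, hdr⟩ := hdr_gap D hGap hk n R K hK2r (by omega)
  have hz0 : ∀ z : ℝ, 1 ≤ z → 0 ≤ 1 / z ^ n := fun z hz => by positivity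
  have hκf : ∀ z : ℝ, 1 ≤ z → (fun z : ℝ => (1 - 1 / z ^ n) / Bk k) z ≤ 1 := by
    intro z hz
    change (1 - 1 / z ^ n) / Bk k ≤ 1
    rw [div_le_one (by linarith)]
    have := hz0 z hz
    linarith
  have hκ0 : ∀ z : ℝ, 1 ≤ z → 0 ≤ (fun z : ℝ => (1 - 1 / z ^ n) / Bk k) z := by
    intro z hz
    have h1 : 1 ≤ z ^ n := one_le_pow₀ hz
    have h2 : 1 / z ^ n ≤ 1 := by
      rw [div_le_one (by positivity)]
      exact h1
    change 0 ≤ (1 - 1 / z ^ n) / Bk k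
    apply div_nonneg <;> linarith
  obtain ⟨Z, hZ1, hZ⟩ := exists_Z D n R K (max R (D.N.sup Int.natAbs)) hK2r (by omega) (by omega)
    ha₁ (by positivity) ha₃ hC5 (fun z : ℝ => (1 - 1 / z ^ n) / Bk k) hκf hdr
  have hZ2 : (1 : ℝ) ≤ max Z 2 := hZ1.trans (le_max_left _ _)
  refine ⟨(max Z 2 ^ (2 * n + 2))⁻¹, by positivity, ?_⟩
  intro Φ hR hε b hb
  obtain ⟨x₀, hx₀, hmin⟩ := exists_min Φ D b
  obtain ⟨hp0, hq⟩ := hb x₀ 0 hx₀
  obtain ⟨z, hz, hz20, hz2⟩ := exists_z n hp0 (Z := max Z 2) hZ2 (hε x₀ 0)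
  have hzZ : Z ≤ z := (le_max_left _ _).trans hz
  have hz2' : 2 ≤ z := (le_max_right _ _).trans hz
  apply ergodic_of_Z D n R (fun z : ℝ => (1 - 1 / z ^ n) / Bk k) hκf hκ0 hZ1 hZ Φ hR b z hzZ
  · have h6 : (2 : ℝ) ^ (2 * n + 2) ≤ z ^ (2 * n + 2) := pow_le_pow_left₀ (by norm_num) hz2' _
    have h7 : (2 : ℝ) ≤ 2 ^ (2 * n + 2) := by
      have : (2 : ℝ) ^ 1 ≤ 2 ^ (2 * n + 2) := pow_le_pow_right₀ (by norm_num) (by omega)
      linarith
    linarith
  · intro x hx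
    have h6 := hq x 0 hx
    have h7 : (1 - Φ.err N x₀ 0 ^ ((n : ℝ) / (2 * n + 2))) / Bk k * Φ.err N x₀ 0 =
        2 / (k * (k + 1)) * (1 - Φ.err N x₀ 0 ^ ((n : ℝ) / (2 * n + 2))) * Φ.err N x₀ 0 := by
      rw [Bk]
      field_simp
    change _ ≤ (1 - 1 / z ^ n) / Bk k * (z ^ (2 * n + 2))⁻¹
    rw [hz2, hz20, h7]
    refine h6.trans ?_
    apply mul_le_mul_of_nonneg_right _ hp0.le
    apply mul_le_mul_of_nonneg_left _ (by positivity)
    have h8 : Φ.err N x₀ 0 ^ ((n : ℝ) / (2 * n + 2)) ≤ Φ.err N x₀ 0 ^ γ :=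
      Real.rpow_le_rpow_of_exponent_ge hp0 (err_le_one Φ N x₀ 0) hn
    linarith
  · intro x hx
    rw [hz20]
    exact hmin x hx

end Pool.Agent.Lib.MP_8850da_pr
end
end
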