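import Pool.Agent.Lib.MP_8850da_pr.W6
import Pool.Agent.Lib.MP_8850da_pr.F1

section

/-!
# The drift of the potential
-/

set_option autoImplicit false

open MeasureTheory

namespace Pool.Agent.Lib.MP_8850da_pr

theorem Phi_pos_of_XX {δ : ℝ} {K l L : ℕ} {o : ℤ} {S : Set ℤ} (h1 : XX δ K l L o S < 1) :
    0 < Phi K l L o S := by
  rw [XX, Real.exp_lt_one_iff] at h1
  by_contra h
  push Not at h
  have := Phi_nonneg K l L o S
  have h3 : Phi K l L o S = 0 := le_antisymm h this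
  rw [h3, mul_zero, neg_zero] at h1
  exact lt_irrefl _ h1

theorem Phi_lt_of_XX {δ : ℝ} (hδ : 0 < δ) {K l L : ℕ} {o : ℤ} {S : Set ℤ}
    (h2 : Real.exp (-(δ * L)) < XX δ K l L o S) : Phi K l L o S < L := by
  rw [XX, Real.exp_lt_exp, neg_lt_neg_iff] at h2
  exact lt_of_mul_lt_mul_left h2 hδ.le

/-- The expected value of the potential after one step. -/
noncomputable def EXX (D : Nb) (p q δ : ℝ) (K l L : ℕ) (o : ℤ) (S : Set ℤ) : ℝ :=
  ∫ u, XX δ K l L o (upM D K u S) ∂(nz (rho p q))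

/-- The parameters of the proof. -/
structure Par where
  /-- the neighbourhood -/
  D : Nb
  /-- thickness -/
  K : ℕ
  /-- length of the ramps -/
  l : ℕ
  /-- length of the flat part -/
  L : ℕ
  /-- probability of noise `1` -/
  p : ℝ
  /-- probability of noise `2` -/
  q : ℝ
  /-- the exponent -/
  δ : ℝ
  /-- the rate -/
  a : ℝ
  hK : 2 * D.r ≤ K
  hl : 1 ≤ l
  hL : 1 ≤ L
  hp : 0 < p
  hq : 0 ≤ q
  hqp : q ≤ p
  hB : p * (nb D.r K l L : ℕ) ≤ 1
  hδ : 0 < δ
  hμ : Real.exp (δ * (K + 2 * D.r + 1)) ≤ 2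
  ha0 : 0 ≤ a
  hap : a ≤ p
  d1 : ∀ (o : ℤ) (S : Set ℤ), XX δ K l L o S < 1 → Real.exp (-(δ * L)) < XX δ K l L o S →
    EXX D p q δ K l L o S ≤ (1 - a) * XX δ K l L o S
  d2 : ∀ (o : ℤ) (S : Set ℤ), XX δ K l L o S ≤ Real.exp (-(δ * L)) →
    EXX D p q δ K l L o S ≤ XX δ K l L o S + p * Real.exp (-(δ * L))

/-- The assumptions of the drift inequalities. -/
structure DriftData (D : Nb) (K l L : ℕ) (p q δ G κ : ℝ) : Prop where
  hK : 2 * D.r ≤ K
  hl : 1 ≤ l
  hL : 1 ≤ L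
  hp : 0 < p
  hq : 0 ≤ q
  hqp : q ≤ p
  hB : p * (nb D.r K l L : ℕ) ≤ 1
  hδ : 0 < δ
  hG : 2 * (2 * (D.m : ℝ) + 1) ≤ G
  hδG : δ * G ≤ 1
  hδm : 4 * (δ * (D.m + 1)) ≤ 1
  hμ : Real.exp (δ * (G + (2 * D.m + 3) * (K + 2 * D.r + 1))) ≤ 2
  /-- the second order terms are small -/
  hsm : 1024 * (K + 2 * D.r + 1) ^ 2 * (4 * D.m + 5) * (p * (nb D.r K l L : ℕ)) ≤
    (1 - δ * G) * (D.m + 1) * (1 - κ)

theorem exp_neg_le {x : ℝ} (h0 : 0 ≤ x) (h1 : x ≤ 1) : Real.exp (-x) ≤ 1 - x / 2 := by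
  have h2 : 1 + x ≤ Real.exp x := by linarith [Real.add_one_le_exp x]
  have h3 : Real.exp (-x) ≤ (1 + x)⁻¹ := by
    rw [Real.exp_neg]
    exact inv_anti₀ (by linarith) h2
  refine h3.trans ?_
  rw [inv_le_comm₀ (by linarith) (by linarith), inv_le_iff_one_le_mul₀ (by linarith)]
  nlinarith

theorem exp_le_two_mul {x : ℝ} (h0 : 0 ≤ x) (h1 : x ≤ 1) : Real.exp x ≤ 1 + 2 * x := by
  have h2 := Real.abs_exp_sub_one_sub_id_le (x := x) (by rw [abs_of_nonneg h0]; exact h1)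
  have h3 := (abs_le.1 h2).2
  nlinarith

section gap

variable {D : Nb} {K k l L : ℕ} {p q δ G κ : ℝ} (H : DriftData D K l L p q δ G κ)
  (hGap : Gap D k) (hkK : k ≤ K) (hGk : 2 * (2 * (D.m : ℝ) + 1) * (k : ℝ) ^ 2 ≤ G)
  (hκ : q * (1 + δ * G) * (k * (k + 1) / 2) ≤ κ * (p * (1 - δ * G)))
  (hs : (2 * (k : ℝ) + 2) * (1 / (l : ℝ)) ≤ 1 - κ)

include H hGap hkK hGk hκ

theorem gap_main (o : ℤ) (S : Set ℤ) :
    EXX D p q δ K l L o S ≤ XX δ K l L o S *
      (Real.exp (-(p * (δ * (1 - δ * G) * (D.m + 1)) *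
        (OO l L o (TT K S) - κ * (II l L o (TT K S) +
          k * (1 / (l : ℝ) * (ind (o + l ∈ TT K S) + ind (o + l + L ∈ TT K S))))))) +
        128 * (K + 2 * D.r + 1) ^ 2 * p ^ 2 * δ * Ps2 D K l L o S) := by
  have h1 := drift_main H.hK hGap hkK l L o S H.hp.le H.hq H.hqp H.hB H.hδ.le H.hG hGk H.hδG H.hμ
  rw [sum_Lak D K k l L hkK o S] at h1
  refine h1.trans ?_
  apply mul_le_mul_of_nonneg_left _ (XX_pos _ _ _ _ _ _).le
  have hδ := H.hδ
  have hδG := H.hδG
  have hG := H.hG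
  have hG0 : 0 ≤ G := le_trans (by positivity) hG
  have hδG0 : 0 ≤ δ * G := mul_nonneg hδ.le hG0
  have hq := H.hq
  set T := TT K S with hT
  set J : ℝ := II l L o T + k * (1 / (l : ℝ) * (ind (o + l ∈ T) + ind (o + l + L ∈ T))) with hJ
  have hJ0 : 0 ≤ J := by
    have h2 := II_nonneg (l := l) (L := L) (o := o) T
    have h3 : 0 ≤ 1 / (l : ℝ) * (ind (o + l ∈ T) + ind (o + l + L ∈ T)) :=
      mul_nonneg (by positivity) (add_nonneg (ind_nonneg _) (ind_nonneg _))
    positivity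
  have h2 := total_loss (l := l) (L := L) (o := o) T H.hl H.hL k
  rw [← hJ] at h2
  have h3 : 0 ≤ q * (δ * (1 + δ * G)) * (D.m + 1) := by positivity
  have h4 := mul_le_mul_of_nonneg_left h2 h3
  have h5 : 0 ≤ δ * (D.m + 1) * J := by positivity
  have h6 := mul_le_mul_of_nonneg_right hκ h5
  have e1 : q * (δ * (1 + δ * G)) * (D.m + 1) * (∑ v ∈ Finset.range k, ((k : ℝ) - v) *
      Sv l L o T v) = q * (δ * (1 + δ * G) * ((D.m + 1) * ∑ v ∈ Finset.range k,
      ((k : ℝ) - v) * Sv l L o T v)) := by ring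
  have e2 : q * (1 + δ * G) * (k * (k + 1) / 2) * (δ * (D.m + 1) * J) =
      q * (δ * (1 + δ * G)) * (D.m + 1) * (k * (k + 1) / 2 * J) := by ring
  have e3 : p * (δ * (1 - δ * G) * (D.m + 1)) * (OO l L o T - κ * J) =
      p * (δ * (1 - δ * G) * ((D.m + 1) * OO l L o T)) -
        κ * (p * (1 - δ * G)) * (δ * (D.m + 1) * J) := by ring
  apply add_le_add
  · rw [Real.exp_le_exp, e3]
    linarith
  · exact le_of_eq (by ring)

include hs

theorem gap_d1 (hκ0 : 0 ≤ κ) (o : ℤ) (S : Set ℤ) (h1 : XX δ K l L o S < 1)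
    (h2 : Real.exp (-(δ * L)) < XX δ K l L o S) :
    EXX D p q δ K l L o S ≤ (1 - δ * (1 - δ * G) * (D.m + 1) * (1 - κ) * (1 / l) / 8 * p) *
      XX δ K l L o S := by
  have hδ := H.hδ
  have hl0 : (0 : ℝ) < l := by exact_mod_cast H.hl
  have hs0 : 0 < 1 / (l : ℝ) := by positivity
  obtain ⟨i, hi, hi1, hi2⟩ := exists_of_Phi_pos (Phi_pos_of_XX h1)
  have hflat := flat_of_Phi_lt H.hl (Phi_lt_of_XX hδ h2)
  have hJ := J_ge_II (TT K S) H.hl H.hL hflat hs
  have hI := inv_le_II (TT K S) H.hl hflat hi hi1 hi2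
  have hP := Ps2_le_II D H.hl hflat hI
  have hI2 := II_le l L o (TT K S)
  have hm := gap_main H hGap hkK hGk hκ o S
  have hX := XX_pos δ K l L o S
  have hδG := H.hδG
  have hp := H.hp
  have hκ1 : 0 ≤ 1 - κ := by
    have : 0 ≤ (2 * (k : ℝ) + 2) * (1 / (l : ℝ)) := by positivity
    linarith
  set I : ℝ := II l L o (TT K S) with hId
  have hI0 : 0 ≤ I := hs0.le.trans hI
  set C : ℝ := δ * (1 - δ * G) * (D.m + 1) with hC
  have hC0 : 0 ≤ C := by
    have : 0 ≤ 1 - δ * G := by linarith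
    positivity
  have hC4 : C ≤ 1 / 4 := by
    have h3 := H.hδm
    have hG0 : 0 ≤ δ * G := mul_nonneg hδ.le (le_trans (by positivity) H.hG)
    have h4 : δ * (1 - δ * G) * (D.m + 1) ≤ δ * 1 * (D.m + 1) := by
      apply mul_le_mul_of_nonneg_right _ (by positivity)
      exact mul_le_mul_of_nonneg_left (by linarith) hδ.le
    rw [hC]
    linarith
  have hnbR : 2 * (l : ℝ) + L + 1 ≤ (nb D.r K l L : ℕ) := by
    rw [nb]
    push_cast
    have : (0 : ℝ) ≤ K + 2 * D.r := by positivity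
    linarith
  set nn : ℝ := ((nb D.r K l L : ℕ) : ℝ) with hnn
  have hnn0 : 0 ≤ nn := by positivity
  have hpn : p * nn ≤ 1 := H.hB
  -- the exponential
  set x : ℝ := p * C * ((1 - κ) / 2 * I) with hx
  have hx0 : 0 ≤ x := by positivity
  refine hm.trans ?_
  rw [mul_comm (1 - C * (1 - κ) * (1 / (l : ℝ)) / 8 * p)]
  apply mul_le_mul_of_nonneg_left _ hX.le
  have hκ0' : 1 - κ ≤ 1 := by linarith
  have hx1 : x ≤ 1 := by
    have h3 : p * I ≤ 2 := by
      have h4 : p * I ≤ p * (2 * nn) := mul_le_mul_of_nonneg_left (by linarith) hp.le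
      linarith
    have h5 : (1 - κ) / 2 * (p * I) ≤ 1 / 2 * 2 :=
      mul_le_mul (by linarith) h3 (by positivity) (by norm_num)
    have h6 : C * ((1 - κ) / 2 * (p * I)) ≤ 1 / 4 * (1 / 2 * 2) :=
      mul_le_mul hC4 h5 (by positivity) (by norm_num)
    have h7 : x = C * ((1 - κ) / 2 * (p * I)) := by
      rw [hx]
      ring
    rw [h7]
    linarith
  have f1 := exp_neg_le hx0 hx1
  have f2 := mul_le_mul_of_nonneg_left hJ (mul_nonneg hp.le hC0)
  have f3 : Real.exp (-(p * C * (OO l L o (TT K S) - κ * (I +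
          k * (1 / (l : ℝ) * (ind (o + l ∈ TT K S) + ind (o + l + L ∈ TT K S))))))) ≤
      Real.exp (-x) := by
    rw [Real.exp_le_exp]
    linarith
  -- the second order terms
  have f4 : 128 * (K + 2 * D.r + 1) ^ 2 * p ^ 2 * δ * Ps2 D K l L o S ≤
      p * C * (1 - κ) / 8 * I := by
    have g1 : Ps2 D K l L o S ≤ nn * ((4 * D.m + 5) * I) :=
      hP.trans (mul_le_mul_of_nonneg_right hnbR (by positivity))
    have g2 := mul_le_mul_of_nonneg_left g1
      (show 0 ≤ 128 * ((K : ℝ) + 2 * D.r + 1) ^ 2 * p ^ 2 * δ by positivity)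
    have g3 := mul_le_mul_of_nonneg_right H.hsm (show 0 ≤ p * δ * I / 8 by positivity)
    refine g2.trans ?_
    have e1 : 128 * ((K : ℝ) + 2 * D.r + 1) ^ 2 * p ^ 2 * δ * (nn * ((4 * D.m + 5) * I)) =
        1024 * (K + 2 * D.r + 1) ^ 2 * (4 * D.m + 5) * (p * nn) * (p * δ * I / 8) := by ring
    have e2 : (1 - δ * G) * (D.m + 1) * (1 - κ) * (p * δ * I / 8) =
        p * C * (1 - κ) / 8 * I := by
      rw [hC]
      ring
    rw [e1]
    exact g3.trans (le_of_eq e2)
  have f5 : C * (1 - κ) * (1 / (l : ℝ)) / 8 * p ≤ p * C * (1 - κ) / 8 * I := by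
    have := mul_le_mul_of_nonneg_left hI (show 0 ≤ p * C * (1 - κ) / 8 by positivity)
    linarith
  have f6 : x / 2 = p * C * (1 - κ) / 4 * I := by
    rw [hx]
    ring
  linarith

theorem gap_d2 (hκ0 : 0 ≤ κ) (o : ℤ) (S : Set ℤ) (h2 : XX δ K l L o S ≤ Real.exp (-(δ * L))) :
    EXX D p q δ K l L o S ≤ XX δ K l L o S + p * Real.exp (-(δ * L)) := by
  have hδ := H.hδ
  have hl0 : (0 : ℝ) < l := by exact_mod_cast H.hl
  have hs0 : 0 < 1 / (l : ℝ) := by positivity
  have hκ1 : κ ≤ 1 := by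
    have : 0 ≤ (2 * (k : ℝ) + 2) * (1 / (l : ℝ)) := by positivity
    linarith
  have hJ := J_gek' (l := l) (L := L) (o := o) (TT K S) H.hl H.hL hκ1 k
  have hm := gap_main H hGap hkK hGk hκ o S
  have hX := XX_pos δ K l L o S
  have hδG := H.hδG
  have hp := H.hp
  have hG0 : 0 ≤ δ * G := mul_nonneg hδ.le (le_trans (by positivity) H.hG)
  set C : ℝ := δ * (1 - δ * G) * (D.m + 1) with hC
  have hC0 : 0 ≤ C := by
    have : 0 ≤ 1 - δ * G := by linarith
    positivity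
  have hC4 : C ≤ 1 / 4 := by
    have h3 := H.hδm
    have h4 : δ * (1 - δ * G) * (D.m + 1) ≤ δ * 1 * (D.m + 1) := by
      apply mul_le_mul_of_nonneg_right _ (by positivity)
      exact mul_le_mul_of_nonneg_left (by linarith) hδ.le
    rw [hC]
    linarith
  have hpq := pq_le l L H.hp.le H.hqp H.hB
  have hp1 : p ≤ 1 := by
    have := H.hq
    linarith
  refine hm.trans ?_
  have hJ' := (neg_le_neg hs).trans hJ
  have h3 := mul_le_mul_of_nonneg_left hJ' (mul_nonneg hp.le hC0)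
  have f1 : Real.exp (-(p * C * (OO l L o (TT K S) - κ * (II l L o (TT K S) +
          k * (1 / (l : ℝ) * (ind (o + l ∈ TT K S) + ind (o + l + L ∈ TT K S))))))) ≤
      Real.exp (p / 4) := by
    rw [Real.exp_le_exp]
    have h4 : p * C * (1 - κ) ≤ p * C := mul_le_of_le_one_right (by positivity) (by linarith)
    have h5 := mul_le_mul_of_nonneg_left hC4 hp.le
    linarith
  have f2 := exp_le_two_mul (show 0 ≤ p / 4 by positivity) (by linarith)
  have hnbR : 2 * (l : ℝ) + L + 1 ≤ (nb D.r K l L : ℕ) := by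
    rw [nb]
    push_cast
    have : (0 : ℝ) ≤ K + 2 * D.r := by positivity
    linarith
  set nn : ℝ := ((nb D.r K l L : ℕ) : ℝ) with hnn
  have f3 : 128 * (K + 2 * D.r + 1) ^ 2 * p ^ 2 * δ * Ps2 D K l L o S ≤ p / 2 := by
    have g1 : Ps2 D K l L o S ≤ nn * (4 * D.m + 5) := by
      refine (Ps2_le D K l L o S).trans ?_
      apply mul_le_mul hnbR _ (by positivity) (by positivity)
      have : (0 : ℝ) ≤ D.m := by positivity
      linarith
    have g2 := mul_le_mul_of_nonneg_left g1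
      (show 0 ≤ 128 * ((K : ℝ) + 2 * D.r + 1) ^ 2 * p ^ 2 * δ by positivity)
    have g3 := mul_le_mul_of_nonneg_right H.hsm (show 0 ≤ p * δ / 8 by positivity)
    refine g2.trans ?_
    have e1 : 128 * ((K : ℝ) + 2 * D.r + 1) ^ 2 * p ^ 2 * δ * (nn * (4 * D.m + 5)) =
        1024 * (K + 2 * D.r + 1) ^ 2 * (4 * D.m + 5) * (p * nn) * (p * δ / 8) := by ring
    have e2 : (1 - δ * G) * (D.m + 1) * (1 - κ) * (p * δ / 8) = C * (1 - κ) / 8 * p := by
      rw [hC]
      ring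
    rw [e1]
    refine (g3.trans (le_of_eq e2)).trans ?_
    have h4 : C * (1 - κ) ≤ 1 / 4 * 1 := mul_le_mul hC4 (by linarith) (by linarith) (by norm_num)
    have h5 := mul_le_mul_of_nonneg_right h4 hp.le
    linarith
  have h5 : Real.exp (-(p * C * (OO l L o (TT K S) - κ * (II l L o (TT K S) +
          k * (1 / (l : ℝ) * (ind (o + l ∈ TT K S) + ind (o + l + L ∈ TT K S))))))) +
        128 * (K + 2 * D.r + 1) ^ 2 * p ^ 2 * δ * Ps2 D K l L o S ≤ 1 + p := by
    linarith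
  have h6 := mul_le_mul_of_nonneg_left h5 hX.le
  have h7 := mul_le_mul_of_nonneg_left h2 hp.le
  linarith

end gap

end Pool.Agent.Lib.MP_8850da_pr
end

section

/-!
# Hits, cuts and the flagged potential
-/

set_option autoImplicit false

open MeasureTheory

namespace Pool.Agent.Lib.MP_8850da_pr

theorem card_le_of_diff (F : Finset ℤ) (d : ℕ) (h : ∀ i ∈ F, ∀ j ∈ F, j ≤ i + d) :
    F.card ≤ d + 1 := by
  rcases F.eq_empty_or_nonempty with h1 | h1
  · rw [h1, Finset.card_empty]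
    exact Nat.zero_le _
  · have h2 : F ⊆ Finset.Icc (F.min' h1) (F.min' h1 + d) := by
      intro j hj
      rw [Finset.mem_Icc]
      exact ⟨F.min'_le j hj, h _ (F.min'_mem h1) j hj⟩
    have h3 := Finset.card_le_card h2
    rw [Int.card_Icc] at h3
    have h4 : F.min' h1 + (d : ℤ) + 1 - F.min' h1 = ((d + 1 : ℕ) : ℤ) := by
      push_cast
      ring
    rwa [h4, Int.toNat_natCast] at h3

theorem card_le_of_diff' (F : Finset ℤ) (d : ℕ) (h : ∀ i ∈ F, ∀ j ∈ F, j < i + d) :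
    F.card ≤ d := by
  rcases F.eq_empty_or_nonempty with h1 | h1
  · rw [h1, Finset.card_empty]
    exact Nat.zero_le _
  · obtain ⟨i, hi⟩ := h1
    have hd : 0 < d := by
      have := h i hi i hi
      by_contra hcon
      have h0 : d = 0 := by omega
      rw [h0, Nat.cast_zero, add_zero] at this
      exact lt_irrefl _ this
    have h2 := card_le_of_diff F (d - 1) (fun i hi j hj => by
      have := h i hi j hj
      have h3 : ((d - 1 : ℕ) : ℤ) = d - 1 := by
        rw [Nat.cast_sub hd]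
        norm_num
      rw [h3]
      linarith [Int.add_one_le_iff.2 this])
    omega

theorem zone_finite (S : Set ℤ) (c : ℕ) : (zone S c).Finite := by
  classical
  have h1 : ∀ F : Finset ℤ, (F : Set ℤ) ⊆ zone S c → F.card ≤ 2 * c := by
    intro F hF
    have e : F = F.filter (fun i => ¬ ∃ s ∈ S, s + c ≤ i) ∪
        F.filter (fun i => ¬ ∃ s ∈ S, i ≤ s - c) := by
      ext i
      rw [Finset.mem_union, Finset.mem_filter, Finset.mem_filter, ← and_or_left]
      constructor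
      · intro hi
        refine ⟨hi, ?_⟩
        by_contra hcon
        push Not at hcon
        exact (hF hi).2 hcon
      · exact fun h => h.1
    rw [e]
    refine (Finset.card_union_le _ _).trans ?_
    have a1 := card_le_of_diff' (F.filter (fun i => ¬ ∃ s ∈ S, s + c ≤ i)) c (by
      intro i hi j hj
      rw [Finset.mem_filter] at hi hj
      by_contra hcon
      exact hj.2 ⟨i, (hF hi.1).1, not_lt.1 hcon⟩)
    have a2 := card_le_of_diff' (F.filter (fun i => ¬ ∃ s ∈ S, i ≤ s - c)) c (by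
      intro i hi j hj
      rw [Finset.mem_filter] at hi hj
      by_contra hcon
      exact hi.2 ⟨j, (hF hj.1).1, by linarith [not_lt.1 hcon]⟩)
    omega
  by_contra hinf
  obtain ⟨F, hF, hc⟩ := Set.Infinite.exists_subset_card_eq hinf (2 * c + 1)
  have := h1 F hF
  omega

/-- The zone as a finite set. -/
noncomputable def zoneF (S : Set ℤ) (c : ℕ) : Finset ℤ := (zone_finite S c).toFinset

theorem mem_zoneF {S : Set ℤ} {c : ℕ} {i : ℤ} : i ∈ zoneF S c ↔ i ∈ zone S c := by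
  rw [zoneF, Set.Finite.mem_toFinset]

theorem card_zoneF (S : Set ℤ) (c : ℕ) : (zoneF S c).card ≤ 2 * c := by
  classical
  have e : zoneF S c = (zoneF S c).filter (fun i => ¬ ∃ s ∈ S, s + c ≤ i) ∪
      (zoneF S c).filter (fun i => ¬ ∃ s ∈ S, i ≤ s - c) := by
    ext i
    rw [Finset.mem_union, Finset.mem_filter, Finset.mem_filter, ← and_or_left]
    constructor
    · intro hi
      refine ⟨hi, ?_⟩
      by_contra hcon
      push Not at hcon
      exact (mem_zoneF.1 hi).2 hcon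
    · exact fun h => h.1
  rw [e]
  refine (Finset.card_union_le _ _).trans ?_
  have a1 := card_le_of_diff' ((zoneF S c).filter (fun i => ¬ ∃ s ∈ S, s + c ≤ i)) c (by
    intro i hi j hj
    rw [Finset.mem_filter] at hi hj
    by_contra hcon
    exact hj.2 ⟨i, (mem_zoneF.1 hi.1).1, not_lt.1 hcon⟩)
  have a2 := card_le_of_diff' ((zoneF S c).filter (fun i => ¬ ∃ s ∈ S, i ≤ s - c)) c (by
    intro i hi j hj
    rw [Finset.mem_filter] at hi hj
    by_contra hcon
    exact hi.2 ⟨j, (mem_zoneF.1 hj.1).1, by linarith [not_lt.1 hcon]⟩)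
  omega

/-- The weight of the cut set. -/
theorem Phi_cut (D : Nb) (K l L : ℕ) (o : ℤ) (v : ℤ → Fin 3) (S : Set ℤ) (c : ℕ) :
    Phi K l L o (upM D K v S) - 2 * (c + 2) ≤ Phi K l L o (cutM D K v S c) := by
  classical
  set T := upM D K v S with hT
  -- the lost elements
  set F1 := (Wn l L o).filter (fun i => i ∈ TT K T ∧ ¬ ∃ s ∈ S, s + c ≤ i) with hF1
  set F2 := (Wn l L o).filter (fun i => i ∈ TT K T ∧ ¬ ∃ s ∈ S, i + K ≤ s - c) with hF2
  have hpl : ∀ i ∈ TT K T, ∃ a ∈ S, a - 1 ≤ i := by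
    intro i hi
    obtain ⟨a, ha, _, _, h3, _⟩ := (upM_sub D K v S (mem_of_TT hi)).2
    exact ⟨a, ha, h3⟩
  have hpr : ∀ i ∈ TT K T, ∃ a ∈ S, i + K ≤ a + 1 := by
    intro i hi
    have h1 : i + (K : ℤ) ∈ T := hi (Set.mem_Icc.2 ⟨by linarith [show (0 : ℤ) ≤ K by positivity],
      le_rfl⟩)
    obtain ⟨_, _, a, ha, _, h3⟩ := (upM_sub D K v S h1).2
    exact ⟨a, ha, h3⟩
  have c1 : F1.card ≤ c + 2 := by
    apply card_le_of_diff F1 (c + 1)
    intro i hi j hj
    rw [hF1, Finset.mem_filter] at hi hj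
    obtain ⟨a, ha, h3⟩ := hpl i hi.2.1
    have h4 : ¬ a + c ≤ j := fun h => hj.2.2 ⟨a, ha, h⟩
    push_cast
    linarith [not_le.1 h4]
  have c2 : F2.card ≤ c + 2 := by
    apply card_le_of_diff F2 (c + 1)
    intro i hi j hj
    rw [hF2, Finset.mem_filter] at hi hj
    obtain ⟨a, ha, h3⟩ := hpr j hj.2.1
    have h4 : ¬ i + K ≤ a - c := fun h => hi.2.2 ⟨a, ha, h⟩
    push_cast
    linarith [not_le.1 h4]
  have hmain : Phi K l L o T ≤ Phi K l L o (cutM D K v S c) + F1.card + F2.card := by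
    rw [Phi, Phi, ← sum_ind, ← sum_ind, ← Finset.sum_add_distrib, ← Finset.sum_add_distrib]
    apply Finset.sum_le_sum
    intro i _
    have hw := wt_le_one (l := l) (L := L) (o := o) i
    have hw0 := wt_nonneg (l := l) (L := L) (o := o) i
    have n0 := mul_nonneg hw0 (ind_nonneg (i ∈ TT K (cutM D K v S c)))
    have n1 := ind_nonneg (i ∈ TT K T ∧ ¬ ∃ s ∈ S, s + c ≤ i)
    have n2 := ind_nonneg (i ∈ TT K T ∧ ¬ ∃ s ∈ S, i + K ≤ s - c)
    by_cases h1 : i ∈ TT K T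
    · rw [ind_pos h1, mul_one]
      by_cases h2 : ∃ s ∈ S, s + c ≤ i
      · by_cases h3 : ∃ s ∈ S, i + K ≤ s - c
        · have h4 : i ∈ TT K (cutM D K v S c) := by
            apply TT_Op
            intro j hj
            refine ⟨h1 hj, ?_, ?_⟩
            · obtain ⟨s, hs, h5⟩ := h2
              exact ⟨s, hs, by linarith [(Set.mem_Icc.1 hj).1]⟩
            · obtain ⟨s, hs, h5⟩ := h3
              exact ⟨s, hs, by linarith [(Set.mem_Icc.1 hj).2]⟩
          rw [ind_pos h4, mul_one]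
          linarith
        · rw [ind_pos (show i ∈ TT K T ∧ ¬ ∃ s ∈ S, i + K ≤ s - c from ⟨h1, h3⟩)]
          linarith
      · rw [ind_pos (show i ∈ TT K T ∧ ¬ ∃ s ∈ S, s + c ≤ i from ⟨h1, h2⟩)]
        linarith
    · rw [ind_neg h1, mul_zero]
      linarith
  have c1' : (F1.card : ℝ) ≤ c + 2 := by exact_mod_cast c1
  have c2' : (F2.card : ℝ) ≤ c + 2 := by exact_mod_cast c2
  linarith

theorem zs_dep {u v : ℤ → Fin 3} {S : Set ℤ} {j : ℤ} (h : u j = v j) :
    j ∈ zs u S ↔ j ∈ zs v S := mem_zs_congr u v S j h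

/-- The weight of the cut set depends only on the noise in `BB`. -/
theorem Phi_cut_dep (D : Nb) (K l L : ℕ) (o : ℤ) (S : Set ℤ) (c : ℕ) (u v : ℤ → Fin 3)
    (h : ∀ z ∈ BB D.r K l L o, u z = v z) :
    Phi K l L o (cutM D K u S c) = Phi K l L o (cutM D K v S c) := by
  rw [Phi, Phi]
  apply Finset.sum_congr rfl
  intro i hi
  rw [Wn, Finset.mem_Icc] at hi
  congr 1
  have e : ∀ (u v : ℤ → Fin 3), (∀ z ∈ BB D.r K l L o, u z = v z) →
      i ∈ TT K (cutM D K u S c) → i ∈ TT K (cutM D K v S c) := by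
    intro u v h h1
    have h2 := TT_of_Op h1
    have h3 : i ∈ TT K (Mj D (zs u S) ∩ hullp S) := TT_of_Op (fun j hj => (h2 hj).1)
    have h4 : i ∈ TT K (upM D K v S) := by
      apply TT_Op
      intro j hj
      have h5 := h3 hj
      refine ⟨?_, h5.2⟩
      rw [Set.mem_Icc] at hj
      refine (mem_Mj_congr D _ _ j ?_).1 h5.1
      intro k hk
      rw [Set.mem_Icc] at hk
      apply mem_zs_congr
      apply h
      rw [BB, Finset.mem_Icc]
      constructor <;> linarith [hj.1, hj.2, hk.1, hk.2, hi.1, hi.2]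
    apply TT_Op
    intro j hj
    exact ⟨h4 hj, (h2 hj).2⟩
  by_cases h1 : i ∈ TT K (cutM D K u S c)
  · rw [ind_pos h1, ind_pos (e u v h h1)]
  · rw [ind_neg h1, ind_neg (fun h2 => h1 (e v u (fun z hz => (h z hz).symm) h2))]

/-- Noise `2` hits the zone. -/
def hit (v : ℤ → Fin 3) (S : Set ℤ) (c : ℕ) : Prop := ∃ i ∈ zone S c, v i = 2

theorem hit_dep {S : Set ℤ} {c : ℕ} {u v : ℤ → Fin 3} (h : ∀ z ∈ zoneF S c, u z = v z) :
    hit u S c ↔ hit v S c := by
  constructor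
  · rintro ⟨i, hi, h1⟩
    exact ⟨i, hi, by rw [← h i (mem_zoneF.2 hi)]; exact h1⟩
  · rintro ⟨i, hi, h1⟩
    exact ⟨i, hi, by rw [h i (mem_zoneF.2 hi)]; exact h1⟩

theorem ind_hit_le (v : ℤ → Fin 3) (S : Set ℤ) (c : ℕ) :
    ind (hit v S c) ≤ ∑ z ∈ zoneF S c, ind (v z = 2) := by
  by_cases h : hit v S c
  · obtain ⟨i, hi, h1⟩ := h
    rw [ind_pos ⟨i, hi, h1⟩]
    have h2 := Finset.single_le_sum (f := fun z => ind (v z = 2))
      (fun z _ => ind_nonneg (v z = 2)) (mem_zoneF.2 hi)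
    rw [ind_pos h1] at h2
    exact h2
  · rw [ind_neg h]
    exact Finset.sum_nonneg (fun z _ => ind_nonneg _)

end Pool.Agent.Lib.MP_8850da_pr
end

section

/-!
# Flags
-/

set_option autoImplicit false

open MeasureTheory

namespace Pool.Agent.Lib.MP_8850da_pr

/-- The margin of a state. -/
def mg (D : Nb) (R : ℕ) (fl : Bool) : ℕ := if fl then R1 D R + 2 else 1

/-- The depth up to which hits matter. -/
def hdp (D : Nb) (R : ℕ) (fl : Bool) : ℕ := mg D R fl + R1 D R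

theorem mg_le (D : Nb) (R : ℕ) (fl : Bool) : mg D R fl ≤ R1 D R + 2 := by
  cases fl
  · change 1 ≤ _
    omega
  · exact le_rfl

theorem hdp_le (D : Nb) (R : ℕ) (fl : Bool) : hdp D R fl ≤ 2 * R1 D R + 2 := by
  have := mg_le D R fl
  rw [hdp]
  omega

open Classical in
/-- The next state, in the moving frame. -/
noncomputable def nxM (D : Nb) (K R : ℕ) (v : ℤ → Fin 3) (S : Set ℤ) (fl : Bool) :
    Set ℤ × Bool :=
  if hit v S (hdp D R fl) then
    (if fl then (cutM D K v S (hdp D R fl), false) else (upM D K v S, true))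
  else (upM D K v S, false)

theorem nxM_no {D : Nb} {K R : ℕ} {v : ℤ → Fin 3} {S : Set ℤ} {fl : Bool}
    (h : ¬ hit v S (hdp D R fl)) : nxM D K R v S fl = (upM D K v S, false) := by
  rw [nxM, if_neg h]

theorem nxM_hit_false {D : Nb} {K R : ℕ} {v : ℤ → Fin 3} {S : Set ℤ}
    (h : hit v S (hdp D R false)) : nxM D K R v S false = (upM D K v S, true) := by
  rw [nxM, if_pos h]
  rfl

theorem nxM_hit_true {D : Nb} {K R : ℕ} {v : ℤ → Fin 3} {S : Set ℤ}
    (h : hit v S (hdp D R true)) :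
    nxM D K R v S true = (cutM D K v S (hdp D R true), false) := by
  rw [nxM, if_pos h]
  rfl

/-- The certificate of the next state. -/
theorem cert_nxM {D : Nb} {b : Bool} {R : ℕ} {E : Type} [MeasurableSpace E] (B : BMap D b R E)
    {K : ℕ} {x y : Config} {S : Set ℤ} {fl : Bool} (hK1 : R1 D R + 2 + D.r ≤ K + 1)
    (hK2 : 2 * R1 D R + 2 ≤ K + 1) (h : CertG D K b x y S (mg D R fl)) (u : ℤ → E) :
    CertG D K b (B.G.step x u) (B.G.step y u)
      (shS D.ν (nxM D K R (fun i => B.f (u i)) S fl).1)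
      (mg D R (nxM D K R (fun i => B.f (u i)) S fl).2) := by
  have h1 := mg_le D R fl
  have h2 := hdp_le D R fl
  by_cases hh : hit (fun i => B.f (u i)) S (hdp D R fl)
  · cases fl
    · rw [nxM_hit_false hh]
      have := h.up_weak B (by omega) u
      have e : mg D R false + R1 D R + 1 = mg D R true := by
        change 1 + R1 D R + 1 = R1 D R + 2
        ring
      rw [e] at this
      exact this
    · rw [nxM_hit_true hh]
      exact h.cut B (by omega) u
  · rw [nxM_no hh]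
    apply h.up_clean B (by omega) (by rw [hdp] at h2; omega) u
    intro i hi hcon
    exact hh ⟨i, hi, hcon⟩

/-- The potential of a state. -/
noncomputable def Xf (lam δ : ℝ) (K l L : ℕ) (o : ℤ) (s : Set ℤ × Bool) : ℝ :=
  XX δ K l L o s.1 * (1 + if s.2 = true then lam else 0)

theorem XX_cut_le {D : Nb} {δ : ℝ} (hδ : 0 ≤ δ) {K l L c c' : ℕ} (hc : c ≤ c') (o : ℤ)
    (v : ℤ → Fin 3) (S : Set ℤ) :
    XX δ K l L o (cutM D K v S c) ≤
      Real.exp (δ * (2 * (c' + 2))) * XX δ K l L o (upM D K v S) := by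
  have h1 := mul_le_mul_of_nonneg_left (Phi_cut D K l L o v S c) hδ
  have hc1 : (c : ℝ) ≤ c' := by exact_mod_cast hc
  have h2 := mul_le_mul_of_nonneg_left hc1 hδ
  rw [XX, XX, ← Real.exp_add, Real.exp_le_exp]
  linarith

/-- The cost of a cut. -/
noncomputable def cf (D : Nb) (R : ℕ) (δ : ℝ) : ℝ :=
  Real.exp (δ * (2 * (((2 * R1 D R + 2 : ℕ) : ℝ) + 2))) - 1

theorem cf_nonneg (D : Nb) (R : ℕ) {δ : ℝ} (hδ : 0 ≤ δ) : 0 ≤ cf D R δ := by
  rw [cf]
  have := Real.add_one_le_exp (δ * (2 * (((2 * R1 D R + 2 : ℕ) : ℝ) + 2)))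
  have h : 0 ≤ δ * (2 * (((2 * R1 D R + 2 : ℕ) : ℝ) + 2)) := by positivity
  linarith

theorem Xf_false_le {D : Nb} {lam δ : ℝ} (K l L R : ℕ) (o : ℤ)
    (v : ℤ → Fin 3) (S : Set ℤ) :
    Xf lam δ K l L o (nxM D K R v S false) ≤ XX δ K l L o (upM D K v S) +
      lam * (XX δ K l L o (upM D K v S) * ind (hit v S (hdp D R false))) := by
  by_cases hh : hit v S (hdp D R false)
  · rw [nxM_hit_false hh, ind_pos hh, Xf, if_pos rfl]
    exact le_of_eq (by ring)
  · rw [nxM_no hh, ind_neg hh, Xf, if_neg Bool.false_ne_true]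
    exact le_of_eq (by ring)

theorem Xf_true_le {D : Nb} {lam δ : ℝ} (hδ : 0 ≤ δ) (K l L R : ℕ) (o : ℤ)
    (v : ℤ → Fin 3) (S : Set ℤ) :
    Xf lam δ K l L o (nxM D K R v S true) ≤ XX δ K l L o (upM D K v S) +
      cf D R δ * (XX δ K l L o (upM D K v S) * ind (hit v S (hdp D R true))) := by
  by_cases hh : hit v S (hdp D R true)
  · rw [nxM_hit_true hh, ind_pos hh, Xf, if_neg Bool.false_ne_true, cf]
    have := XX_cut_le (D := D) hδ (hdp_le D R true) (K := K) (l := l) (L := L) o v S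
    linarith
  · rw [nxM_no hh, ind_neg hh, Xf, if_neg Bool.false_ne_true]
    exact le_of_eq (by ring)

/-- The factor of one site for a hit at `z`. -/
noncomputable def gg (μ : ℝ) (z i : ℤ) (e : Fin 3) : ℝ :=
  (if e = 2 then μ else 1) * (if i = z ∧ e ≠ 2 then 0 else 1)

theorem gg_nonneg {μ : ℝ} (hμ : 0 ≤ μ) (z i : ℤ) (e : Fin 3) : 0 ≤ gg μ z i e := by
  rw [gg]
  split_ifs <;> simp [hμ]

theorem gg_le {μ : ℝ} (hμ : 1 ≤ μ) (z i : ℤ) (e : Fin 3) : gg μ z i e ≤ μ := by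
  rw [gg]
  split_ifs <;> simp <;> linarith

theorem prod_gg_ge {μ : ℝ} (hμ : 1 ≤ μ) (B : Finset ℤ) (z : ℤ) (v : ℤ → Fin 3) :
    μ ^ (B.filter (fun i => v i = 2)).card * ind (v z = 2) ≤
      ∏ i ∈ insert z B, gg μ z i (v i) := by
  classical
  have hμ0 : 0 ≤ μ := by linarith
  by_cases hz : v z = 2
  · rw [ind_pos hz, mul_one]
    have h1 : ∏ i ∈ insert z B, gg μ z i (v i) = ∏ i ∈ insert z B, if v i = 2 then μ else 1 := by
      apply Finset.prod_congr rfl
      intro i _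
      rw [gg, if_neg (show ¬ (i = z ∧ v i ≠ 2) from ?_), mul_one]
      rintro ⟨h, h'⟩
      rw [h] at h'
      exact h' hz
    rw [h1, Finset.prod_ite, Finset.prod_const, Finset.prod_const_one, mul_one]
    apply pow_le_pow_right₀ hμ
    apply Finset.card_le_card
    exact Finset.filter_subset_filter _ (Finset.subset_insert _ _)
  · rw [ind_neg hz, mul_zero]
    exact Finset.prod_nonneg (fun i _ => gg_nonneg hμ0 _ _ _)

section

variable {p q : ℝ} (hp : 0 ≤ p) (hq : 0 ≤ q) (hpq : p + q ≤ 1)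
include hp hq hpq

theorem integral_gg {μ : ℝ} (hμ1 : 1 ≤ μ) (hμ2 : μ ≤ 2) (hqp : q ≤ p) (B : Finset ℤ)
    (hpB : p * B.card ≤ 1) (z : ℤ) :
    ∫ u, ∏ i ∈ insert z B, gg μ z i (u i) ∂(nz (rho p q)) ≤ 6 * q := by
  classical
  have := rho_prob hp hq hpq
  rw [integral_prod_nz]
  have f1 : q * μ ≤ q * 2 := mul_le_mul_of_nonneg_left hμ2 hq
  have h1 : ∀ i, ∫ e, gg μ z i e ∂(rho p q) ≤ if i = z then 2 * q else 1 + p := by
    intro i
    rw [integral_rho hp hq hpq]
    have e3 : gg μ z i 2 = μ := by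
      rw [gg, if_pos rfl, if_neg (fun h => h.2 rfl), mul_one]
    by_cases h2 : i = z
    · have e1 : gg μ z i 0 = 0 := by
        rw [gg, if_pos (show i = z ∧ (0 : Fin 3) ≠ 2 from ⟨h2, by decide⟩), mul_zero]
      have e2 : gg μ z i 1 = 0 := by
        rw [gg, if_pos (show i = z ∧ (1 : Fin 3) ≠ 2 from ⟨h2, by decide⟩), mul_zero]
      rw [e1, e2, e3, if_pos h2]
      linarith
    · have e1 : gg μ z i 0 = 1 := by
        rw [gg, if_neg (by decide), if_neg (fun h => h2 h.1), mul_one]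
      have e2 : gg μ z i 1 = 1 := by
        rw [gg, if_neg (by decide), if_neg (fun h => h2 h.1), mul_one]
      rw [e1, e2, e3, if_neg h2]
      linarith
  have h0 : ∀ i, 0 ≤ ∫ e, gg μ z i e ∂(rho p q) :=
    fun i => integral_nonneg (fun e => gg_nonneg (by linarith) _ _ _)
  have e : insert z B = insert z (B.erase z) := by
    ext i
    simp only [Finset.mem_insert, Finset.mem_erase]
    tauto
  rw [e]
  refine (Finset.prod_le_prod (fun i _ => h0 i) (fun i _ => h1 i)).trans ?_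
  rw [Finset.prod_insert (Finset.notMem_erase z B), if_pos rfl]
  have h2 : ∏ i ∈ B.erase z, (if i = z then 2 * q else 1 + p) = (1 + p) ^ (B.erase z).card := by
    rw [← Finset.prod_const]
    apply Finset.prod_congr rfl
    intro i hi
    rw [if_neg (Finset.ne_of_mem_erase hi)]
  rw [h2]
  have h3 : (1 + p) ^ (B.erase z).card ≤ (1 + p) ^ B.card :=
    pow_le_pow_right₀ (by linarith) (Finset.card_le_card (Finset.erase_subset z B))
  have h4 : (1 + p) ^ B.card ≤ 3 := by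
    have h3 : 1 + p ≤ Real.exp p := by linarith [Real.add_one_le_exp p]
    have h4 : (1 + p) ^ B.card ≤ Real.exp p ^ B.card := pow_le_pow_left₀ (by linarith) h3 _
    rw [← Real.exp_nat_mul] at h4
    have h5 : Real.exp ((B.card : ℝ) * p) ≤ Real.exp 1 := by
      rw [Real.exp_le_exp]
      linarith
    have h6 := Real.exp_one_lt_d9
    linarith
  have h5 := mul_le_mul_of_nonneg_left (h3.trans h4) (show 0 ≤ 2 * q by positivity)
  linarith

end

theorem XXhit_dep (D : Nb) (δ : ℝ) (K l L : ℕ) (o : ℤ) (S : Set ℤ) (c : ℕ) (u v : ℤ → Fin 3)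
    (h : ∀ z ∈ BB D.r K l L o ∪ zoneF S c, u z = v z) :
    XX δ K l L o (upM D K u S) * ind (hit u S c) =
      XX δ K l L o (upM D K v S) * ind (hit v S c) := by
  classical
  rw [XX_dep D δ K l L o S u v (fun z hz => h z (Finset.mem_union_left _ hz))]
  congr 1
  have h1 : hit u S c ↔ hit v S c := hit_dep (fun z hz => h z (Finset.mem_union_right _ hz))
  by_cases h2 : hit v S c
  · rw [ind_pos h2, ind_pos (h1.2 h2)]
  · rw [ind_neg h2, ind_neg (fun h3 => h2 (h1.1 h3))]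

theorem integrable_XXhit (D : Nb) {δ : ℝ} (hδ : 0 ≤ δ) (K l L : ℕ) (o : ℤ) (S : Set ℤ) (c : ℕ)
    (ρ : Measure (Fin 3)) [IsProbabilityMeasure ρ] :
    Integrable (fun u => XX δ K l L o (upM D K u S) * ind (hit u S c)) (nz ρ) := by
  classical
  apply integrable_of_dep (BB D.r K l L o ∪ zoneF S c) _ _ 1
  · intro u
    rw [abs_of_nonneg (mul_nonneg (XX_pos _ _ _ _ _ _).le (ind_nonneg _))]
    exact mul_le_one₀ (XX_le_one hδ _ _ _ _ _) (ind_nonneg _) (ind_le_one _)
  · intro u v h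
    exact XXhit_dep D δ K l L o S c u v h

section

variable {D : Nb} {K : ℕ} (hK : 2 * D.r ≤ K) (l L : ℕ) (o : ℤ) (S : Set ℤ) (c : ℕ)
  {p q δ : ℝ} (hp : 0 ≤ p) (hq : 0 ≤ q) (hqp : q ≤ p) (hB : p * (nb D.r K l L : ℕ) ≤ 1)
  (hδ : 0 ≤ δ) (hμ : Real.exp (δ * (K + 2 * D.r + 1)) ≤ 2)

include hK hp hq hqp hB hδ hμ

/-- The expected potential on the event of a hit. -/
theorem hit_bound : ∫ u, XX δ K l L o (upM D K u S) * ind (hit u S c) ∂(nz (rho p q)) ≤
    12 * c * q * XX δ K l L o S := by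
  classical
  have hpq : p + q ≤ 1 := pq_le l L hp hqp hB
  have := rho_prob hp hq hpq
  set μ : ℝ := Real.exp (δ * (K + 2 * D.r + 1)) with hμd
  set B := BB D.r K l L o with hBd
  have hBc : B.card = nb D.r K l L := card_BB _ _ _ _ _
  have hμ1 : 1 ≤ μ := by
    rw [hμd]
    apply Real.one_le_exp
    positivity
  have hμ0 : 0 ≤ μ := zero_le_one.trans hμ1
  have hX := XX_pos δ K l L o S
  have i1 : ∀ z : ℤ, Integrable (fun u : ℤ → Fin 3 => ∏ i ∈ insert z B, gg μ z i (u i))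
      (nz (rho p q)) := by
    intro z
    apply integrable_of_dep (insert z B) _ _ (∏ i ∈ insert z B, μ)
    · intro u
      rw [Finset.abs_prod]
      apply Finset.prod_le_prod (fun i _ => abs_nonneg _)
      intro i _
      rw [abs_of_nonneg (gg_nonneg hμ0 _ _ _)]
      exact gg_le hμ1 _ _ _
    · intro u v h
      apply Finset.prod_congr rfl
      intro i hi
      rw [h i hi]
  have h1 : ∫ u, XX δ K l L o (upM D K u S) * ind (hit u S c) ∂(nz (rho p q)) ≤
      ∫ u, XX δ K l L o S * ∑ z ∈ zoneF S c, ∏ i ∈ insert z B, gg μ z i (u i)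
        ∂(nz (rho p q)) := by
    apply integral_mono (integrable_XXhit D hδ K l L o S c _)
    · exact (integrable_finsetSum _ (fun z _ => i1 z)).const_mul _
    · intro u
      have h4 := Phi_loss' hK l L o S u
      set n2 := ((BB D.r K l L o).filter (fun z => u z = 2)).card with hn2
      have h5 : XX δ K l L o (upM D K u S) ≤ XX δ K l L o S * μ ^ n2 := by
        rw [XX, XX, hμd, ← Real.exp_nat_mul, ← Real.exp_add, Real.exp_le_exp]
        have := mul_le_mul_of_nonneg_left h4 hδ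
        linarith
      change XX δ K l L o (upM D K u S) * ind (hit u S c) ≤
        XX δ K l L o S * ∑ z ∈ zoneF S c, ∏ i ∈ insert z B, gg μ z i (u i)
      have h6 := mul_le_mul_of_nonneg_right h5 (ind_nonneg (hit u S c))
      refine h6.trans ?_
      rw [mul_assoc]
      apply mul_le_mul_of_nonneg_left _ hX.le
      have h7 := mul_le_mul_of_nonneg_left (ind_hit_le u S c) (pow_nonneg hμ0 n2)
      refine h7.trans ?_
      rw [Finset.mul_sum]
      apply Finset.sum_le_sum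
      intro z _
      exact prod_gg_ge hμ1 B z u
  refine h1.trans ?_
  rw [integral_const_mul, integral_finsetSum _ (fun z _ => i1 z)]
  have h2 : ∑ z ∈ zoneF S c, ∫ u : ℤ → Fin 3, ∏ i ∈ insert z B, gg μ z i (u i)
      ∂(nz (rho p q)) ≤ ∑ z ∈ zoneF S c, 6 * q :=
    Finset.sum_le_sum (fun z _ => integral_gg hp hq hpq hμ1 hμ hqp B (by rw [hBc]; exact hB) z)
  rw [Finset.sum_const, nsmul_eq_mul] at h2
  have h3 : ((zoneF S c).card : ℝ) ≤ 2 * c := by exact_mod_cast card_zoneF S c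
  have h4 := mul_le_mul_of_nonneg_right h3 (show 0 ≤ 6 * q by positivity)
  have h5 := mul_le_mul_of_nonneg_left (h2.trans h4) hX.le
  linarith

end

end Pool.Agent.Lib.MP_8850da_pr
end

section

/-!
# The recursions
-/

set_option autoImplicit false

open MeasureTheory

namespace Pool.Agent.Lib.MP_8850da_pr

/-- The constant of the flags. -/
noncomputable def C4 (D : Nb) (R : ℕ) : ℝ := 12 * ((2 * R1 D R + 2 : ℕ) : ℝ)

/-- The parameters of the proof, with flags. -/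
structure FPar extends Par where
  /-- the range of the noise -/
  R : ℕ
  hK1 : R1 D R + 2 + D.r ≤ K + 1
  hK2 : 2 * R1 D R + 2 ≤ K + 1
  hC1 : C4 D R * p * cf D R δ ≤ 1
  hC2 : 2 * (C4 D R * p) ^ 2 * cf D R δ ≤ a

/-- The shift of a state. -/
def sft (ν : ℤ) (s : Set ℤ × Bool) : Set ℤ × Bool := (shS ν s.1, s.2)

namespace FPar

variable (P : FPar)

/-- The weight of the flag. -/
noncomputable def lam : ℝ := C4 P.D P.R * P.p * cf P.D P.R P.δ

/-- The cost of a cut. -/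
noncomputable def cfP : ℝ := cf P.D P.R P.δ

/-- The potential. -/
noncomputable def X (o : ℤ) (s : Set ℤ × Bool) : ℝ := Xf P.lam P.δ P.K P.l P.L o s

/-- The value of a covered window. -/
noncomputable def η : ℝ := Real.exp (-(P.δ * P.L))

/-- The law of the types. -/
noncomputable def ρ : Measure (Fin 3) := rho P.p P.q

/-- The next state, in the moving frame. -/
noncomputable def nm (v : ℤ → Fin 3) (s : Set ℤ × Bool) : Set ℤ × Bool :=
  nxM P.D P.K P.R v s.1 s.2

/-- The distance of the windows. -/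
def Δ : ℕ := 2 * R1 P.D P.R + 2

theorem η_pos : 0 < P.η := Real.exp_pos _

theorem pq : P.p + P.q ≤ 1 := pq_le P.l P.L P.hp.le P.hqp P.hB

theorem p_le : P.p ≤ 1 := by
  have := P.pq
  have := P.hq
  linarith

instance : IsProbabilityMeasure P.ρ := rho_prob P.hp.le P.hq P.pq

theorem cfP_nonneg : 0 ≤ P.cfP := cf_nonneg _ _ P.hδ.le

theorem Cp_nonneg : 0 ≤ C4 P.D P.R * P.p := by
  have := P.hp
  rw [C4]
  positivity

theorem lam_eq : P.lam = C4 P.D P.R * P.p * P.cfP := rfl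

theorem lam_nonneg : 0 ≤ P.lam := mul_nonneg P.Cp_nonneg P.cfP_nonneg

theorem lam_le : P.lam ≤ 1 := P.hC1

theorem XX_le_X (o : ℤ) (s : Set ℤ × Bool) : XX P.δ P.K P.l P.L o s.1 ≤ P.X o s := by
  rw [X, Xf]
  apply le_mul_of_one_le_right (XX_pos _ _ _ _ _ _).le
  have := P.lam_nonneg
  split_ifs <;> linarith

theorem X_le_two (o : ℤ) (s : Set ℤ × Bool) : P.X o s ≤ 2 * XX P.δ P.K P.l P.L o s.1 := by
  rw [X, Xf, mul_comm 2]
  apply mul_le_mul_of_nonneg_left _ (XX_pos _ _ _ _ _ _).le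
  have := P.lam_le
  split_ifs <;> linarith

theorem X_pos (o : ℤ) (s : Set ℤ × Bool) : 0 < P.X o s :=
  (XX_pos _ _ _ _ _ _).trans_le (P.XX_le_X o s)

theorem X_le (o : ℤ) (s : Set ℤ × Bool) : P.X o s ≤ 2 := by
  have h1 := P.X_le_two o s
  have h2 := XX_le_one P.hδ.le P.K P.l P.L o s.1
  linarith

theorem X_false (o : ℤ) (S : Set ℤ) : P.X o (S, false) = XX P.δ P.K P.l P.L o S := by
  rw [X, Xf, if_neg Bool.false_ne_true, add_zero, mul_one]

/-- The noise sites which matter. -/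
noncomputable def BZ (o : ℤ) (s : Set ℤ × Bool) : Finset ℤ :=
  BB P.D.r P.K P.l P.L o ∪ zoneF s.1 (hdp P.D P.R s.2)

theorem X_dep (o : ℤ) (s : Set ℤ × Bool) (u v : ℤ → Fin 3) (h : ∀ z ∈ P.BZ o s, u z = v z) :
    P.X o (P.nm u s) = P.X o (P.nm v s) := by
  have h1 : ∀ z ∈ BB P.D.r P.K P.l P.L o, u z = v z :=
    fun z hz => h z (Finset.mem_union_left _ hz)
  have h2 : hit u s.1 (hdp P.D P.R s.2) ↔ hit v s.1 (hdp P.D P.R s.2) :=
    hit_dep (fun z hz => h z (Finset.mem_union_right _ hz))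
  obtain ⟨S, fl⟩ := s
  change P.X o (nxM P.D P.K P.R u S fl) = P.X o (nxM P.D P.K P.R v S fl)
  change hit u S (hdp P.D P.R fl) ↔ hit v S (hdp P.D P.R fl) at h2
  by_cases hh : hit v S (hdp P.D P.R fl)
  · cases fl
    · rw [nxM_hit_false hh, nxM_hit_false (h2.2 hh), X, X, Xf, Xf,
        XX_dep P.D P.δ P.K P.l P.L o S u v h1]
    · rw [nxM_hit_true hh, nxM_hit_true (h2.2 hh), X, X, Xf, Xf, XX, XX,
        Phi_cut_dep P.D P.K P.l P.L o S _ u v h1]
  · rw [nxM_no hh, nxM_no (fun h3 => hh (h2.1 h3)), X, X, Xf, Xf,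
      XX_dep P.D P.δ P.K P.l P.L o S u v h1]

theorem int_F (F : ℝ → ℝ) (C : ℝ) (hF : ∀ x, 0 < x → x ≤ 2 → |F x| ≤ C) (o : ℤ)
    (s : Set ℤ × Bool) : Integrable (fun u => F (P.X o (P.nm u s))) (nz P.ρ) := by
  apply integrable_of_dep (P.BZ o s) _ _ C
  · intro u
    exact hF _ (P.X_pos _ _) (P.X_le _ _)
  · intro u v h
    rw [P.X_dep o s u v h]

theorem int_X (o : ℤ) (s : Set ℤ × Bool) : Integrable (fun u => P.X o (P.nm u s)) (nz P.ρ) :=
  P.int_F (fun x => x) 2 (fun x h1 h2 => by rw [abs_of_pos h1]; exact h2) o s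

/-- The expected potential after one step. -/
theorem EX_le (o : ℤ) (S : Set ℤ) (fl : Bool) :
    ∫ u, P.X o (P.nm u (S, fl)) ∂(nz P.ρ) ≤ EXX P.D P.p P.q P.δ P.K P.l P.L o S +
      (if fl = true then P.cfP else P.lam) *
        (C4 P.D P.R * P.p * XX P.δ P.K P.l P.L o S) := by
  have iX := integrable_XX P.D P.hδ.le P.K P.l P.L o S P.ρ
  have iH := integrable_XXhit P.D P.hδ.le P.K P.l P.L o S (hdp P.D P.R fl) P.ρ
  have h0 : ∀ u, P.X o (P.nm u (S, fl)) ≤ XX P.δ P.K P.l P.L o (upM P.D P.K u S) +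
      (if fl = true then P.cfP else P.lam) * (XX P.δ P.K P.l P.L o (upM P.D P.K u S) *
        ind (hit u S (hdp P.D P.R fl))) := by
    intro u
    cases fl
    · rw [if_neg Bool.false_ne_true]
      exact Xf_false_le P.K P.l P.L P.R o u S
    · rw [if_pos rfl]
      exact Xf_true_le P.hδ.le P.K P.l P.L P.R o u S
  have h1 := integral_mono (P.int_X o (S, fl))
    (iX.add (iH.const_mul (if fl = true then P.cfP else P.lam))) h0
  refine h1.trans ?_
  have h2 : ∫ u, (XX P.δ P.K P.l P.L o (upM P.D P.K u S) +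
      (if fl = true then P.cfP else P.lam) * (XX P.δ P.K P.l P.L o (upM P.D P.K u S) *
        ind (hit u S (hdp P.D P.R fl)))) ∂(nz P.ρ) =
      EXX P.D P.p P.q P.δ P.K P.l P.L o S + (if fl = true then P.cfP else P.lam) *
        ∫ u, XX P.δ P.K P.l P.L o (upM P.D P.K u S) *
        ind (hit u S (hdp P.D P.R fl)) ∂(nz P.ρ) := by
    rw [integral_add iX (iH.const_mul _), integral_const_mul]
    rfl
  refine (le_of_eq h2).trans ?_
  have h3 := hit_bound P.hK P.l P.L o S (hdp P.D P.R fl) P.hp.le P.hq P.hqp P.hB P.hδ.le P.hμ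
  have hX := XX_pos P.δ P.K P.l P.L o S
  have h4 : ∫ u, XX P.δ P.K P.l P.L o (upM P.D P.K u S) *
      ind (hit u S (hdp P.D P.R fl)) ∂(nz P.ρ) ≤
      C4 P.D P.R * P.p * XX P.δ P.K P.l P.L o S := by
    refine h3.trans ?_
    apply mul_le_mul_of_nonneg_right _ hX.le
    rw [C4]
    have h5 : ((hdp P.D P.R fl : ℕ) : ℝ) ≤ ((2 * R1 P.D P.R + 2 : ℕ) : ℝ) := by
      exact_mod_cast hdp_le P.D P.R fl
    have h6 := mul_le_mul h5 P.hqp P.hq (by positivity)
    linarith
  have h5 : 0 ≤ (if fl = true then P.cfP else P.lam) := by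
    have := P.lam_nonneg
    have := P.cfP_nonneg
    split_ifs <;> linarith
  have h6 := mul_le_mul_of_nonneg_left h4 h5
  linarith

theorem lam_sq : 2 * (P.lam * (C4 P.D P.R * P.p)) ≤ P.a := by
  have h := P.hC2
  have e : 2 * (P.lam * (C4 P.D P.R * P.p)) =
      2 * (C4 P.D P.R * P.p) ^ 2 * cf P.D P.R P.δ := by
    rw [lam]
    ring
  rw [e]
  exact h

/-- Decay in a window which is neither empty nor covered. -/
theorem D1 (o : ℤ) (S : Set ℤ) (fl : Bool) (h1 : XX P.δ P.K P.l P.L o S < 1)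
    (h2 : P.η < XX P.δ P.K P.l P.L o S) :
    ∫ u, P.X o (P.nm u (S, fl)) ∂(nz P.ρ) ≤ (1 - P.a / 2) * P.X o (S, fl) := by
  refine (P.EX_le o S fl).trans ?_
  have h3 := P.d1 o S h1 h2
  have hX := XX_pos P.δ P.K P.l P.L o S
  have hl0 := P.lam_nonneg
  have hl1 := P.lam_le
  have ha := P.ha0
  cases fl
  · rw [if_neg Bool.false_ne_true, P.X_false]
    have h4 := mul_le_mul_of_nonneg_right P.lam_sq hX.le
    linarith
  · rw [if_pos rfl, X, Xf, if_pos rfl]
    change _ ≤ (1 - P.a / 2) * (XX P.δ P.K P.l P.L o S * (1 + P.lam))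
    have h4 : (1 - P.a) + P.lam ≤ (1 - P.a / 2) * (1 + P.lam) := by
      nlinarith
    have h5 := mul_le_mul_of_nonneg_right h4 hX.le
    have h6 : P.cfP * (C4 P.D P.R * P.p * XX P.δ P.K P.l P.L o S) =
        P.lam * XX P.δ P.K P.l P.L o S := by
      rw [lam_eq]
      ring
    rw [h6]
    linarith

theorem D2 (o : ℤ) (S : Set ℤ) (fl : Bool) (h2 : XX P.δ P.K P.l P.L o S ≤ P.η) :
    ∫ u, P.X o (P.nm u (S, fl)) ∂(nz P.ρ) ≤ P.X o (S, fl) + 2 * (P.p * P.η) := by
  refine (P.EX_le o S fl).trans ?_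
  have h3 := P.d2 o S h2
  have hX := XX_pos P.δ P.K P.l P.L o S
  have hl0 := P.lam_nonneg
  have hl1 := P.lam_le
  have hp := P.hp
  have hη := P.η_pos
  have hap := P.hap
  change _ ≤ XX P.δ P.K P.l P.L o S + P.p * P.η at h3
  have hpη := mul_pos hp hη
  cases fl
  · rw [if_neg Bool.false_ne_true, P.X_false]
    have h4 : P.lam * (C4 P.D P.R * P.p) ≤ P.p := by
      have := P.lam_sq
      linarith
    have h5 := mul_le_mul h4 h2 hX.le hp.le
    linarith
  · rw [if_pos rfl, X, Xf, if_pos rfl]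
    change _ ≤ XX P.δ P.K P.l P.L o S * (1 + P.lam) + 2 * (P.p * P.η)
    have h6 : P.cfP * (C4 P.D P.R * P.p * XX P.δ P.K P.l P.L o S) =
        P.lam * XX P.δ P.K P.l P.L o S := by
      rw [lam_eq]
      ring
    rw [h6]
    linarith

/-- The capped potential. -/
noncomputable def Xc (o : ℤ) (s : Set ℤ × Bool) : ℝ := min 1 (P.X o s)

theorem Xc_pos (o : ℤ) (s : Set ℤ × Bool) : 0 < P.Xc o s := lt_min one_pos (P.X_pos o s)

theorem Xc_le (o : ℤ) (s : Set ℤ × Bool) : P.Xc o s ≤ P.X o s := min_le_right _ _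

theorem int_Xc (o : ℤ) (s : Set ℤ × Bool) :
    Integrable (fun u => P.Xc o (P.nm u s)) (nz P.ρ) :=
  P.int_F (fun x => min 1 x) 1
    (fun x h1 _ => by rw [abs_of_pos (lt_min one_pos h1)]; exact min_le_left _ _) o s

theorem EXc_le_one (o : ℤ) (s : Set ℤ × Bool) : ∫ u, P.Xc o (P.nm u s) ∂(nz P.ρ) ≤ 1 := by
  have h1 := integral_mono (P.int_Xc o s) (integrable_const (μ := nz P.ρ) (1 : ℝ))
    (fun u => min_le_left 1 (P.X o (P.nm u s)))
  rwa [integral_const, probReal_univ, one_smul] at h1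

theorem a_le_one : P.a ≤ 1 := P.hap.trans P.p_le

theorem D_any (o : ℤ) (s : Set ℤ × Bool) :
    ∫ u, P.Xc o (P.nm u s) ∂(nz P.ρ) ≤ P.Xc o s + 2 * (P.p * P.η) := by
  obtain ⟨S, fl⟩ := s
  have hpη := mul_pos P.hp P.η_pos
  have h1 := P.EXc_le_one o (S, fl)
  have h2 : ∫ u, P.Xc o (P.nm u (S, fl)) ∂(nz P.ρ) ≤ ∫ u, P.X o (P.nm u (S, fl)) ∂(nz P.ρ) :=
    integral_mono (P.int_Xc o _) (P.int_X o _) (fun u => P.Xc_le _ _)
  have hX := P.X_pos o (S, fl)
  have hXX := P.XX_le_X o (S, fl)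
  rw [Xc, ← min_add_add_right]
  apply le_min
  · linarith
  · rcases (XX_le_one P.hδ.le P.K P.l P.L o S).eq_or_lt with hX1 | hX1
    · change XX P.δ P.K P.l P.L o S ≤ P.X o (S, fl) at hXX
      linarith
    · rcases le_or_gt (XX P.δ P.K P.l P.L o S) P.η with h3 | h3
      · exact h2.trans (P.D2 o S fl h3)
      · have h4 := P.D1 o S fl hX1 h3
        have h5 : (1 - P.a / 2) * P.X o (S, fl) ≤ P.X o (S, fl) := by
          have := mul_nonneg P.ha0 hX.le
          linarith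
        linarith

theorem X_sft (o : ℤ) (s : Set ℤ × Bool) : P.X o (sft P.D.ν s) = P.X (o + P.D.ν) s := by
  rw [X, X, Xf, Xf, sft, XX, XX]
  change Real.exp (-(P.δ * Phi P.K P.l P.L o {i | i + P.D.ν ∈ s.1})) * _ = _
  rw [Phi_shift]

/-- The next state. -/
noncomputable def ns (v : ℤ → Fin 3) (s : Set ℤ × Bool) : Set ℤ × Bool := sft P.D.ν (P.nm v s)

theorem X_ns (o : ℤ) (v : ℤ → Fin 3) (s : Set ℤ × Bool) :
    P.X o (P.ns v s) = P.X (o + P.D.ν) (P.nm v s) := P.X_sft o _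

theorem Xc_ns (o : ℤ) (v : ℤ → Fin 3) (s : Set ℤ × Bool) :
    P.Xc o (P.ns v s) = P.Xc (o + P.D.ν) (P.nm v s) := by
  rw [Xc, Xc, X_ns]

/-- `A = η ^ (-1/2)`. -/
noncomputable def A : ℝ := Real.exp (P.δ * P.L / 2)

theorem A_pos : 0 < P.A := Real.exp_pos _

theorem one_le_A : 1 ≤ P.A := by
  rw [A]
  apply Real.one_le_exp
  have := P.hδ
  positivity

theorem A_η : P.A * P.η = P.A⁻¹ := by
  rw [A, η, ← Real.exp_add, ← Real.exp_neg]
  congr 1
  ring

/-- The bound for the growth phase. -/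
noncomputable def Ps (A : ℝ) (k : ℕ) (o : ℤ) (s : Set ℤ × Bool) : ℝ :=
  min 1 (P.X o s + (1 - P.a / 2) ^ k * A * P.X o s + 5 * k * P.p * A * P.η)

theorem Ps_le_one (A : ℝ) (k : ℕ) (o : ℤ) (s : Set ℤ × Bool) : P.Ps A k o s ≤ 1 :=
  min_le_left _ _

theorem a1_nonneg : 0 ≤ 1 - P.a / 2 := by
  have := P.a_le_one
  linarith

theorem Ps_nonneg {A : ℝ} (hA : 0 ≤ A) (k : ℕ) (o : ℤ) (s : Set ℤ × Bool) :
    0 ≤ P.Ps A k o s := by
  rw [Ps]
  have h1 := P.a1_nonneg
  have h2 := P.X_pos o s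
  have h4 := P.hp
  have h5 := P.η_pos
  have h6 : 0 ≤ P.X o s + (1 - P.a / 2) ^ k * A * P.X o s + 5 * k * P.p * A * P.η := by
    positivity
  exact le_min zero_le_one h6

theorem int_Ps {A : ℝ} (hA : 0 ≤ A) (k : ℕ) (o : ℤ) (s : Set ℤ × Bool) :
    Integrable (fun u => P.Ps A k o (P.nm u s)) (nz P.ρ) := by
  apply P.int_F (fun x => min 1 (x + (1 - P.a / 2) ^ k * A * x + 5 * k * P.p * A * P.η)) 1
  intro x h1 _
  have h2 := P.a1_nonneg
  have h4 := P.hp
  have h5 := P.η_pos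
  have h6 : 0 ≤ x + (1 - P.a / 2) ^ k * A * x + 5 * k * P.p * A * P.η := by
    positivity
  rw [abs_of_nonneg (le_min zero_le_one h6)]
  exact min_le_left _ _

theorem Ps_ns (A : ℝ) (k : ℕ) (o : ℤ) (v : ℤ → Fin 3) (s : Set ℤ × Bool) :
    P.Ps A k o (P.ns v s) = P.Ps A k (o + P.D.ν) (P.nm v s) := by
  rw [Ps, Ps, P.X_ns]

theorem E_Ps {A : ℝ} (hA : 1 ≤ A) (k : ℕ) (o : ℤ) (s : Set ℤ × Bool) :
    ∫ u, P.Ps A k o (P.nm u s) ∂(nz P.ρ) ≤ P.Ps A (k + 1) o s := by
  obtain ⟨S, fl⟩ := s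
  have hX := P.X_pos o (S, fl)
  have ha := P.a1_nonneg
  have ha0 := P.ha0
  have hap := P.hap
  have hA0 : 0 < A := by linarith
  have hη := P.η_pos
  have hp := P.hp
  have hak : 0 ≤ (1 - P.a / 2) ^ k := pow_nonneg ha k
  have hak1 : (1 - P.a / 2) ^ k ≤ 1 := pow_le_one₀ ha (by linarith)
  have hle1 : ∫ u, P.Ps A k o (P.nm u (S, fl)) ∂(nz P.ρ) ≤ 1 := by
    have h1 := integral_mono (P.int_Ps hA0.le k o (S, fl)) (integrable_const (μ := nz P.ρ) (1 : ℝ))
      (fun u => P.Ps_le_one A k o (P.nm u (S, fl)))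
    rwa [integral_const, probReal_univ, one_smul] at h1
  apply le_min hle1
  have h1 : ∫ u, P.Ps A k o (P.nm u (S, fl)) ∂(nz P.ρ) ≤
      ∫ u, ((1 + (1 - P.a / 2) ^ k * A) * P.X o (P.nm u (S, fl)) +
        5 * k * P.p * A * P.η) ∂(nz P.ρ) := by
    apply integral_mono (P.int_Ps hA0.le k o (S, fl))
    · exact ((P.int_X o (S, fl)).const_mul _).add (integrable_const _)
    · intro u
      refine (min_le_right _ _).trans (le_of_eq ?_)
      ring
  have h2 : ∫ u, ((1 + (1 - P.a / 2) ^ k * A) * P.X o (P.nm u (S, fl)) +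
        5 * k * P.p * A * P.η) ∂(nz P.ρ) =
      (1 + (1 - P.a / 2) ^ k * A) * ∫ u, P.X o (P.nm u (S, fl)) ∂(nz P.ρ) +
        5 * k * P.p * A * P.η := by
    rw [integral_add ((P.int_X o (S, fl)).const_mul _) (integrable_const _), integral_const_mul,
      integral_const, probReal_univ, one_smul]
  rw [h2] at h1
  have hf : 0 ≤ 1 + (1 - P.a / 2) ^ k * A := by positivity
  have hpAη : 0 ≤ P.p * A * P.η := by positivity
  push_cast
  have h9 : 5 * ((k : ℝ) + 1) * P.p * A * P.η =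
      5 * k * P.p * A * P.η + 5 * (P.p * A * P.η) := by ring
  rcases (XX_le_one P.hδ.le P.K P.l P.L o S).eq_or_lt with hX1 | hX1
  · -- empty window
    have hXX := P.XX_le_X o (S, fl)
    change XX P.δ P.K P.l P.L o S ≤ P.X o (S, fl) at hXX
    have h4 : 0 ≤ (1 - P.a / 2) ^ (k + 1) * A * P.X o (S, fl) := by positivity
    have h5 : 0 ≤ 5 * ((k : ℝ) + 1) * P.p * A * P.η := by positivity
    linarith
  · rcases le_or_gt (XX P.δ P.K P.l P.L o S) P.η with h2 | h2
    · -- covered window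
      have h3 := P.D2 o S fl h2
      have h4 := mul_le_mul_of_nonneg_left h3 hf
      have h5 : (1 + (1 - P.a / 2) ^ k * A) * (P.X o (S, fl) + 2 * (P.p * P.η)) =
          P.X o (S, fl) + (1 - P.a / 2) ^ (k + 1) * A * P.X o (S, fl) +
          (P.a / 2 * ((1 - P.a / 2) ^ k * A * P.X o (S, fl)) + 2 * (P.p * P.η) +
            2 * ((1 - P.a / 2) ^ k * (P.p * A * P.η))) := by
        rw [pow_succ]
        ring
      have hX2 : P.X o (S, fl) ≤ 2 * P.η := by
        have := P.X_le_two o (S, fl)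
        change P.X o (S, fl) ≤ 2 * XX P.δ P.K P.l P.L o S at this
        linarith
      have h6 : P.a / 2 * ((1 - P.a / 2) ^ k * A * P.X o (S, fl)) ≤ P.p * A * P.η := by
        have g1 : (1 - P.a / 2) ^ k * A * P.X o (S, fl) ≤ 1 * A * (2 * P.η) := by
          apply mul_le_mul _ hX2 hX.le (by positivity)
          exact mul_le_mul_of_nonneg_right hak1 hA0.le
        have g2 : P.a / 2 * ((1 - P.a / 2) ^ k * A * P.X o (S, fl)) ≤
            P.p / 2 * (1 * A * (2 * P.η)) :=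
          mul_le_mul (by linarith) g1 (by positivity) (by positivity)
        linarith
      have h7 : P.p * P.η ≤ P.p * A * P.η := by
        have := mul_le_mul_of_nonneg_left hA (mul_nonneg hp.le hη.le)
        linarith
      have h8 : (1 - P.a / 2) ^ k * (P.p * A * P.η) ≤ P.p * A * P.η :=
        mul_le_of_le_one_left hpAη hak1
      linarith
    · -- growing window
      have h3 := P.D1 o S fl hX1 h2
      have h4 := mul_le_mul_of_nonneg_left h3 hf
      have h5 : (1 + (1 - P.a / 2) ^ k * A) * ((1 - P.a / 2) * P.X o (S, fl)) =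
          P.X o (S, fl) + (1 - P.a / 2) ^ (k + 1) * A * P.X o (S, fl) -
            P.a / 2 * P.X o (S, fl) := by
        rw [pow_succ]
        ring
      have h6 : 0 ≤ P.a / 2 * P.X o (S, fl) := by positivity
      linarith

theorem Ps_zero {A : ℝ} (hA : 0 < A) (o : ℤ) (s : Set ℤ × Bool) (h : A⁻¹ ≤ P.X o s) :
    P.Ps A 0 o s = 1 := by
  rw [Ps, pow_zero, one_mul, Nat.cast_zero, mul_zero, zero_mul, zero_mul, zero_mul, add_zero]
  apply min_eq_left
  have h1 := mul_le_mul_of_nonneg_left h hA.le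
  rw [mul_inv_cancel₀ hA.ne'] at h1
  have := P.X_pos o s
  linarith

/-- The large exponential of the second stage. -/
noncomputable def A1 : ℝ := Real.exp (P.δ * (7 * P.L / 8))

theorem A1_pos : 0 < P.A1 := Real.exp_pos _

theorem one_le_A1 : 1 ≤ P.A1 := by
  rw [A1]
  apply Real.one_le_exp
  have := P.hδ
  positivity

theorem δ_le_one : P.δ ≤ 1 := by
  have h1 := P.hμ
  have h2 := Real.add_one_le_exp (P.δ * (P.K + 2 * P.D.r + 1))
  have h3 : P.δ * 1 ≤ P.δ * (P.K + 2 * P.D.r + 1) := by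
    apply mul_le_mul_of_nonneg_left _ P.hδ.le
    have : (0 : ℝ) ≤ P.K + 2 * P.D.r := by positivity
    linarith
  linarith

end FPar

section transfer

variable {E : Type} [MeasurableSpace E] {f : E → Fin 3} (hf : Measurable f)

include hf

theorem meas_types : Measurable (fun (u : ℤ → E) i => f (u i)) :=
  measurable_pi_lambda _ (fun i => hf.comp (measurable_pi_apply i))

variable {ρE : Measure E} [IsProbabilityMeasure ρE] {ρ : Measure (Fin 3)} (hρ : ρE.map f = ρ)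

include hρ

theorem nz_map : (nz ρE).map (fun u i => f (u i)) = nz ρ := by
  have h := Measure.infinitePi_map_pi (μ := fun _ : ℤ => ρE) (f := fun _ => f) (fun _ => hf)
  rw [nz, nz, ← hρ]
  exact h

theorem int_transfer {F : (ℤ → Fin 3) → ℝ} (hF : Integrable F (nz ρ)) :
    Integrable (fun u : ℤ → E => F (fun i => f (u i))) (nz ρE) := by
  have h := nz_map hf hρ
  rw [← h] at hF
  exact hF.comp_measurable (meas_types hf)

theorem integral_transfer {F : (ℤ → Fin 3) → ℝ} (hF : Integrable F (nz ρ)) :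
    ∫ u : ℤ → E, F (fun i => f (u i)) ∂(nz ρE) = ∫ v, F v ∂(nz ρ) := by
  have h := nz_map hf hρ
  rw [← h] at hF
  rw [← h, integral_map (meas_types hf).aemeasurable hF.aestronglyMeasurable]

end transfer

end Pool.Agent.Lib.MP_8850da_pr
end
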