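import Mathlib
import Pool.Agent.Lib.MP_8850da_pr.C1

section

/-!
# The trapezoid weight and the summation by parts
-/

set_option autoImplicit false

namespace Pool.Agent.Lib.MP_8850da_pr

open Classical in
/-- The indicator of a proposition. -/
noncomputable def ind (p : Prop) : ℝ := if p then 1 else 0

theorem ind_pos {p : Prop} (h : p) : ind p = 1 := if_pos h

theorem ind_neg {p : Prop} (h : ¬ p) : ind p = 0 := if_neg h

theorem ind_nonneg (p : Prop) : 0 ≤ ind p := by
  rw [ind]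
  split_ifs <;> norm_num

theorem ind_le_one (p : Prop) : ind p ≤ 1 := by
  rw [ind]
  split_ifs <;> norm_num

/-- The trapezoid weight with feet `o` and `o + 2 l + L` and shoulders `o + l`, `o + l + L`. -/
noncomputable def wt (l L : ℕ) (o i : ℤ) : ℝ :=
  max 0 (min 1 (min (((i - o : ℤ) : ℝ) / l) (((o + 2 * l + L - i : ℤ) : ℝ) / l)))

variable {l L : ℕ} {o : ℤ}

theorem wt_nonneg (i : ℤ) : 0 ≤ wt l L o i := le_max_left _ _

theorem wt_le_one (i : ℤ) : wt l L o i ≤ 1 := max_le zero_le_one (min_le_left _ _)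

theorem wt_left_zero {i : ℤ} (hi : i ≤ o) : wt l L o i = 0 := by
  rw [wt, max_eq_left]
  refine (min_le_right _ _).trans ((min_le_left _ _).trans ?_)
  apply div_nonpos_of_nonpos_of_nonneg
  · exact_mod_cast sub_nonpos.2 hi
  · positivity

theorem wt_right_zero {i : ℤ} (hi : o + 2 * l + L ≤ i) : wt l L o i = 0 := by
  rw [wt, max_eq_left]
  refine (min_le_right _ _).trans ((min_le_right _ _).trans ?_)
  apply div_nonpos_of_nonpos_of_nonneg
  · exact_mod_cast sub_nonpos.2 hi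
  · positivity

theorem wt_left_ramp (hl : 1 ≤ l) {i : ℤ} (h1 : o ≤ i) (h2 : i ≤ o + l) :
    wt l L o i = ((i - o : ℤ) : ℝ) / l := by
  have hl0 : (0 : ℝ) < l := by exact_mod_cast hl
  have e1 : ((i - o : ℤ) : ℝ) / l ≤ 1 := by
    rw [div_le_one hl0]
    have : i - o ≤ (l : ℤ) := by linarith
    exact_mod_cast this
  have e2 : ((i - o : ℤ) : ℝ) / l ≤ ((o + 2 * l + L - i : ℤ) : ℝ) / l := by
    apply div_le_div_of_nonneg_right _ hl0.le
    have : i - o ≤ o + 2 * l + L - i := by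
      have : (0 : ℤ) ≤ L := by positivity
      linarith
    exact_mod_cast this
  have e3 : 0 ≤ ((i - o : ℤ) : ℝ) / l := by
    apply div_nonneg _ hl0.le
    exact_mod_cast sub_nonneg.2 h1
  rw [wt, min_eq_left e2, min_eq_right e1, max_eq_right e3]

theorem wt_right_ramp (hl : 1 ≤ l) {i : ℤ} (h1 : o + l + L ≤ i) (h2 : i ≤ o + 2 * l + L) :
    wt l L o i = ((o + 2 * l + L - i : ℤ) : ℝ) / l := by
  have hl0 : (0 : ℝ) < l := by exact_mod_cast hl
  have e1 : ((o + 2 * l + L - i : ℤ) : ℝ) / l ≤ 1 := by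
    rw [div_le_one hl0]
    have : o + 2 * l + L - i ≤ (l : ℤ) := by linarith
    exact_mod_cast this
  have e2 : ((o + 2 * l + L - i : ℤ) : ℝ) / l ≤ ((i - o : ℤ) : ℝ) / l := by
    apply div_le_div_of_nonneg_right _ hl0.le
    have : o + 2 * l + L - i ≤ i - o := by
      have : (0 : ℤ) ≤ L := by positivity
      linarith
    exact_mod_cast this
  have e3 : 0 ≤ ((o + 2 * l + L - i : ℤ) : ℝ) / l := by
    apply div_nonneg _ hl0.le
    exact_mod_cast sub_nonneg.2 h2
  rw [wt, min_eq_right e2, min_eq_right e1, max_eq_right e3]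

theorem wt_flat (hl : 1 ≤ l) {i : ℤ} (h1 : o + l ≤ i) (h2 : i ≤ o + l + L) :
    wt l L o i = 1 := by
  have hl0 : (0 : ℝ) < l := by exact_mod_cast hl
  have e1 : 1 ≤ ((i - o : ℤ) : ℝ) / l := by
    rw [one_le_div hl0]
    have : (l : ℤ) ≤ i - o := by linarith
    exact_mod_cast this
  have e2 : 1 ≤ ((o + 2 * l + L - i : ℤ) : ℝ) / l := by
    rw [one_le_div hl0]
    have : (l : ℤ) ≤ o + 2 * l + L - i := by linarith
    exact_mod_cast this
  rw [wt, min_eq_left (le_min e1 e2), max_eq_right zero_le_one]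

/-- Inside the window the weight is at least the slope. -/
theorem wt_inside (hl : 1 ≤ l) {i : ℤ} (h1 : o < i) (h2 : i < o + 2 * l + L) :
    1 / (l : ℝ) ≤ wt l L o i := by
  have hl0 : (0 : ℝ) < l := by exact_mod_cast hl
  by_cases h3 : i ≤ o + l
  · rw [wt_left_ramp hl h1.le h3]
    apply div_le_div_of_nonneg_right _ hl0.le
    have : 1 ≤ i - o := by linarith [Int.add_one_le_iff.2 h1]
    exact_mod_cast this
  · by_cases h4 : i ≤ o + l + L
    · rw [wt_flat hl (by linarith) h4, div_le_one hl0]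
      exact_mod_cast hl
    · rw [wt_right_ramp hl (by linarith) h2.le]
      apply div_le_div_of_nonneg_right _ hl0.le
      have : 1 ≤ o + 2 * l + L - i := by linarith [Int.add_one_le_iff.2 h2]
      exact_mod_cast this

/-- The second difference. -/
theorem wt_second (hl : 1 ≤ l) (hL : 1 ≤ L) (i : ℤ) :
    -(1 / (l : ℝ)) * ((if i = o + l then 1 else 0) + (if i = o + l + L then 1 else 0)) ≤
      wt l L o (i + 1) + wt l L o (i - 1) - 2 * wt l L o i := by
  have hl0 : (0 : ℝ) < l := by exact_mod_cast hl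
  have hl1 : (1 : ℤ) ≤ l := by exact_mod_cast hl
  have hL1 : (1 : ℤ) ≤ L := by exact_mod_cast hL
  have hs : 0 ≤ 1 / (l : ℝ) := by positivity
  rcases lt_trichotomy i (o + l) with h | h | h
  · -- left of the first shoulder
    rw [if_neg h.ne, if_neg (by intro h'; linarith), add_zero, mul_zero]
    by_cases h1 : i ≤ o
    · rw [wt_left_zero h1, mul_zero, sub_zero]
      exact add_nonneg (wt_nonneg _) (wt_nonneg _)
    · push Not at h1
      rw [wt_left_ramp hl h1.le h.le, wt_left_ramp hl (by linarith) (Int.add_one_le_iff.2 h),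
        wt_left_ramp hl (by linarith [Int.add_one_le_iff.2 h1]) (by linarith)]
      apply le_of_eq
      push_cast
      ring
  · -- the first shoulder
    rw [if_pos h, if_neg (by intro h'; linarith), add_zero, mul_one, h,
      wt_flat hl le_rfl (by linarith), wt_flat hl (by linarith) (by linarith),
      wt_left_ramp hl (by linarith) (by linarith)]
    apply le_of_eq
    push_cast
    field_simp
    ring
  · rcases lt_trichotomy i (o + l + L) with h' | h' | h'
    · -- the flat part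
      rw [if_neg h.ne', if_neg h'.ne, add_zero, mul_zero,
        wt_flat hl h.le h'.le, wt_flat hl (by linarith) (Int.add_one_le_iff.2 h'),
        wt_flat hl (by linarith [Int.add_one_le_iff.2 h]) (by linarith)]
      norm_num
    · -- the second shoulder
      rw [if_neg h.ne', if_pos h', zero_add, mul_one, h',
        wt_flat hl (by linarith) le_rfl,
        wt_flat (i := o + l + L - 1) hl (by linarith) (by linarith),
        wt_right_ramp (i := o + l + L + 1) hl (by linarith) (by linarith)]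
      apply le_of_eq
      push_cast
      field_simp
      ring
    · rw [if_neg h.ne', if_neg h'.ne', add_zero, mul_zero]
      by_cases h1 : o + 2 * l + L ≤ i
      · rw [wt_right_zero h1, mul_zero, sub_zero]
        exact add_nonneg (wt_nonneg _) (wt_nonneg _)
      · push Not at h1
        rw [wt_right_ramp hl h'.le h1.le,
          wt_right_ramp hl (by linarith) (Int.add_one_le_iff.2 h1),
          wt_right_ramp hl (by linarith [Int.add_one_le_iff.2 h']) (by linarith)]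
        apply le_of_eq
        push_cast
        ring

theorem sum_shift_up (f : ℤ → ℝ) (a b : ℤ) (hab : a ≤ b) :
    ∑ i ∈ Finset.Icc a b, f (i + 1) = ∑ i ∈ Finset.Icc a b, f i - f a + f (b + 1) := by
  have h1 : ∑ i ∈ Finset.Icc a b, f (i + 1) = ∑ i ∈ Finset.Icc (a + 1) (b + 1), f i := by
    rw [← Finset.image_add_right_Icc a b 1, Finset.sum_image]
    intro x _ y _ h
    exact add_right_cancel h
  have h2 : Finset.Icc a (b + 1) = insert a (Finset.Icc (a + 1) (b + 1)) := by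
    ext i
    simp only [Finset.mem_Icc, Finset.mem_insert]
    omega
  have h3 : Finset.Icc a (b + 1) = insert (b + 1) (Finset.Icc a b) := by
    ext i
    simp only [Finset.mem_Icc, Finset.mem_insert]
    omega
  have h4 : ∑ i ∈ Finset.Icc a (b + 1), f i = f a + ∑ i ∈ Finset.Icc (a + 1) (b + 1), f i := by
    rw [h2, Finset.sum_insert (by simp)]
  have h5 : ∑ i ∈ Finset.Icc a (b + 1), f i = f (b + 1) + ∑ i ∈ Finset.Icc a b, f i := by
    rw [h3, Finset.sum_insert (by simp)]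
  rw [h1]
  linarith

theorem sum_shift_down (f : ℤ → ℝ) (a b : ℤ) (hab : a ≤ b) :
    ∑ i ∈ Finset.Icc a b, f (i - 1) = ∑ i ∈ Finset.Icc a b, f i - f b + f (a - 1) := by
  have h := sum_shift_up (fun i => f (i - 1)) a b hab
  simp only [add_sub_cancel_right] at h
  linarith

/-- The weights at the outer ends of the edges of `T`. -/
noncomputable def OO (l L : ℕ) (o : ℤ) (T : Set ℤ) : ℝ :=
  ∑ i ∈ Finset.Icc o (o + 2 * l + L),
    wt l L o i * (ind (i ∉ T ∧ i + 1 ∈ T) + ind (i ∉ T ∧ i - 1 ∈ T))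

/-- The weights at the left ends of `T`. -/
noncomputable def IL (l L : ℕ) (o : ℤ) (T : Set ℤ) : ℝ :=
  ∑ i ∈ Finset.Icc o (o + 2 * l + L), wt l L o i * ind (i ∈ T ∧ i - 1 ∉ T)

/-- The weights at the right ends of `T`. -/
noncomputable def IR (l L : ℕ) (o : ℤ) (T : Set ℤ) : ℝ :=
  ∑ i ∈ Finset.Icc o (o + 2 * l + L), wt l L o i * ind (i ∈ T ∧ i + 1 ∉ T)

/-- The weights at the inner ends of the edges of `T`. -/
noncomputable def II (l L : ℕ) (o : ℤ) (T : Set ℤ) : ℝ :=
  ∑ i ∈ Finset.Icc o (o + 2 * l + L),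
    wt l L o i * (ind (i ∈ T ∧ i - 1 ∉ T) + ind (i ∈ T ∧ i + 1 ∉ T))

theorem II_split (T : Set ℤ) : II l L o T = IL l L o T + IR l L o T := by
  rw [II, IL, IR, ← Finset.sum_add_distrib]
  apply Finset.sum_congr rfl
  intro i _
  ring

theorem OO_sub_II (T : Set ℤ) (hl : 1 ≤ l) (hL : 1 ≤ L) :
    -(1 / (l : ℝ)) * (ind (o + l ∈ T) + ind (o + l + L ∈ T)) ≤
      OO l L o T - II l L o T := by
  have hl1 : (1 : ℤ) ≤ l := by exact_mod_cast hl
  have hL1 : (1 : ℤ) ≤ L := by exact_mod_cast hL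
  set b : ℤ := o + 2 * l + L with hb
  have hab : o ≤ b := by rw [hb]; linarith
  let t : ℤ → ℝ := fun i => ind (i ∈ T)
  let w : ℤ → ℝ := wt l L o
  have h1 : OO l L o T - II l L o T =
      ∑ i ∈ Finset.Icc o b, (w i * t (i + 1) + w i * t (i - 1) - 2 * (w i * t i)) := by
    rw [OO, II, ← Finset.sum_sub_distrib]
    apply Finset.sum_congr rfl
    intro i _
    by_cases h1 : i ∈ T <;> by_cases h2 : i + 1 ∈ T <;> by_cases h3 : i - 1 ∈ T <;>
      simp [t, w, ind, h1, h2, h3] <;> ring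
  have h2 : ∑ i ∈ Finset.Icc o b, w i * t (i + 1) = ∑ i ∈ Finset.Icc o b, w (i - 1) * t i := by
    have := sum_shift_up (fun i => w (i - 1) * t i) o b hab
    simp only [add_sub_cancel_right] at this
    rw [this]
    have e1 : w (o - 1) = 0 := wt_left_zero (by linarith)
    have e2 : w b = 0 := wt_right_zero le_rfl
    rw [e1, e2]
    ring
  have h3 : ∑ i ∈ Finset.Icc o b, w i * t (i - 1) = ∑ i ∈ Finset.Icc o b, w (i + 1) * t i := by
    have := sum_shift_down (fun i => w (i + 1) * t i) o b hab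
    simp only [sub_add_cancel] at this
    rw [this]
    have e1 : w o = 0 := wt_left_zero le_rfl
    have e2 : w (b + 1) = 0 := wt_right_zero (by linarith)
    rw [e1, e2]
    ring
  have h4 : OO l L o T - II l L o T =
      ∑ i ∈ Finset.Icc o b, (w (i + 1) + w (i - 1) - 2 * w i) * t i := by
    rw [h1, Finset.sum_sub_distrib, Finset.sum_add_distrib, h2, h3, ← Finset.sum_add_distrib,
      ← Finset.sum_sub_distrib]
    apply Finset.sum_congr rfl
    intro i _
    ring
  rw [h4]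
  have h5 : ∑ i ∈ Finset.Icc o b, (-(1 / (l : ℝ)) * ((if i = o + l then 1 else 0) +
      (if i = o + l + L then 1 else 0))) * t i ≤
      ∑ i ∈ Finset.Icc o b, (w (i + 1) + w (i - 1) - 2 * w i) * t i := by
    apply Finset.sum_le_sum
    intro i _
    exact mul_le_mul_of_nonneg_right (wt_second hl hL i) (ind_nonneg _)
  refine le_trans (le_of_eq ?_) h5
  have h6 : ∀ i, (-(1 / (l : ℝ)) * ((if i = o + l then 1 else 0) +
      (if i = o + l + L then 1 else 0))) * t i =
      (if i = o + l then -(1 / (l : ℝ)) * t i else 0) +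
      (if i = o + l + L then -(1 / (l : ℝ)) * t i else 0) := by
    intro i
    split_ifs <;> ring
  simp only [h6]
  rw [Finset.sum_add_distrib, Finset.sum_ite_eq', Finset.sum_ite_eq', if_pos, if_pos]
  · ring
  · rw [Finset.mem_Icc]
    constructor <;> linarith
  · rw [Finset.mem_Icc]
    constructor <;> linarith

theorem IL_nonneg (T : Set ℤ) : 0 ≤ IL l L o T :=
  Finset.sum_nonneg (fun _ _ => mul_nonneg (wt_nonneg _) (ind_nonneg _))

theorem IR_nonneg (T : Set ℤ) : 0 ≤ IR l L o T :=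
  Finset.sum_nonneg (fun _ _ => mul_nonneg (wt_nonneg _) (ind_nonneg _))

theorem II_nonneg (T : Set ℤ) : 0 ≤ II l L o T := by
  rw [II_split]
  exact add_nonneg (IL_nonneg T) (IR_nonneg T)

theorem OO_nonneg (T : Set ℤ) : 0 ≤ OO l L o T :=
  Finset.sum_nonneg (fun _ _ => mul_nonneg (wt_nonneg _)
    (add_nonneg (ind_nonneg _) (ind_nonneg _)))

theorem IL_ge (T : Set ℤ) {i : ℤ} (hi : i ∈ T) (hi1 : i - 1 ∉ T) (h1 : o ≤ i)
    (h2 : i ≤ o + 2 * l + L) : wt l L o i ≤ IL l L o T := by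
  have := Finset.single_le_sum
    (f := fun i => wt l L o i * ind (i ∈ T ∧ i - 1 ∉ T))
    (fun i _ => mul_nonneg (wt_nonneg (l := l) (L := L) (o := o) i) (ind_nonneg _))
    (Finset.mem_Icc.2 ⟨h1, h2⟩)
  rw [ind_pos ⟨hi, hi1⟩, mul_one] at this
  exact this

theorem IR_ge (T : Set ℤ) {i : ℤ} (hi : i ∈ T) (hi1 : i + 1 ∉ T) (h1 : o ≤ i)
    (h2 : i ≤ o + 2 * l + L) : wt l L o i ≤ IR l L o T := by
  have := Finset.single_le_sum
    (f := fun i => wt l L o i * ind (i ∈ T ∧ i + 1 ∉ T))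
    (fun i _ => mul_nonneg (wt_nonneg (l := l) (L := L) (o := o) i) (ind_nonneg _))
    (Finset.mem_Icc.2 ⟨h1, h2⟩)
  rw [ind_pos ⟨hi, hi1⟩, mul_one] at this
  exact this

/-- The lower bound of the drift coefficient for windows which are neither empty nor covered. -/
theorem J_ge (T : Set ℤ) (hl : 1 ≤ l) (hL : 1 ≤ L) {κ : ℝ} (hκ0 : 0 ≤ κ)
    (hs : 1 / (l : ℝ) ≤ (1 - κ) / 2) {i₀ : ℤ} (hi₀ : i₀ ∈ T) (h1 : o < i₀)
    (h2 : i₀ < o + 2 * l + L) (hflat : ∃ i, o + l ≤ i ∧ i ≤ o + l + L ∧ i ∉ T) :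
    (1 - κ) * (1 / (l : ℝ)) ≤ OO l L o T - κ * II l L o T := by
  have hl1 : (1 : ℤ) ≤ l := by exact_mod_cast hl
  have hL1 : (1 : ℤ) ≤ L := by exact_mod_cast hL
  have hl0 : (0 : ℝ) < l := by exact_mod_cast hl
  have hs0 : 0 < 1 / (l : ℝ) := by positivity
  have hκ : 0 < 1 - κ := by linarith
  obtain ⟨k, hk1, hk2, hkT⟩ := hflat
  have hd := OO_sub_II (l := l) (L := L) (o := o) T hl hL
  have hsplit := II_split (l := l) (L := L) (o := o) T
  have hIL0 := IL_nonneg (l := l) (L := L) (o := o) T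
  have hIR0 := IR_nonneg (l := l) (L := L) (o := o) T
  -- the first shoulder
  have hB : o + l ∈ T → 1 ≤ IR l L o T := by
    intro hT
    by_contra hcon
    have hall : ∀ j, o + l ≤ j → j ≤ o + l + L → j ∈ T := by
      intro j hj
      induction j, hj using Int.leInduction with
      | base => intro _; exact hT
      | succ j hj ih =>
        intro hj2
        have h3 := ih (by linarith)
        by_contra h4
        apply hcon
        have h5 := IR_ge (l := l) (L := L) (o := o) T h3 h4 (by linarith) (by linarith)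
        rw [wt_flat hl hj (by linarith)] at h5
        exact h5
    exact hkT (hall k hk1 hk2)
  have hC : o + l + L ∈ T → 1 ≤ IL l L o T := by
    intro hT
    by_contra hcon
    have hall : ∀ j, j ≤ o + l + L → o + l ≤ j → j ∈ T := by
      intro j hj
      induction j, hj using Int.leInductionDown with
      | base => intro _; exact hT
      | pred j hj ih =>
        intro hj2
        have h3 := ih (by linarith)
        by_contra h4
        apply hcon
        have h5 := IL_ge (l := l) (L := L) (o := o) T h3 h4 (by linarith) (by linarith)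
        rw [wt_flat hl (by linarith) hj] at h5
        exact h5
    exact hkT (hall k hk2 hk1)
  have hA : 1 / (l : ℝ) ≤ IL l L o T + IR l L o T := by
    by_contra hcon
    push Not at hcon
    have hup : ∀ j, i₀ ≤ j → j < o + 2 * l + L → j ∈ T := by
      intro j hj
      induction j, hj using Int.leInduction with
      | base => intro _; exact hi₀
      | succ j hj ih =>
        intro hj2
        have h3 := ih (by linarith)
        by_contra h4
        have h5 := IR_ge (l := l) (L := L) (o := o) T h3 h4 (by linarith) (by linarith)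
        have h6 := wt_inside (l := l) (L := L) (o := o) hl (i := j) (by linarith) (by linarith)
        linarith
    have hdown : ∀ j, j ≤ i₀ → o < j → j ∈ T := by
      intro j hj
      induction j, hj using Int.leInductionDown with
      | base => intro _; exact hi₀
      | pred j hj ih =>
        intro hj2
        have h3 := ih (by linarith)
        by_contra h4
        have h5 := IL_ge (l := l) (L := L) (o := o) T h3 h4 (by linarith) (by linarith)
        have h6 := wt_inside (l := l) (L := L) (o := o) hl (i := j) (by linarith) (by linarith)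
        linarith
    rcases le_total i₀ k with h3 | h3
    · exact hkT (hup k h3 (by linarith))
    · exact hkT (hdown k h3 (by linarith))
  have e : OO l L o T - κ * II l L o T =
      (1 - κ) * (IL l L o T + IR l L o T) + (OO l L o T - II l L o T) := by
    rw [hsplit]
    ring
  rw [e]
  have hs2 : 1 / (l : ℝ) ≤ 1 / 2 := by linarith
  by_cases hT1 : o + l ∈ T <;> by_cases hT2 : o + l + L ∈ T
  · rw [ind_pos hT1, ind_pos hT2] at hd
    have h3 := hB hT1
    have h4 := hC hT2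
    nlinarith
  · rw [ind_pos hT1, ind_neg hT2] at hd
    have h3 := hB hT1
    nlinarith
  · rw [ind_neg hT1, ind_pos hT2] at hd
    have h4 := hC hT2
    nlinarith
  · rw [ind_neg hT1, ind_neg hT2] at hd
    nlinarith

/-- The lower bound in general. -/
theorem J_ge' (T : Set ℤ) (hl : 1 ≤ l) (hL : 1 ≤ L) {κ : ℝ} (hκ1 : κ ≤ 1) :
    -(2 * (1 / (l : ℝ))) ≤ OO l L o T - κ * II l L o T := by
  have hd := OO_sub_II (l := l) (L := L) (o := o) T hl hL
  have h0 := II_nonneg (l := l) (L := L) (o := o) T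
  have hs : 0 ≤ 1 / (l : ℝ) := by positivity
  have e : OO l L o T - κ * II l L o T =
      (1 - κ) * II l L o T + (OO l L o T - II l L o T) := by ring
  rw [e]
  have h1 : 0 ≤ (1 - κ) * II l L o T := mul_nonneg (by linarith) h0
  have h2 := ind_le_one (o + l ∈ T)
  have h3 := ind_le_one (o + l + L ∈ T)
  nlinarith

end Pool.Agent.Lib.MP_8850da_pr
end

section

/-!
# Loss and gain of weight in one step
-/

set_option autoImplicit false

namespace Pool.Agent.Lib.MP_8850da_pr

theorem ind_and (p q : Prop) : ind (p ∧ q) = ind p * ind q := by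
  by_cases hp : p <;> by_cases hq : q <;> simp [ind, hp, hq]

theorem ind_mono {p q : Prop} (h : p → q) : ind p ≤ ind q := by
  by_cases hp : p
  · rw [ind_pos hp, ind_pos (h hp)]
  · rw [ind_neg hp]
    exact ind_nonneg q

theorem sum_ind (B : Finset ℤ) (p : ℤ → Prop) [DecidablePred p] :
    ∑ g ∈ B, ind (p g) = ((B.filter p).card : ℝ) := by
  rw [Finset.card_filter]
  push_cast
  apply Finset.sum_congr rfl
  intro g _
  by_cases h : p g
  · rw [ind_pos h, if_pos h]
  · rw [ind_neg h, if_neg h]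

/-- The window. -/
noncomputable def Wn (l L : ℕ) (o : ℤ) : Finset ℤ := Finset.Icc o (o + 2 * l + L)

/-- The sites whose noise matters for the window. -/
noncomputable def BB (r K l L : ℕ) (o : ℤ) : Finset ℤ := Finset.Icc (o - r) (o + 2 * l + L + K + r)

/-- The weight of the certified set in the window. -/
noncomputable def Phi (K l L : ℕ) (o : ℤ) (S : Set ℤ) : ℝ :=
  ∑ i ∈ Wn l L o, wt l L o i * ind (i ∈ TT K S)

/-- The gain caused by noise `1` at `g`. -/
noncomputable def Gam (D : Nb) (K l L : ℕ) (o : ℤ) (S : Set ℤ) (g : ℤ) : ℝ :=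
  ∑ i ∈ Wn l L o, wt l L o i *
    (ind ((i ∉ TT K S ∧ i + 1 ∈ TT K S) ∧ (g - i + D.ν ∈ D.N ∧ g ≤ i)) +
      ind ((i ∉ TT K S ∧ i - 1 ∈ TT K S) ∧ (g - (i + K) + D.ν ∈ D.N ∧ i + K ≤ g)))

/-- The loss caused by noise `2` at `z`. -/
noncomputable def Lam (D : Nb) (K l L : ℕ) (o : ℤ) (S : Set ℤ) (z : ℤ) : ℝ :=
  ∑ i ∈ Wn l L o, wt l L o i *
    (ind ((i ∈ TT K S ∧ i - 1 ∉ TT K S) ∧ (z - i + D.ν ∈ D.N ∧ i ≤ z)) +
      ind ((i ∈ TT K S ∧ i + 1 ∉ TT K S) ∧ (z - (i + K) + D.ν ∈ D.N ∧ z ≤ i + K)))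

theorem Phi_nonneg (K l L : ℕ) (o : ℤ) (S : Set ℤ) : 0 ≤ Phi K l L o S :=
  Finset.sum_nonneg (fun _ _ => mul_nonneg (wt_nonneg _) (ind_nonneg _))

theorem Gam_nonneg (D : Nb) (K l L : ℕ) (o : ℤ) (S : Set ℤ) (g : ℤ) :
    0 ≤ Gam D K l L o S g :=
  Finset.sum_nonneg (fun _ _ => mul_nonneg (wt_nonneg _)
    (add_nonneg (ind_nonneg _) (ind_nonneg _)))

theorem Lam_nonneg (D : Nb) (K l L : ℕ) (o : ℤ) (S : Set ℤ) (g : ℤ) :
    0 ≤ Lam D K l L o S g :=
  Finset.sum_nonneg (fun _ _ => mul_nonneg (wt_nonneg _)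
    (add_nonneg (ind_nonneg _) (ind_nonneg _)))

theorem sum_ind_le (D : Nb) (B : Finset ℤ) (g c : ℤ) (q : ℤ → Prop) :
    ∑ i ∈ B, ind (g - (i + c) + D.ν ∈ D.N ∧ q i) ≤ 2 * D.m + 1 := by
  classical
  have h1 : ∑ i ∈ B, ind (g - (i + c) + D.ν ∈ D.N ∧ q i) ≤
      ∑ i ∈ B, ind (g - (i + c) + D.ν ∈ D.N) :=
    Finset.sum_le_sum (fun i _ => ind_mono (fun h => h.1))
  refine h1.trans ?_
  rw [sum_ind]
  have h2 : (B.filter (fun i => g - (i + c) + D.ν ∈ D.N)).card ≤ D.N.card := by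
    apply Finset.card_le_card_of_injOn (fun i => g - (i + c) + D.ν)
    · intro i hi
      exact (Finset.mem_filter.1 hi).2
    · intro i _ j _ hij
      have : g - (i + c) + D.ν = g - (j + c) + D.ν := hij
      linarith
  rw [D.card_N] at h2
  exact_mod_cast h2

theorem Gam_le (D : Nb) (K l L : ℕ) (o : ℤ) (S : Set ℤ) (g : ℤ) :
    Gam D K l L o S g ≤ 2 * (2 * D.m + 1) := by
  have h1 : Gam D K l L o S g ≤ ∑ i ∈ Wn l L o,
      (ind (g - (i + 0) + D.ν ∈ D.N ∧ g ≤ i) +
        ind (g - (i + K) + D.ν ∈ D.N ∧ i + K ≤ g)) := by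
    apply Finset.sum_le_sum
    intro i _
    rw [ind_and _ (g - i + D.ν ∈ D.N ∧ g ≤ i), ind_and _ (g - (i + K) + D.ν ∈ D.N ∧ i + K ≤ g),
      add_zero]
    have h2 := wt_le_one (l := l) (L := L) (o := o) i
    have h3 := wt_nonneg (l := l) (L := L) (o := o) i
    have h4 := ind_nonneg (g - i + D.ν ∈ D.N ∧ g ≤ i)
    have h5 := ind_nonneg (g - (i + K) + D.ν ∈ D.N ∧ i + K ≤ g)
    have h6 := ind_le_one (i ∉ TT K S ∧ i + 1 ∈ TT K S)
    have h7 := ind_le_one (i ∉ TT K S ∧ i - 1 ∈ TT K S)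
    have h8 := ind_nonneg (i ∉ TT K S ∧ i + 1 ∈ TT K S)
    have h9 := ind_nonneg (i ∉ TT K S ∧ i - 1 ∈ TT K S)
    have a1 := mul_le_of_le_one_left h4 h6
    have a2 := mul_le_of_le_one_left h5 h7
    calc wt l L o i * (ind (i ∉ TT K S ∧ i + 1 ∈ TT K S) * ind (g - i + D.ν ∈ D.N ∧ g ≤ i) +
          ind (i ∉ TT K S ∧ i - 1 ∈ TT K S) * ind (g - (i + K) + D.ν ∈ D.N ∧ i + K ≤ g))
        ≤ 1 * (ind (i ∉ TT K S ∧ i + 1 ∈ TT K S) * ind (g - i + D.ν ∈ D.N ∧ g ≤ i) +
          ind (i ∉ TT K S ∧ i - 1 ∈ TT K S) * ind (g - (i + K) + D.ν ∈ D.N ∧ i + K ≤ g)) :=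
          mul_le_mul_of_nonneg_right h2 (add_nonneg (mul_nonneg h8 h4) (mul_nonneg h9 h5))
      _ ≤ _ := by linarith
  refine h1.trans ?_
  rw [Finset.sum_add_distrib]
  have h2 := sum_ind_le D (Wn l L o) g 0 (fun i => g ≤ i)
  have h3 := sum_ind_le D (Wn l L o) g K (fun i => i + K ≤ g)
  linarith

theorem Lam_le (D : Nb) (K l L : ℕ) (o : ℤ) (S : Set ℤ) (g : ℤ) :
    Lam D K l L o S g ≤ 2 * (2 * D.m + 1) := by
  have h1 : Lam D K l L o S g ≤ ∑ i ∈ Wn l L o,
      (ind (g - (i + 0) + D.ν ∈ D.N ∧ i ≤ g) +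
        ind (g - (i + K) + D.ν ∈ D.N ∧ g ≤ i + K)) := by
    apply Finset.sum_le_sum
    intro i _
    rw [ind_and _ (g - i + D.ν ∈ D.N ∧ i ≤ g), ind_and _ (g - (i + K) + D.ν ∈ D.N ∧ g ≤ i + K),
      add_zero]
    have h2 := wt_le_one (l := l) (L := L) (o := o) i
    have h3 := wt_nonneg (l := l) (L := L) (o := o) i
    have h4 := ind_nonneg (g - i + D.ν ∈ D.N ∧ i ≤ g)
    have h5 := ind_nonneg (g - (i + K) + D.ν ∈ D.N ∧ g ≤ i + K)
    have h6 := ind_le_one (i ∈ TT K S ∧ i - 1 ∉ TT K S)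
    have h7 := ind_le_one (i ∈ TT K S ∧ i + 1 ∉ TT K S)
    have h8 := ind_nonneg (i ∈ TT K S ∧ i - 1 ∉ TT K S)
    have h9 := ind_nonneg (i ∈ TT K S ∧ i + 1 ∉ TT K S)
    have a1 := mul_le_of_le_one_left h4 h6
    have a2 := mul_le_of_le_one_left h5 h7
    calc wt l L o i * (ind (i ∈ TT K S ∧ i - 1 ∉ TT K S) * ind (g - i + D.ν ∈ D.N ∧ i ≤ g) +
          ind (i ∈ TT K S ∧ i + 1 ∉ TT K S) * ind (g - (i + K) + D.ν ∈ D.N ∧ g ≤ i + K))
        ≤ 1 * (ind (i ∈ TT K S ∧ i - 1 ∉ TT K S) * ind (g - i + D.ν ∈ D.N ∧ i ≤ g) +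
          ind (i ∈ TT K S ∧ i + 1 ∉ TT K S) * ind (g - (i + K) + D.ν ∈ D.N ∧ g ≤ i + K)) :=
          mul_le_mul_of_nonneg_right h2 (add_nonneg (mul_nonneg h8 h4) (mul_nonneg h9 h5))
      _ ≤ _ := by linarith
  refine h1.trans ?_
  rw [Finset.sum_add_distrib]
  have h2 := sum_ind_le D (Wn l L o) g 0 (fun i => i ≤ g)
  have h3 := sum_ind_le D (Wn l L o) g K (fun i => g ≤ i + K)
  linarith

/-- Exactly `m + 1` sites: positions on one side. -/
theorem sum_side_le (D : Nb) (B : Finset ℤ) (c : ℤ) (hB : Finset.Icc (c - D.r) c ⊆ B) :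
    ∑ g ∈ B, ind (g - c + D.ν ∈ D.N ∧ g ≤ c) = D.m + 1 := by
  classical
  rw [sum_ind]
  have h : (B.filter (fun g => g - c + D.ν ∈ D.N ∧ g ≤ c)).card =
      (D.N.filter (fun n => n ≤ D.ν)).card := by
    apply Finset.card_nbij' (fun g => g - c + D.ν) (fun n => c + (n - D.ν))
    · intro g hg
      rw [Finset.mem_coe, Finset.mem_filter] at hg
      rw [Finset.mem_coe, Finset.mem_filter]
      exact ⟨hg.2.1, by linarith [hg.2.2]⟩
    · intro n hn
      rw [Finset.mem_coe, Finset.mem_filter] at hn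
      rw [Finset.mem_coe, Finset.mem_filter]
      have h6 := abs_le.1 (D.bound n hn.1)
      refine ⟨hB (Finset.mem_Icc.2 ⟨by linarith [h6.1], by linarith [hn.2]⟩), ?_, by linarith [hn.2]⟩
      rw [show c + (n - D.ν) - c + D.ν = n by ring]
      exact hn.1
    · intro g _
      change c + (g - c + D.ν - D.ν) = g
      ring
    · intro n _
      change c + (n - D.ν) - c + D.ν = n
      ring
  rw [h, D.card_le]
  push_cast
  ring

theorem sum_side_ge (D : Nb) (B : Finset ℤ) (c : ℤ) (hB : Finset.Icc c (c + D.r) ⊆ B) :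
    ∑ g ∈ B, ind (g - c + D.ν ∈ D.N ∧ c ≤ g) = D.m + 1 := by
  classical
  rw [sum_ind]
  have h : (B.filter (fun g => g - c + D.ν ∈ D.N ∧ c ≤ g)).card =
      (D.N.filter (fun n => D.ν ≤ n)).card := by
    apply Finset.card_nbij' (fun g => g - c + D.ν) (fun n => c + (n - D.ν))
    · intro g hg
      rw [Finset.mem_coe, Finset.mem_filter] at hg
      rw [Finset.mem_coe, Finset.mem_filter]
      exact ⟨hg.2.1, by linarith [hg.2.2]⟩
    · intro n hn
      rw [Finset.mem_coe, Finset.mem_filter] at hn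
      rw [Finset.mem_coe, Finset.mem_filter]
      have h6 := abs_le.1 (D.bound n hn.1)
      refine ⟨hB (Finset.mem_Icc.2 ⟨by linarith [hn.2], by linarith [h6.2]⟩), ?_, by linarith [hn.2]⟩
      rw [show c + (n - D.ν) - c + D.ν = n by ring]
      exact hn.1
    · intro g _
      change c + (g - c + D.ν - D.ν) = g
      ring
    · intro n _
      change c + (n - D.ν) - c + D.ν = n
      ring
  rw [h, D.card_ge]
  push_cast
  ring

theorem sum_Gam (D : Nb) (K l L : ℕ) (o : ℤ) (S : Set ℤ) :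
    ∑ g ∈ BB D.r K l L o, Gam D K l L o S g = (D.m + 1) * OO l L o (TT K S) := by
  have hr := D.one_le_r
  simp only [Gam]
  rw [Finset.sum_comm, OO, Finset.mul_sum]
  apply Finset.sum_congr rfl
  intro i hi
  rw [Wn, Finset.mem_Icc] at hi
  rw [← Finset.mul_sum, Finset.sum_add_distrib]
  simp only [ind_and (i ∉ TT K S ∧ i + 1 ∈ TT K S), ind_and (i ∉ TT K S ∧ i - 1 ∈ TT K S)]
  rw [← Finset.mul_sum, ← Finset.mul_sum, sum_side_le, sum_side_ge]
  · ring
  · intro g hg
    rw [Finset.mem_Icc] at hg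
    rw [BB, Finset.mem_Icc]
    have : (0 : ℤ) ≤ K := by positivity
    constructor <;> linarith [hg.1, hg.2, hi.1, hi.2]
  · intro g hg
    rw [Finset.mem_Icc] at hg
    rw [BB, Finset.mem_Icc]
    have : (0 : ℤ) ≤ K := by positivity
    constructor <;> linarith [hg.1, hg.2, hi.1, hi.2]

theorem sum_Lam (D : Nb) (K l L : ℕ) (o : ℤ) (S : Set ℤ) (hK : 2 * D.r ≤ K) :
    ∑ z ∈ BB D.r K l L o, Lam D K l L o S z = (D.m + 1) * II l L o (TT K S) := by
  have hr := D.one_le_r
  have hK' : 2 * (D.r : ℤ) ≤ K := by exact_mod_cast hK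
  simp only [Lam]
  rw [Finset.sum_comm, II, Finset.mul_sum]
  apply Finset.sum_congr rfl
  intro i hi
  rw [Wn, Finset.mem_Icc] at hi
  rw [← Finset.mul_sum, Finset.sum_add_distrib]
  simp only [ind_and (i ∈ TT K S ∧ i - 1 ∉ TT K S), ind_and (i ∈ TT K S ∧ i + 1 ∉ TT K S)]
  rw [← Finset.mul_sum, ← Finset.mul_sum, sum_side_ge, sum_side_le]
  · ring
  · intro g hg
    rw [Finset.mem_Icc] at hg
    rw [BB, Finset.mem_Icc]
    constructor <;> linarith [hg.1, hg.2, hi.1, hi.2]
  · intro g hg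
    rw [Finset.mem_Icc] at hg
    rw [BB, Finset.mem_Icc]
    constructor <;> linarith [hg.1, hg.2, hi.1, hi.2]

variable {D : Nb} {K : ℕ} (hK : 2 * D.r ≤ K) (l L : ℕ) (o : ℤ) (S : Set ℤ) (u : ℤ → Fin 3)
include hK

/-- (PW2) -/
theorem Phi_gain (hu : ∀ z ∈ BB D.r K l L o, u z ≠ 2) (g : ℤ) (hg : u g = 1) :
    Phi K l L o S + Gam D K l L o S g ≤ Phi K l L o (upM D K u S) := by
  have hr := D.one_le_r
  have hK' : 2 * (D.r : ℤ) ≤ K := by exact_mod_cast hK
  rw [Phi, Gam, Phi, ← Finset.sum_add_distrib]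
  apply Finset.sum_le_sum
  intro i hi
  rw [Wn, Finset.mem_Icc] at hi
  rw [← mul_add]
  apply mul_le_mul_of_nonneg_left _ (wt_nonneg i)
  have hu' : ∀ z ∈ Set.Icc (i - D.r) (i + K + D.r), u z ≠ 2 := by
    intro z hz
    rw [Set.mem_Icc] at hz
    apply hu
    rw [BB, Finset.mem_Icc]
    constructor <;> linarith [hz.1, hz.2, hi.1, hi.2]
  by_cases h1 : i ∈ TT K S
  · rw [ind_pos h1, ind_neg (fun h => h.1.1 h1), ind_neg (fun h => h.1.1 h1),
      ind_pos (TT_up_of_no_hole hK h1 hu')]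
    norm_num
  · rw [ind_neg h1, zero_add]
    by_cases h2 : i + 1 ∈ TT K S
    · have h3 : i - 1 ∉ TT K S := by
        intro h3
        apply h1
        intro j hj
        rw [Set.mem_Icc] at hj
        rcases hj.1.eq_or_lt with h4 | h4
        · apply h3
          rw [← h4, Set.mem_Icc]
          constructor <;> linarith
        · apply h2
          rw [Set.mem_Icc]
          constructor
          · exact Int.add_one_le_iff.2 h4
          · linarith [hj.2]
      rw [ind_neg (p := ((i ∉ TT K S ∧ i - 1 ∈ TT K S) ∧ (g - (i + K) + D.ν ∈ D.N ∧ i + K ≤ g)))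
        (fun h => h3 h.1.2), add_zero]
      apply ind_mono
      rintro ⟨_, h5, h6⟩
      exact TT_up_grow_left hK h2 hu' hg h5 h6
    · rw [ind_neg (p := ((i ∉ TT K S ∧ i + 1 ∈ TT K S) ∧ (g - i + D.ν ∈ D.N ∧ g ≤ i)))
        (fun h => h2 h.1.2), zero_add]
      apply ind_mono
      rintro ⟨h4, h5, h6⟩
      exact TT_up_grow_right hK h4.2 hu' hg h5 h6

/-- (PW3) -/
theorem Phi_loss (hA : Adj D) (z : ℤ) (hu : ∀ z' ∈ BB D.r K l L o, u z' = 2 → z' = z) :
    Phi K l L o S - Lam D K l L o S z ≤ Phi K l L o (upM D K u S) := by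
  have hr := D.one_le_r
  have hK' : 2 * (D.r : ℤ) ≤ K := by exact_mod_cast hK
  rw [Phi, Lam, Phi, ← Finset.sum_sub_distrib]
  apply Finset.sum_le_sum
  intro i hi
  rw [Wn, Finset.mem_Icc] at hi
  rw [← mul_sub]
  apply mul_le_mul_of_nonneg_left _ (wt_nonneg i)
  have hu' : ∀ z' ∈ Set.Icc (i - D.r) (i + K + D.r), u z' = 2 → z' = z := by
    intro z' hz'
    rw [Set.mem_Icc] at hz'
    apply hu
    rw [BB, Finset.mem_Icc]
    constructor <;> linarith [hz'.1, hz'.2, hi.1, hi.2]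
  have n1 := ind_nonneg ((i ∈ TT K S ∧ i - 1 ∉ TT K S) ∧ (z - i + D.ν ∈ D.N ∧ i ≤ z))
  have n2 := ind_nonneg ((i ∈ TT K S ∧ i + 1 ∉ TT K S) ∧
    (z - (i + K) + D.ν ∈ D.N ∧ z ≤ i + K))
  have n3 := ind_nonneg (i ∈ TT K (upM D K u S))
  by_cases h1 : i ∈ TT K S
  · by_cases h2 : (i ∈ TT K S ∧ i - 1 ∉ TT K S) ∧ (z - i + D.ν ∈ D.N ∧ i ≤ z)
    · rw [ind_pos h1, ind_pos h2]
      linarith
    · by_cases h3 : (i ∈ TT K S ∧ i + 1 ∉ TT K S) ∧ (z - (i + K) + D.ν ∈ D.N ∧ z ≤ i + K)
      · rw [ind_pos h1, ind_pos h3]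
        linarith
      · rw [ind_pos h1, ind_pos (TT_up_of_one_hole hK hA h1 hu' (fun h => h2 ⟨⟨h1, h.1⟩, h.2⟩)
          (fun h => h3 ⟨⟨h1, h.1⟩, h.2⟩))]
        linarith
  · rw [ind_neg h1]
    linarith

/-- (PW0) -/
theorem Phi_loss' : Phi K l L o S -
    (K + 2 * D.r + 1) * (((BB D.r K l L o).filter (fun z => u z = 2)).card : ℝ) ≤
      Phi K l L o (upM D K u S) := by
  classical
  have hr := D.one_le_r
  have hK' : 2 * (D.r : ℤ) ≤ K := by exact_mod_cast hK
  have h1 : Phi K l L o S ≤ Phi K l L o (upM D K u S) +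
      ∑ i ∈ Wn l L o, ∑ z ∈ (BB D.r K l L o).filter (fun z => u z = 2),
        ind (i ∈ Finset.Icc (z - K - D.r) (z + D.r)) := by
    rw [Phi, Phi, ← Finset.sum_add_distrib]
    apply Finset.sum_le_sum
    intro i hi
    rw [Wn, Finset.mem_Icc] at hi
    have hs : 0 ≤ ∑ z ∈ (BB D.r K l L o).filter (fun z => u z = 2),
        ind (i ∈ Finset.Icc (z - K - D.r) (z + D.r)) :=
      Finset.sum_nonneg (fun _ _ => ind_nonneg _)
    have hw := wt_le_one (l := l) (L := L) (o := o) i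
    have hw0 := wt_nonneg (l := l) (L := L) (o := o) i
    by_cases h1 : i ∈ TT K S
    · by_cases h2 : ∀ z ∈ Set.Icc (i - D.r) (i + K + D.r), u z ≠ 2
      · rw [ind_pos h1, ind_pos (TT_up_of_no_hole hK h1 h2)]
        linarith
      · push Not at h2
        obtain ⟨z, hz, huz⟩ := h2
        rw [Set.mem_Icc] at hz
        have h3 : (1 : ℝ) ≤ ∑ z ∈ (BB D.r K l L o).filter (fun z => u z = 2),
            ind (i ∈ Finset.Icc (z - K - D.r) (z + D.r)) := by
          have h4 := Finset.single_le_sum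
            (f := fun z : ℤ => ind (i ∈ Finset.Icc (z - K - D.r) (z + D.r)))
            (fun (z : ℤ) _ => ind_nonneg (i ∈ Finset.Icc (z - K - D.r) (z + D.r)))
            (show z ∈ (BB D.r K l L o).filter (fun z => u z = 2) from by
              rw [Finset.mem_filter, BB, Finset.mem_Icc]
              refine ⟨⟨?_, ?_⟩, huz⟩ <;> linarith [hz.1, hz.2, hi.1, hi.2])
          rw [ind_pos (show i ∈ Finset.Icc (z - K - D.r) (z + D.r) from by
            rw [Finset.mem_Icc]
            constructor <;> linarith [hz.1, hz.2])] at h4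
          exact h4
        rw [ind_pos h1]
        have h5 : 0 ≤ wt l L o i * ind (i ∈ TT K (upM D K u S)) :=
          mul_nonneg hw0 (ind_nonneg _)
        linarith
    · rw [ind_neg h1, mul_zero]
      exact add_nonneg (mul_nonneg hw0 (ind_nonneg _)) hs
  have h2 : ∑ i ∈ Wn l L o, ∑ z ∈ (BB D.r K l L o).filter (fun z => u z = 2),
      ind (i ∈ Finset.Icc (z - K - D.r) (z + D.r)) ≤
      (K + 2 * D.r + 1) * (((BB D.r K l L o).filter (fun z => u z = 2)).card : ℝ) := by
    rw [Finset.sum_comm]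
    have h3 : ∀ z ∈ (BB D.r K l L o).filter (fun z => u z = 2),
        ∑ i ∈ Wn l L o, ind (i ∈ Finset.Icc (z - K - D.r) (z + D.r)) ≤ (K + 2 * D.r + 1 : ℝ) := by
      intro z _
      rw [sum_ind]
      have h4 : ((Wn l L o).filter (fun i => i ∈ Finset.Icc (z - K - D.r) (z + D.r))).card ≤
          (Finset.Icc (z - K - D.r) (z + D.r)).card := by
        apply Finset.card_le_card
        intro i hi
        exact (Finset.mem_filter.1 hi).2
      rw [Int.card_Icc] at h4
      have h5 : (z + D.r + 1 - (z - K - D.r)).toNat = K + 2 * D.r + 1 := by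
        have : z + D.r + 1 - (z - K - D.r) = ((K + 2 * D.r + 1 : ℕ) : ℤ) := by
          push_cast
          ring
        rw [this, Int.toNat_natCast]
      rw [h5] at h4
      exact_mod_cast h4
    refine (Finset.sum_le_sum h3).trans (le_of_eq ?_)
    rw [Finset.sum_const, nsmul_eq_mul]
    ring
  linarith

end Pool.Agent.Lib.MP_8850da_pr
end

section

/-!
# Translations, dependence on the noise, hulls, the nucleus
-/

set_option autoImplicit false

namespace Pool.Agent.Lib.MP_8850da_pr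

theorem mem_TT_shift (K : ℕ) (ν : ℤ) (S : Set ℤ) (i : ℤ) :
    i ∈ TT K {i | i + ν ∈ S} ↔ i + ν ∈ TT K S := by
  constructor
  · intro h j hj
    rw [Set.mem_Icc] at hj
    have h1 : j - ν + ν ∈ S := h (show j - ν ∈ Set.Icc i (i + K) by
      rw [Set.mem_Icc]
      constructor <;> linarith [hj.1, hj.2])
    rwa [sub_add_cancel] at h1
  · intro h j hj
    rw [Set.mem_Icc] at hj
    change j + ν ∈ S
    apply h
    rw [Set.mem_Icc]
    constructor <;> linarith [hj.1, hj.2]

theorem wt_shift (l L : ℕ) (o ν i : ℤ) : wt l L (o + ν) (i + ν) = wt l L o i := by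
  rw [wt, wt, show i + ν - (o + ν) = i - o by ring,
    show o + ν + 2 * (l : ℤ) + L - (i + ν) = o + 2 * l + L - i by ring]

theorem Phi_shift (K l L : ℕ) (o ν : ℤ) (S : Set ℤ) :
    Phi K l L o {i | i + ν ∈ S} = Phi K l L (o + ν) S := by
  rw [Phi, Phi, Wn, Wn, show o + ν + 2 * (l : ℤ) + L = o + 2 * l + L + ν by ring,
    ← Finset.image_add_right_Icc o (o + 2 * l + L) ν, Finset.sum_image]
  · apply Finset.sum_congr rfl
    intro i _
    rw [wt_shift]
    congr 1
    by_cases h : i + ν ∈ TT K S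
    · rw [ind_pos h, ind_pos ((mem_TT_shift K ν S i).2 h)]
    · rw [ind_neg h, ind_neg (fun h' => h ((mem_TT_shift K ν S i).1 h'))]
  · intro x _ y _ h
    exact add_right_cancel h

theorem Phi_up (D : Nb) (K l L : ℕ) (o : ℤ) (u : ℤ → Fin 3) (S : Set ℤ) :
    Phi K l L o (up D K u S) = Phi K l L (o + D.ν) (upM D K u S) :=
  Phi_shift K l L o D.ν _

theorem mem_zs_congr (u v : ℤ → Fin 3) (S : Set ℤ) (j : ℤ) (h : u j = v j) :
    j ∈ zs u S ↔ j ∈ zs v S := by
  have e : ∀ w : ℤ → Fin 3, j ∈ zs w S ↔ (j ∈ S ∧ ¬ w j = 2) ∨ w j = 1 := fun w => Iff.rfl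
  rw [e, e, h]

theorem mem_Mj_congr (D : Nb) (A A' : Set ℤ) (j : ℤ)
    (h : ∀ k ∈ Set.Icc (j - D.r) (j + D.r), k ∈ A ↔ k ∈ A') : j ∈ Mj D A ↔ j ∈ Mj D A' := by
  classical
  have e : cnt D.N D.ν A j = cnt D.N D.ν A' j := by
    rw [cnt, cnt]
    congr 1
    apply Finset.filter_congr
    intro n hn
    apply h
    have h6 := abs_le.1 (D.bound n hn)
    rw [Set.mem_Icc]
    constructor <;> linarith [h6.1, h6.2]
  change D.m + 1 ≤ cnt D.N D.ν A j ↔ D.m + 1 ≤ cnt D.N D.ν A' j
  rw [e]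

/-- The weight after the step depends only on the noise in `BB`. -/
theorem Phi_dep (D : Nb) (K l L : ℕ) (o : ℤ) (S : Set ℤ) (u v : ℤ → Fin 3)
    (h : ∀ z ∈ BB D.r K l L o, u z = v z) :
    Phi K l L o (upM D K u S) = Phi K l L o (upM D K v S) := by
  rw [Phi, Phi]
  apply Finset.sum_congr rfl
  intro i hi
  rw [Wn, Finset.mem_Icc] at hi
  congr 1
  have e : ∀ (u v : ℤ → Fin 3), (∀ z ∈ BB D.r K l L o, u z = v z) →
      i ∈ TT K (upM D K u S) → i ∈ TT K (upM D K v S) := by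
    intro u v h h1
    apply TT_Op
    intro j hj
    have h2 := TT_of_Op h1 hj
    refine ⟨?_, h2.2⟩
    rw [Set.mem_Icc] at hj
    refine (mem_Mj_congr D _ _ j ?_).1 h2.1
    intro k hk
    rw [Set.mem_Icc] at hk
    apply mem_zs_congr
    apply h
    rw [BB, Finset.mem_Icc]
    constructor <;> linarith [hj.1, hj.2, hk.1, hk.2, hi.1, hi.2]
  by_cases h1 : i ∈ TT K (upM D K u S)
  · rw [ind_pos h1, ind_pos (e u v h h1)]
  · rw [ind_neg h1, ind_neg (fun h2 => h1 (e v u (fun z hz => (h z hz).symm) h2))]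

theorem mem_of_TT {K : ℕ} {S : Set ℤ} {i : ℤ} (h : i ∈ TT K S) : i ∈ S := by
  apply h
  rw [Set.mem_Icc]
  have : (0 : ℤ) ≤ K := by positivity
  constructor <;> linarith

theorem exists_of_Phi_pos {K l L : ℕ} {o : ℤ} {S : Set ℤ} (h : 0 < Phi K l L o S) :
    ∃ i ∈ TT K S, o < i ∧ i < o + 2 * l + L := by
  by_contra hcon
  push Not at hcon
  have : Phi K l L o S = 0 := by
    rw [Phi]
    apply Finset.sum_eq_zero
    intro i _
    by_cases h1 : i ∈ TT K S
    · by_cases h2 : i ≤ o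
      · rw [wt_left_zero h2, zero_mul]
      · rw [wt_right_zero (hcon i h1 (not_le.1 h2)), zero_mul]
    · rw [ind_neg h1, mul_zero]
  rw [this] at h
  exact lt_irrefl _ h

/-- Positive weights on both sides of `c`. -/
theorem hull_of_Phi {K l L : ℕ} {c : ℤ} {S : Set ℤ} (h1 : 0 < Phi K l L c S)
    (h2 : 0 < Phi K l L (c - 2 * l - L) S) : c ∈ hull S := by
  obtain ⟨i, hi, hi1, hi2⟩ := exists_of_Phi_pos h1
  obtain ⟨j, hj, hj1, hj2⟩ := exists_of_Phi_pos h2
  exact ⟨j, mem_of_TT hj, i, mem_of_TT hi, by linarith, by linarith⟩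

/-- Every set of sites of weight one contained in `TT K S` is bounded by the weight. -/
theorem card_le_Phi {K l L : ℕ} (hl : 1 ≤ l) {o : ℤ} {S : Set ℤ} (a b : ℤ) (ha : o + l ≤ a)
    (hb : b ≤ o + l + L) (h : ∀ i, a ≤ i → i ≤ b → i ∈ TT K S) :
    ((b + 1 - a : ℤ) : ℝ) ≤ Phi K l L o S := by
  have hl1 : (1 : ℤ) ≤ l := by exact_mod_cast hl
  have h1 : ∑ i ∈ Finset.Icc a b, (1 : ℝ) ≤ Phi K l L o S := by
    rw [Phi]
    have h2 : ∑ i ∈ Finset.Icc a b, (1 : ℝ) =
        ∑ i ∈ Finset.Icc a b, wt l L o i * ind (i ∈ TT K S) := by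
      apply Finset.sum_congr rfl
      intro i hi
      rw [Finset.mem_Icc] at hi
      rw [wt_flat hl (by linarith [hi.1]) (by linarith [hi.2]), ind_pos (h i hi.1 hi.2), one_mul]
    rw [h2]
    apply Finset.sum_le_sum_of_subset_of_nonneg
    · intro i hi
      rw [Finset.mem_Icc] at hi
      rw [Wn, Finset.mem_Icc]
      constructor <;> linarith [hi.1, hi.2]
    · intro i _ _
      exact mul_nonneg (wt_nonneg i) (ind_nonneg _)
  rw [Finset.sum_const, Int.card_Icc, nsmul_eq_mul, mul_one] at h1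
  refine le_trans ?_ h1
  exact_mod_cast Int.self_le_toNat _

theorem flat_of_Phi_lt {K l L : ℕ} (hl : 1 ≤ l) {o : ℤ} {S : Set ℤ}
    (h : Phi K l L o S < L) : ∃ i, o + l ≤ i ∧ i ≤ o + l + L ∧ i ∉ TT K S := by
  by_contra hcon
  push Not at hcon
  have h1 := card_le_Phi hl (K := K) (L := L) (o := o) (S := S) (o + l) (o + l + L) le_rfl le_rfl
    hcon
  have h2 : ((o + l + L + 1 - (o + l) : ℤ) : ℝ) = L + 1 := by
    push_cast
    ring
  rw [h2] at h1
  linarith

/-- The weight of the nucleus, right window. -/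
theorem Phi_nuc_right {K l L M : ℕ} (hl : 1 ≤ l) (hM : M ≤ L) (c : ℤ) :
    (M : ℝ) - K - l ≤ Phi K l L c (Set.Icc (c - M) (c + M)) := by
  have hM' : (M : ℤ) ≤ L := by exact_mod_cast hM
  have hl1 : (1 : ℤ) ≤ l := by exact_mod_cast hl
  have hK0 : (0 : ℤ) ≤ K := by positivity
  have hM0 : (0 : ℤ) ≤ M := by positivity
  have h1 := card_le_Phi hl (K := K) (L := L) (o := c) (S := Set.Icc (c - (M : ℤ)) (c + M))
    (c + l) (c + M - K) le_rfl (by linarith) (by
      intro i h1 h2 j hj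
      rw [Set.mem_Icc] at hj ⊢
      constructor <;> linarith [hj.1, hj.2])
  refine le_trans (le_of_lt ?_) h1
  push_cast
  linarith

/-- The weight of the nucleus, left window. -/
theorem Phi_nuc_left {K l L M : ℕ} (hl : 1 ≤ l) (hM : M ≤ L) (hKl : K + l ≤ M) (c : ℤ) :
    (M : ℝ) - K - l ≤ Phi K l L (c - 2 * l - L) (Set.Icc (c - M) (c + M)) := by
  have hM' : (M : ℤ) ≤ L := by exact_mod_cast hM
  have hl1 : (1 : ℤ) ≤ l := by exact_mod_cast hl
  have hK0 : (0 : ℤ) ≤ K := by positivity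
  have hM0 : (0 : ℤ) ≤ M := by positivity
  have hKl' : (K : ℤ) + l ≤ M := by exact_mod_cast hKl
  have h1 := card_le_Phi hl (K := K) (L := L) (o := c - 2 * l - L)
    (S := Set.Icc (c - (M : ℤ)) (c + M))
    (c - M) (c - K - l) (by linarith) (by linarith) (by
      intro i h1 h2 j hj
      rw [Set.mem_Icc] at hj ⊢
      constructor <;> linarith [hj.1, hj.2])
  refine le_trans (le_of_lt ?_) h1
  push_cast
  linarith

end Pool.Agent.Lib.MP_8850da_pr
end
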