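import Pool.Agent.Lib.MP_8850da_pr.W3

section

/-!
# Loss of weight for neighbourhoods with gaps next to the median
-/

set_option autoImplicit false

namespace Pool.Agent.Lib.MP_8850da_pr

/-- The neighbourhood meets `[ν - k, ν)` and `(ν, ν + k]`. -/
def Gap (D : Nb) (k : ℕ) : Prop :=
  (∃ n ∈ D.N, D.ν - k ≤ n ∧ n < D.ν) ∧ ∃ n ∈ D.N, D.ν < n ∧ n ≤ D.ν + k

/-- The run of `T` which contains `i` begins at `i - v`. -/
def cL (T : Set ℤ) (v : ℕ) (i : ℤ) : Prop := (∀ t : ℕ, t ≤ v → i - t ∈ T) ∧ i - (v + 1) ∉ T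

/-- The run of `T` which contains `i` ends at `i + v`. -/
def cR (T : Set ℤ) (v : ℕ) (i : ℤ) : Prop := (∀ t : ℕ, t ≤ v → i + t ∈ T) ∧ i + (v + 1) ∉ T

/-- The loss caused by noise `2` at `z`. -/
noncomputable def Lak (D : Nb) (K k l L : ℕ) (o : ℤ) (S : Set ℤ) (z : ℤ) : ℝ :=
  ∑ i ∈ Wn l L o, wt l L o i * ∑ v ∈ Finset.range k, ∑ u ∈ Finset.Ico v k,
    (ind (cL (TT K S) v i ∧ (z - (i - v + u) + D.ν ∈ D.N ∧ i - v + u ≤ z)) +
      ind (cR (TT K S) v i ∧ (z - (i + K + v - u) + D.ν ∈ D.N ∧ z ≤ i + K + v - u)))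

theorem Lak_term_nonneg (D : Nb) (K k : ℕ) (S : Set ℤ) (z i : ℤ) :
    0 ≤ ∑ v ∈ Finset.range k, ∑ u ∈ Finset.Ico v k,
    (ind (cL (TT K S) v i ∧ (z - (i - v + u) + D.ν ∈ D.N ∧ i - v + u ≤ z)) +
      ind (cR (TT K S) v i ∧ (z - (i + K + v - u) + D.ν ∈ D.N ∧ z ≤ i + K + v - u))) :=
  Finset.sum_nonneg (fun _ _ => Finset.sum_nonneg (fun _ _ =>
    add_nonneg (ind_nonneg _) (ind_nonneg _)))

theorem Lak_nonneg (D : Nb) (K k l L : ℕ) (o : ℤ) (S : Set ℤ) (z : ℤ) :
    0 ≤ Lak D K k l L o S z :=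
  Finset.sum_nonneg (fun i _ => mul_nonneg (wt_nonneg _) (Lak_term_nonneg D K k S z i))

theorem Lak_le (D : Nb) (K k l L : ℕ) (o : ℤ) (S : Set ℤ) (z : ℤ) :
    Lak D K k l L o S z ≤ 2 * (2 * D.m + 1) * (k : ℝ) ^ 2 := by
  have h1 : Lak D K k l L o S z ≤ ∑ i ∈ Wn l L o, ∑ v ∈ Finset.range k, ∑ u ∈ Finset.Ico v k,
      (ind (z - (i + ((u : ℤ) - v)) + D.ν ∈ D.N ∧ i - v + u ≤ z) +
        ind (z - (i + ((K : ℤ) + v - u)) + D.ν ∈ D.N ∧ z ≤ i + K + v - u)) := by
    apply Finset.sum_le_sum
    intro i _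
    have h2 := wt_le_one (l := l) (L := L) (o := o) i
    refine (mul_le_of_le_one_left (Lak_term_nonneg D K k S z i) h2).trans ?_
    apply Finset.sum_le_sum
    intro v _
    apply Finset.sum_le_sum
    intro u _
    rw [show i + ((u : ℤ) - v) = i - v + u by ring,
      show i + ((K : ℤ) + v - u) = i + K + v - u by ring]
    exact add_le_add (ind_mono (fun h => h.2)) (ind_mono (fun h => h.2))
  refine h1.trans ?_
  rw [Finset.sum_comm]
  have h2 : ∀ v ∈ Finset.range k, ∑ i ∈ Wn l L o, ∑ u ∈ Finset.Ico v k,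
      (ind (z - (i + ((u : ℤ) - v)) + D.ν ∈ D.N ∧ i - v + u ≤ z) +
        ind (z - (i + ((K : ℤ) + v - u)) + D.ν ∈ D.N ∧ z ≤ i + K + v - u)) ≤
      2 * (2 * D.m + 1) * (k : ℝ) := by
    intro v _
    rw [Finset.sum_comm]
    have h3 : ∀ u ∈ Finset.Ico v k, ∑ i ∈ Wn l L o,
        (ind (z - (i + ((u : ℤ) - v)) + D.ν ∈ D.N ∧ i - v + u ≤ z) +
        ind (z - (i + ((K : ℤ) + v - u)) + D.ν ∈ D.N ∧ z ≤ i + K + v - u)) ≤
        2 * (2 * (D.m : ℝ) + 1) := by
      intro u _
      rw [Finset.sum_add_distrib]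
      have a1 := sum_ind_le D (Wn l L o) z ((u : ℤ) - v) (fun i => i - v + u ≤ z)
      have a2 := sum_ind_le D (Wn l L o) z ((K : ℤ) + v - u) (fun i => z ≤ i + K + v - u)
      linarith
    refine (Finset.sum_le_sum h3).trans ?_
    rw [Finset.sum_const, nsmul_eq_mul, Nat.card_Ico, mul_comm]
    apply mul_le_mul_of_nonneg_left _ (by positivity)
    exact_mod_cast Nat.sub_le k v
  refine (Finset.sum_le_sum h2).trans (le_of_eq ?_)
  rw [Finset.sum_const, nsmul_eq_mul, Finset.card_range]
  ring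

/-- The sum over the runs. -/
noncomputable def Sv (l L : ℕ) (o : ℤ) (T : Set ℤ) (v : ℕ) : ℝ :=
  ∑ i ∈ Finset.Icc o (o + 2 * l + L), wt l L o i * (ind (cL T v i) + ind (cR T v i))

theorem sum_Lak (D : Nb) (K k l L : ℕ) (hk : k ≤ K) (o : ℤ) (S : Set ℤ) :
    ∑ z ∈ BB D.r K l L o, Lak D K k l L o S z =
      (D.m + 1) * ∑ v ∈ Finset.range k, ((k : ℝ) - v) * Sv l L o (TT K S) v := by
  have hk' : (k : ℤ) ≤ K := by exact_mod_cast hk
  have hr := D.one_le_r
  simp only [Lak]
  rw [Finset.sum_comm]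
  have h1 : ∀ i ∈ Wn l L o, ∑ z ∈ BB D.r K l L o, wt l L o i * ∑ v ∈ Finset.range k,
      ∑ u ∈ Finset.Ico v k,
      (ind (cL (TT K S) v i ∧ (z - (i - v + u) + D.ν ∈ D.N ∧ i - v + u ≤ z)) +
      ind (cR (TT K S) v i ∧ (z - (i + K + v - u) + D.ν ∈ D.N ∧ z ≤ i + K + v - u))) =
      wt l L o i * ∑ v ∈ Finset.range k, ((k : ℝ) - v) *
        ((D.m + 1) * (ind (cL (TT K S) v i) + ind (cR (TT K S) v i))) := by
    intro i hi
    rw [Wn, Finset.mem_Icc] at hi
    rw [← Finset.mul_sum]
    congr 1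
    rw [Finset.sum_comm]
    apply Finset.sum_congr rfl
    intro v hv
    rw [Finset.mem_range] at hv
    rw [Finset.sum_comm]
    have h2 : ∀ u ∈ Finset.Ico v k, ∑ z ∈ BB D.r K l L o,
        (ind (cL (TT K S) v i ∧ (z - (i - v + u) + D.ν ∈ D.N ∧ i - v + u ≤ z)) +
        ind (cR (TT K S) v i ∧ (z - (i + K + v - u) + D.ν ∈ D.N ∧ z ≤ i + K + v - u))) =
        (D.m + 1) * (ind (cL (TT K S) v i) + ind (cR (TT K S) v i)) := by
      intro u hu
      rw [Finset.mem_Ico] at hu
      have hu1 : (v : ℤ) ≤ u := by exact_mod_cast hu.1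
      have hu2 : (u : ℤ) < k := by exact_mod_cast hu.2
      have hv0 : (0 : ℤ) ≤ v := by positivity
      rw [Finset.sum_add_distrib]
      simp only [ind_and (cL (TT K S) v i), ind_and (cR (TT K S) v i)]
      rw [← Finset.mul_sum, ← Finset.mul_sum, sum_side_ge, sum_side_le]
      · ring
      · intro g hg
        rw [Finset.mem_Icc] at hg
        rw [BB, Finset.mem_Icc]
        constructor <;> linarith [hg.1, hg.2, hi.1, hi.2]
      · intro g hg
        rw [Finset.mem_Icc] at hg
        rw [BB, Finset.mem_Icc]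
        constructor <;> linarith [hg.1, hg.2, hi.1, hi.2]
    rw [Finset.sum_congr rfl h2, Finset.sum_const, nsmul_eq_mul, Nat.card_Ico,
      Nat.cast_sub hv.le]
  rw [Finset.sum_congr rfl h1]
  simp only [Sv, Finset.mul_sum, Wn]
  rw [Finset.sum_comm]
  apply Finset.sum_congr rfl
  intro v _
  apply Finset.sum_congr rfl
  intro i _
  ring

section loss

variable {D : Nb} {K k : ℕ} (hK : 2 * D.r ≤ K) (hG : Gap D k)
include hK hG

/-- A lost element. -/
theorem TT_up_lossk {u : ℤ → Fin 3} {S : Set ℤ} {i z : ℤ} (hi : i ∈ TT K S)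
    (hu : ∀ z' ∈ Set.Icc (i - D.r) (i + K + D.r), u z' = 2 → z' = z)
    (hno : i ∉ TT K (upM D K u S)) :
    (∃ v w : ℕ, v ≤ w ∧ w < k ∧ cL (TT K S) v i ∧
      (z - (i - v + w) + D.ν ∈ D.N ∧ i - v + w ≤ z)) ∨
    ∃ v w : ℕ, v ≤ w ∧ w < k ∧ cR (TT K S) v i ∧
      (z - (i + K + v - w) + D.ν ∈ D.N ∧ z ≤ i + K + v - w) := by
  classical
  have hr1 := D.one_le_r
  have hK' : 2 * (D.r : ℤ) ≤ K := by exact_mod_cast hK
  have huz : ∀ x, i - D.r ≤ x → x ≤ i + K + D.r → x ≠ z → u x ≠ 2 :=
    fun x h1 h2 h3 h4 => h3 (hu x (Set.mem_Icc.2 ⟨h1, h2⟩) h4)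
  obtain ⟨j, hj, hjM⟩ : ∃ j ∈ Set.Icc i (i + K), j ∉ Mj D (zs u S) := by
    by_contra hcon
    push Not at hcon
    apply hno
    apply TT_Op
    intro j hj
    exact ⟨hcon j hj, mem_hullp_of (hi hj)⟩
  have hj' := Set.mem_Icc.1 hj
  rcases le_or_gt j (i + K - D.r) with hc | hc
  · left
    have hside : ∀ n ∈ D.N, D.ν ≤ n → j + (n - D.ν) ≠ z → j + (n - D.ν) ∈ zs u S := by
      intro n hn hn2 hnz
      have h6 := abs_le.1 (D.bound n hn)
      apply mem_zs_of
      · apply hi
        rw [Set.mem_Icc]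
        constructor <;> linarith [h6.2]
      · apply huz _ _ _ hnz <;> linarith [h6.2]
    have hz : z - j + D.ν ∈ D.N ∧ j ≤ z := by
      by_contra hcon
      apply hjM
      apply mem_Mj_of D (D.N.filter (fun n => D.ν ≤ n)) (Finset.filter_subset _ _) D.card_ge.ge
      intro n hn
      rw [Finset.mem_filter] at hn
      apply hside n hn.1 hn.2
      intro h7
      apply hcon
      constructor
      · have : z - j + D.ν = n := by linarith
        rw [this]; exact hn.1
      · linarith [hn.2]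
    obtain ⟨⟨n, hn, hn1, hn2⟩, _⟩ := hG
    have hbn := abs_le.1 (D.bound n hn)
    set x : ℤ := j + (n - D.ν) with hx
    have hxj : x < j := by rw [hx]; linarith
    have hxS : x ∉ S := by
      intro hxS
      apply hjM
      apply mem_Mj_of D (insert n ((D.N.filter (fun n => D.ν ≤ n)).erase (z - j + D.ν)))
      · intro n' hn'
        rw [Finset.mem_insert, Finset.mem_erase, Finset.mem_filter] at hn'
        rcases hn' with h | h
        · rw [h]; exact hn
        · exact h.2.1
      · rw [Finset.card_insert_of_notMem, Finset.card_erase_of_mem, D.card_ge]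
        · omega
        · rw [Finset.mem_filter]
          exact ⟨hz.1, by linarith [hz.2]⟩
        · rw [Finset.mem_erase, Finset.mem_filter]
          rintro ⟨_, _, h⟩
          linarith
      · intro n' hn'
        rw [Finset.mem_insert, Finset.mem_erase, Finset.mem_filter] at hn'
        rcases hn' with h | h
        · rw [h]
          apply mem_zs_of hxS
          apply huz
          · linarith [hbn.1, hj'.1]
          · linarith [hj'.2]
          · intro h8
            linarith [hz.2]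
        · apply hside n' h.2.1 h.2.2
          intro h9
          apply h.1
          linarith
    have hxi : x < i := by
      by_contra hcon
      apply hxS
      apply hi
      rw [Set.mem_Icc]
      constructor <;> linarith [not_lt.1 hcon, hj'.2]
    have hxT : x ∉ TT K S := fun h => hxS (mem_of_TT h)
    -- the beginning of the run
    have hex : ∃ v : ℕ, i - ((v : ℤ) + 1) ∉ TT K S := by
      refine ⟨(i - 1 - x).toNat, ?_⟩
      rw [Int.toNat_of_nonneg (by linarith [Int.add_one_le_iff.2 hxi])]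
      rw [show i - (i - 1 - x + 1) = x by ring]
      exact hxT
    set v : ℕ := Nat.find hex with hv
    have hv1 : i - ((v : ℤ) + 1) ∉ TT K S := Nat.find_spec hex
    have hv2 : (v : ℤ) ≤ i - 1 - x := by
      have h1 : v ≤ (i - 1 - x).toNat := by
        apply Nat.find_min' hex
        rw [Int.toNat_of_nonneg (by linarith [Int.add_one_le_iff.2 hxi])]
        rw [show i - (i - 1 - x + 1) = x by ring]
        exact hxT
      have h2 : ((i - 1 - x).toNat : ℤ) = i - 1 - x :=
        Int.toNat_of_nonneg (by linarith [Int.add_one_le_iff.2 hxi])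
      have h3 : (v : ℤ) ≤ ((i - 1 - x).toNat : ℤ) := by exact_mod_cast h1
      linarith
    have hv3 : ∀ t : ℕ, t ≤ v → i - (t : ℤ) ∈ TT K S := by
      intro t ht
      rcases Nat.eq_zero_or_pos t with h0 | h0
      · rw [h0, Nat.cast_zero, sub_zero]
        exact hi
      · have h1 := Nat.find_min hex (m := t - 1) (by omega)
        rw [not_not] at h1
        have h2 : ((t - 1 : ℕ) : ℤ) + 1 = t := by
          rw [Nat.cast_sub h0]
          push_cast
          ring
        rwa [h2] at h1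
    have hwz : ((j - i + v).toNat : ℤ) = j - i + v :=
      Int.toNat_of_nonneg (by linarith [hj'.1, show (0 : ℤ) ≤ v by positivity])
    refine ⟨v, (j - i + v).toNat, ?_, ?_, ⟨hv3, hv1⟩, ?_⟩
    · have : (v : ℤ) ≤ ((j - i + v).toNat : ℤ) := by rw [hwz]; linarith [hj'.1]
      exact_mod_cast this
    · have : ((j - i + v).toNat : ℤ) < k := by
        rw [hwz]
        rw [hx] at hv2
        linarith
      exact_mod_cast this
    · rw [hwz, show i - (v : ℤ) + (j - i + v) = j by ring]
      exact hz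
  · right
    have hc' : i + D.r ≤ j := by linarith
    have hside : ∀ n ∈ D.N, n ≤ D.ν → j + (n - D.ν) ≠ z → j + (n - D.ν) ∈ zs u S := by
      intro n hn hn2 hnz
      have h6 := abs_le.1 (D.bound n hn)
      apply mem_zs_of
      · apply hi
        rw [Set.mem_Icc]
        constructor <;> linarith [h6.1, hj'.2]
      · apply huz _ _ _ hnz <;> linarith [h6.1, hj'.2]
    have hz : z - j + D.ν ∈ D.N ∧ z ≤ j := by
      by_contra hcon
      apply hjM
      apply mem_Mj_of D (D.N.filter (fun n => n ≤ D.ν)) (Finset.filter_subset _ _) D.card_le.ge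
      intro n hn
      rw [Finset.mem_filter] at hn
      apply hside n hn.1 hn.2
      intro h7
      apply hcon
      constructor
      · have : z - j + D.ν = n := by linarith
        rw [this]; exact hn.1
      · linarith [hn.2]
    obtain ⟨_, ⟨n, hn, hn1, hn2⟩⟩ := hG
    have hbn := abs_le.1 (D.bound n hn)
    set x : ℤ := j + (n - D.ν) with hx
    have hxj : j < x := by rw [hx]; linarith
    have hxS : x ∉ S := by
      intro hxS
      apply hjM
      apply mem_Mj_of D (insert n ((D.N.filter (fun n => n ≤ D.ν)).erase (z - j + D.ν)))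
      · intro n' hn'
        rw [Finset.mem_insert, Finset.mem_erase, Finset.mem_filter] at hn'
        rcases hn' with h | h
        · rw [h]; exact hn
        · exact h.2.1
      · rw [Finset.card_insert_of_notMem, Finset.card_erase_of_mem, D.card_le]
        · omega
        · rw [Finset.mem_filter]
          exact ⟨hz.1, by linarith [hz.2]⟩
        · rw [Finset.mem_erase, Finset.mem_filter]
          rintro ⟨_, _, h⟩
          linarith
      · intro n' hn'
        rw [Finset.mem_insert, Finset.mem_erase, Finset.mem_filter] at hn'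
        rcases hn' with h | h
        · rw [h]
          apply mem_zs_of hxS
          apply huz
          · linarith [hj'.1]
          · linarith [hbn.2, hj'.2]
          · intro h8
            linarith [hz.2]
        · apply hside n' h.2.1 h.2.2
          intro h9
          apply h.1
          linarith
    have hxi : i + K < x := by
      by_contra hcon
      apply hxS
      apply hi
      rw [Set.mem_Icc]
      constructor <;> linarith [not_lt.1 hcon, hj'.1]
    have hxT : x - K ∉ TT K S := by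
      intro h
      apply hxS
      apply h
      rw [Set.mem_Icc]
      have : (0 : ℤ) ≤ K := by positivity
      constructor <;> linarith
    -- the end of the run
    have hpos : 0 ≤ x - K - i - 1 := by linarith [Int.add_one_le_iff.2 hxi]
    have hex : ∃ v : ℕ, i + ((v : ℤ) + 1) ∉ TT K S := by
      refine ⟨(x - K - i - 1).toNat, ?_⟩
      rw [Int.toNat_of_nonneg hpos]
      rw [show i + (x - K - i - 1 + 1) = x - K by ring]
      exact hxT
    set v : ℕ := Nat.find hex with hv
    have hv1 : i + ((v : ℤ) + 1) ∉ TT K S := Nat.find_spec hex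
    have hv2 : (v : ℤ) ≤ x - K - i - 1 := by
      have h1 : v ≤ (x - K - i - 1).toNat := by
        apply Nat.find_min' hex
        rw [Int.toNat_of_nonneg hpos]
        rw [show i + (x - K - i - 1 + 1) = x - K by ring]
        exact hxT
      have h3 : (v : ℤ) ≤ ((x - K - i - 1).toNat : ℤ) := by exact_mod_cast h1
      rwa [Int.toNat_of_nonneg hpos] at h3
    have hv3 : ∀ t : ℕ, t ≤ v → i + (t : ℤ) ∈ TT K S := by
      intro t ht
      rcases Nat.eq_zero_or_pos t with h0 | h0
      · rw [h0, Nat.cast_zero, add_zero]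
        exact hi
      · have h1 := Nat.find_min hex (m := t - 1) (by omega)
        rw [not_not] at h1
        have h2 : ((t - 1 : ℕ) : ℤ) + 1 = t := by
          rw [Nat.cast_sub h0]
          push_cast
          ring
        rwa [h2] at h1
    have hwz : ((i + K + v - j).toNat : ℤ) = i + K + v - j :=
      Int.toNat_of_nonneg (by linarith [hj'.2, show (0 : ℤ) ≤ v by positivity])
    refine ⟨v, (i + K + v - j).toNat, ?_, ?_, ⟨hv3, hv1⟩, ?_⟩
    · have : (v : ℤ) ≤ ((i + K + v - j).toNat : ℤ) := by rw [hwz]; linarith [hj'.2]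
      exact_mod_cast this
    · have : ((i + K + v - j).toNat : ℤ) < k := by
        rw [hwz]
        rw [hx] at hv2
        linarith
      exact_mod_cast this
    · rw [hwz, show i + (K : ℤ) + v - (i + K + v - j) = j by ring]
      exact hz

/-- The loss caused by one hole. -/
theorem Phi_lossk (l L : ℕ) (o : ℤ) (S : Set ℤ) (u : ℤ → Fin 3) (z : ℤ)
    (hu : ∀ z' ∈ BB D.r K l L o, u z' = 2 → z' = z) :
    Phi K l L o S - Lak D K k l L o S z ≤ Phi K l L o (upM D K u S) := by
  have hr := D.one_le_r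
  have hK' : 2 * (D.r : ℤ) ≤ K := by exact_mod_cast hK
  rw [Phi, Lak, Phi, ← Finset.sum_sub_distrib]
  apply Finset.sum_le_sum
  intro i hi
  rw [Wn, Finset.mem_Icc] at hi
  rw [← mul_sub]
  apply mul_le_mul_of_nonneg_left _ (wt_nonneg i)
  have hu' : ∀ z' ∈ Set.Icc (i - D.r) (i + K + D.r), u z' = 2 → z' = z := by
    intro z' hz'
    rw [Set.mem_Icc] at hz'
    apply hu
    rw [BB, Finset.mem_Icc]
    constructor <;> linarith [hz'.1, hz'.2, hi.1, hi.2]
  have n1 := Lak_term_nonneg D K k S z i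
  have n3 := ind_nonneg (i ∈ TT K (upM D K u S))
  by_cases h1 : i ∈ TT K S
  · by_cases h2 : i ∈ TT K (upM D K u S)
    · rw [ind_pos h1, ind_pos h2]
      linarith
    · rw [ind_pos h1, ind_neg h2]
      have h3 : 1 ≤ ∑ v ∈ Finset.range k, ∑ w ∈ Finset.Ico v k,
          (ind (cL (TT K S) v i ∧ (z - (i - v + w) + D.ν ∈ D.N ∧ i - v + w ≤ z)) +
          ind (cR (TT K S) v i ∧ (z - (i + K + v - w) + D.ν ∈ D.N ∧ z ≤ i + K + v - w))) := by
        rcases TT_up_lossk hK hG h1 hu' h2 with ⟨v, w, hvw, hwk, h4, h5⟩ | ⟨v, w, hvw, hwk, h4, h5⟩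
        · have e1 := Finset.single_le_sum (f := fun v => ∑ w ∈ Finset.Ico v k,
            (ind (cL (TT K S) v i ∧ (z - (i - v + w) + D.ν ∈ D.N ∧ i - v + w ≤ z)) +
            ind (cR (TT K S) v i ∧ (z - (i + K + v - w) + D.ν ∈ D.N ∧ z ≤ i + K + v - w))))
            (fun v _ => Finset.sum_nonneg (fun w _ => add_nonneg (ind_nonneg _) (ind_nonneg _)))
            (Finset.mem_range.2 (lt_of_le_of_lt hvw hwk))
          have e2 := Finset.single_le_sum (f := fun w : ℕ =>
            (ind (cL (TT K S) v i ∧ (z - (i - v + w) + D.ν ∈ D.N ∧ i - v + w ≤ z)) +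
            ind (cR (TT K S) v i ∧ (z - (i + K + v - w) + D.ν ∈ D.N ∧ z ≤ i + K + v - w))))
            (fun w _ => add_nonneg (ind_nonneg _) (ind_nonneg _))
            (Finset.mem_Ico.2 ⟨hvw, hwk⟩)
          rw [ind_pos (show cL (TT K S) v i ∧ (z - (i - v + w) + D.ν ∈ D.N ∧ i - v + w ≤ z)
            from ⟨h4, h5⟩)] at e2
          have e3 := ind_nonneg (cR (TT K S) v i ∧
            (z - (i + K + v - w) + D.ν ∈ D.N ∧ z ≤ i + K + v - w))
          linarith
        · have e1 := Finset.single_le_sum (f := fun v => ∑ w ∈ Finset.Ico v k,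
            (ind (cL (TT K S) v i ∧ (z - (i - v + w) + D.ν ∈ D.N ∧ i - v + w ≤ z)) +
            ind (cR (TT K S) v i ∧ (z - (i + K + v - w) + D.ν ∈ D.N ∧ z ≤ i + K + v - w))))
            (fun v _ => Finset.sum_nonneg (fun w _ => add_nonneg (ind_nonneg _) (ind_nonneg _)))
            (Finset.mem_range.2 (lt_of_le_of_lt hvw hwk))
          have e2 := Finset.single_le_sum (f := fun w : ℕ =>
            (ind (cL (TT K S) v i ∧ (z - (i - v + w) + D.ν ∈ D.N ∧ i - v + w ≤ z)) +
            ind (cR (TT K S) v i ∧ (z - (i + K + v - w) + D.ν ∈ D.N ∧ z ≤ i + K + v - w))))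
            (fun w _ => add_nonneg (ind_nonneg _) (ind_nonneg _))
            (Finset.mem_Ico.2 ⟨hvw, hwk⟩)
          rw [ind_pos (show cR (TT K S) v i ∧ (z - (i + K + v - w) + D.ν ∈ D.N ∧
            z ≤ i + K + v - w) from ⟨h4, h5⟩)] at e2
          have e3 := ind_nonneg (cL (TT K S) v i ∧
            (z - (i - v + w) + D.ν ∈ D.N ∧ i - v + w ≤ z))
          linarith
      linarith
  · rw [ind_neg h1]
    linarith

end loss

end Pool.Agent.Lib.MP_8850da_pr
end

section

/-!
# The sum over the runs and the lower bound for the drift coefficient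
-/

set_option autoImplicit false

namespace Pool.Agent.Lib.MP_8850da_pr

variable {l L : ℕ} {o : ℤ}

theorem wt_out {i : ℤ} (h : i ∉ Finset.Icc o (o + 2 * l + L)) : wt l L o i = 0 := by
  rw [Finset.mem_Icc, not_and_or, not_le, not_le] at h
  rcases h with h | h
  · exact wt_left_zero h.le
  · exact wt_right_zero h.le

theorem summable_wt (a : ℤ) (g : ℤ → ℝ) : Summable (fun i => wt l L o (i + a) * g i) := by
  apply summable_of_ne_finset_zero (s := Finset.Icc (o - a) (o + 2 * l + L - a))
  intro i hi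
  rw [wt_out, zero_mul]
  intro h
  apply hi
  rw [Finset.mem_Icc] at h ⊢
  constructor <;> linarith [h.1, h.2]

/-- The slope. -/
noncomputable def dw (l L : ℕ) (o i : ℤ) : ℝ := wt l L o (i + 1) - wt l L o i

theorem summable_dw (a : ℤ) (g : ℤ → ℝ) : Summable (fun i => dw l L o (i + a) * g i) := by
  have h1 := (summable_wt (l := l) (L := L) (o := o) (a + 1) g).sub
    (summable_wt (l := l) (L := L) (o := o) a g)
  refine h1.congr ?_
  intro i
  rw [dw, sub_mul, ← add_assoc]

theorem tsum_shift (f : ℤ → ℝ) (a : ℤ) : ∑' i, f (i + a) = ∑' i, f i :=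
  (Equiv.addRight a).tsum_eq f

theorem sum_eq_tsum (g : ℤ → ℝ) :
    ∑ i ∈ Finset.Icc o (o + 2 * l + L), wt l L o i * g i = ∑' i, wt l L o i * g i := by
  rw [tsum_eq_sum (s := Finset.Icc o (o + 2 * (l : ℤ) + L))]
  intro i hi
  rw [wt_out hi, zero_mul]

/-- The indicator of `j, j - 1, …, j - v ∈ T`. -/
noncomputable def cc (T : Set ℤ) (v : ℕ) (j : ℤ) : ℝ := ind (∀ t : ℕ, t ≤ v → j - t ∈ T)

/-- The indicator of a left end of a run with more than `v` elements. -/
noncomputable def eL (T : Set ℤ) (v : ℕ) (i : ℤ) : ℝ :=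
  ind ((∀ t : ℕ, t ≤ v → i + t ∈ T) ∧ i - 1 ∉ T)

/-- The indicator of a right end of a run with more than `v` elements. -/
noncomputable def eR (T : Set ℤ) (v : ℕ) (i : ℤ) : ℝ :=
  ind ((∀ t : ℕ, t ≤ v → i - t ∈ T) ∧ i + 1 ∉ T)

theorem cc_nonneg (T : Set ℤ) (v : ℕ) (j : ℤ) : 0 ≤ cc T v j := ind_nonneg _

theorem cc_le (T : Set ℤ) {v t : ℕ} (h : t ≤ v) (j : ℤ) : cc T v j ≤ ind (j - t ∈ T) :=
  ind_mono (fun h1 => h1 t h)

theorem ind_diff {p q : Prop} (h : q → p) : ind (p ∧ ¬ q) = ind p - ind q := by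
  by_cases hq : q
  · rw [ind_neg (fun h1 => h1.2 hq), ind_pos hq, ind_pos (h hq), sub_self]
  · by_cases hp : p
    · rw [ind_pos ⟨hp, hq⟩, ind_pos hp, ind_neg hq, sub_zero]
    · rw [ind_neg (fun h1 => hp h1.1), ind_neg hp, ind_neg hq, sub_zero]

theorem ind_congr {p q : Prop} (h : p ↔ q) : ind p = ind q := by
  by_cases hq : q
  · rw [ind_pos hq, ind_pos (h.2 hq)]
  · rw [ind_neg hq, ind_neg (fun hp => hq (h.1 hp))]

theorem flip (T : Set ℤ) (v : ℕ) (i : ℤ) :
    (∀ t : ℕ, t ≤ v → i + t ∈ T) ↔ ∀ t : ℕ, t ≤ v → i + v - t ∈ T := by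
  constructor
  · intro h t ht
    have h1 := h (v - t) (Nat.sub_le _ _)
    rw [Nat.cast_sub ht] at h1
    rwa [show i + (v : ℤ) - t = i + (v - t) by ring]
  · intro h t ht
    have h1 := h (v - t) (Nat.sub_le _ _)
    rw [Nat.cast_sub ht] at h1
    rwa [show i + (v : ℤ) - (v - t) = i + t by ring] at h1

theorem succ_iff (T : Set ℤ) (v : ℕ) (j : ℤ) :
    (∀ t : ℕ, t ≤ v + 1 → j - t ∈ T) ↔ (∀ t : ℕ, t ≤ v → j - t ∈ T) ∧ j - (v + 1) ∈ T := by
  constructor
  · intro h
    refine ⟨fun t ht => h t (by omega), ?_⟩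
    have := h (v + 1) le_rfl
    rwa [Nat.cast_add, Nat.cast_one] at this
  · rintro ⟨h1, h2⟩ t ht
    rcases Nat.lt_or_ge t (v + 1) with h3 | h3
    · exact h1 t (by omega)
    · have : t = v + 1 := le_antisymm ht h3
      rw [this, Nat.cast_add, Nat.cast_one]
      exact h2

theorem succ_iff' (T : Set ℤ) (v : ℕ) (i : ℤ) :
    (∀ t : ℕ, t ≤ v + 1 → i + 1 - t ∈ T) ↔ (∀ t : ℕ, t ≤ v → i - t ∈ T) ∧ i + 1 ∈ T := by
  constructor
  · intro h
    refine ⟨fun t ht => ?_, ?_⟩
    · have := h (t + 1) (by omega)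
      rwa [Nat.cast_add, Nat.cast_one, show i + 1 - ((t : ℤ) + 1) = i - t by ring] at this
    · have := h 0 (by omega)
      rwa [Nat.cast_zero, sub_zero] at this
  · rintro ⟨h1, h2⟩ t ht
    rcases Nat.eq_zero_or_pos t with h0 | h0
    · rw [h0, Nat.cast_zero, sub_zero]
      exact h2
    · have := h1 (t - 1) (by omega)
      rw [Nat.cast_sub h0] at this
      rwa [show i - ((t : ℤ) - ((1 : ℕ) : ℤ)) = i + 1 - t by push_cast; ring] at this

theorem eL_eq (T : Set ℤ) (v : ℕ) (i : ℤ) : eL T v i = cc T v (i + v) - cc T (v + 1) (i + v) := by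
  rw [eL, cc, cc, ← ind_diff (fun h t ht => h t (by omega))]
  apply ind_congr
  rw [flip, succ_iff, show i + (v : ℤ) - (v + 1) = i - 1 by ring]
  constructor
  · rintro ⟨h1, h2⟩
    exact ⟨h1, fun h3 => h2 h3.2⟩
  · rintro ⟨h1, h2⟩
    exact ⟨h1, fun h3 => h2 ⟨h1, h3⟩⟩

theorem eR_eq (T : Set ℤ) (v : ℕ) (i : ℤ) : eR T v i = cc T v i - cc T (v + 1) (i + 1) := by
  rw [eR, cc, cc, ← ind_diff (fun h => ((succ_iff' T v i).1 h).1)]
  apply ind_congr
  rw [succ_iff']
  constructor
  · rintro ⟨h1, h2⟩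
    exact ⟨h1, fun h3 => h2 h3.2⟩
  · rintro ⟨h1, h2⟩
    exact ⟨h1, fun h3 => h2 ⟨h1, h3⟩⟩

theorem cL_shift (T : Set ℤ) (v : ℕ) (i : ℤ) : ind (cL T v (i + v)) = eL T v i := by
  rw [eL]
  apply ind_congr
  rw [cL, flip, show i + (v : ℤ) - (v + 1) = i - 1 by ring]

theorem cR_shift (T : Set ℤ) (v : ℕ) (i : ℤ) : ind (cR T v (i + -v)) = eR T v i := by
  rw [eR]
  apply ind_congr
  rw [cR, flip, show i + -(v : ℤ) + (v + 1) = i + 1 by ring,
    show i + -(v : ℤ) + v = i by ring]

/-- The bound for one position in the run. -/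
theorem slope_sum (T : Set ℤ) (hl : 1 ≤ l) (hL : 1 ≤ L) {v t : ℕ} (ht : t < v) :
    ∑' i, dw l L o (i + t) * eL T v i - ∑' i, dw l L o (i + (t - v)) * eR T v i ≤
      1 / (l : ℝ) * (ind (o + l ∈ T) + ind (o + l + L ∈ T)) := by
  have hs : 0 ≤ 1 / (l : ℝ) := by positivity
  have e1 : ∑' i, dw l L o (i + t) * eL T v i =
      ∑' i, dw l L o (i + (t - v)) * cc T v i - ∑' i, dw l L o (i + (t - v)) * cc T (v + 1) i := by
    have h1 : ∀ i, dw l L o (i + t) * eL T v i =
        (fun j => dw l L o (j + (t - v)) * cc T v j - dw l L o (j + (t - v)) * cc T (v + 1) j)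
          (i + v) := by
      intro i
      change _ = dw l L o (i + v + (t - v)) * cc T v (i + v) -
        dw l L o (i + v + (t - v)) * cc T (v + 1) (i + v)
      rw [eL_eq, show i + (v : ℤ) + (t - v) = i + t by ring, mul_sub]
    simp only [h1]
    rw [tsum_shift (fun j => dw l L o (j + (t - v)) * cc T v j -
      dw l L o (j + (t - v)) * cc T (v + 1) j)]
    exact (summable_dw _ _).tsum_sub (summable_dw _ _)
  have e2 : ∑' i, dw l L o (i + (t - v)) * eR T v i =
      ∑' i, dw l L o (i + (t - v)) * cc T v i -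
        ∑' i, dw l L o (i + (t - v - 1)) * cc T (v + 1) i := by
    have h1 : ∀ i, dw l L o (i + (t - v)) * eR T v i =
        dw l L o (i + (t - v)) * cc T v i -
        (fun j => dw l L o (j + (t - v - 1)) * cc T (v + 1) j) (i + 1) := by
      intro i
      change _ = dw l L o (i + (t - v)) * cc T v i -
        dw l L o (i + 1 + (t - v - 1)) * cc T (v + 1) (i + 1)
      rw [eR_eq, show i + 1 + ((t : ℤ) - v - 1) = i + (t - v) by ring, mul_sub]
    simp only [h1]
    rw [(summable_dw _ _).tsum_sub, tsum_shift (fun j => dw l L o (j + (t - v - 1)) *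
      cc T (v + 1) j)]
    have h2 := summable_dw (l := l) (L := L) (o := o) ((t : ℤ) - v) (fun i => cc T (v + 1) (i + 1))
    refine h2.congr ?_
    intro i
    rw [show i + 1 + ((t : ℤ) - v - 1) = i + (t - v) by ring]
  have e3 : ∑' i, dw l L o (i + t) * eL T v i - ∑' i, dw l L o (i + (t - v)) * eR T v i =
      ∑' i, (dw l L o (i + (t - v - 1)) * cc T (v + 1) i -
        dw l L o (i + (t - v)) * cc T (v + 1) i) := by
    rw [e1, e2, (summable_dw _ _).tsum_sub (summable_dw _ _)]
    ring
  rw [e3]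
  have hsum : Summable (fun i : ℤ => (1 / (l : ℝ) * ((if i = o + l + (v - t) then 1 else 0) +
      (if i = o + l + L + (v - t) then 1 else 0))) * cc T (v + 1) i) := by
    apply summable_of_ne_finset_zero (s := {o + l + (v - t), o + l + L + (v - t)})
    intro i hi
    rw [Finset.mem_insert, Finset.mem_singleton, not_or] at hi
    rw [if_neg hi.1, if_neg hi.2, add_zero, mul_zero, zero_mul]
  have h4 : ∀ i : ℤ, dw l L o (i + (t - v - 1)) * cc T (v + 1) i -
        dw l L o (i + (t - v)) * cc T (v + 1) i ≤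
      (1 / (l : ℝ) * ((if i = o + l + (v - t) then 1 else 0) +
      (if i = o + l + L + (v - t) then 1 else 0))) * cc T (v + 1) i := by
    intro i
    rw [← sub_mul]
    apply mul_le_mul_of_nonneg_right _ (cc_nonneg _ _ _)
    have h5 := wt_second (o := o) hl hL (i + (t - v))
    rw [dw, dw, show i + ((t : ℤ) - v - 1) + 1 = i + (t - v) by ring,
      show i + ((t : ℤ) - v - 1) = i + (t - v) - 1 by ring]
    have h6 : (if i + ((t : ℤ) - v) = o + l then (1 : ℝ) else 0) =
        if i = o + l + (v - t) then 1 else 0 := by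
      by_cases h : i = o + l + (v - t)
      · rw [if_pos h, if_pos (by rw [h]; ring)]
      · rw [if_neg h, if_neg (fun h' => h (by linarith))]
    have h7 : (if i + ((t : ℤ) - v) = o + l + L then (1 : ℝ) else 0) =
        if i = o + l + L + (v - t) then 1 else 0 := by
      by_cases h : i = o + l + L + (v - t)
      · rw [if_pos h, if_pos (by rw [h]; ring)]
      · rw [if_neg h, if_neg (fun h' => h (by linarith))]
    rw [h6, h7] at h5
    linarith
  have h5 := ((summable_dw _ _).sub (summable_dw _ _)).tsum_le_tsum h4 hsum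
  refine h5.trans ?_
  have h6 : ∀ i : ℤ, (1 / (l : ℝ) * ((if i = o + l + (v - t) then 1 else 0) +
      (if i = o + l + L + (v - t) then 1 else 0))) * cc T (v + 1) i =
      (if i = o + l + (v - t) then 1 / (l : ℝ) * cc T (v + 1) (o + l + (v - t)) else 0) +
      (if i = o + l + L + (v - t) then 1 / (l : ℝ) * cc T (v + 1) (o + l + L + (v - t)) else 0) := by
    intro i
    by_cases h7 : i = o + l + (v - t)
    · by_cases h8 : i = o + l + L + (v - t)
      · rw [if_pos h7, if_pos h7, if_pos h8, if_pos h8, ← h7, ← h8]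
        ring
      · rw [if_pos h7, if_pos h7, if_neg h8, if_neg h8, ← h7]
        ring
    · by_cases h8 : i = o + l + L + (v - t)
      · rw [if_neg h7, if_neg h7, if_pos h8, if_pos h8, ← h8]
        ring
      · rw [if_neg h7, if_neg h7, if_neg h8, if_neg h8]
        ring
  simp only [h6]
  have s1 : Summable (fun i : ℤ => if i = o + l + (v - t) then
      1 / (l : ℝ) * cc T (v + 1) (o + l + (v - t)) else 0) := by
    apply summable_of_ne_finset_zero (s := {o + l + ((v : ℤ) - t)})
    intro i hi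
    rw [Finset.mem_singleton] at hi
    exact if_neg hi
  have s2 : Summable (fun i : ℤ => if i = o + l + L + (v - t) then
      1 / (l : ℝ) * cc T (v + 1) (o + l + L + (v - t)) else 0) := by
    apply summable_of_ne_finset_zero (s := {o + l + L + ((v : ℤ) - t)})
    intro i hi
    rw [Finset.mem_singleton] at hi
    exact if_neg hi
  rw [s1.tsum_add s2, tsum_ite_eq, tsum_ite_eq, ← mul_add]
  apply mul_le_mul_of_nonneg_left _ hs
  have c1 := cc_le T (v := v + 1) (t := v - t) (by omega) (o + l + (v - t))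
  have c2 := cc_le T (v := v + 1) (t := v - t) (by omega) (o + l + L + (v - t))
  rw [Nat.cast_sub ht.le] at c1 c2
  rw [show o + (l : ℤ) + (v - t) - (v - t) = o + l by ring] at c1
  rw [show o + (l : ℤ) + L + (v - t) - (v - t) = o + l + L by ring] at c2
  exact add_le_add c1 c2

/-- The sum over the runs is comparable with the inner weights. -/
theorem Sv_le (T : Set ℤ) (hl : 1 ≤ l) (hL : 1 ≤ L) (v : ℕ) :
    Sv l L o T v ≤ II l L o T +
      v * (1 / (l : ℝ) * (ind (o + l ∈ T) + ind (o + l + L ∈ T))) := by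
  have hg : ∀ (a : ℤ) (g : ℤ → ℝ), Summable (fun i => wt l L o (i + a) * g i) :=
    fun a g => summable_wt a g
  have hg0 : ∀ g : ℤ → ℝ, Summable (fun i => wt l L o i * g i) := by
    intro g
    have := hg 0 g
    simpa using this
  -- the two parts of `Sv`
  have h1 : Sv l L o T v = ∑' i, wt l L o (i + v) * eL T v i +
      ∑' i, wt l L o (i + -v) * eR T v i := by
    rw [Sv, sum_eq_tsum]
    simp only [mul_add]
    rw [(hg0 _).tsum_add (hg0 _)]
    congr 1
    · rw [← tsum_shift (fun i => wt l L o i * ind (cL T v i)) v]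
      apply tsum_congr
      intro i
      rw [cL_shift]
    · rw [← tsum_shift (fun i => wt l L o i * ind (cR T v i)) (-v)]
      apply tsum_congr
      intro i
      rw [cR_shift]
  have h2 : ∑' i, wt l L o i * eL T v i + ∑' i, wt l L o i * eR T v i ≤ II l L o T := by
    rw [II, sum_eq_tsum, ← (hg0 _).tsum_add (hg0 _)]
    apply ((hg0 _).add (hg0 _)).tsum_le_tsum _ (hg0 _)
    intro i
    rw [← mul_add]
    apply mul_le_mul_of_nonneg_left _ (wt_nonneg i)
    apply add_le_add
    · apply ind_mono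
      rintro ⟨h3, h4⟩
      have := h3 0 (Nat.zero_le _)
      rw [Nat.cast_zero, add_zero] at this
      exact ⟨this, h4⟩
    · apply ind_mono
      rintro ⟨h3, h4⟩
      have := h3 0 (Nat.zero_le _)
      rw [Nat.cast_zero, sub_zero] at this
      exact ⟨this, h4⟩
  -- the differences
  have h3 : ∑' i, wt l L o (i + v) * eL T v i - ∑' i, wt l L o i * eL T v i =
      ∑ t ∈ Finset.range v, ∑' i, dw l L o (i + t) * eL T v i := by
    rw [← (hg _ _).tsum_sub (hg0 _)]
    have hsw := Summable.tsum_finsetSum (s := Finset.range v)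
      (f := fun (t : ℕ) (i : ℤ) => dw l L o (i + t) * eL T v i)
      (fun t _ => summable_dw (t : ℤ) _)
    rw [← hsw]
    apply tsum_congr
    intro i
    rw [← sub_mul, ← Finset.sum_mul]
    congr 1
    have h4 := Finset.sum_range_sub (fun t : ℕ => wt l L o (i + t)) v
    rw [Nat.cast_zero, add_zero] at h4
    rw [← h4]
    apply Finset.sum_congr rfl
    intro t _
    rw [dw]
    push_cast
    rw [← add_assoc]
  have h4 : ∑' i, wt l L o i * eR T v i - ∑' i, wt l L o (i + -v) * eR T v i =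
      ∑ t ∈ Finset.range v, ∑' i, dw l L o (i + (t - v)) * eR T v i := by
    rw [← (hg0 _).tsum_sub (hg _ _)]
    have hsw := Summable.tsum_finsetSum (s := Finset.range v)
      (f := fun (t : ℕ) (i : ℤ) => dw l L o (i + (t - v)) * eR T v i)
      (fun t _ => summable_dw ((t : ℤ) - v) _)
    rw [← hsw]
    apply tsum_congr
    intro i
    rw [← sub_mul, ← Finset.sum_mul]
    congr 1
    have h4 := Finset.sum_range_sub (fun t : ℕ => wt l L o (i + (t - v))) v
    rw [sub_self, add_zero, Nat.cast_zero, zero_sub] at h4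
    rw [← h4]
    apply Finset.sum_congr rfl
    intro t _
    rw [dw]
    push_cast
    rw [show i + ((t : ℤ) - v) + 1 = i + (t + 1 - v) by ring]
  have h5 : ∑ t ∈ Finset.range v, ∑' i, dw l L o (i + t) * eL T v i -
      ∑ t ∈ Finset.range v, ∑' i, dw l L o (i + (t - v)) * eR T v i ≤
      v * (1 / (l : ℝ) * (ind (o + l ∈ T) + ind (o + l + L ∈ T))) := by
    rw [← Finset.sum_sub_distrib]
    have h6 := Finset.sum_le_sum (fun t (ht : t ∈ Finset.range v) =>
      slope_sum (l := l) (L := L) (o := o) T hl hL (Finset.mem_range.1 ht))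
    refine h6.trans (le_of_eq ?_)
    rw [Finset.sum_const, Finset.card_range, nsmul_eq_mul]
  rw [h1]
  linarith

/-- The number of lost elements. -/
theorem sum_k (k : ℕ) : ∑ v ∈ Finset.range k, ((k : ℝ) - v) = k * (k + 1) / 2 := by
  induction k with
  | zero => simp
  | succ k ih =>
    rw [Finset.sum_range_succ]
    have : ∑ v ∈ Finset.range k, (((k + 1 : ℕ) : ℝ) - v) =
        ∑ v ∈ Finset.range k, ((k : ℝ) - v) + k := by
      have h1 : ∀ v ∈ Finset.range k, (((k + 1 : ℕ) : ℝ) - v) = ((k : ℝ) - v) + 1 := by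
        intro v _
        push_cast
        ring
      rw [Finset.sum_congr rfl h1, Finset.sum_add_distrib, Finset.sum_const, Finset.card_range,
        nsmul_eq_mul, mul_one]
    rw [this, ih]
    push_cast
    ring

/-- The total loss. -/
theorem total_loss (T : Set ℤ) (hl : 1 ≤ l) (hL : 1 ≤ L) (k : ℕ) :
    ∑ v ∈ Finset.range k, ((k : ℝ) - v) * Sv l L o T v ≤
      k * (k + 1) / 2 * (II l L o T +
        k * (1 / (l : ℝ) * (ind (o + l ∈ T) + ind (o + l + L ∈ T)))) := by
  rw [← sum_k, Finset.sum_mul]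
  apply Finset.sum_le_sum
  intro v hv
  rw [Finset.mem_range] at hv
  have hv' : (v : ℝ) ≤ k := by exact_mod_cast hv.le
  apply mul_le_mul_of_nonneg_left _ (by linarith)
  refine (Sv_le T hl hL v).trans ?_
  have h1 : 0 ≤ 1 / (l : ℝ) * (ind (o + l ∈ T) + ind (o + l + L ∈ T)) :=
    mul_nonneg (by positivity) (add_nonneg (ind_nonneg _) (ind_nonneg _))
  have := mul_le_mul_of_nonneg_right hv' h1
  linarith

/-- The lower bound of the drift coefficient for windows which are neither empty nor covered. -/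
theorem J_gek (T : Set ℤ) (hl : 1 ≤ l) (hL : 1 ≤ L) {κ : ℝ} (hκ0 : 0 ≤ κ) {k : ℕ} (hk : 1 ≤ k)
    (hs : (2 * (k : ℝ) + 2) * (1 / (l : ℝ)) ≤ 1 - κ) {i₀ : ℤ} (hi₀ : i₀ ∈ T) (h1 : o < i₀)
    (h2 : i₀ < o + 2 * l + L) (hflat : ∃ i, o + l ≤ i ∧ i ≤ o + l + L ∧ i ∉ T) :
    (1 - κ) * (1 / (l : ℝ)) ≤ OO l L o T - κ * (II l L o T +
      k * (1 / (l : ℝ) * (ind (o + l ∈ T) + ind (o + l + L ∈ T)))) := by
  have hl0 : (0 : ℝ) < l := by exact_mod_cast hl
  have hs0 : 0 < 1 / (l : ℝ) := by positivity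
  have hk' : (1 : ℝ) ≤ k := by exact_mod_cast hk
  have hs4 : 4 * (1 / (l : ℝ)) ≤ 1 - κ := by
    have := mul_le_mul_of_nonneg_right (show 4 ≤ 2 * (k : ℝ) + 2 by linarith) hs0.le
    linarith
  have hκ : 0 < 1 - κ := by linarith
  obtain ⟨x, hx1, hx2, hxT⟩ := hflat
  have hd := OO_sub_II (l := l) (L := L) (o := o) T hl hL
  have hsplit := II_split (l := l) (L := L) (o := o) T
  have hIL0 := IL_nonneg (l := l) (L := L) (o := o) T
  have hIR0 := IR_nonneg (l := l) (L := L) (o := o) T
  -- the first shoulder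
  have hB : o + l ∈ T → 1 ≤ IR l L o T := by
    intro hT
    by_contra hcon
    have hall : ∀ j, o + l ≤ j → j ≤ o + l + L → j ∈ T := by
      intro j hj
      induction j, hj using Int.leInduction with
      | base => intro _; exact hT
      | succ j hj ih =>
        intro hj2
        have h3 := ih (by linarith)
        by_contra h4
        apply hcon
        have h5 := IR_ge (l := l) (L := L) (o := o) T h3 h4 (by linarith) (by linarith)
        rw [wt_flat hl hj (by linarith)] at h5
        exact h5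
    exact hxT (hall x hx1 hx2)
  have hC : o + l + L ∈ T → 1 ≤ IL l L o T := by
    intro hT
    by_contra hcon
    have hall : ∀ j, j ≤ o + l + L → o + l ≤ j → j ∈ T := by
      intro j hj
      induction j, hj using Int.leInductionDown with
      | base => intro _; exact hT
      | pred j hj ih =>
        intro hj2
        have h3 := ih (by linarith)
        by_contra h4
        apply hcon
        have h5 := IL_ge (l := l) (L := L) (o := o) T h3 h4 (by linarith) (by linarith)
        rw [wt_flat hl (by linarith) hj] at h5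
        exact h5
    exact hxT (hall x hx2 hx1)
  have hA : 1 / (l : ℝ) ≤ IL l L o T + IR l L o T := by
    by_contra hcon
    push Not at hcon
    have hup : ∀ j, i₀ ≤ j → j < o + 2 * l + L → j ∈ T := by
      intro j hj
      induction j, hj using Int.leInduction with
      | base => intro _; exact hi₀
      | succ j hj ih =>
        intro hj2
        have h3 := ih (by linarith)
        by_contra h4
        have h5 := IR_ge (l := l) (L := L) (o := o) T h3 h4 (by linarith) (by linarith)
        have h6 := wt_inside (l := l) (L := L) (o := o) hl (i := j) (by linarith) (by linarith)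
        linarith
    have hdown : ∀ j, j ≤ i₀ → o < j → j ∈ T := by
      intro j hj
      induction j, hj using Int.leInductionDown with
      | base => intro _; exact hi₀
      | pred j hj ih =>
        intro hj2
        have h3 := ih (by linarith)
        by_contra h4
        have h5 := IL_ge (l := l) (L := L) (o := o) T h3 h4 (by linarith) (by linarith)
        have h6 := wt_inside (l := l) (L := L) (o := o) hl (i := j) (by linarith) (by linarith)
        linarith
    have hl1 : (1 : ℤ) ≤ l := by exact_mod_cast hl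
    rcases le_total i₀ x with h3 | h3
    · exact hxT (hup x h3 (by linarith))
    · exact hxT (hdown x h3 (by linarith))
  have e : OO l L o T - κ * (II l L o T +
      k * (1 / (l : ℝ) * (ind (o + l ∈ T) + ind (o + l + L ∈ T)))) =
      (1 - κ) * (IL l L o T + IR l L o T) + (OO l L o T - II l L o T) -
        κ * (k * (1 / (l : ℝ))) * (ind (o + l ∈ T) + ind (o + l + L ∈ T)) := by
    rw [hsplit]
    ring
  rw [e]
  have hks : κ * (k * (1 / (l : ℝ))) ≤ k * (1 / (l : ℝ)) :=
    mul_le_of_le_one_left (by positivity) (by linarith)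
  have hks0 : 0 ≤ κ * (k * (1 / (l : ℝ))) := by positivity
  have hprod : (1 - κ) * (1 / (l : ℝ)) ≤ 1 * (1 / (l : ℝ)) :=
    mul_le_mul_of_nonneg_right (by linarith) hs0.le
  by_cases hT1 : o + l ∈ T <;> by_cases hT2 : o + l + L ∈ T
  · rw [ind_pos hT1, ind_pos hT2] at hd ⊢
    have h3 := hB hT1
    have h4 := hC hT2
    have h5 := mul_le_mul_of_nonneg_left (show 2 ≤ IL l L o T + IR l L o T by linarith) hκ.le
    linarith
  · rw [ind_pos hT1, ind_neg hT2] at hd ⊢
    have h3 := hB hT1
    have h5 := mul_le_mul_of_nonneg_left (show 1 ≤ IL l L o T + IR l L o T by linarith) hκ.le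
    linarith
  · rw [ind_neg hT1, ind_pos hT2] at hd ⊢
    have h4 := hC hT2
    have h5 := mul_le_mul_of_nonneg_left (show 1 ≤ IL l L o T + IR l L o T by linarith) hκ.le
    linarith
  · rw [ind_neg hT1, ind_neg hT2] at hd ⊢
    have h5 := mul_le_mul_of_nonneg_left hA hκ.le
    linarith

/-- The lower bound in general. -/
theorem J_gek' (T : Set ℤ) (hl : 1 ≤ l) (hL : 1 ≤ L) {κ : ℝ} (hκ1 : κ ≤ 1)
    (k : ℕ) :
    -((2 * (k : ℝ) + 2) * (1 / (l : ℝ))) ≤ OO l L o T - κ * (II l L o T +
      k * (1 / (l : ℝ) * (ind (o + l ∈ T) + ind (o + l + L ∈ T)))) := by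
  have hd := OO_sub_II (l := l) (L := L) (o := o) T hl hL
  have h0 := II_nonneg (l := l) (L := L) (o := o) T
  have hs : 0 ≤ 1 / (l : ℝ) := by positivity
  have e : OO l L o T - κ * (II l L o T +
      k * (1 / (l : ℝ) * (ind (o + l ∈ T) + ind (o + l + L ∈ T)))) =
      (1 - κ) * II l L o T + (OO l L o T - II l L o T) -
        κ * (k * (1 / (l : ℝ))) * (ind (o + l ∈ T) + ind (o + l + L ∈ T)) := by ring
  rw [e]
  have h1 : 0 ≤ (1 - κ) * II l L o T := mul_nonneg (by linarith) h0
  have h2 := ind_le_one (o + l ∈ T)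
  have h3 := ind_le_one (o + l + L ∈ T)
  have h2' := ind_nonneg (o + l ∈ T)
  have h3' := ind_nonneg (o + l + L ∈ T)
  have hks : κ * (k * (1 / (l : ℝ))) ≤ k * (1 / (l : ℝ)) :=
    mul_le_of_le_one_left (by positivity) hκ1
  have h4 : κ * (k * (1 / (l : ℝ))) * (ind (o + l ∈ T) + ind (o + l + L ∈ T)) ≤
      k * (1 / (l : ℝ)) * 2 := mul_le_mul hks (by linarith) (by linarith) (by positivity)
  have h5 : 1 / (l : ℝ) * (ind (o + l ∈ T) + ind (o + l + L ∈ T)) ≤ 1 / (l : ℝ) * 2 :=
    mul_le_mul_of_nonneg_left (by linarith) hs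
  linarith

end Pool.Agent.Lib.MP_8850da_pr
end
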