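import Pool.Agent.Lib.MP_8850da_pr.C1
import Pool.Agent.Lib.MP_8850da_pr.W3
import Pool.Agent.Lib.MP_8850da_pr.W5

section

section

/-!
# The action on measures and the Feller property
-/

set_option autoImplicit false

open MeasureTheory

namespace Pool.Agent.Lib.MP_8850da_pr

theorem continuous_of_dep {β : Type*} [TopologicalSpace β] (B : Finset ℤ) (g : Config → β)
    (h : ∀ u v : Config, (∀ i ∈ B, u i = v i) → g u = g v) : Continuous g := by
  classical
  let r : Config → (B → Bool) := fun u i => u i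
  have hr : Continuous r := continuous_pi (fun i => continuous_apply _)
  let e : (B → Bool) → Config := fun v i => if hi : i ∈ B then v ⟨i, hi⟩ else default
  have hg : g = (g ∘ e) ∘ r := by
    funext u
    apply h
    intro i hi
    change u i = if hi : i ∈ B then u i else default
    rw [dif_pos hi]
  rw [hg]
  exact (continuous_of_discreteTopology).comp hr

variable {E : Type} [MeasurableSpace E]

theorem continuous_step (G : LMap E) (u : ℤ → E) : Continuous (fun x => G.step x u) := by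
  apply continuous_pi
  intro i
  apply continuous_of_dep (Finset.Icc (i - G.R) (i + G.R))
  intro x y h
  change G.loc (sh x i) (u i) = G.loc (sh y i) (u i)
  rw [G.loc_congr (sh x i) (sh y i)]
  intro j hj
  apply h
  rw [abs_le] at hj
  rw [Finset.mem_Icc]
  constructor <;> linarith [hj.1, hj.2]

theorem measurable_loc (G : LMap E) : Measurable (fun q : Config × E => G.loc q.1 q.2) := by
  classical
  let B : Finset ℤ := Finset.Icc (-(G.R : ℤ)) G.R
  let r : Config × E → (B → Bool) × E := fun q => (fun i => q.1 i, q.2)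
  have hr : Measurable r := by
    apply Measurable.prodMk
    · exact measurable_pi_lambda _ (fun i => (measurable_pi_apply (i : ℤ)).comp measurable_fst)
    · exact measurable_snd
  let e : (B → Bool) → Config := fun v i => if hi : i ∈ B then v ⟨i, hi⟩ else default
  have hg : (fun q : Config × E => G.loc q.1 q.2) =
      (fun q : (B → Bool) × E => G.loc (e q.1) q.2) ∘ r := by
    funext q
    change G.loc q.1 q.2 = G.loc (e (fun i => q.1 i)) q.2
    rw [G.loc_congr q.1 (e (fun i => q.1 i))]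
    intro j hj
    change q.1 j = if hi : j ∈ B then q.1 j else default
    rw [dif_pos]
    rw [abs_le] at hj
    exact Finset.mem_Icc.2 hj
  rw [hg]
  refine Measurable.comp ?_ hr
  exact measurable_from_prod_countable_right (fun v => G.meas (e v))

theorem measurable_step₂ (G : LMap E) :
    Measurable (fun q : Config × (ℤ → E) => G.step q.1 q.2) := by
  apply measurable_pi_lambda
  intro i
  have h1 : Measurable (fun q : Config × (ℤ → E) => (sh q.1 i, q.2 i)) := by
    apply Measurable.prodMk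
    · exact measurable_pi_lambda _ (fun j => (measurable_pi_apply (i + j)).comp measurable_fst)
    · exact (measurable_pi_apply i).comp measurable_snd
  exact (measurable_loc G).comp h1

variable (Φ : PCA) (G : LMap E) (ρ : Measure E) [IsProbabilityMeasure ρ]

/-- `G` with noise law `ρ` realises the probabilistic cellular automaton `Φ`. -/
def Realises : Prop := ∀ x : Config, ρ.map (G.loc x) = (Φ.rule (Φ.view x 0)).toMeasure

variable {Φ G ρ}

theorem next_eq (hG : Realises Φ G ρ) (x : Config) : Φ.next x = (nz ρ).map (G.step x) := by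
  have h1 := Measure.infinitePi_map_pi (μ := fun _ : ℤ => ρ) (f := fun i => G.loc (sh x i))
    (fun i => G.meas (sh x i))
  have h2 : (fun i : ℤ => (Φ.rule (Φ.view x i)).toMeasure) = fun i => ρ.map (G.loc (sh x i)) := by
    funext i
    rw [hG (sh x i)]
    congr 2
    funext n
    change x (i + n) = x (i + (0 + n))
    rw [zero_add]
  rw [PCA.next, h2, ← h1]
  rfl

theorem measurable_next (hG : Realises Φ G ρ) : Measurable Φ.next := by
  apply Measure.measurable_of_measurable_coe
  intro s hs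
  have h1 : (fun x => Φ.next x s) =
      fun x => nz ρ (Prod.mk x ⁻¹' ((fun q : Config × (ℤ → E) => G.step q.1 q.2) ⁻¹' s)) := by
    funext x
    rw [next_eq hG, Measure.map_apply (measurable_step G x) hs]
    rfl
  rw [h1]
  exact measurable_measure_prodMk_left (measurable_step₂ G hs)

theorem act_eq (hG : Realises Φ G ρ) (μ : Measure Config) [IsProbabilityMeasure μ] :
    Φ.act μ = (μ.prod (nz ρ)).map (fun q => G.step q.1 q.2) := by
  ext s hs
  rw [PCA.act, Measure.bind_apply hs (measurable_next hG).aemeasurable,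
    Measure.map_apply (measurable_step₂ G) hs, Measure.prod_apply (measurable_step₂ G hs)]
  apply lintegral_congr
  intro x
  rw [next_eq hG, Measure.map_apply (measurable_step G x) hs]
  rfl

theorem act_prob (hG : Realises Φ G ρ) (μ : Measure Config) [IsProbabilityMeasure μ] :
    IsProbabilityMeasure (Φ.act μ) := by
  rw [act_eq hG]
  exact Measure.isProbabilityMeasure_map (measurable_step₂ G).aemeasurable

theorem bdd_of_cont (f : C(Config, ℝ)) (x : Config) : ‖f x‖ ≤ ‖f‖ :=
  ContinuousMap.norm_coe_le_norm f x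

theorem int_cont (f : C(Config, ℝ)) (μ : Measure Config) [IsProbabilityMeasure μ] :
    Integrable (fun x => f x) μ :=
  Integrable.of_bound f.continuous.measurable.aestronglyMeasurable ‖f‖
    (Filter.Eventually.of_forall (bdd_of_cont f))

theorem U_cont (f : C(Config, ℝ)) : Continuous (G.U ρ f) := by
  apply continuous_of_dominated (bound := fun _ => ‖f‖)
  · intro x
    exact (f.continuous.measurable.comp (measurable_step G x)).aestronglyMeasurable
  · intro x
    exact Filter.Eventually.of_forall (fun u => bdd_of_cont f _)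
  · exact integrable_const _
  · exact Filter.Eventually.of_forall (fun u => f.continuous.comp (continuous_step G u))

variable (G ρ) in
/-- The transfer operator on continuous functions. -/
noncomputable def Uc (f : C(Config, ℝ)) : C(Config, ℝ) := ⟨G.U ρ f, U_cont f⟩

theorem integral_act (hG : Realises Φ G ρ) (μ : Measure Config) [IsProbabilityMeasure μ]
    (f : C(Config, ℝ)) : ∫ x, f x ∂(Φ.act μ) = ∫ x, (Uc G ρ f) x ∂μ := by
  rw [act_eq hG, integral_map (measurable_step₂ G).aemeasurable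
    f.continuous.measurable.aestronglyMeasurable, integral_prod]
  · rfl
  · exact Integrable.of_bound
      (f.continuous.measurable.comp (measurable_step₂ G)).aestronglyMeasurable ‖f‖
      (Filter.Eventually.of_forall (fun q => bdd_of_cont f _))

theorem act_iterate_prob (hG : Realises Φ G ρ) (μ : Measure Config) [IsProbabilityMeasure μ]
    (t : ℕ) : IsProbabilityMeasure (Φ.act^[t] μ) := by
  induction t with
  | zero => assumption
  | succ t ih =>
    rw [Function.iterate_succ_apply']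
    exact act_prob hG _

theorem integral_act_iterate (hG : Realises Φ G ρ) (μ : Measure Config) [IsProbabilityMeasure μ]
    (t : ℕ) (f : C(Config, ℝ)) :
    ∫ x, f x ∂(Φ.act^[t] μ) = ∫ x, ((Uc G ρ)^[t] f) x ∂μ := by
  induction t generalizing f with
  | zero => rfl
  | succ t ih =>
    have := act_iterate_prob hG μ t
    rw [Function.iterate_succ_apply', integral_act hG, ih, Function.iterate_succ_apply]

end Pool.Agent.Lib.MP_8850da_pr
end

section

/-!
# Ergodicity from the decay of `V`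
-/

set_option autoImplicit false

open MeasureTheory Filter

namespace Pool.Agent.Lib.MP_8850da_pr

/-- A continuous function depends up to `ε` on finitely many coordinates. -/
theorem exists_dep (f : C(Config, ℝ)) {ε : ℝ} (hε : 0 < ε) :
    ∃ B : Finset ℤ, ∀ x y : Config, (∀ i ∈ B, x i = y i) → |f x - f y| ≤ ε := by
  classical
  have h1 : ∀ x : Config, ∃ I : Finset ℤ, ∀ y : Config, (∀ i ∈ I, y i = x i) →
      |f y - f x| < ε / 2 := by
    intro x
    have hopen : IsOpen {y : Config | |f y - f x| < ε / 2} :=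
      isOpen_lt ((f.continuous.sub continuous_const).abs) continuous_const
    obtain ⟨I, u, hu, hsub⟩ := isOpen_pi_iff.1 hopen x (by
      change |f x - f x| < ε / 2
      rw [sub_self, abs_zero]
      linarith)
    refine ⟨I, fun y hy => hsub ?_⟩
    intro i hi
    rw [hy i hi]
    exact (hu i hi).2
  choose I hI using h1
  have hnhds : ∀ x : Config, {y : Config | ∀ i ∈ I x, y i = x i} ∈ nhds x := by
    intro x
    have hopen : IsOpen {y : Config | ∀ i ∈ I x, y i = x i} := by
      have : {y : Config | ∀ i ∈ I x, y i = x i} = ⋂ i ∈ I x, {y : Config | y i = x i} := by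
        ext y
        simp
      rw [this]
      apply isOpen_biInter_finset
      intro i _
      have hci : Continuous (fun y : Config => y i) := continuous_apply i
      exact (isOpen_discrete ({x i} : Set Bool)).preimage hci
    exact hopen.mem_nhds (fun i _ => rfl)
  obtain ⟨S, _, hS⟩ := isCompact_univ.elim_nhds_subcover _ (fun x _ => hnhds x)
  refine ⟨S.biUnion I, fun x y hxy => ?_⟩
  have hx : x ∈ ⋃ z ∈ S, {y : Config | ∀ i ∈ I z, y i = z i} := hS (Set.mem_univ x)
  rw [Set.mem_iUnion₂] at hx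
  obtain ⟨z, hzS, hz⟩ := hx
  have h2 := hI z x hz
  have h3 := hI z y (fun i hi => by
    rw [← hxy i (Finset.mem_biUnion.2 ⟨z, hzS, hi⟩)]
    exact hz i hi)
  have h4 : |f x - f y| ≤ |f x - f z| + |f y - f z| := by
    have := abs_sub_le (f x) (f z) (f y)
    rwa [abs_sub_comm (f z) (f y)] at this
  linarith

variable {E : Type} [MeasurableSpace E] {Φ : PCA} {G : LMap E} {ρ : Measure E}
  [IsProbabilityMeasure ρ]

theorem osc_bound (f : C(Config, ℝ)) {ε : ℝ} {B : Finset ℤ}
    (hB : ∀ x y : Config, (∀ i ∈ B, x i = y i) → |f x - f y| ≤ ε) (hε : 0 ≤ ε) (t : ℕ) :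
    ∀ x y : Config, |((Uc G ρ)^[t] f) x - ((Uc G ρ)^[t] f) y| ≤
      ε + 2 * ‖f‖ * ∑ j ∈ B, G.V ρ t x y j := by
  induction t with
  | zero =>
    intro x y
    rw [Function.iterate_zero, id]
    by_cases h : ∀ i ∈ B, x i = y i
    · refine (hB x y h).trans ?_
      have : 0 ≤ 2 * ‖f‖ * ∑ j ∈ B, G.V ρ 0 x y j :=
        mul_nonneg (by positivity) (Finset.sum_nonneg (fun j _ => V_nonneg G ρ 0 x y j))
      linarith
    · push Not at h
      obtain ⟨j, hj, hne⟩ := h
      have h1 : (1 : ℝ) ≤ ∑ j ∈ B, G.V ρ 0 x y j := by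
        have h2 := Finset.single_le_sum (f := fun j => G.V ρ 0 x y j)
          (fun j _ => V_nonneg G ρ 0 x y j) hj
        have h3 : G.V ρ 0 x y j = 1 := by rw [LMap.V, if_neg hne]
        rw [← h3]
        exact h2
      have h4 : |f x - f y| ≤ 2 * ‖f‖ := by
        have h5 := bdd_of_cont f x
        have h6 := bdd_of_cont f y
        rw [Real.norm_eq_abs] at h5 h6
        have := abs_sub (f x) (f y)
        linarith
      have h7 : 2 * ‖f‖ * 1 ≤ 2 * ‖f‖ * ∑ j ∈ B, G.V ρ 0 x y j :=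
        mul_le_mul_of_nonneg_left h1 (by positivity)
      linarith
  | succ t ih =>
    intro x y
    rw [Function.iterate_succ_apply']
    set g := (Uc G ρ)^[t] f with hg
    have hint : ∀ x : Config, Integrable (fun u => g (G.step x u)) (nz ρ) := by
      intro x
      exact Integrable.of_bound
        (g.continuous.measurable.comp (measurable_step G x)).aestronglyMeasurable ‖g‖
        (Filter.Eventually.of_forall (fun u => bdd_of_cont g _))
    have h1 : (Uc G ρ g) x - (Uc G ρ g) y = ∫ u, (g (G.step x u) - g (G.step y u)) ∂(nz ρ) := by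
      rw [integral_sub (hint x) (hint y)]
      rfl
    rw [h1]
    have h2 : Integrable (fun u => ε + 2 * ‖f‖ * ∑ j ∈ B, G.V ρ t (G.step x u) (G.step y u) j)
        (nz ρ) :=
      (integrable_const ε).add
        ((integrable_finsetSum _ (fun j _ => V_int G ρ t x y j)).const_mul _)
    calc |∫ u, (g (G.step x u) - g (G.step y u)) ∂(nz ρ)|
        ≤ ∫ u, |g (G.step x u) - g (G.step y u)| ∂(nz ρ) := abs_integral_le_integral_abs
      _ ≤ ∫ u, (ε + 2 * ‖f‖ * ∑ j ∈ B, G.V ρ t (G.step x u) (G.step y u) j) ∂(nz ρ) := by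
          apply integral_mono ((hint x).sub (hint y)).abs h2
          intro u
          exact ih _ _
      _ = ε + 2 * ‖f‖ * ∑ j ∈ B, G.V ρ (t + 1) x y j := by
          rw [integral_add (integrable_const ε)
            ((integrable_finsetSum _ (fun j _ => V_int G ρ t x y j)).const_mul _),
            integral_const, probReal_univ, one_smul, integral_const_mul,
            integral_finsetSum _ (fun j _ => V_int G ρ t x y j)]
          rfl

theorem osc_tendsto (hV : ∀ ε : ℝ, 0 < ε → ∃ t₀ : ℕ, ∀ t, t₀ ≤ t → BV G ρ t ε)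
    (f : C(Config, ℝ)) {η : ℝ} (hη : 0 < η) :
    ∃ t₀ : ℕ, ∀ t, t₀ ≤ t → ∀ x y : Config,
      |((Uc G ρ)^[t] f) x - ((Uc G ρ)^[t] f) y| ≤ η := by
  obtain ⟨B, hB⟩ := exists_dep f (half_pos hη)
  have hpos : 0 < 2 * ‖f‖ * B.card + 1 := by positivity
  obtain ⟨t₀, ht₀⟩ := hV (η / 2 / (2 * ‖f‖ * B.card + 1)) (by positivity)
  refine ⟨t₀, fun t ht x y => (osc_bound f hB (half_pos hη).le t x y).trans ?_⟩
  have h1 : ∑ j ∈ B, G.V ρ t x y j ≤ B.card * (η / 2 / (2 * ‖f‖ * B.card + 1)) := by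
    have := Finset.sum_le_sum (fun j (_ : j ∈ B) => ht₀ t ht x y j)
    rwa [Finset.sum_const, nsmul_eq_mul] at this
  have h2 : 2 * ‖f‖ * ∑ j ∈ B, G.V ρ t x y j ≤
      2 * ‖f‖ * (B.card * (η / 2 / (2 * ‖f‖ * B.card + 1))) :=
    mul_le_mul_of_nonneg_left h1 (by positivity)
  have h3 : 2 * ‖f‖ * (B.card * (η / 2 / (2 * ‖f‖ * B.card + 1))) ≤ η / 2 := by
    have e : 2 * ‖f‖ * (B.card * (η / 2 / (2 * ‖f‖ * B.card + 1))) =
        (η / 2) * ((2 * ‖f‖ * B.card) / (2 * ‖f‖ * B.card + 1)) := by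
      ring
    rw [e]
    have h4 : (2 * ‖f‖ * B.card) / (2 * ‖f‖ * B.card + 1) ≤ 1 := by
      rw [div_le_one hpos]
      linarith
    calc (η / 2) * ((2 * ‖f‖ * B.card) / (2 * ‖f‖ * B.card + 1)) ≤ (η / 2) * 1 :=
          mul_le_mul_of_nonneg_left h4 (half_pos hη).le
      _ = η / 2 := mul_one _
  linarith

/-- Two integrals of a function of small oscillation are close. -/
theorem integral_close (g : C(Config, ℝ)) {η : ℝ} (hg : ∀ x y : Config, |g x - g y| ≤ η)
    (μ μ' : Measure Config) [IsProbabilityMeasure μ] [IsProbabilityMeasure μ'] :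
    |∫ x, g x ∂μ - ∫ x, g x ∂μ'| ≤ η := by
  have h1 : ∀ (μ : Measure Config) [IsProbabilityMeasure μ] (c : ℝ),
      (∀ x, g x ≤ c) → ∫ x, g x ∂μ ≤ c := by
    intro μ _ c hc
    have := integral_mono (int_cont g μ) (integrable_const c) hc
    rwa [integral_const, probReal_univ, one_smul] at this
  have h2 : ∀ (μ : Measure Config) [IsProbabilityMeasure μ] (c : ℝ),
      (∀ x, c ≤ g x) → c ≤ ∫ x, g x ∂μ := by
    intro μ _ c hc
    have := integral_mono (integrable_const c) (int_cont g μ) hc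
    rwa [integral_const, probReal_univ, one_smul] at this
  have key : ∀ (μ μ' : Measure Config) [IsProbabilityMeasure μ] [IsProbabilityMeasure μ'],
      ∫ x, g x ∂μ - ∫ x, g x ∂μ' ≤ η := by
    intro μ μ' _ _
    have h3 : ∀ y, ∫ x, g x ∂μ ≤ g y + η := by
      intro y
      apply h1
      intro x
      have := (abs_le.1 (hg x y)).2
      linarith
    have h4 : ∫ x, g x ∂μ - η ≤ ∫ x, g x ∂μ' := by
      apply h2
      intro y
      have := h3 y
      linarith
    linarith
  rw [abs_le]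
  constructor
  · have := key μ' μ
    linarith
  · exact key μ μ'

theorem ergodic_of_V (hG : Realises Φ G ρ)
    (hV : ∀ ε : ℝ, 0 < ε → ∃ t₀ : ℕ, ∀ t, t₀ ≤ t → BV G ρ t ε) : Φ.Ergodic := by
  classical
  let x₀ : Config := fun _ => true
  let μ₀ : Measure Config := Measure.dirac x₀
  have hprob : ∀ t, IsProbabilityMeasure (Φ.act^[t] μ₀) := act_iterate_prob hG μ₀
  let ν : ℕ → ProbabilityMeasure Config := fun t => ⟨Φ.act^[t] μ₀, hprob t⟩
  -- every pair of initial measures has asymptotically equal integrals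
  have hclose : ∀ (f : C(Config, ℝ)) (η : ℝ), 0 < η → ∃ t₀ : ℕ, ∀ t, t₀ ≤ t →
      ∀ (μ μ' : Measure Config) [IsProbabilityMeasure μ] [IsProbabilityMeasure μ'],
      |∫ x, f x ∂(Φ.act^[t] μ) - ∫ x, f x ∂(Φ.act^[t] μ')| ≤ η := by
    intro f η hη
    obtain ⟨t₀, ht₀⟩ := osc_tendsto hV f hη
    refine ⟨t₀, fun t ht μ μ' _ _ => ?_⟩
    rw [integral_act_iterate hG, integral_act_iterate hG]
    exact integral_close _ (ht₀ t ht) μ μ'
  obtain ⟨π, hπ⟩ := exists_clusterPt_of_compactSpace (Filter.map ν atTop)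
  -- convergence of the integrals along the reference orbit
  have hconv : ∀ f : C(Config, ℝ), Tendsto (fun t => ∫ x, f x ∂(Φ.act^[t] μ₀)) atTop
      (nhds (∫ x, f x ∂(π : Measure Config))) := by
    intro f
    have hcauchy : CauchySeq (fun t => ∫ x, f x ∂(Φ.act^[t] μ₀)) := by
      rw [Metric.cauchySeq_iff']
      intro ε hε
      obtain ⟨t₀, ht₀⟩ := hclose f (ε / 2) (half_pos hε)
      refine ⟨t₀, fun s hs => ?_⟩
      obtain ⟨k, rfl⟩ := Nat.exists_eq_add_of_le hs
      have := hprob k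
      rw [Real.dist_eq, Function.iterate_add_apply]
      have := ht₀ t₀ le_rfl (Φ.act^[k] μ₀) μ₀
      linarith
    obtain ⟨l, hl⟩ := cauchySeq_tendsto_of_complete hcauchy
    have hcont : Continuous (fun μ : ProbabilityMeasure Config =>
        ∫ x, f x ∂(μ : Measure Config)) :=
      ProbabilityMeasure.continuous_integral_boundedContinuousFunction
        (BoundedContinuousFunction.mkOfCompact f)
    have h1 : ClusterPt (∫ x, f x ∂(π : Measure Config))
        (Filter.map (fun t => ∫ x, f x ∂(Φ.act^[t] μ₀)) atTop) := by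
      have h2 : MapClusterPt π atTop ν := hπ
      exact h2.continuousAt_comp hcont.continuousAt
    have h3 : ∫ x, f x ∂(π : Measure Config) = l := by
      by_contra hne
      have h4 := h1.mono hl
      have h5 : (nhds (∫ x, f x ∂(π : Measure Config)) ⊓ nhds l).NeBot := h4
      rw [Filter.neBot_iff] at h5
      exact h5 (disjoint_iff.1 (disjoint_nhds_nhds.2 hne))
    rw [h3]
    exact hl
  have hconv2 : ∀ (μ : Measure Config) [IsProbabilityMeasure μ] (f : C(Config, ℝ)),
      Tendsto (fun t => ∫ x, f x ∂(Φ.act^[t] μ)) atTop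
        (nhds (∫ x, f x ∂(π : Measure Config))) := by
    intro μ _ f
    have h1 : Tendsto (fun t => ∫ x, f x ∂(Φ.act^[t] μ) - ∫ x, f x ∂(Φ.act^[t] μ₀)) atTop
        (nhds 0) := by
      rw [Metric.tendsto_atTop]
      intro ε hε
      obtain ⟨t₀, ht₀⟩ := hclose f (ε / 2) (half_pos hε)
      refine ⟨t₀, fun t ht => ?_⟩
      rw [Real.dist_eq, sub_zero]
      have := ht₀ t ht μ μ₀
      linarith
    have h2 := h1.add (hconv f)
    simpa using h2
  have hext : ∀ (μ : Measure Config) [IsProbabilityMeasure μ],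
      (∀ f : C(Config, ℝ), ∫ x, f x ∂μ = ∫ x, f x ∂(π : Measure Config)) →
        μ = (π : Measure Config) := by
    intro μ _ h
    apply ext_of_forall_integral_eq_of_IsFiniteMeasure
    intro f
    exact h f.toContinuousMap
  refine ⟨(π : Measure Config), inferInstance, ?_, ?_, ?_⟩
  · have := act_prob hG (π : Measure Config)
    apply hext
    intro f
    rw [integral_act hG]
    have h1 := hconv (Uc G ρ f)
    have h2 : (fun t => ∫ x, (Uc G ρ f) x ∂(Φ.act^[t] μ₀)) =
        fun t => ∫ x, f x ∂(Φ.act^[t + 1] μ₀) := by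
      funext t
      have := hprob t
      rw [Function.iterate_succ_apply', integral_act hG]
    rw [h2] at h1
    exact tendsto_nhds_unique h1 ((tendsto_add_atTop_iff_nat 1).2 (hconv f))
  · intro μ hμ hμinv
    apply hext
    intro f
    have h1 := hconv2 μ f
    have h2 : ∀ t : ℕ, Φ.act^[t] μ = μ := by
      intro t
      induction t with
      | zero => rfl
      | succ t ih => rw [Function.iterate_succ_apply', ih, hμinv]
    simp only [h2] at h1
    exact tendsto_nhds_unique tendsto_const_nhds h1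
  · intro μ hμ f
    exact hconv2 μ f

/-- Ergodicity from one small value of `V`. -/
theorem ergodic_of_BV (hG : Realises Φ G ρ) {T : ℕ} {δ : ℝ} (hδ : 0 ≤ δ) (h : BV G ρ T δ)
    (hT : (2 * (G.R : ℝ) * T + 1) * δ < 1) : Φ.Ergodic :=
  ergodic_of_V hG (V_tendsto G ρ hδ h hT)

end Pool.Agent.Lib.MP_8850da_pr
end
end

section

section

/-!
# The law of the noise
-/

set_option autoImplicit false

open MeasureTheory

namespace Pool.Agent.Lib.MP_8850da_pr

/-- The law of the noise at one site: `1` has probability `p`, `2` has probability `q`. -/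
noncomputable def rho (p q : ℝ) : Measure (Fin 3) :=
  ENNReal.ofReal (1 - p - q) • Measure.dirac 0 + ENNReal.ofReal p • Measure.dirac 1 +
    ENNReal.ofReal q • Measure.dirac 2

theorem rho_prob {p q : ℝ} (hp : 0 ≤ p) (hq : 0 ≤ q) (hpq : p + q ≤ 1) :
    IsProbabilityMeasure (rho p q) := by
  constructor
  rw [rho]
  simp only [Measure.coe_add, Measure.coe_smul, Pi.add_apply, Pi.smul_apply, smul_eq_mul,
    measure_univ, mul_one]
  rw [← ENNReal.ofReal_add (by linarith) hp, ← ENNReal.ofReal_add (by linarith) hq]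
  rw [show 1 - p - q + p + q = 1 by ring, ENNReal.ofReal_one]

theorem integral_rho {p q : ℝ} (hp : 0 ≤ p) (hq : 0 ≤ q) (hpq : p + q ≤ 1) (f : Fin 3 → ℝ) :
    ∫ e, f e ∂(rho p q) = (1 - p - q) * f 0 + p * f 1 + q * f 2 := by
  have hi : ∀ (i : Fin 3) (c : ℝ), Integrable f (ENNReal.ofReal c • Measure.dirac i) := by
    intro i c
    apply Integrable.smul_measure _ ENNReal.ofReal_ne_top
    apply Integrable.of_bound (C := ∑ j, |f j|) (measurable_of_countable f).aestronglyMeasurable
    apply Filter.Eventually.of_forall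
    intro e
    exact Finset.single_le_sum (f := fun j => |f j|) (fun j _ => abs_nonneg (f j))
      (Finset.mem_univ e)
  rw [rho, integral_add_measure ((hi 0 _).add_measure (hi 1 _)) (hi 2 _),
    integral_add_measure (hi 0 _) (hi 1 _), integral_smul_measure, integral_smul_measure,
    integral_smul_measure, integral_dirac, integral_dirac, integral_dirac,
    ENNReal.toReal_ofReal (by linarith), ENNReal.toReal_ofReal hp, ENNReal.toReal_ofReal hq]
  simp only [smul_eq_mul]

/-- Products over finitely many sites. -/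
theorem integral_prod_nz (ρ : Measure (Fin 3)) [IsProbabilityMeasure ρ] (B : Finset ℤ)
    (f : ℤ → Fin 3 → ℝ) :
    ∫ u, ∏ i ∈ B, f i (u i) ∂(nz ρ) = ∏ i ∈ B, ∫ e, f i e ∂ρ := by
  have h1 : ∀ u : ℤ → Fin 3, ∏ i ∈ B, f i (u i) =
      (fun y : (B → Fin 3) => ∏ i : B, f i (y i)) (B.restrict u) := by
    intro u
    rw [← Finset.prod_coe_sort]
    rfl
  simp only [h1]
  rw [nz, integral_restrict_infinitePi (μ := fun _ : ℤ => ρ) (s := B)
    (f := fun y : (B → Fin 3) => ∏ i : B, f i (y i))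
    (measurable_of_countable _).aestronglyMeasurable]
  rw [← Finset.prod_coe_sort B (fun i => ∫ e, f i e ∂ρ)]
  exact integral_fintype_prod_eq_prod (fun i : B => f i)

theorem integrable_of_dep {ρ : Measure (Fin 3)} [IsProbabilityMeasure ρ] (B : Finset ℤ)
    (g : (ℤ → Fin 3) → ℝ) (h : ∀ u v : ℤ → Fin 3, (∀ i ∈ B, u i = v i) → g u = g v) (C : ℝ)
    (hC : ∀ u, |g u| ≤ C) : Integrable g (nz ρ) := by
  apply Integrable.of_bound (C := C) (measurable_of_dep B g h).aestronglyMeasurable
  exact Filter.Eventually.of_forall hC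

end Pool.Agent.Lib.MP_8850da_pr
end

section

/-!
# The potential: pointwise inequality
-/

set_option autoImplicit false

open MeasureTheory

namespace Pool.Agent.Lib.MP_8850da_pr

/-- The potential. -/
noncomputable def XX (δ : ℝ) (K l L : ℕ) (o : ℤ) (S : Set ℤ) : ℝ :=
  Real.exp (-(δ * Phi K l L o S))

theorem XX_pos (δ : ℝ) (K l L : ℕ) (o : ℤ) (S : Set ℤ) : 0 < XX δ K l L o S := Real.exp_pos _

theorem XX_le_one {δ : ℝ} (hδ : 0 ≤ δ) (K l L : ℕ) (o : ℤ) (S : Set ℤ) : XX δ K l L o S ≤ 1 := by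
  rw [XX, Real.exp_le_one_iff]
  have := mul_nonneg hδ (Phi_nonneg K l L o S)
  linarith

/-- The sites whose noise matters for the site `i`. -/
noncomputable def Nn (r K : ℕ) (i : ℤ) : Finset ℤ := Finset.Icc (i - r) (i + K + r)

theorem Nn_sub {r K l L : ℕ} {o i : ℤ} (hi : i ∈ Wn l L o) : Nn r K i ⊆ BB r K l L o := by
  intro z hz
  rw [Wn, Finset.mem_Icc] at hi
  rw [Nn, Finset.mem_Icc] at hz
  rw [BB, Finset.mem_Icc]
  constructor <;> linarith [hz.1, hz.2, hi.1, hi.2]

theorem card_Nn (r K : ℕ) (i : ℤ) : (Nn r K i).card = K + 2 * r + 1 := by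
  rw [Nn, Int.card_Icc]
  have : i + (K : ℤ) + r + 1 - (i - r) = ((K + 2 * r + 1 : ℕ) : ℤ) := by
    push_cast
    ring
  rw [this, Int.toNat_natCast]

/-- The gain at `i` caused by noise `1` at `g`. -/
noncomputable def gai (D : Nb) (K : ℕ) (S : Set ℤ) (g i : ℤ) : ℝ :=
  ind ((i ∉ TT K S ∧ i + 1 ∈ TT K S) ∧ (g - i + D.ν ∈ D.N ∧ g ≤ i)) +
    ind ((i ∉ TT K S ∧ i - 1 ∈ TT K S) ∧ (g - (i + K) + D.ν ∈ D.N ∧ i + K ≤ g))

/-- The loss at `i` caused by noise `2` at `z`. -/
noncomputable def lai (D : Nb) (K k : ℕ) (S : Set ℤ) (z i : ℤ) : ℝ :=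
  ∑ v ∈ Finset.range k, ∑ u ∈ Finset.Ico v k,
    (ind (cL (TT K S) v i ∧ (z - (i - v + u) + D.ν ∈ D.N ∧ i - v + u ≤ z)) +
      ind (cR (TT K S) v i ∧ (z - (i + K + v - u) + D.ν ∈ D.N ∧ z ≤ i + K + v - u)))

theorem gai_nonneg (D : Nb) (K : ℕ) (S : Set ℤ) (g i : ℤ) : 0 ≤ gai D K S g i :=
  add_nonneg (ind_nonneg _) (ind_nonneg _)

theorem lai_nonneg (D : Nb) (K k : ℕ) (S : Set ℤ) (z i : ℤ) : 0 ≤ lai D K k S z i :=
  Lak_term_nonneg D K k S z i

theorem gai_out {D : Nb} {K : ℕ} {S : Set ℤ} {g i : ℤ} (hg : g ∉ Nn D.r K i) :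
    gai D K S g i = 0 := by
  have hK0 : (0 : ℤ) ≤ K := by positivity
  have hr := D.one_le_r
  rw [gai, ind_neg, ind_neg, add_zero]
  · rintro ⟨_, h1, h2⟩
    apply hg
    have h3 := abs_le.1 (D.bound _ h1)
    rw [Nn, Finset.mem_Icc]
    constructor <;> linarith [h3.1, h3.2]
  · rintro ⟨_, h1, h2⟩
    apply hg
    have h3 := abs_le.1 (D.bound _ h1)
    rw [Nn, Finset.mem_Icc]
    constructor <;> linarith [h3.1, h3.2]

theorem lai_out {D : Nb} {K k : ℕ} (hk : k ≤ K) {S : Set ℤ} {z i : ℤ} (hz : z ∉ Nn D.r K i) :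
    lai D K k S z i = 0 := by
  have hk' : (k : ℤ) ≤ K := by exact_mod_cast hk
  have hr := D.one_le_r
  rw [lai]
  apply Finset.sum_eq_zero
  intro v hv
  apply Finset.sum_eq_zero
  intro u hu
  rw [Finset.mem_Ico] at hu
  have hv0 : (0 : ℤ) ≤ v := by positivity
  have hu1 : (v : ℤ) ≤ u := by exact_mod_cast hu.1
  have hu2 : (u : ℤ) < k := by exact_mod_cast hu.2
  rw [ind_neg, ind_neg, add_zero]
  · rintro ⟨_, h1, h2⟩
    apply hz
    have h3 := abs_le.1 (D.bound _ h1)
    rw [Nn, Finset.mem_Icc]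
    constructor <;> linarith [h3.1, h3.2]
  · rintro ⟨_, h1, h2⟩
    apply hz
    have h3 := abs_le.1 (D.bound _ h1)
    rw [Nn, Finset.mem_Icc]
    constructor <;> linarith [h3.1, h3.2]

/-- The bound for the loss at a site with two noise events near. -/
noncomputable def Bb (D : Nb) (K : ℕ) (S : Set ℤ) (i : ℤ) : ℝ :=
  ind (i ∈ TT K S) + (D.m + 1) * (ind (i + 1 ∈ TT K S) + ind (i - 1 ∈ TT K S))

theorem Bb_nonneg (D : Nb) (K : ℕ) (S : Set ℤ) (i : ℤ) : 0 ≤ Bb D K S i := by
  rw [Bb]
  have h1 := ind_nonneg (i ∈ TT K S)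
  have h2 := ind_nonneg (i + 1 ∈ TT K S)
  have h3 := ind_nonneg (i - 1 ∈ TT K S)
  positivity

theorem Bb_le (D : Nb) (K : ℕ) (S : Set ℤ) (i : ℤ) : Bb D K S i ≤ 2 * D.m + 3 := by
  rw [Bb]
  have h1 := ind_le_one (i ∈ TT K S)
  have h2 := ind_le_one (i + 1 ∈ TT K S)
  have h3 := ind_le_one (i - 1 ∈ TT K S)
  have h4 : ((D.m : ℝ) + 1) * (ind (i + 1 ∈ TT K S) + ind (i - 1 ∈ TT K S)) ≤
      (D.m + 1) * 2 := by
    apply mul_le_mul_of_nonneg_left _ (by positivity)
    linarith
  linarith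

theorem sum_gai (D : Nb) (K : ℕ) (S : Set ℤ) (i : ℤ) (B : Finset ℤ) (hB : Nn D.r K i ⊆ B) :
    ∑ g ∈ B, gai D K S g i = (D.m + 1) * (ind (i ∉ TT K S ∧ i + 1 ∈ TT K S) +
      ind (i ∉ TT K S ∧ i - 1 ∈ TT K S)) := by
  have hK0 : (0 : ℤ) ≤ K := by positivity
  have hr := D.one_le_r
  simp only [gai]
  rw [Finset.sum_add_distrib]
  simp only [ind_and (i ∉ TT K S ∧ i + 1 ∈ TT K S), ind_and (i ∉ TT K S ∧ i - 1 ∈ TT K S)]
  rw [← Finset.mul_sum, ← Finset.mul_sum, sum_side_le, sum_side_ge]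
  · ring
  · intro g hg
    rw [Finset.mem_Icc] at hg
    apply hB
    rw [Nn, Finset.mem_Icc]
    constructor <;> linarith [hg.1, hg.2]
  · intro g hg
    rw [Finset.mem_Icc] at hg
    apply hB
    rw [Nn, Finset.mem_Icc]
    constructor <;> linarith [hg.1, hg.2]

section local_ineq

variable {D : Nb} {K k : ℕ} (hK : 2 * D.r ≤ K)
include hK

theorem gain_loc {u : ℤ → Fin 3} {S : Set ℤ} {i g : ℤ}
    (hu' : ∀ z ∈ Set.Icc (i - D.r) (i + K + D.r), u z ≠ 2) (hg : u g = 1) :
    ind (i ∈ TT K S) + gai D K S g i ≤ ind (i ∈ TT K (upM D K u S)) := by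
  have hr := D.one_le_r
  have hK' : 2 * (D.r : ℤ) ≤ K := by exact_mod_cast hK
  rw [gai]
  by_cases h1 : i ∈ TT K S
  · rw [ind_pos h1, ind_neg (fun h => h.1.1 h1), ind_neg (fun h => h.1.1 h1),
      ind_pos (TT_up_of_no_hole hK h1 hu')]
    norm_num
  · rw [ind_neg h1, zero_add]
    by_cases h2 : i + 1 ∈ TT K S
    · have h3 : i - 1 ∉ TT K S := by
        intro h3
        apply h1
        intro j hj
        rw [Set.mem_Icc] at hj
        rcases hj.1.eq_or_lt with h4 | h4
        · apply h3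
          rw [← h4, Set.mem_Icc]
          constructor <;> linarith
        · apply h2
          rw [Set.mem_Icc]
          constructor
          · exact Int.add_one_le_iff.2 h4
          · linarith [hj.2]
      rw [ind_neg (p := ((i ∉ TT K S ∧ i - 1 ∈ TT K S) ∧ (g - (i + K) + D.ν ∈ D.N ∧ i + K ≤ g)))
        (fun h => h3 h.1.2), add_zero]
      apply ind_mono
      rintro ⟨_, h5, h6⟩
      exact TT_up_grow_left hK h2 hu' hg h5 h6
    · rw [ind_neg (p := ((i ∉ TT K S ∧ i + 1 ∈ TT K S) ∧ (g - i + D.ν ∈ D.N ∧ g ≤ i)))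
        (fun h => h2 h.1.2), zero_add]
      apply ind_mono
      rintro ⟨h4, h5, h6⟩
      exact TT_up_grow_right hK h4.2 hu' hg h5 h6

theorem loss_loc (hG : Gap D k) {u : ℤ → Fin 3} {S : Set ℤ} {i z : ℤ}
    (hu' : ∀ z' ∈ Set.Icc (i - D.r) (i + K + D.r), u z' = 2 → z' = z) :
    ind (i ∈ TT K S) - lai D K k S z i ≤ ind (i ∈ TT K (upM D K u S)) := by
  have n1 := Lak_term_nonneg D K k S z i
  have n3 := ind_nonneg (i ∈ TT K (upM D K u S))
  rw [lai]
  by_cases h1 : i ∈ TT K S
  · by_cases h2 : i ∈ TT K (upM D K u S)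
    · rw [ind_pos h1, ind_pos h2]
      linarith
    · rw [ind_pos h1, ind_neg h2]
      have h3 : 1 ≤ ∑ v ∈ Finset.range k, ∑ w ∈ Finset.Ico v k,
          (ind (cL (TT K S) v i ∧ (z - (i - v + w) + D.ν ∈ D.N ∧ i - v + w ≤ z)) +
          ind (cR (TT K S) v i ∧ (z - (i + K + v - w) + D.ν ∈ D.N ∧ z ≤ i + K + v - w))) := by
        rcases TT_up_lossk hK hG h1 hu' h2 with ⟨v, w, hvw, hwk, h4, h5⟩ | ⟨v, w, hvw, hwk, h4, h5⟩
        · have e1 := Finset.single_le_sum (f := fun v => ∑ w ∈ Finset.Ico v k,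
            (ind (cL (TT K S) v i ∧ (z - (i - v + w) + D.ν ∈ D.N ∧ i - v + w ≤ z)) +
            ind (cR (TT K S) v i ∧ (z - (i + K + v - w) + D.ν ∈ D.N ∧ z ≤ i + K + v - w))))
            (fun v _ => Finset.sum_nonneg (fun w _ => add_nonneg (ind_nonneg _) (ind_nonneg _)))
            (Finset.mem_range.2 (lt_of_le_of_lt hvw hwk))
          have e2 := Finset.single_le_sum (f := fun w : ℕ =>
            (ind (cL (TT K S) v i ∧ (z - (i - v + w) + D.ν ∈ D.N ∧ i - v + w ≤ z)) +
            ind (cR (TT K S) v i ∧ (z - (i + K + v - w) + D.ν ∈ D.N ∧ z ≤ i + K + v - w))))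
            (fun w _ => add_nonneg (ind_nonneg _) (ind_nonneg _))
            (Finset.mem_Ico.2 ⟨hvw, hwk⟩)
          rw [ind_pos (show cL (TT K S) v i ∧ (z - (i - v + w) + D.ν ∈ D.N ∧ i - v + w ≤ z)
            from ⟨h4, h5⟩)] at e2
          have e3 := ind_nonneg (cR (TT K S) v i ∧
            (z - (i + K + v - w) + D.ν ∈ D.N ∧ z ≤ i + K + v - w))
          linarith
        · have e1 := Finset.single_le_sum (f := fun v => ∑ w ∈ Finset.Ico v k,
            (ind (cL (TT K S) v i ∧ (z - (i - v + w) + D.ν ∈ D.N ∧ i - v + w ≤ z)) +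
            ind (cR (TT K S) v i ∧ (z - (i + K + v - w) + D.ν ∈ D.N ∧ z ≤ i + K + v - w))))
            (fun v _ => Finset.sum_nonneg (fun w _ => add_nonneg (ind_nonneg _) (ind_nonneg _)))
            (Finset.mem_range.2 (lt_of_le_of_lt hvw hwk))
          have e2 := Finset.single_le_sum (f := fun w : ℕ =>
            (ind (cL (TT K S) v i ∧ (z - (i - v + w) + D.ν ∈ D.N ∧ i - v + w ≤ z)) +
            ind (cR (TT K S) v i ∧ (z - (i + K + v - w) + D.ν ∈ D.N ∧ z ≤ i + K + v - w))))
            (fun w _ => add_nonneg (ind_nonneg _) (ind_nonneg _))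
            (Finset.mem_Ico.2 ⟨hvw, hwk⟩)
          rw [ind_pos (show cR (TT K S) v i ∧ (z - (i + K + v - w) + D.ν ∈ D.N ∧
            z ≤ i + K + v - w) from ⟨h4, h5⟩)] at e2
          have e3 := ind_nonneg (cL (TT K S) v i ∧
            (z - (i - v + w) + D.ν ∈ D.N ∧ i - v + w ≤ z))
          linarith
      linarith
  · rw [ind_neg h1]
    linarith

/-- The local inequality. -/
theorem local_ge (hG : Gap D k) (hkK : k ≤ K) (S : Set ℤ) (u : ℤ → Fin 3) (i : ℤ)
    (B : Finset ℤ) (hB : Nn D.r K i ⊆ B) :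
    ind (i ∈ TT K S) + ∑ g ∈ B, ind (u g = 1) * gai D K S g i -
      ∑ z ∈ B, ind (u z = 2) * lai D K k S z i -
      ind (2 ≤ ((Nn D.r K i).filter (fun z => u z ≠ 0)).card) * Bb D K S i ≤
      ind (i ∈ TT K (upM D K u S)) := by
  classical
  have h3 : ∀ e : Fin 3, e ≠ 0 → e = 1 ∨ e = 2 := by decide
  have hS1 : 0 ≤ ∑ z ∈ B, ind (u z = 2) * lai D K k S z i :=
    Finset.sum_nonneg (fun z _ => mul_nonneg (ind_nonneg _) (lai_nonneg _ _ _ _ _ _))
  set E := (Nn D.r K i).filter (fun z => u z ≠ 0) with hE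
  have hI : Nn D.r K i = Finset.Icc (i - (D.r : ℤ)) (i + K + D.r) := rfl
  rcases Nat.lt_or_ge E.card 2 with hcard | hcard
  · rw [ind_neg (not_le.2 hcard), zero_mul, sub_zero]
    have hone : ∀ a ∈ Nn D.r K i, ∀ c ∈ Nn D.r K i, u a ≠ 0 → u c ≠ 0 → a = c := by
      intro a ha c hc hua huc
      exact Finset.card_le_one.1 (Nat.lt_succ_iff.1 hcard) a (Finset.mem_filter.2 ⟨ha, hua⟩) c
        (Finset.mem_filter.2 ⟨hc, huc⟩)
    by_cases hex : ∃ g ∈ Nn D.r K i, u g ≠ 0
    · obtain ⟨g, hgN, hg⟩ := hex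
      have hgB := hB hgN
      have s1 : ∑ g' ∈ B, ind (u g' = 1) * gai D K S g' i = ind (u g = 1) * gai D K S g i := by
        apply Finset.sum_eq_single_of_mem g hgB
        intro a _ hag
        by_cases haN : a ∈ Nn D.r K i
        · rw [ind_neg, zero_mul]
          intro hua
          exact hag (hone a haN g hgN (by rw [hua]; decide) hg)
        · rw [gai_out haN, mul_zero]
      have s2 : ∑ z ∈ B, ind (u z = 2) * lai D K k S z i = ind (u g = 2) * lai D K k S g i := by
        apply Finset.sum_eq_single_of_mem g hgB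
        intro a _ hag
        by_cases haN : a ∈ Nn D.r K i
        · rw [ind_neg, zero_mul]
          intro hua
          exact hag (hone a haN g hgN (by rw [hua]; decide) hg)
        · rw [lai_out hkK haN, mul_zero]
      rw [s1, s2]
      rcases h3 _ hg with hg1 | hg2
      · rw [ind_pos hg1, ind_neg (show ¬ u g = 2 by rw [hg1]; decide), one_mul, zero_mul,
          sub_zero]
        apply gain_loc hK _ hg1
        intro z hz huz
        have hzN : z ∈ Nn D.r K i := by
          rw [hI, Finset.mem_Icc]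
          exact hz
        have := hone z hzN g hgN (by rw [huz]; decide) hg
        rw [this, hg1] at huz
        exact absurd huz (by decide)
      · rw [ind_neg (show ¬ u g = 1 by rw [hg2]; decide), ind_pos hg2, one_mul, zero_mul,
          add_zero]
        apply loss_loc hK hG
        intro z hz huz
        have hzN : z ∈ Nn D.r K i := by
          rw [hI, Finset.mem_Icc]
          exact hz
        exact hone z hzN g hgN (by rw [huz]; decide) hg
    · push Not at hex
      have s1 : ∑ g' ∈ B, ind (u g' = 1) * gai D K S g' i = 0 := by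
        apply Finset.sum_eq_zero
        intro a _
        by_cases haN : a ∈ Nn D.r K i
        · rw [ind_neg, zero_mul]
          rw [hex a haN]
          decide
        · rw [gai_out haN, mul_zero]
      rw [s1, add_zero]
      by_cases h1 : i ∈ TT K S
      · rw [ind_pos h1, ind_pos (TT_up_of_no_hole hK h1 ?_)]
        · linarith
        · intro z hz huz
          have hzN : z ∈ Nn D.r K i := by
            rw [hI, Finset.mem_Icc]
            exact hz
          rw [hex z hzN] at huz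
          exact absurd huz (by decide)
      · rw [ind_neg h1]
        have := ind_nonneg (i ∈ TT K (upM D K u S))
        linarith
  · rw [ind_pos hcard, one_mul]
    have s1 : ∑ g ∈ B, ind (u g = 1) * gai D K S g i ≤ ∑ g ∈ B, gai D K S g i :=
      Finset.sum_le_sum (fun g _ => mul_le_of_le_one_left (gai_nonneg _ _ _ _ _) (ind_le_one _))
    rw [sum_gai D K S i B hB] at s1
    have s2 : ((D.m : ℝ) + 1) * (ind (i ∉ TT K S ∧ i + 1 ∈ TT K S) +
        ind (i ∉ TT K S ∧ i - 1 ∈ TT K S)) ≤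
        (D.m + 1) * (ind (i + 1 ∈ TT K S) + ind (i - 1 ∈ TT K S)) := by
      apply mul_le_mul_of_nonneg_left _ (by positivity)
      exact add_le_add (ind_mono (fun h => h.2)) (ind_mono (fun h => h.2))
    have s3 := ind_nonneg (i ∈ TT K (upM D K u S))
    rw [Bb]
    linarith

end local_ineq

/-- The sum of the local second order terms. -/
noncomputable def Rr (D : Nb) (K l L : ℕ) (o : ℤ) (S : Set ℤ) (u : ℤ → Fin 3) : ℝ :=
  ∑ i ∈ Wn l L o, wt l L o i *
    (ind (2 ≤ ((Nn D.r K i).filter (fun z => u z ≠ 0)).card) * Bb D K S i)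

theorem Rr_nonneg (D : Nb) (K l L : ℕ) (o : ℤ) (S : Set ℤ) (u : ℤ → Fin 3) :
    0 ≤ Rr D K l L o S u :=
  Finset.sum_nonneg (fun _ _ => mul_nonneg (wt_nonneg _)
    (mul_nonneg (ind_nonneg _) (Bb_nonneg _ _ _ _)))

section

variable {D : Nb} {K k : ℕ} (hK : 2 * D.r ≤ K) (hG : Gap D k) (hkK : k ≤ K)
  (l L : ℕ) (o : ℤ) (S : Set ℤ) (u : ℤ → Fin 3)

include hK hG hkK in
theorem Phi_ge : Phi K l L o S + ∑ g ∈ BB D.r K l L o, ind (u g = 1) * Gam D K l L o S g -
    ∑ z ∈ BB D.r K l L o, ind (u z = 2) * Lak D K k l L o S z - Rr D K l L o S u ≤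
      Phi K l L o (upM D K u S) := by
  have h1 : ∑ g ∈ BB D.r K l L o, ind (u g = 1) * Gam D K l L o S g =
      ∑ i ∈ Wn l L o, wt l L o i * ∑ g ∈ BB D.r K l L o, ind (u g = 1) * gai D K S g i := by
    simp only [Gam, Finset.mul_sum]
    rw [Finset.sum_comm]
    apply Finset.sum_congr rfl
    intro i _
    apply Finset.sum_congr rfl
    intro g _
    rw [gai]
    ring
  have h2 : ∑ z ∈ BB D.r K l L o, ind (u z = 2) * Lak D K k l L o S z =
      ∑ i ∈ Wn l L o, wt l L o i * ∑ z ∈ BB D.r K l L o, ind (u z = 2) * lai D K k S z i := by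
    have e : ∀ z, Lak D K k l L o S z = ∑ i ∈ Wn l L o, wt l L o i * lai D K k S z i :=
      fun z => rfl
    simp only [e]
    simp only [Finset.mul_sum]
    rw [Finset.sum_comm]
    apply Finset.sum_congr rfl
    intro i _
    apply Finset.sum_congr rfl
    intro g _
    ring
  rw [h1, h2, Phi, Phi, Rr, ← Finset.sum_add_distrib, ← Finset.sum_sub_distrib,
    ← Finset.sum_sub_distrib]
  apply Finset.sum_le_sum
  intro i hi
  have h3 := mul_le_mul_of_nonneg_left
    (local_ge hK hG hkK S u i (BB D.r K l L o) (Nn_sub hi)) (wt_nonneg (l := l) (L := L) (o := o) i)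
  refine le_trans (le_of_eq ?_) h3
  ring

/-- The factor of one site in the main term. -/
noncomputable def phs (δ x y : ℝ) (e : Fin 3) : ℝ :=
  if e = 1 then Real.exp (-(δ * x)) else if e = 2 then Real.exp (δ * y) else 1

theorem phs_eq (δ x y : ℝ) (e : Fin 3) :
    phs δ x y e = Real.exp (-(δ * (ind (e = 1) * x)) + δ * (ind (e = 2) * y)) := by
  have h3 : ∀ e : Fin 3, e = 0 ∨ e = 1 ∨ e = 2 := by decide
  rcases h3 e with h | h | h
  · rw [phs, h, if_neg (by decide), if_neg (by decide), ind_neg (by decide), ind_neg (by decide)]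
    simp
  · rw [phs, h, if_pos rfl, ind_pos rfl, ind_neg (by decide)]
    simp
  · rw [phs, h, if_neg (by decide), if_pos rfl, ind_neg (by decide), ind_pos rfl]
    simp

theorem phs_pos (δ x y : ℝ) (e : Fin 3) : 0 < phs δ x y e := by
  rw [phs_eq]
  exact Real.exp_pos _

/-- The factor of one site in a pair term. -/
noncomputable def hh (μ : ℝ) (a b i : ℤ) (e : Fin 3) : ℝ :=
  (if e = 0 then 1 else μ) * (if (i = a ∨ i = b) ∧ e = 0 then 0 else 1)

theorem hh_nonneg {μ : ℝ} (hμ : 0 ≤ μ) (a b i : ℤ) (e : Fin 3) : 0 ≤ hh μ a b i e := by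
  rw [hh]
  split_ifs <;> simp [hμ]

/-- The upper bound for the potential after one step. -/
noncomputable def UB (D : Nb) (δ μ : ℝ) (K k l L : ℕ) (o : ℤ) (S : Set ℤ)
    (u : ℤ → Fin 3) : ℝ :=
  ∏ s ∈ BB D.r K l L o, phs δ (Gam D K l L o S s) (Lak D K k l L o S s) (u s) +
    δ * ∑ i ∈ Wn l L o, wt l L o i * Bb D K S i *
      ∑ q ∈ (Nn D.r K i).offDiag, ∏ s ∈ BB D.r K l L o, hh μ q.1 q.2 s (u s)

theorem Rr_le : Rr D K l L o S u ≤ (2 * D.m + 3) * (K + 2 * D.r + 1) *
    ∑ s ∈ BB D.r K l L o, ind (u s ≠ 0) := by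
  classical
  have h1 : Rr D K l L o S u ≤ ∑ i ∈ Wn l L o, (2 * (D.m : ℝ) + 3) *
      ∑ s ∈ BB D.r K l L o, ind (u s ≠ 0) * ind (i ∈ Finset.Icc (s - K - D.r) (s + D.r)) := by
    apply Finset.sum_le_sum
    intro i hi
    have hw := wt_le_one (l := l) (L := L) (o := o) i
    have hw0 := wt_nonneg (l := l) (L := L) (o := o) i
    have hB := Bb_le D K S i
    have hB0 := Bb_nonneg D K S i
    have hs : 0 ≤ ∑ s ∈ BB D.r K l L o, ind (u s ≠ 0) *
        ind (i ∈ Finset.Icc (s - K - D.r) (s + D.r)) :=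
      Finset.sum_nonneg (fun _ _ => mul_nonneg (ind_nonneg _) (ind_nonneg _))
    by_cases h2 : 2 ≤ ((Nn D.r K i).filter (fun z => u z ≠ 0)).card
    · rw [ind_pos h2, one_mul]
      obtain ⟨z, hz⟩ : ((Nn D.r K i).filter (fun z => u z ≠ 0)).Nonempty :=
        Finset.card_pos.1 (by omega)
      rw [Finset.mem_filter] at hz
      have h3 : 1 ≤ ∑ s ∈ BB D.r K l L o, ind (u s ≠ 0) *
          ind (i ∈ Finset.Icc (s - K - D.r) (s + D.r)) := by
        have h4 := Finset.single_le_sum
          (f := fun s : ℤ => ind (u s ≠ 0) * ind (i ∈ Finset.Icc (s - K - D.r) (s + D.r)))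
          (fun (s : ℤ) _ => mul_nonneg (ind_nonneg (u s ≠ 0))
            (ind_nonneg (i ∈ Finset.Icc (s - K - D.r) (s + D.r)))) (Nn_sub hi hz.1)
        have h5 : i ∈ Finset.Icc (z - K - D.r) (z + D.r) := by
          have := hz.1
          rw [Nn, Finset.mem_Icc] at this
          rw [Finset.mem_Icc]
          constructor <;> linarith [this.1, this.2]
        rw [ind_pos hz.2, ind_pos h5, mul_one] at h4
        exact h4
      have h4 : wt l L o i * Bb D K S i ≤ 1 * (2 * D.m + 3) :=
        mul_le_mul hw hB hB0 (by norm_num)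
      have h5 := mul_le_mul_of_nonneg_left h3 (show (0 : ℝ) ≤ 2 * D.m + 3 by positivity)
      linarith
    · rw [ind_neg h2, zero_mul, mul_zero]
      positivity
  refine h1.trans ?_
  rw [← Finset.mul_sum, Finset.sum_comm, mul_assoc]
  apply mul_le_mul_of_nonneg_left _ (by positivity)
  rw [Finset.mul_sum]
  apply Finset.sum_le_sum
  intro s _
  rw [← Finset.mul_sum, mul_comm]
  apply mul_le_mul_of_nonneg_right _ (ind_nonneg _)
  rw [sum_ind]
  have h4 : ((Wn l L o).filter (fun i => i ∈ Finset.Icc (s - K - D.r) (s + D.r))).card ≤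
      (Finset.Icc (s - K - D.r) (s + D.r)).card := by
    apply Finset.card_le_card
    intro i hi
    exact (Finset.mem_filter.1 hi).2
  rw [Int.card_Icc] at h4
  have h5 : (s + D.r + 1 - (s - K - D.r)).toNat = K + 2 * D.r + 1 := by
    have : s + D.r + 1 - (s - K - D.r) = ((K + 2 * D.r + 1 : ℕ) : ℤ) := by
      push_cast
      ring
    rw [this, Int.toNat_natCast]
  rw [h5] at h4
  exact_mod_cast h4

theorem exp_mul_ind {x : ℝ} (e : Fin 3) :
    Real.exp (x * ind (e ≠ 0)) = if e = 0 then 1 else Real.exp x := by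
  by_cases h : e = 0
  · rw [if_pos h, ind_neg (fun h' => h' h), mul_zero, Real.exp_zero]
  · rw [if_neg h, ind_pos h, mul_one]

include hK hG hkK in
theorem XX_le_UB {δ μ G : ℝ} (hδ : 0 ≤ δ)
    (hGL : ∀ z, Lak D K k l L o S z ≤ G)
    (hμ : μ = Real.exp (δ * (G + (2 * D.m + 3) * (K + 2 * D.r + 1)))) :
    XX δ K l L o (upM D K u S) ≤ XX δ K l L o S * UB D δ μ K k l L o S u := by
  classical
  set B := BB D.r K l L o with hBd
  have hX := XX_pos δ K l L o S
  have hR0 := Rr_nonneg D K l L o S u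
  set F : ℝ := ∏ s ∈ B, phs δ (Gam D K l L o S s) (Lak D K k l L o S s) (u s) with hF
  have hF0 : 0 < F := Finset.prod_pos (fun s _ => phs_pos _ _ _ _)
  have hFe : F = Real.exp (-(δ * ∑ g ∈ B, ind (u g = 1) * Gam D K l L o S g) +
      δ * ∑ z ∈ B, ind (u z = 2) * Lak D K k l L o S z) := by
    rw [hF]
    simp only [phs_eq]
    rw [← Real.exp_sum, Finset.sum_add_distrib, Finset.sum_neg_distrib, ← Finset.mul_sum,
      ← Finset.mul_sum]
  have h1 : XX δ K l L o (upM D K u S) ≤
      XX δ K l L o S * (F * Real.exp (δ * Rr D K l L o S u)) := by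
    rw [XX, XX, hFe, ← Real.exp_add, ← Real.exp_add, Real.exp_le_exp]
    have h2 := mul_le_mul_of_nonneg_left (Phi_ge hK hG hkK l L o S u) hδ
    linarith
  refine h1.trans ?_
  apply mul_le_mul_of_nonneg_left _ hX.le
  have hx0 : 0 ≤ δ * Rr D K l L o S u := mul_nonneg hδ hR0
  have h2 : Real.exp (δ * Rr D K l L o S u) ≤
      1 + δ * Rr D K l L o S u * Real.exp (δ * Rr D K l L o S u) := by
    have h3 := Real.add_one_le_exp (-(δ * Rr D K l L o S u))
    have h4 := mul_le_mul_of_nonneg_right h3 (Real.exp_pos (δ * Rr D K l L o S u)).le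
    rw [← Real.exp_add, neg_add_cancel, Real.exp_zero] at h4
    linarith
  -- the product of the factors
  have h3 : F * Real.exp (δ * Rr D K l L o S u) ≤ ∏ s ∈ B, if u s = 0 then 1 else μ := by
    have e1 : ∏ s ∈ B, (if u s = 0 then (1 : ℝ) else μ) =
        Real.exp (δ * (G + (2 * D.m + 3) * (K + 2 * D.r + 1)) * ∑ s ∈ B, ind (u s ≠ 0)) := by
      rw [Finset.mul_sum, Real.exp_sum]
      apply Finset.prod_congr rfl
      intro s _
      rw [exp_mul_ind, hμ]
    rw [e1, hFe, ← Real.exp_add, Real.exp_le_exp]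
    have a1 : 0 ≤ ∑ g ∈ B, ind (u g = 1) * Gam D K l L o S g :=
      Finset.sum_nonneg (fun g _ => mul_nonneg (ind_nonneg _) (Gam_nonneg _ _ _ _ _ _ _))
    have a2 : ∑ z ∈ B, ind (u z = 2) * Lak D K k l L o S z ≤ G * ∑ s ∈ B, ind (u s ≠ 0) := by
      rw [Finset.mul_sum]
      apply Finset.sum_le_sum
      intro s _
      have b1 : ind (u s = 2) ≤ ind (u s ≠ 0) := ind_mono (fun h => by rw [h]; decide)
      have b2 := mul_le_mul b1 (hGL s) (Lak_nonneg _ _ _ _ _ _ _ _) (ind_nonneg _)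
      linarith
    have a3 := Rr_le (D := D) (K := K) l L o S u
    have a4 := mul_nonneg hδ a1
    have a5 := mul_le_mul_of_nonneg_left a2 hδ
    have a6 := mul_le_mul_of_nonneg_left a3 hδ
    have e2 : δ * (G + (2 * (D.m : ℝ) + 3) * (K + 2 * D.r + 1)) * ∑ s ∈ B, ind (u s ≠ 0) =
        δ * (G * ∑ s ∈ B, ind (u s ≠ 0)) +
        δ * ((2 * D.m + 3) * (K + 2 * D.r + 1) * ∑ s ∈ B, ind (u s ≠ 0)) := by ring
    rw [e2]
    linarith
  have hμ0 : 0 ≤ μ := by
    rw [hμ]
    exact (Real.exp_pos _).le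
  have h4 : F * Real.exp (δ * Rr D K l L o S u) ≤
      F + δ * Rr D K l L o S u * ∏ s ∈ B, if u s = 0 then 1 else μ := by
    have b1 := mul_le_mul_of_nonneg_left h2 hF0.le
    have b2 := mul_le_mul_of_nonneg_left h3 hx0
    linarith
  refine h4.trans ?_
  rw [UB]
  apply add_le_add_right
  rw [mul_assoc]
  apply mul_le_mul_of_nonneg_left _ hδ
  rw [Rr, Finset.sum_mul]
  apply Finset.sum_le_sum
  intro i hi
  have hwB : 0 ≤ wt l L o i * Bb D K S i := mul_nonneg (wt_nonneg _) (Bb_nonneg _ _ _ _)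
  have h5 : ind (2 ≤ ((Nn D.r K i).filter (fun z => u z ≠ 0)).card) *
      (∏ s ∈ B, if u s = 0 then 1 else μ) ≤
      ∑ q ∈ (Nn D.r K i).offDiag, ∏ s ∈ B, hh μ q.1 q.2 s (u s) := by
    have hpn : ∀ q ∈ (Nn D.r K i).offDiag, 0 ≤ ∏ s ∈ B, hh μ q.1 q.2 s (u s) :=
      fun q _ => Finset.prod_nonneg (fun s _ => hh_nonneg hμ0 _ _ _ _)
    by_cases h6 : 2 ≤ ((Nn D.r K i).filter (fun z => u z ≠ 0)).card
    · rw [ind_pos h6, one_mul]
      obtain ⟨a, ha, c, hc, hac⟩ := Finset.one_lt_card.1 (Nat.lt_of_lt_of_le (by norm_num) h6)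
      rw [Finset.mem_filter] at ha hc
      have hq : (a, c) ∈ (Nn D.r K i).offDiag := Finset.mem_offDiag.2 ⟨ha.1, hc.1, hac⟩
      have h7 := Finset.single_le_sum hpn hq
      refine le_trans (le_of_eq ?_) h7
      apply Finset.prod_congr rfl
      intro s _
      rw [hh, if_neg (show ¬ ((s = (a, c).1 ∨ s = (a, c).2) ∧ u s = 0) from ?_), mul_one]
      rintro ⟨h | h, h'⟩
      · rw [h] at h'
        exact ha.2 h'
      · rw [h] at h'
        exact hc.2 h'
    · rw [ind_neg h6, zero_mul]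
      exact Finset.sum_nonneg hpn
  have h6 := mul_le_mul_of_nonneg_left h5 hwB
  refine le_trans (le_of_eq ?_) h6
  ring

end

theorem Phi_UB_dep (D : Nb) (δ μ : ℝ) (K k l L : ℕ) (o : ℤ) (S : Set ℤ)
    (u v : ℤ → Fin 3) (h : ∀ z ∈ BB D.r K l L o, u z = v z) :
    UB D δ μ K k l L o S u = UB D δ μ K k l L o S v := by
  rw [UB, UB]
  congr 1
  · apply Finset.prod_congr rfl
    intro g hg
    rw [h g hg]
  · congr 1
    apply Finset.sum_congr rfl
    intro i _
    congr 1
    apply Finset.sum_congr rfl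
    intro q _
    apply Finset.prod_congr rfl
    intro i hi
    rw [h i hi]

theorem card_BB (r K l L : ℕ) (o : ℤ) : (BB r K l L o).card = L + 2 * l + K + 2 * r + 1 := by
  rw [BB, Int.card_Icc]
  have : o + 2 * (l : ℤ) + L + K + r + 1 - (o - r) = ((L + 2 * l + K + 2 * r + 1 : ℕ) : ℤ) := by
    push_cast
    ring
  rw [this, Int.toNat_natCast]

end Pool.Agent.Lib.MP_8850da_pr
end

section

/-!
# The drift inequality
-/

set_option autoImplicit false

open MeasureTheory

namespace Pool.Agent.Lib.MP_8850da_pr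

theorem exp_lower {x g : ℝ} (hx : 0 ≤ x) (hxg : x ≤ g) (hg : g ≤ 1) :
    x * (1 - g) ≤ 1 - Real.exp (-x) := by
  have h1 := Real.abs_exp_sub_one_sub_id_le (x := -x) (by
    rw [abs_neg, abs_of_nonneg hx]
    linarith)
  have h2 := (abs_le.1 h1).2
  nlinarith

theorem exp_upper {x g : ℝ} (hx : 0 ≤ x) (hxg : x ≤ g) (hg : g ≤ 1) :
    Real.exp x - 1 ≤ x * (1 + g) := by
  have h1 := Real.abs_exp_sub_one_sub_id_le (x := x) (by
    rw [abs_of_nonneg hx]
    linarith)
  have h2 := (abs_le.1 h1).2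
  nlinarith

/-- The number of noise sites. -/
def nb (r K l L : ℕ) : ℕ := L + 2 * l + K + 2 * r + 1

theorem XX_dep (D : Nb) (δ : ℝ) (K l L : ℕ) (o : ℤ) (S : Set ℤ) (u v : ℤ → Fin 3)
    (h : ∀ z ∈ BB D.r K l L o, u z = v z) :
    XX δ K l L o (upM D K u S) = XX δ K l L o (upM D K v S) := by
  rw [XX, XX, Phi_dep D K l L o S u v h]

theorem integrable_XX (D : Nb) {δ : ℝ} (hδ : 0 ≤ δ) (K l L : ℕ) (o : ℤ) (S : Set ℤ)
    (ρ : Measure (Fin 3)) [IsProbabilityMeasure ρ] :
    Integrable (fun u => XX δ K l L o (upM D K u S)) (nz ρ) := by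
  apply integrable_of_dep (BB D.r K l L o) _ _ 1
  · intro u
    rw [abs_of_pos (XX_pos _ _ _ _ _ _)]
    exact XX_le_one hδ _ _ _ _ _
  · intro u v h
    exact XX_dep D δ K l L o S u v h

section

variable {p q : ℝ} (hp : 0 ≤ p) (hq : 0 ≤ q) (hpq : p + q ≤ 1)
include hp hq hpq

theorem integral_phs {δ G x y : ℝ} (hδ : 0 ≤ δ) (hx : 0 ≤ x) (hxG : x ≤ G) (hy : 0 ≤ y)
    (hyG : y ≤ G) (hδG : δ * G ≤ 1) :
    ∫ e, phs δ x y e ∂(rho p q) ≤
      Real.exp (-(p * (δ * (1 - δ * G) * x)) + q * (δ * (1 + δ * G) * y)) := by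
  rw [integral_rho hp hq hpq]
  have e0 : phs δ x y 0 = 1 := by rw [phs, if_neg (by decide), if_neg (by decide)]
  have e1 : phs δ x y 1 = Real.exp (-(δ * x)) := by rw [phs, if_pos rfl]
  have e2 : phs δ x y 2 = Real.exp (δ * y) := by rw [phs, if_neg (by decide), if_pos rfl]
  rw [e0, e1, e2]
  have h1 := exp_lower (mul_nonneg hδ hx) (mul_le_mul_of_nonneg_left hxG hδ) hδG
  have h2 := exp_upper (mul_nonneg hδ hy) (mul_le_mul_of_nonneg_left hyG hδ) hδG
  have h3 := mul_le_mul_of_nonneg_left h1 hp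
  have h4 := mul_le_mul_of_nonneg_left h2 hq
  have h5 := Real.add_one_le_exp (-(p * (δ * (1 - δ * G) * x)) + q * (δ * (1 + δ * G) * y))
  linarith

theorem integral_hh {μ : ℝ} (hμ1 : 1 ≤ μ) (hμ2 : μ ≤ 2) (hqp : q ≤ p) (B : Finset ℤ)
    (hpB : p * B.card ≤ 1) (a b : ℤ) (ha : a ∈ B) (hb : b ∈ B) (hab : a ≠ b) :
    ∫ u, ∏ i ∈ B, hh μ a b i (u i) ∂(nz (rho p q)) ≤ 128 * p ^ 2 := by
  classical
  have := rho_prob hp hq hpq
  rw [integral_prod_nz]
  have h1 : ∀ i ∈ B, ∫ e, hh μ a b i e ∂(rho p q) ≤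
      (if i = a then 4 * p else 1) * (if i = b then 4 * p else 1) * (1 + 2 * p) := by
    intro i _
    rw [integral_rho hp hq hpq]
    have e1 : hh μ a b i 0 = if i = a ∨ i = b then 0 else 1 := by
      rw [hh, if_pos rfl, one_mul]
      simp
    have e2 : hh μ a b i 1 = μ := by
      rw [hh, if_neg (by decide), if_neg (fun h => absurd h.2 (by decide)), mul_one]
    have e3 : hh μ a b i 2 = μ := by
      rw [hh, if_neg (by decide), if_neg (fun h => absurd h.2 (by decide)), mul_one]
    rw [e1, e2, e3]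
    have f1 : q * μ ≤ p * 2 := mul_le_mul hqp hμ2 (by linarith) hp
    have f2 : p * μ ≤ p * 2 := mul_le_mul_of_nonneg_left hμ2 hp
    have f3 : (p + q) * (μ - 1) ≤ (p + q) * 1 := mul_le_mul_of_nonneg_left (by linarith) (by linarith)
    by_cases h2 : i = a
    · have h3 : i ≠ b := fun h => hab (h2.symm.trans h)
      rw [if_pos (Or.inl h2), if_pos h2, if_neg h3]
      nlinarith [mul_nonneg hp hp]
    · by_cases h3 : i = b
      · rw [if_pos (Or.inr h3), if_neg h2, if_pos h3]
        nlinarith [mul_nonneg hp hp]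
      · rw [if_neg (by rintro (h | h); exacts [h2 h, h3 h]), if_neg h2, if_neg h3]
        linarith
  have h0 : ∀ i ∈ B, 0 ≤ ∫ e, hh μ a b i e ∂(rho p q) :=
    fun i _ => integral_nonneg (fun e => hh_nonneg (by linarith) _ _ _ _)
  refine (Finset.prod_le_prod h0 h1).trans ?_
  rw [Finset.prod_mul_distrib, Finset.prod_mul_distrib, Finset.prod_ite_eq', Finset.prod_ite_eq',
    if_pos ha, if_pos hb, Finset.prod_const]
  have h2 : (1 + 2 * p) ^ B.card ≤ 8 := by
    have h3 : 1 + 2 * p ≤ Real.exp (2 * p) := by linarith [Real.add_one_le_exp (2 * p)]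
    have h4 : (1 + 2 * p) ^ B.card ≤ Real.exp (2 * p) ^ B.card :=
      pow_le_pow_left₀ (by linarith) h3 _
    rw [← Real.exp_nat_mul] at h4
    have h5 : Real.exp ((B.card : ℝ) * (2 * p)) ≤ Real.exp (1 + 1) := by
      rw [Real.exp_le_exp]
      linarith
    rw [Real.exp_add] at h5
    have h6 := Real.exp_one_lt_d9
    have h7 := Real.exp_pos 1
    nlinarith
  have h3 : 4 * p * (4 * p) * (1 + 2 * p) ^ B.card ≤ 4 * p * (4 * p) * 8 :=
    mul_le_mul_of_nonneg_left h2 (by positivity)
  linarith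

end

/-- The sum of the weights of the second order terms. -/
noncomputable def Ps2 (D : Nb) (K l L : ℕ) (o : ℤ) (S : Set ℤ) : ℝ :=
  ∑ i ∈ Wn l L o, wt l L o i * Bb D K S i

section

variable {D : Nb} {K k : ℕ} (hK : 2 * D.r ≤ K) (hGap : Gap D k) (hkK : k ≤ K)
  (l L : ℕ) (o : ℤ) (S : Set ℤ)
  {p q δ G : ℝ} (hp : 0 ≤ p) (hq : 0 ≤ q) (hqp : q ≤ p) (hB : p * (nb D.r K l L : ℕ) ≤ 1)
  (hδ : 0 ≤ δ) (hG : 2 * (2 * (D.m : ℝ) + 1) ≤ G)
  (hGk : 2 * (2 * (D.m : ℝ) + 1) * (k : ℝ) ^ 2 ≤ G) (hδG : δ * G ≤ 1)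
  (hμ : Real.exp (δ * (G + (2 * D.m + 3) * (K + 2 * D.r + 1))) ≤ 2)

include hp hqp hB in
theorem pq_le : p + q ≤ 1 := by
  have hr := D.one_le_r
  have h1 : (2 : ℝ) ≤ (nb D.r K l L : ℕ) := by
    have h2 : 2 ≤ nb D.r K l L := by
      have : 1 ≤ D.r := by exact_mod_cast hr
      rw [nb]
      omega
    exact_mod_cast h2
  have h2 := mul_le_mul_of_nonneg_left h1 hp
  linarith

include hK hGap hkK hp hq hqp hB hδ hG hGk hδG hμ

theorem drift_main :
    ∫ u, XX δ K l L o (upM D K u S) ∂(nz (rho p q)) ≤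
      XX δ K l L o S * (Real.exp (-(p * (δ * (1 - δ * G) * ((D.m + 1) * OO l L o (TT K S)))) +
        q * (δ * (1 + δ * G) * ∑ z ∈ BB D.r K l L o, Lak D K k l L o S z)) +
        δ * (Ps2 D K l L o S * ((K + 2 * D.r + 1) ^ 2 * (128 * p ^ 2)))) := by
  classical
  have hpq : p + q ≤ 1 := pq_le l L hp hqp hB
  have := rho_prob hp hq hpq
  set μ : ℝ := Real.exp (δ * (G + (2 * D.m + 3) * (K + 2 * D.r + 1))) with hμd
  set B := BB D.r K l L o with hBd
  have hBc : B.card = nb D.r K l L := card_BB _ _ _ _ _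
  have hG0 : 0 ≤ G := le_trans (by positivity) hG
  have hμ1 : 1 ≤ μ := by
    rw [hμd]
    apply Real.one_le_exp
    positivity
  have hμ0 : 0 ≤ μ := zero_le_one.trans hμ1
  have hX := XX_pos δ K l L o S
  have hLG : ∀ z, Lak D K k l L o S z ≤ G := fun z => (Lak_le D K k l L o S z).trans hGk
  have hGG : ∀ g, Gam D K l L o S g ≤ G := fun g => (Gam_le D K l L o S g).trans hG
  have hphs : ∀ (s : ℤ) (e : Fin 3), phs δ (Gam D K l L o S s) (Lak D K k l L o S s) e ≤
      Real.exp (δ * Lak D K k l L o S s) := by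
    intro s e
    rw [phs_eq, Real.exp_le_exp]
    have h1 := mul_nonneg hδ (mul_nonneg (ind_nonneg (e = 1)) (Gam_nonneg D K l L o S s))
    have h2 := mul_le_mul_of_nonneg_left
      (mul_le_of_le_one_left (Lak_nonneg D K k l L o S s) (ind_le_one (e = 2))) hδ
    linarith
  -- the main term
  have i1 : Integrable (fun u : ℤ → Fin 3 =>
      ∏ s ∈ B, phs δ (Gam D K l L o S s) (Lak D K k l L o S s) (u s)) (nz (rho p q)) := by
    apply integrable_of_dep B _ _ (∏ s ∈ B, Real.exp (δ * Lak D K k l L o S s))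
    · intro u
      rw [Finset.abs_prod]
      apply Finset.prod_le_prod (fun i _ => abs_nonneg _)
      intro i _
      rw [abs_of_pos (phs_pos _ _ _ _)]
      exact hphs i (u i)
    · intro u v h
      apply Finset.prod_congr rfl
      intro i hi
      rw [h i hi]
  have i3' : ∀ a b : ℤ, Integrable (fun u : ℤ → Fin 3 => ∏ i ∈ B, hh μ a b i (u i))
      (nz (rho p q)) := by
    intro a b
    apply integrable_of_dep B _ _ (∏ i ∈ B, μ)
    · intro u
      rw [Finset.abs_prod]
      apply Finset.prod_le_prod (fun i _ => abs_nonneg _)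
      intro i _
      rw [hh]
      split_ifs <;> simp [abs_of_nonneg hμ0, hμ1, hμ0]
    · intro u v h
      apply Finset.prod_congr rfl
      intro i hi
      rw [h i hi]
  have i4 : ∀ i : ℤ, Integrable (fun u : ℤ → Fin 3 => ∑ q ∈ (Nn D.r K i).offDiag,
      ∏ s ∈ B, hh μ q.1 q.2 s (u s)) (nz (rho p q)) :=
    fun i => integrable_finsetSum _ (fun q _ => i3' q.1 q.2)
  have i5 : Integrable (fun u : ℤ → Fin 3 => ∑ i ∈ Wn l L o, wt l L o i * Bb D K S i *
      ∑ q ∈ (Nn D.r K i).offDiag, ∏ s ∈ B, hh μ q.1 q.2 s (u s)) (nz (rho p q)) :=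
    integrable_finsetSum _ (fun i _ => (i4 i).const_mul _)
  have iU : Integrable (fun u => XX δ K l L o S * UB D δ μ K k l L o S u) (nz (rho p q)) :=
    (i1.add (i5.const_mul δ)).const_mul _
  have h1 : ∫ u, XX δ K l L o (upM D K u S) ∂(nz (rho p q)) ≤
      ∫ u, XX δ K l L o S * UB D δ μ K k l L o S u ∂(nz (rho p q)) :=
    integral_mono (integrable_XX D hδ K l L o S _) iU
      (fun u => XX_le_UB hK hGap hkK l L o S u hδ hLG hμd)
  refine h1.trans ?_
  rw [integral_const_mul]
  apply mul_le_mul_of_nonneg_left _ hX.le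
  have h2 : ∫ u, UB D δ μ K k l L o S u ∂(nz (rho p q)) =
      ∫ u : ℤ → Fin 3, ∏ s ∈ B, phs δ (Gam D K l L o S s) (Lak D K k l L o S s) (u s)
        ∂(nz (rho p q)) +
      δ * ∑ i ∈ Wn l L o, wt l L o i * Bb D K S i *
        ∑ q' ∈ (Nn D.r K i).offDiag, ∫ u : ℤ → Fin 3, ∏ s ∈ B, hh μ q'.1 q'.2 s (u s)
          ∂(nz (rho p q)) := by
    refine (integral_add i1 (i5.const_mul δ)).trans ?_
    rw [integral_const_mul, integral_finsetSum _ (fun i _ => (i4 i).const_mul _)]
    congr 2
    apply Finset.sum_congr rfl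
    intro i _
    rw [integral_const_mul, integral_finsetSum _ (fun q _ => i3' q.1 q.2)]
  rw [h2]
  apply add_le_add
  · rw [integral_prod_nz]
    have f1 : ∀ s ∈ B, ∫ e, phs δ (Gam D K l L o S s) (Lak D K k l L o S s) e ∂(rho p q) ≤
        Real.exp (-(p * (δ * (1 - δ * G) * Gam D K l L o S s)) +
          q * (δ * (1 + δ * G) * Lak D K k l L o S s)) :=
      fun s _ => integral_phs hp hq hpq hδ (Gam_nonneg _ _ _ _ _ _ _) (hGG s)
        (Lak_nonneg _ _ _ _ _ _ _ _) (hLG s) hδG
    have f0 : ∀ s ∈ B, 0 ≤ ∫ e, phs δ (Gam D K l L o S s) (Lak D K k l L o S s) e ∂(rho p q) :=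
      fun s _ => integral_nonneg (fun e => (phs_pos _ _ _ _).le)
    refine (Finset.prod_le_prod f0 f1).trans (le_of_eq ?_)
    rw [← Real.exp_sum, Finset.sum_add_distrib, Finset.sum_neg_distrib, ← Finset.mul_sum,
      ← Finset.mul_sum, ← Finset.mul_sum, ← Finset.mul_sum, sum_Gam]
  · apply mul_le_mul_of_nonneg_left _ hδ
    rw [Ps2, Finset.sum_mul]
    apply Finset.sum_le_sum
    intro i hi
    apply mul_le_mul_of_nonneg_left _ (mul_nonneg (wt_nonneg _) (Bb_nonneg _ _ _ _))
    have f1 : ∀ q' ∈ (Nn D.r K i).offDiag, ∫ u : ℤ → Fin 3, ∏ s ∈ B, hh μ q'.1 q'.2 s (u s)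
        ∂(nz (rho p q)) ≤ 128 * p ^ 2 := by
      intro q' hq'
      rw [Finset.mem_offDiag] at hq'
      exact integral_hh hp hq hpq hμ1 hμ hqp B (by rw [hBc]; exact hB) q'.1 q'.2
        (Nn_sub hi hq'.1) (Nn_sub hi hq'.2.1) hq'.2.2
    refine (Finset.sum_le_sum f1).trans ?_
    rw [Finset.sum_const, nsmul_eq_mul, Finset.offDiag_card, card_Nn]
    apply mul_le_mul_of_nonneg_right _ (by positivity)
    have f2 : (((K + 2 * D.r + 1) * (K + 2 * D.r + 1) - (K + 2 * D.r + 1) : ℕ) : ℝ) ≤
        (((K + 2 * D.r + 1) * (K + 2 * D.r + 1) : ℕ) : ℝ) := by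
      exact_mod_cast Nat.sub_le _ _
    refine f2.trans (le_of_eq ?_)
    push_cast
    ring

end

end Pool.Agent.Lib.MP_8850da_pr
end

section

/-!
# The weights of the inner ends bound everything
-/

set_option autoImplicit false

namespace Pool.Agent.Lib.MP_8850da_pr

variable {l L : ℕ} {o : ℤ}

/-- The weight increases up to the right shoulder. -/
theorem wt_mono_left (hl : 1 ≤ l) {i j : ℤ} (hij : i ≤ j) (hj : j ≤ o + l + L) :
    wt l L o i ≤ wt l L o j := by
  have hl0 : (0 : ℝ) < l := by exact_mod_cast hl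
  have e1 : 1 ≤ ((o + 2 * l + L - j : ℤ) : ℝ) / l := by
    rw [one_le_div hl0]
    have : (l : ℤ) ≤ o + 2 * l + L - j := by linarith
    exact_mod_cast this
  have e2 : ((i - o : ℤ) : ℝ) / l ≤ ((j - o : ℤ) : ℝ) / l := by
    apply div_le_div_of_nonneg_right _ hl0.le
    have : i - o ≤ j - o := by linarith
    exact_mod_cast this
  rw [wt, wt]
  apply max_le_max le_rfl
  apply le_min (min_le_left _ _)
  apply le_min
  · exact (min_le_right _ _).trans ((min_le_left _ _).trans e2)
  · exact (min_le_left _ _).trans e1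

/-- The weight decreases from the left shoulder on. -/
theorem wt_mono_right (hl : 1 ≤ l) {i j : ℤ} (hij : j ≤ i) (hj : o + l ≤ j) :
    wt l L o i ≤ wt l L o j := by
  have hl0 : (0 : ℝ) < l := by exact_mod_cast hl
  have e1 : 1 ≤ ((j - o : ℤ) : ℝ) / l := by
    rw [one_le_div hl0]
    have : (l : ℤ) ≤ j - o := by linarith
    exact_mod_cast this
  have e2 : ((o + 2 * l + L - i : ℤ) : ℝ) / l ≤ ((o + 2 * l + L - j : ℤ) : ℝ) / l := by
    apply div_le_div_of_nonneg_right _ hl0.le
    have : o + 2 * l + L - i ≤ o + 2 * l + L - j := by linarith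
    exact_mod_cast this
  rw [wt, wt]
  apply max_le_max le_rfl
  apply le_min (min_le_left _ _)
  apply le_min
  · exact (min_le_left _ _).trans e1
  · exact (min_le_right _ _).trans ((min_le_right _ _).trans e2)

theorem wt_step (hl : 1 ≤ l) {i j : ℤ} (hij : |i - j| ≤ 1) :
    wt l L o i ≤ wt l L o j + 1 / l := by
  have hl0 : (0 : ℝ) < l := by exact_mod_cast hl
  have hs : 0 ≤ 1 / (l : ℝ) := by positivity
  obtain ⟨h1, h2⟩ := abs_le.1 hij
  have e1 : ((i - o : ℤ) : ℝ) / l ≤ ((j - o : ℤ) : ℝ) / l + 1 / l := by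
    rw [← add_div]
    apply div_le_div_of_nonneg_right _ hl0.le
    have : i - o ≤ j - o + 1 := by linarith
    exact_mod_cast this
  have e2 : ((o + 2 * l + L - i : ℤ) : ℝ) / l ≤ ((o + 2 * l + L - j : ℤ) : ℝ) / l + 1 / l := by
    rw [← add_div]
    apply div_le_div_of_nonneg_right _ hl0.le
    have : o + 2 * l + L - i ≤ o + 2 * l + L - j + 1 := by linarith
    exact_mod_cast this
  rw [wt, wt, ← max_add_add_right, ← min_add_add_right, ← min_add_add_right]
  apply max_le_max
  · linarith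
  · apply min_le_min
    · linarith
    · exact min_le_min e1 e2

section D1

variable (T : Set ℤ) (hl : 1 ≤ l) (hL : 1 ≤ L)
  (hflat : ∃ i, o + l ≤ i ∧ i ≤ o + l + L ∧ i ∉ T)
include hl hflat

/-- The weight of an element is bounded by the weights of the inner ends. -/
theorem wt_le_II {i : ℤ} (hi : i ∈ T) (h1 : o ≤ i) (h2 : i ≤ o + 2 * l + L) :
    wt l L o i ≤ II l L o T := by
  obtain ⟨x, hx1, hx2, hxT⟩ := hflat
  have hl0 : (1 : ℤ) ≤ l := by exact_mod_cast hl
  have hIL0 := IL_nonneg (l := l) (L := L) (o := o) T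
  have hIR0 := IR_nonneg (l := l) (L := L) (o := o) T
  rw [II_split]
  rcases le_total i x with h3 | h3
  · have h4 : wt l L o i ≤ IR l L o T := by
      by_contra hcon
      have hall : ∀ j, i ≤ j → j ≤ x → j ∈ T := by
        intro j hj
        induction j, hj using Int.leInduction with
        | base => intro _; exact hi
        | succ j hj ih =>
          intro hj2
          have h5 := ih (by linarith)
          by_contra h6
          apply hcon
          have h7 := IR_ge (l := l) (L := L) (o := o) T h5 h6 (by linarith) (by linarith)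
          exact (wt_mono_left hl hj (by linarith)).trans h7
      exact hxT (hall x h3 le_rfl)
    linarith
  · have h4 : wt l L o i ≤ IL l L o T := by
      by_contra hcon
      have hall : ∀ j, j ≤ i → x ≤ j → j ∈ T := by
        intro j hj
        induction j, hj using Int.leInductionDown with
        | base => intro _; exact hi
        | pred j hj ih =>
          intro hj2
          have h5 := ih (by linarith)
          by_contra h6
          apply hcon
          have h7 := IL_ge (l := l) (L := L) (o := o) T h5 h6 (by linarith) (by linarith)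
          exact (wt_mono_right hl hj (by linarith)).trans h7
      exact hxT (hall x h3 le_rfl)
    linarith

theorem shoulder_le : ind (o + l ∈ T) + ind (o + l + L ∈ T) ≤ II l L o T := by
  obtain ⟨x, hx1, hx2, hxT⟩ := hflat
  have hl0 : (1 : ℤ) ≤ l := by exact_mod_cast hl
  have hB : ind (o + l ∈ T) ≤ IR l L o T := by
    by_cases hT : o + l ∈ T
    · rw [ind_pos hT]
      by_contra hcon
      have hall : ∀ j, o + l ≤ j → j ≤ o + l + L → j ∈ T := by
        intro j hj
        induction j, hj using Int.leInduction with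
        | base => intro _; exact hT
        | succ j hj ih =>
          intro hj2
          have h3 := ih (by linarith)
          by_contra h4
          apply hcon
          have h5 := IR_ge (l := l) (L := L) (o := o) T h3 h4 (by linarith) (by linarith)
          rw [wt_flat hl hj (by linarith)] at h5
          exact h5
      exact hxT (hall x hx1 hx2)
    · rw [ind_neg hT]
      exact IR_nonneg T
  have hC : ind (o + l + L ∈ T) ≤ IL l L o T := by
    by_cases hT : o + l + L ∈ T
    · rw [ind_pos hT]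
      by_contra hcon
      have hall : ∀ j, j ≤ o + l + L → o + l ≤ j → j ∈ T := by
        intro j hj
        induction j, hj using Int.leInductionDown with
        | base => intro _; exact hT
        | pred j hj ih =>
          intro hj2
          have h3 := ih (by linarith)
          by_contra h4
          apply hcon
          have h5 := IL_ge (l := l) (L := L) (o := o) T h3 h4 (by linarith) (by linarith)
          rw [wt_flat hl (by linarith) hj] at h5
          exact h5
      exact hxT (hall x hx2 hx1)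
    · rw [ind_neg hT]
      exact IL_nonneg T
  rw [II_split]
  linarith

theorem inv_le_II {i₀ : ℤ} (hi₀ : i₀ ∈ T) (h1 : o < i₀) (h2 : i₀ < o + 2 * l + L) :
    1 / (l : ℝ) ≤ II l L o T :=
  (wt_inside (l := l) (L := L) (o := o) hl h1 h2).trans
    (wt_le_II T hl hflat hi₀ h1.le h2.le)

include hL in
/-- The lower bound of the drift coefficient. -/
theorem J_ge_II {κ : ℝ} {k : ℕ}
    (hs : (2 * (k : ℝ) + 2) * (1 / (l : ℝ)) ≤ 1 - κ) :
    (1 - κ) / 2 * II l L o T ≤ OO l L o T - κ * (II l L o T +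
      k * (1 / (l : ℝ) * (ind (o + l ∈ T) + ind (o + l + L ∈ T)))) := by
  have hl0 : (0 : ℝ) < l := by exact_mod_cast hl
  have hs0 : 0 < 1 / (l : ℝ) := by positivity
  have hk0 : (0 : ℝ) ≤ k := by positivity
  have hκ : κ ≤ 1 := by
    have : 0 ≤ (2 * (k : ℝ) + 2) * (1 / (l : ℝ)) := by positivity
    linarith
  have hd := OO_sub_II (l := l) (L := L) (o := o) T hl hL
  have hsh := shoulder_le T hl hflat
  set ab : ℝ := ind (o + l ∈ T) + ind (o + l + L ∈ T) with hab
  have hab0 : 0 ≤ ab := add_nonneg (ind_nonneg _) (ind_nonneg _)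
  have h1 : κ * (k * (1 / (l : ℝ) * ab)) ≤ k * (1 / (l : ℝ) * ab) :=
    mul_le_of_le_one_left (by positivity) hκ
  have h2 : ((k : ℝ) + 1) * (1 / (l : ℝ)) * ab ≤ (1 - κ) / 2 * ab :=
    mul_le_mul_of_nonneg_right (by linarith) hab0
  have h3 : (1 - κ) / 2 * ab ≤ (1 - κ) / 2 * II l L o T :=
    mul_le_mul_of_nonneg_left hsh (by linarith)
  have e : OO l L o T - κ * (II l L o T + k * (1 / (l : ℝ) * ab)) =
      (1 - κ) * II l L o T + (OO l L o T - II l L o T) - κ * (k * (1 / (l : ℝ) * ab)) := by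
    ring
  rw [e]
  have h4 : (k : ℝ) * (1 / (l : ℝ) * ab) + 1 / (l : ℝ) * ab = (k + 1) * (1 / (l : ℝ)) * ab := by
    ring
  linarith

end D1

/-- The number of sites of the window. -/
theorem card_Wn (l L : ℕ) (o : ℤ) : (Wn l L o).card = 2 * l + L + 1 := by
  rw [Wn, Int.card_Icc]
  have : o + 2 * (l : ℤ) + L + 1 - o = ((2 * l + L + 1 : ℕ) : ℤ) := by
    push_cast
    ring
  rw [this, Int.toNat_natCast]

theorem Ps2_nonneg (D : Nb) (K l L : ℕ) (o : ℤ) (S : Set ℤ) : 0 ≤ Ps2 D K l L o S :=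
  Finset.sum_nonneg (fun _ _ => mul_nonneg (wt_nonneg _) (Bb_nonneg _ _ _ _))

theorem Ps2_le (D : Nb) (K l L : ℕ) (o : ℤ) (S : Set ℤ) :
    Ps2 D K l L o S ≤ (2 * l + L + 1) * (2 * D.m + 3) := by
  have h1 : ∀ i ∈ Wn l L o, wt l L o i * Bb D K S i ≤ 2 * (D.m : ℝ) + 3 := by
    intro i _
    exact (mul_le_of_le_one_left (Bb_nonneg _ _ _ _) (wt_le_one i)).trans (Bb_le _ _ _ _)
  refine (Finset.sum_le_sum h1).trans (le_of_eq ?_)
  rw [Finset.sum_const, card_Wn, nsmul_eq_mul]
  push_cast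
  ring

theorem Ps2_le_II (D : Nb) {K l L : ℕ} {o : ℤ} {S : Set ℤ} (hl : 1 ≤ l)
    (hflat : ∃ i, o + l ≤ i ∧ i ≤ o + l + L ∧ i ∉ TT K S)
    (hne : 1 / (l : ℝ) ≤ II l L o (TT K S)) :
    Ps2 D K l L o S ≤ (2 * l + L + 1) * ((4 * D.m + 5) * II l L o (TT K S)) := by
  have hI0 := II_nonneg (l := l) (L := L) (o := o) (TT K S)
  have h1 : ∀ i ∈ Wn l L o, wt l L o i * Bb D K S i ≤
      (4 * (D.m : ℝ) + 5) * II l L o (TT K S) := by
    intro i hi
    rw [Wn, Finset.mem_Icc] at hi
    have hw0 := wt_nonneg (l := l) (L := L) (o := o) i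
    have a1 : wt l L o i * ind (i ∈ TT K S) ≤ II l L o (TT K S) := by
      by_cases h : i ∈ TT K S
      · rw [ind_pos h, mul_one]
        exact wt_le_II _ hl hflat h hi.1 hi.2
      · rw [ind_neg h, mul_zero]
        exact hI0
    have a2 : wt l L o i * ind (i + 1 ∈ TT K S) ≤ 2 * II l L o (TT K S) := by
      by_cases h : i + 1 ∈ TT K S
      · rw [ind_pos h, mul_one]
        rcases le_or_gt (i + 1) (o + 2 * l + L) with h3 | h3
        · have h4 := wt_le_II _ hl hflat h (by linarith) h3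
          have h5 := wt_step (l := l) (L := L) (o := o) hl (i := i) (j := i + 1) (by
            rw [show i - (i + 1) = -1 by ring]
            norm_num)
          linarith
        · rw [wt_right_zero (by linarith [Int.add_one_le_iff.2 h3])]
          linarith
      · rw [ind_neg h, mul_zero]
        linarith
    have a3 : wt l L o i * ind (i - 1 ∈ TT K S) ≤ 2 * II l L o (TT K S) := by
      by_cases h : i - 1 ∈ TT K S
      · rw [ind_pos h, mul_one]
        rcases le_or_gt o (i - 1) with h3 | h3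
        · have h4 := wt_le_II _ hl hflat h h3 (by linarith)
          have h5 := wt_step (l := l) (L := L) (o := o) hl (i := i) (j := i - 1) (by
            rw [show i - (i - 1) = 1 by ring]
            norm_num)
          linarith
        · rw [wt_left_zero (by linarith [Int.add_one_le_iff.2 h3])]
          linarith
      · rw [ind_neg h, mul_zero]
        linarith
    rw [Bb]
    have a4 := mul_le_mul_of_nonneg_left (add_le_add a2 a3) (show 0 ≤ (D.m : ℝ) + 1 by positivity)
    linarith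
  refine (Finset.sum_le_sum h1).trans (le_of_eq ?_)
  rw [Finset.sum_const, card_Wn, nsmul_eq_mul]
  push_cast
  ring

theorem II_le (l L : ℕ) (o : ℤ) (T : Set ℤ) : II l L o T ≤ 2 * (2 * l + L + 1) := by
  have h1 : ∀ i ∈ Finset.Icc o (o + 2 * l + L),
      wt l L o i * (ind (i ∈ T ∧ i - 1 ∉ T) + ind (i ∈ T ∧ i + 1 ∉ T)) ≤ 2 := by
    intro i _
    have n1 := ind_nonneg (i ∈ T ∧ i - 1 ∉ T)
    have n2 := ind_nonneg (i ∈ T ∧ i + 1 ∉ T)
    have m1 := ind_le_one (i ∈ T ∧ i - 1 ∉ T)
    have m2 := ind_le_one (i ∈ T ∧ i + 1 ∉ T)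
    refine (mul_le_of_le_one_left (by linarith) (wt_le_one i)).trans (by linarith)
  refine (Finset.sum_le_sum h1).trans (le_of_eq ?_)
  have := card_Wn l L o
  rw [Wn] at this
  rw [Finset.sum_const, this, nsmul_eq_mul]
  push_cast
  ring

end Pool.Agent.Lib.MP_8850da_pr
end
end
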